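import Pool.Agent.H5.HT.CertH

/-! # Certificate data (7 jets, exponent 129/125) -/

set_option autoImplicit false

namespace Pool.Agent.H5.HT.D7

open Pool.Agent.H58.BJ
open Pool.Agent.H5.HT

/-- the jets -/
noncomputable def ES : List Pol := [[(nat_lit 2, .ofNat (nat_lit 2))], [(nat_lit 3, .ofNat (nat_lit 4))], [(nat_lit 5, .ofNat
 (nat_lit 8))], [(nat_lit 7, .ofNat (nat_lit 16))], [(nat_lit 11, .ofNat (nat_lit 32))], [(nat_lit
 13, .ofNat (nat_lit 64))], [(nat_lit 17, .ofNat (nat_lit 128))]]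

/-- the coefficients `L^k g_k` -/
noncomputable def GS : List Pol := [[(nat_lit 1, .ofNat (nat_lit 1))], [(nat_lit 2, .negSucc (nat_lit 419))], [(nat_lit 3, .negSucc
 (nat_lit 235199)), (nat_lit 4, .ofNat (nat_lit 29400))], [(nat_lit 5, .negSucc (nat_lit
 197567999)), (nat_lit 8, .ofNat (nat_lit 12348000))], [(nat_lit 7, .negSucc (nat_lit
 199148543999)), (nat_lit 9, .negSucc (nat_lit 16595711999)), (nat_lit 10, .negSucc (nat_lit
 16595711999)), (nat_lit 12, .ofNat (nat_lit 29042496000)), (nat_lit 16, .negSucc (nat_lit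
 777923999))], [(nat_lit 11, .negSucc (nat_lit 223046369279999)), (nat_lit 14, .negSucc (nat_lit
 27880796159999)), (nat_lit 15, .negSucc (nat_lit 46467993599999)), (nat_lit 18, .ofNat (nat_lit
 20910597120000)), (nat_lit 20, .ofNat (nat_lit 26719096320000)), (nat_lit 24, .ofNat (nat_lit
 1161699840000)), (nat_lit 32, .negSucc (nat_lit 689759279999))], [(nat_lit 13, .negSucc (nat_lit
 267655643135999999)), (nat_lit 21, .negSucc (nat_lit 60222519705599999)), (nat_lit 22, .negSucc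
 (nat_lit 40148346470399999)), (nat_lit 25, .negSucc (nat_lit 30668875775999999)), (nat_lit 27,
 .ofNat (nat_lit 4275055411200000)), (nat_lit 28, .ofNat (nat_lit 27601988198400000)), (nat_lit 30,
 .ofNat (nat_lit 36802650931200000)), (nat_lit 36, .ofNat (nat_lit 5506457241600000)), (nat_lit 40,
 .ofNat (nat_lit 2997185587200000)), (nat_lit 48, .negSucc (nat_lit 2779366867199999)), (nat_lit
 64, .ofNat (nat_lit 28679464800000))], [(nat_lit 17, .negSucc (nat_lit 337246110351359999999)),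
 (nat_lit 26, .negSucc (nat_lit 56207685058559999999)), (nat_lit 33, .negSucc (nat_lit
 78690759081983999999)), (nat_lit 35, .negSucc (nat_lit 78690759081983999999)), (nat_lit 42, .ofNat
 (nat_lit 36534995288064000000)), (nat_lit 44, .ofNat (nat_lit 30914226782208000000)), (nat_lit 45,
 .ofNat (nat_lit 9836344885248000000)), (nat_lit 50, .ofNat (nat_lit 15691312078848000000)),
 (nat_lit 54, .ofNat (nat_lit 4996238671872000000)), (nat_lit 56, .ofNat (nat_lit
 4566874411008000000)), (nat_lit 60, .ofNat (nat_lit 15105815359488000000)), (nat_lit 72, .negSucc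
 (nat_lit 4069202199551999999)), (nat_lit 80, .negSucc (nat_lit 2598141692159999999)), (nat_lit 96,
 .negSucc (nat_lit 161011597823999999)), (nat_lit 128, .ofNat (nat_lit 41930103600000000))]]

/-- the table -/
noncomputable def XT : List (List ℕ × Ent) := [([], [(nat_lit 2, .negSucc (nat_lit 1))], [(nat_lit 1, .ofNat (nat_lit 1))], nat_lit 0),
 ([nat_lit 0], [(nat_lit 3, .ofNat (nat_lit 4)), (nat_lit 4, .negSucc (nat_lit 3))], [(nat_lit 2,
 .ofNat (nat_lit 2))], nat_lit 1), ([nat_lit 1], [(nat_lit 5, .ofNat (nat_lit 16)), (nat_lit 6,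
 .negSucc (nat_lit 7))], [(nat_lit 3, .ofNat (nat_lit 4))], nat_lit 2), ([nat_lit 0, nat_lit 0],
 [(nat_lit 6, .ofNat (nat_lit 16)), (nat_lit 8, .negSucc (nat_lit 7))], [(nat_lit 4, .ofNat
 (nat_lit 4))], nat_lit 2), ([nat_lit 2], [(nat_lit 7, .ofNat (nat_lit 48)), (nat_lit 10, .negSucc
 (nat_lit 15))], [(nat_lit 5, .ofNat (nat_lit 8))], nat_lit 3), ([nat_lit 0, nat_lit 1], [(nat_lit
 9, .ofNat (nat_lit 16)), (nat_lit 10, .ofNat (nat_lit 32)), (nat_lit 12, .negSucc (nat_lit 15))],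
 [(nat_lit 6, .ofNat (nat_lit 8))], nat_lit 3), ([nat_lit 0, nat_lit 0, nat_lit 0], [(nat_lit 12,
 .ofNat (nat_lit 48)), (nat_lit 16, .negSucc (nat_lit 15))], [(nat_lit 8, .ofNat (nat_lit 8))],
 nat_lit 3), ([nat_lit 3], [(nat_lit 11, .ofNat (nat_lit 128)), (nat_lit 14, .negSucc (nat_lit
 31))], [(nat_lit 7, .ofNat (nat_lit 16))], nat_lit 4), ([nat_lit 0, nat_lit 2], [(nat_lit 14,
 .ofNat (nat_lit 96)), (nat_lit 15, .ofNat (nat_lit 32)), (nat_lit 20, .negSucc (nat_lit 31))],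
 [(nat_lit 10, .ofNat (nat_lit 16))], nat_lit 4), ([nat_lit 1, nat_lit 1], [(nat_lit 15, .ofNat
 (nat_lit 128)), (nat_lit 18, .negSucc (nat_lit 31))], [(nat_lit 9, .ofNat (nat_lit 16))], nat_lit
 4), ([nat_lit 0, nat_lit 0, nat_lit 1], [(nat_lit 18, .ofNat (nat_lit 64)), (nat_lit 20, .ofNat
 (nat_lit 64)), (nat_lit 24, .negSucc (nat_lit 31))], [(nat_lit 12, .ofNat (nat_lit 16))], nat_lit
 4), ([nat_lit 0, nat_lit 0, nat_lit 0, nat_lit 0], [(nat_lit 24, .ofNat (nat_lit 128)), (nat_lit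
 32, .negSucc (nat_lit 31))], [(nat_lit 16, .ofNat (nat_lit 16))], nat_lit 4), ([nat_lit 4],
 [(nat_lit 13, .ofNat (nat_lit 320)), (nat_lit 22, .negSucc (nat_lit 63))], [(nat_lit 11, .ofNat
 (nat_lit 32))], nat_lit 5), ([nat_lit 0, nat_lit 3], [(nat_lit 21, .ofNat (nat_lit 64)), (nat_lit
 22, .ofNat (nat_lit 256)), (nat_lit 28, .negSucc (nat_lit 63))], [(nat_lit 14, .ofNat (nat_lit
 32))], nat_lit 5), ([nat_lit 1, nat_lit 2], [(nat_lit 21, .ofNat (nat_lit 192)), (nat_lit 25,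
 .ofNat (nat_lit 128)), (nat_lit 30, .negSucc (nat_lit 63))], [(nat_lit 15, .ofNat (nat_lit 32))],
 nat_lit 5), ([nat_lit 0, nat_lit 0, nat_lit 2], [(nat_lit 28, .ofNat (nat_lit 192)), (nat_lit 30,
 .ofNat (nat_lit 128)), (nat_lit 40, .negSucc (nat_lit 63))], [(nat_lit 20, .ofNat (nat_lit 32))],
 nat_lit 5), ([nat_lit 0, nat_lit 1, nat_lit 1], [(nat_lit 27, .ofNat (nat_lit 64)), (nat_lit 30,
 .ofNat (nat_lit 256)), (nat_lit 36, .negSucc (nat_lit 63))], [(nat_lit 18, .ofNat (nat_lit 32))],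
 nat_lit 5), ([nat_lit 0, nat_lit 0, nat_lit 0, nat_lit 1], [(nat_lit 36, .ofNat (nat_lit 192)),
 (nat_lit 40, .ofNat (nat_lit 128)), (nat_lit 48, .negSucc (nat_lit 63))], [(nat_lit 24, .ofNat
 (nat_lit 32))], nat_lit 5), ([nat_lit 0, nat_lit 0, nat_lit 0, nat_lit 0, nat_lit 0], [(nat_lit
 48, .ofNat (nat_lit 320)), (nat_lit 64, .negSucc (nat_lit 63))], [(nat_lit 32, .ofNat (nat_lit
 32))], nat_lit 5), ([nat_lit 5], [(nat_lit 17, .ofNat (nat_lit 768)), (nat_lit 26, .negSucc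
 (nat_lit 127))], [(nat_lit 13, .ofNat (nat_lit 64))], nat_lit 6), ([nat_lit 0, nat_lit 4],
 [(nat_lit 26, .ofNat (nat_lit 640)), (nat_lit 33, .ofNat (nat_lit 128)), (nat_lit 44, .negSucc
 (nat_lit 127))], [(nat_lit 22, .ofNat (nat_lit 64))], nat_lit 6), ([nat_lit 1, nat_lit 3],
 [(nat_lit 33, .ofNat (nat_lit 512)), (nat_lit 35, .ofNat (nat_lit 256)), (nat_lit 42, .negSucc
 (nat_lit 127))], [(nat_lit 21, .ofNat (nat_lit 64))], nat_lit 6), ([nat_lit 0, nat_lit 0, nat_lit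
 3], [(nat_lit 42, .ofNat (nat_lit 256)), (nat_lit 44, .ofNat (nat_lit 512)), (nat_lit 56, .negSucc
 (nat_lit 127))], [(nat_lit 28, .ofNat (nat_lit 64))], nat_lit 6), ([nat_lit 2, nat_lit 2],
 [(nat_lit 35, .ofNat (nat_lit 768)), (nat_lit 50, .negSucc (nat_lit 127))], [(nat_lit 25, .ofNat
 (nat_lit 64))], nat_lit 6), ([nat_lit 0, nat_lit 1, nat_lit 2], [(nat_lit 42, .ofNat (nat_lit
 384)), (nat_lit 45, .ofNat (nat_lit 128)), (nat_lit 50, .ofNat (nat_lit 256)), (nat_lit 60,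
 .negSucc (nat_lit 127))], [(nat_lit 30, .ofNat (nat_lit 64))], nat_lit 6), ([nat_lit 0, nat_lit 0,
 nat_lit 0, nat_lit 2], [(nat_lit 56, .ofNat (nat_lit 384)), (nat_lit 60, .ofNat (nat_lit 384)),
 (nat_lit 80, .negSucc (nat_lit 127))], [(nat_lit 40, .ofNat (nat_lit 64))], nat_lit 6), ([nat_lit
 1, nat_lit 1, nat_lit 1], [(nat_lit 45, .ofNat (nat_lit 768)), (nat_lit 54, .negSucc (nat_lit
 127))], [(nat_lit 27, .ofNat (nat_lit 64))], nat_lit 6), ([nat_lit 0, nat_lit 0, nat_lit 1,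
 nat_lit 1], [(nat_lit 54, .ofNat (nat_lit 256)), (nat_lit 60, .ofNat (nat_lit 512)), (nat_lit 72,
 .negSucc (nat_lit 127))], [(nat_lit 36, .ofNat (nat_lit 64))], nat_lit 6), ([nat_lit 0, nat_lit 0,
 nat_lit 0, nat_lit 0, nat_lit 1], [(nat_lit 72, .ofNat (nat_lit 512)), (nat_lit 80, .ofNat
 (nat_lit 256)), (nat_lit 96, .negSucc (nat_lit 127))], [(nat_lit 48, .ofNat (nat_lit 64))],
 nat_lit 6), ([nat_lit 0, nat_lit 0, nat_lit 0, nat_lit 0, nat_lit 0, nat_lit 0], [(nat_lit 96,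
 .ofNat (nat_lit 768)), (nat_lit 128, .negSucc (nat_lit 127))], [(nat_lit 64, .ofNat (nat_lit
 64))], nat_lit 6)]

theorem es_ok : esOK ES 7 = true := by decide +kernel

theorem g_ok : gOK ES 840 GS 7 = true := by decide +kernel

theorem tab_ok : tabOK 7 ES XT = true := by decide +kernel

/-- start -/
noncomputable def U0 : Tr := ins 1 1 (-((22447582826746312043756229409571786363264413636724613268697215236649741533234385588556184492239630336 : ℕ) : ℤ)) Tr.e

end Pool.Agent.H5.HT.D7
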