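import Pool.Agent.H5.HT.D7.D

/-! # Certificate data (7 jets, exponent 129/125) -/

set_option autoImplicit false

namespace Pool.Agent.H5.HT.D7

open Pool.Agent.H58.BJ
open Pool.Agent.H5.HT

/-- block 7, 0 -/
noncomputable def B2 : List (Row × List ℤ) := [((nat_lit 1, nat_lit 1, false), [.ofNat (nat_lit 1010761628028)]), ((nat_lit 2, nat_lit 1,
 false), [.negSucc (nat_lit 6617823263693), .ofNat (nat_lit 4410859901357)]), ((nat_lit 3, nat_lit
 1, false), [.negSucc (nat_lit 11946241600778), .ofNat (nat_lit 11751251599655), .ofNat (nat_lit
 22857048577155)]), ((nat_lit 4, nat_lit 1, false), [.ofNat (nat_lit 13215949501296), .negSucc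
 (nat_lit 14188719952387), .ofNat (nat_lit 22726541804430), .ofNat (nat_lit 9237200281791)]),
 ((nat_lit 5, nat_lit 1, false), [.negSucc (nat_lit 16410668772467), .ofNat (nat_lit
 17912433920292), .ofNat (nat_lit 68691123308329), .ofNat (nat_lit 4159458334086), .ofNat (nat_lit
 31738482956529)]), ((nat_lit 6, nat_lit 1, false), [.ofNat (nat_lit 34834888521287), .negSucc
 (nat_lit 49463980311026), .ofNat (nat_lit 41405511818750), .ofNat (nat_lit 45849727457750), .ofNat
 (nat_lit 63570568862644), .ofNat (nat_lit 57990860782356)]), ((nat_lit 8, nat_lit 1, false),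
 [.negSucc (nat_lit 9279509574078), .ofNat (nat_lit 9505515163238), .negSucc (nat_lit
 26510963828929), .negSucc (nat_lit 4739509152880), .ofNat (nat_lit 30170296597018), .ofNat
 (nat_lit 56053169935792), .ofNat (nat_lit 11547376687724)]), ((nat_lit 7, nat_lit 1, false),
 [.negSucc (nat_lit 13950371475592), .ofNat (nat_lit 14024446036224), .ofNat (nat_lit
 108047081186915), .ofNat (nat_lit 15059135468162), .ofNat (nat_lit 97724760452434), .ofNat
 (nat_lit 576755422896), .negSucc (nat_lit 2225459265176), .ofNat (nat_lit 22375862399366)]),
 ((nat_lit 10, nat_lit 1, false), [.ofNat (nat_lit 33561922219481), .negSucc (nat_lit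
 53621500632462), .ofNat (nat_lit 19642204172240), .ofNat (nat_lit 54674742955207), .ofNat (nat_lit
 80616358363497), .ofNat (nat_lit 81597857510268), .negSucc (nat_lit 4897737064783), .ofNat
 (nat_lit 28634613530495), .ofNat (nat_lit 74072173906016)]), ((nat_lit 9, nat_lit 1, false),
 [.ofNat (nat_lit 19366354917160), .negSucc (nat_lit 33343312857240), .ofNat (nat_lit
 24810673230826), .ofNat (nat_lit 39720244102476), .ofNat (nat_lit 70840911863626), .ofNat (nat_lit
 65216018665214), .negSucc (nat_lit 3337784753198), .ofNat (nat_lit 12121265283195), .negSucc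
 (nat_lit 37720819786672), .ofNat (nat_lit 39859618202506)]), ((nat_lit 12, nat_lit 1, false),
 [.negSucc (nat_lit 34106221901745), .ofNat (nat_lit 55811359646641), .negSucc (nat_lit
 65719416262049), .negSucc (nat_lit 65359689284833), .negSucc (nat_lit 63946178034169), .ofNat
 (nat_lit 29676076621381), .ofNat (nat_lit 43207506868841), .negSucc (nat_lit 13900385886557),
 .ofNat (nat_lit 34986720788762), .ofNat (nat_lit 54974306871324), .ofNat (nat_lit
 117186252149011)]), ((nat_lit 16, nat_lit 1, false), [.negSucc (nat_lit 7046796441062), .ofNat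
 (nat_lit 21237199241739), .negSucc (nat_lit 4087377657397), .negSucc (nat_lit 38161411218359),
 .negSucc (nat_lit 110677304496217), .negSucc (nat_lit 108407626558425), .ofNat (nat_lit
 3267550383456), .negSucc (nat_lit 32193864228006), .negSucc (nat_lit 811556058841), .ofNat
 (nat_lit 15096753090232), .ofNat (nat_lit 116769349051554), .ofNat (nat_lit 10022134538028)]),
 ((nat_lit 11, nat_lit 1, false), [.negSucc (nat_lit 8557198386029), .ofNat (nat_lit
 8483700462367), .ofNat (nat_lit 96419322603633), .ofNat (nat_lit 14154499899137), .ofNat (nat_lit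
 115578510632781), .negSucc (nat_lit 9138508353794), .negSucc (nat_lit 1698766413022), .ofNat
 (nat_lit 44775879580043), .ofNat (nat_lit 1573412928151), .negSucc (nat_lit 3158533507076), .ofNat
 (nat_lit 11834492947034), .negSucc (nat_lit 178663464315), .ofNat (nat_lit 16889309669465)]),
 ((nat_lit 14, nat_lit 1, false), [.ofNat (nat_lit 4946943782171), .negSucc (nat_lit
 2363635885421), .negSucc (nat_lit 21081170011852), .negSucc (nat_lit 10599045906883), .negSucc
 (nat_lit 54346675988322), .negSucc (nat_lit 2133751172372), .ofNat (nat_lit 11799012914334),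
 .negSucc (nat_lit 7733815349345), .ofNat (nat_lit 137139333097785), .negSucc (nat_lit
 13928645932287), .ofNat (nat_lit 65534979250722), .negSucc (nat_lit 696543100598), .ofNat (nat_lit
 61046583410856), .ofNat (nat_lit 51448284282505)]), ((nat_lit 15, nat_lit 1, false), [.ofNat
 (nat_lit 23625462950475), .negSucc (nat_lit 42357922998159), .ofNat (nat_lit 25489787905737),
 .ofNat (nat_lit 51831479740735), .ofNat (nat_lit 92562232270283), .ofNat (nat_lit 93520927681953),
 .negSucc (nat_lit 3981598856433), .ofNat (nat_lit 29931630053900), .negSucc (nat_lit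
 40309387191892), .ofNat (nat_lit 88241846279669), .ofNat (nat_lit 20903771857370), .negSucc
 (nat_lit 561101485067), .ofNat (nat_lit 20316539901329), .negSucc (nat_lit 9755755801461), .ofNat
 (nat_lit 33101500125941)]), ((nat_lit 20, nat_lit 1, false), [.negSucc (nat_lit 94538098503945),
 .ofNat (nat_lit 194541778015179), .negSucc (nat_lit 136519093251095), .negSucc (nat_lit
 280918742988456), .negSucc (nat_lit 531733158847802), .negSucc (nat_lit 295268470394153), .ofNat
 (nat_lit 126286019120491), .negSucc (nat_lit 240254945324949), .ofNat (nat_lit 52096563254578),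
 .negSucc (nat_lit 3499350244269), .ofNat (nat_lit 442420140057490), .negSucc (nat_lit
 4437771675260), .ofNat (nat_lit 243351282950119), .ofNat (nat_lit 128957596424468), .ofNat
 (nat_lit 78592806794363), .ofNat (nat_lit 138678270813110)]), ((nat_lit 18, nat_lit 1, false),
 [.negSucc (nat_lit 32798092173703), .ofNat (nat_lit 63572336330952), .negSucc (nat_lit
 49658672270792), .negSucc (nat_lit 87073096796148), .negSucc (nat_lit 147167501768749), .negSucc
 (nat_lit 61566885625041), .ofNat (nat_lit 43594211633878), .negSucc (nat_lit 40447886295482),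
 .ofNat (nat_lit 63390671197575), .ofNat (nat_lit 39636474192593), .ofNat (nat_lit
 160889466165667), .negSucc (nat_lit 1249998876527), .ofNat (nat_lit 5649106164764), .negSucc
 (nat_lit 3903304963692), .ofNat (nat_lit 54279788308759), .negSucc (nat_lit 46523076880583),
 .ofNat (nat_lit 61339027395015)]), ((nat_lit 24, nat_lit 1, false), [.negSucc (nat_lit
 86787056039080), .ofNat (nat_lit 193441735071381), .negSucc (nat_lit 117578982915125), .negSucc
 (nat_lit 297110546270635), .negSucc (nat_lit 641926316621442), .negSucc (nat_lit 453289138335594),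
 .ofNat (nat_lit 106539570390563), .negSucc (nat_lit 292825289079193), .ofNat (nat_lit
 35416731965321), .negSucc (nat_lit 59522261885893), .ofNat (nat_lit 541272788631754), .ofNat
 (nat_lit 16633733321569), .ofNat (nat_lit 228370699649769), .ofNat (nat_lit 118368372130853),
 .ofNat (nat_lit 140361049833972), .ofNat (nat_lit 91006546742752), .ofNat (nat_lit
 121721999243900), .ofNat (nat_lit 72867830529086)]), ((nat_lit 32, nat_lit 1, false), [.negSucc
 (nat_lit 14118563220673), .ofNat (nat_lit 26837037454043), .negSucc (nat_lit 21010356919891),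
 .negSucc (nat_lit 36092184733390), .negSucc (nat_lit 53549467504508), .negSucc (nat_lit
 10687684369973), .ofNat (nat_lit 22623005277751), .negSucc (nat_lit 35447570441460), .ofNat
 (nat_lit 13704262973661), .negSucc (nat_lit 18294949910193), .ofNat (nat_lit 14594472467470),
 .negSucc (nat_lit 8728796596415), .ofNat (nat_lit 44425418062782), .ofNat (nat_lit
 35194152429047), .ofNat (nat_lit 40690689964485), .negSucc (nat_lit 535813835497), .ofNat (nat_lit
 60269168582608), .ofNat (nat_lit 72929724735498), .ofNat (nat_lit 6308471146134)]), ((nat_lit 13,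
 nat_lit 1, false), [.ofNat (nat_lit 4479205231326), .negSucc (nat_lit 13119034170623), .ofNat
 (nat_lit 58535698222797), .ofNat (nat_lit 31018566277112), .ofNat (nat_lit 118444958584112),
 .ofNat (nat_lit 18797740306833), .negSucc (nat_lit 10968186899301), .ofNat (nat_lit
 61225142600062), .negSucc (nat_lit 3772792838631), .ofNat (nat_lit 878872582804), .negSucc
 (nat_lit 25167669906291), .negSucc (nat_lit 135572661350), .ofNat (nat_lit 3548128473121),
 .negSucc (nat_lit 13034735142793), .negSucc (nat_lit 12686409584691), .negSucc (nat_lit
 11161675949035), .negSucc (nat_lit 8204793686845), .negSucc (nat_lit 2039181267286), .ofNat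
 (nat_lit 95589382346), .ofNat (nat_lit 13509664331739)]), ((nat_lit 22, nat_lit 1, false), [.ofNat
 (nat_lit 20523998753254), .negSucc (nat_lit 41846622365340), .ofNat (nat_lit 15591760734777),
 .ofNat (nat_lit 57906563486325), .ofNat (nat_lit 91552790283301), .ofNat (nat_lit 73757362490697),
 .negSucc (nat_lit 24647132563864), .ofNat (nat_lit 59738507018848), .ofNat (nat_lit
 77795971010657), .ofNat (nat_lit 4862582314536), .negSucc (nat_lit 81083959699422), .negSucc
 (nat_lit 255339624995), .negSucc (nat_lit 14211396896194), .ofNat (nat_lit 20618508217774),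
 .negSucc (nat_lit 46592815336240), .negSucc (nat_lit 40547760986305), .negSucc (nat_lit
 30310059625065), .negSucc (nat_lit 7638173272836), .ofNat (nat_lit 330623287902), .ofNat (nat_lit
 44654934640764), .ofNat (nat_lit 16844436033548)]), ((nat_lit 21, nat_lit 1, false), [.ofNat
 (nat_lit 33401173939210), .negSucc (nat_lit 69013801294729), .ofNat (nat_lit 43742102189247),
 .ofNat (nat_lit 99327272768447), .ofNat (nat_lit 192209754665426), .ofNat (nat_lit
 131284636279889), .negSucc (nat_lit 36994934588261), .ofNat (nat_lit 96133238518627), .negSucc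
 (nat_lit 14986311333044), .ofNat (nat_lit 57870086478929), .negSucc (nat_lit 116213263903725),
 .ofNat (nat_lit 25681227392), .negSucc (nat_lit 49922847580924), .negSucc (nat_lit
 39406713291220), .negSucc (nat_lit 13750586700766), .negSucc (nat_lit 41282081437576), .negSucc
 (nat_lit 26878569888373), .negSucc (nat_lit 7485624125419), .ofNat (nat_lit 243169725869),
 .negSucc (nat_lit 14975387652148), .ofNat (nat_lit 11795154926661), .ofNat (nat_lit
 125348985894848)]), ((nat_lit 28, nat_lit 1, false), [.ofNat (nat_lit 138584137641219), .negSucc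
 (nat_lit 296094102203598), .ofNat (nat_lit 196038713592881), .ofNat (nat_lit 441062301501687),
 .ofNat (nat_lit 889363414735261), .ofNat (nat_lit 550538298894265), .negSucc (nat_lit
 184159956452533), .ofNat (nat_lit 422084848253870), .negSucc (nat_lit 120597845358012), .ofNat
 (nat_lit 110926894030867), .negSucc (nat_lit 694999386784130), .negSucc (nat_lit 84811347170),
 .negSucc (nat_lit 355062422488280), .negSucc (nat_lit 194180242174657), .negSucc (nat_lit
 221833609202516), .negSucc (nat_lit 123813860156559), .negSucc (nat_lit 192032627413226), .negSucc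
 (nat_lit 48937814983204), .ofNat (nat_lit 2070650088481), .ofNat (nat_lit 217916529116026), .ofNat
 (nat_lit 61754463541426), .ofNat (nat_lit 125605488663224), .ofNat (nat_lit 65593666311276)]),
 ((nat_lit 25, nat_lit 1, false), [.negSucc (nat_lit 21819925532569), .ofNat (nat_lit
 47885133265507), .negSucc (nat_lit 33412214873151), .negSucc (nat_lit 73283118498322), .negSucc
 (nat_lit 148818820983545), .negSucc (nat_lit 80134654711682), .ofNat (nat_lit 35350240040436),
 .negSucc (nat_lit 71155881991547), .ofNat (nat_lit 4206432754086), .ofNat (nat_lit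
 15264164579317), .ofNat (nat_lit 141875111158520), .negSucc (nat_lit 1033399381849), .ofNat
 (nat_lit 86301242924789), .ofNat (nat_lit 31251909545465), .ofNat (nat_lit 59544602410419), .ofNat
 (nat_lit 33291442848884), .ofNat (nat_lit 21672268025906), .ofNat (nat_lit 5882714527379),
 .negSucc (nat_lit 206121287170), .ofNat (nat_lit 11281090115056), .negSucc (nat_lit
 13772405403173), .negSucc (nat_lit 95572109377323), .negSucc (nat_lit 2359383519771), .ofNat
 (nat_lit 9373617883467)]), ((nat_lit 30, nat_lit 1, false), [.negSucc (nat_lit 232079910462065),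
 .ofNat (nat_lit 490749479853763), .negSucc (nat_lit 326094814209190), .negSucc (nat_lit
 724263900553620), .negSucc (nat_lit 1430478988029321), .negSucc (nat_lit 859063209342009), .ofNat
 (nat_lit 311468444928748), .negSucc (nat_lit 660481127824703), .ofNat (nat_lit 194059701337379),
 .negSucc (nat_lit 113731878567842), .ofNat (nat_lit 1142764557600639), .negSucc (nat_lit
 7420435677349), .ofNat (nat_lit 587030705082155), .ofNat (nat_lit 308476804496872), .ofNat
 (nat_lit 332122375646213), .ofNat (nat_lit 225774967015312), .ofNat (nat_lit 219835929834149),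
 .ofNat (nat_lit 34215439890400), .negSucc (nat_lit 1660478277190), .negSucc (nat_lit
 157364854827313), .negSucc (nat_lit 25894873569481), .negSucc (nat_lit 99343569129621), .negSucc
 (nat_lit 63492362628985), .ofNat (nat_lit 32656777374353), .ofNat (nat_lit 64193903287091)]),
 ((nat_lit 40, nat_lit 1, false), [.ofNat (nat_lit 190253990656854), .negSucc (nat_lit
 402770014251688), .ofNat (nat_lit 268577232008362), .ofNat (nat_lit 595252756156231), .ofNat
 (nat_lit 1175911397952516), .ofNat (nat_lit 702439232831624), .negSucc (nat_lit 257713185710362),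
 .ofNat (nat_lit 558013933899897), .negSucc (nat_lit 143367201568886), .ofNat (nat_lit
 113784126276358), .negSucc (nat_lit 914119907220113), .ofNat (nat_lit 9669866307124), .negSucc
 (nat_lit 519284413782738), .negSucc (nat_lit 277316776023103), .negSucc (nat_lit 247014113180781),
 .negSucc (nat_lit 246374617263958), .negSucc (nat_lit 127688706709634), .negSucc (nat_lit
 6974617068220), .ofNat (nat_lit 1780210295747), .ofNat (nat_lit 210471308874887), .ofNat (nat_lit
 82659954347520), .ofNat (nat_lit 107933697043477), .ofNat (nat_lit 77565224633856), .ofNat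
 (nat_lit 20390847060902), .ofNat (nat_lit 47421285074641), .ofNat (nat_lit 88026952323865)]),
 ((nat_lit 27, nat_lit 1, false), [.ofNat (nat_lit 34408457913558), .negSucc (nat_lit
 73743611517346), .ofNat (nat_lit 48918568959692), .ofNat (nat_lit 110166393432093), .ofNat
 (nat_lit 222321777623523), .ofNat (nat_lit 138789957156057), .negSucc (nat_lit 45845519223175),
 .ofNat (nat_lit 111525370167201), .negSucc (nat_lit 15623617009883), .ofNat (nat_lit
 34030475003165), .negSucc (nat_lit 166051275231592), .ofNat (nat_lit 336026878311), .negSucc
 (nat_lit 108556679245794), .negSucc (nat_lit 59750108162620), .negSucc (nat_lit 38453802014643),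
 .negSucc (nat_lit 66881977078789), .negSucc (nat_lit 15165958964118), .negSucc (nat_lit
 9581196183117), .ofNat (nat_lit 397613113182), .ofNat (nat_lit 41001786295040), .ofNat (nat_lit
 396548242743), .ofNat (nat_lit 30676026748378), .ofNat (nat_lit 14260476574309), .negSucc (nat_lit
 3596699964122), .negSucc (nat_lit 35334688474879), .negSucc (nat_lit 1252081310494), .ofNat
 (nat_lit 15396937252771)]), ((nat_lit 36, nat_lit 1, false), [.negSucc (nat_lit 221603553504577),
 .ofNat (nat_lit 474014221806978), .negSucc (nat_lit 313610024582793), .negSucc (nat_lit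
 706673312278154), .negSucc (nat_lit 1424022011075882), .negSucc (nat_lit 887702738085971), .ofNat
 (nat_lit 293710312211569), .negSucc (nat_lit 682014693654159), .ofNat (nat_lit 137003309891870),
 .negSucc (nat_lit 161420172416598), .ofNat (nat_lit 1124879299126331), .ofNat (nat_lit
 3376337314349), .ofNat (nat_lit 612551393011393), .ofNat (nat_lit 323880526721289), .ofNat
 (nat_lit 326198480115629), .ofNat (nat_lit 278729267647588), .ofNat (nat_lit 233647267938699),
 .ofNat (nat_lit 102499054136663), .negSucc (nat_lit 1628772085300), .negSucc (nat_lit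
 134204260198596), .negSucc (nat_lit 50206356863507), .negSucc (nat_lit 76588513114453), .negSucc
 (nat_lit 55935291803777), .ofNat (nat_lit 10492498747218), .negSucc (nat_lit 11883945782549),
 .negSucc (nat_lit 53826945978539), .ofNat (nat_lit 39949231917682), .ofNat (nat_lit
 32382299486286)]), ((nat_lit 48, nat_lit 1, false), [.negSucc (nat_lit 50844181308807), .ofNat
 (nat_lit 104239800045320), .negSucc (nat_lit 72078781705210), .negSucc (nat_lit 149949120533831),
 .negSucc (nat_lit 276678864426036), .negSucc (nat_lit 142067235712016), .ofNat (nat_lit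
 72634295842884), .negSucc (nat_lit 139897439241568), .ofNat (nat_lit 43648545524182), .negSucc
 (nat_lit 36422508337838), .ofNat (nat_lit 184502177808732), .negSucc (nat_lit 12392257815029),
 .ofNat (nat_lit 135207388159802), .ofNat (nat_lit 90710821865084), .ofNat (nat_lit
 91116405579936), .ofNat (nat_lit 32542047709667), .ofNat (nat_lit 101319293417221), .ofNat
 (nat_lit 99732215028599), .ofNat (nat_lit 9244547250403), .negSucc (nat_lit 53715961502457),
 .negSucc (nat_lit 9371578675293), .negSucc (nat_lit 21045407338228), .negSucc (nat_lit
 15955514970552), .ofNat (nat_lit 6068425353938), .ofNat (nat_lit 8966952906170), .ofNat (nat_lit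
 2966118786324), .ofNat (nat_lit 26420565689619), .ofNat (nat_lit 58589913178469), .ofNat (nat_lit
 40906109816630)]), ((nat_lit 64, nat_lit 1, false), [.negSucc (nat_lit 54257574603529), .ofNat
 (nat_lit 116140471999863), .negSucc (nat_lit 76476953457234), .negSucc (nat_lit 173191397401510),
 .negSucc (nat_lit 349656677453452), .negSucc (nat_lit 218421402807243), .ofNat (nat_lit
 71801153734817), .negSucc (nat_lit 163981817409882), .ofNat (nat_lit 38270755404441), .negSucc
 (nat_lit 34188201327639), .ofNat (nat_lit 281115863270586), .ofNat (nat_lit 1128293957958), .ofNat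
 (nat_lit 144668641277238), .ofNat (nat_lit 72338932252421), .ofNat (nat_lit 71187665247330),
 .ofNat (nat_lit 71027872089162), .ofNat (nat_lit 35199030223701), .negSucc (nat_lit
 13103160907217), .negSucc (nat_lit 2951557761259), .negSucc (nat_lit 55537219798598), .negSucc
 (nat_lit 20298911852525), .negSucc (nat_lit 25182424250390), .negSucc (nat_lit 18721453362898),
 .negSucc (nat_lit 5111083135132), .ofNat (nat_lit 2218240382335), .negSucc (nat_lit
 32132253400104), .ofNat (nat_lit 1846239482073), .ofNat (nat_lit 26169549108181), .ofNat (nat_lit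
 40952966249900), .ofNat (nat_lit 2789450747388)]), ((nat_lit 17, nat_lit 1, false), [.negSucc
 (nat_lit 340584634637502), .ofNat (nat_lit 723591527222520), .negSucc (nat_lit 469826724053798),
 .negSucc (nat_lit 1071088521833315), .negSucc (nat_lit 2119980151324460), .negSucc (nat_lit
 1307198136442560), .ofNat (nat_lit 455345343281158), .negSucc (nat_lit 1003486172419072), .ofNat
 (nat_lit 244349974079712), .negSucc (nat_lit 224962590459512), .ofNat (nat_lit 1680163222088701),
 .negSucc (nat_lit 6984888356776), .ofNat (nat_lit 919468395679933), .ofNat (nat_lit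
 481476648039225), .ofNat (nat_lit 481823909004178), .ofNat (nat_lit 400839567554133), .ofNat
 (nat_lit 319075265452962), .ofNat (nat_lit 77028417145030), .negSucc (nat_lit 3265491315485),
 .negSucc (nat_lit 294569703823463), .negSucc (nat_lit 80187973258038), .negSucc (nat_lit
 149751250846717), .negSucc (nat_lit 115534237120502), .ofNat (nat_lit 20385891108154), .ofNat
 (nat_lit 33851429880391), .negSucc (nat_lit 66525402280203), .ofNat (nat_lit 24184234701827),
 .ofNat (nat_lit 30979183559296), .ofNat (nat_lit 15687873889510), .ofNat (nat_lit 692366421476),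
 .ofNat (nat_lit 145164615953146)]), ((nat_lit 26, nat_lit 1, false), [.negSucc (nat_lit
 1237236438428719), .ofNat (nat_lit 2630781883801328), .negSucc (nat_lit 1749067360774046),
 .negSucc (nat_lit 3902599489236683), .negSucc (nat_lit 7786278336903021), .negSucc (nat_lit
 4742684759163090), .ofNat (nat_lit 1656774586590308), .negSucc (nat_lit 3696293423496353), .ofNat
 (nat_lit 910900633508840), .negSucc (nat_lit 814424470687530), .ofNat (nat_lit 6097296887607653),
 .negSucc (nat_lit 25143590146109), .ofNat (nat_lit 3318194817582031), .ofNat (nat_lit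
 1774273878230080), .ofNat (nat_lit 1749013376041820), .ofNat (nat_lit 1455737042597045), .ofNat
 (nat_lit 1157984984664986), .ofNat (nat_lit 279507828937875), .negSucc (nat_lit 11874531543891),
 .negSucc (nat_lit 1076341439569318), .negSucc (nat_lit 277783218286927), .negSucc (nat_lit
 541206955166106), .negSucc (nat_lit 417512474242283), .ofNat (nat_lit 73670035573154), .ofNat
 (nat_lit 122322544501807), .negSucc (nat_lit 240414156949949), .ofNat (nat_lit 87394094103598),
 .ofNat (nat_lit 111945600299446), .ofNat (nat_lit 56687746572272), .ofNat (nat_lit 2502210176590),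
 .ofNat (nat_lit 524541825303714), .ofNat (nat_lit 4501900180043)]), ((nat_lit 33, nat_lit 1,
 false), [.ofNat (nat_lit 1623380202365782), .negSucc (nat_lit 3451707591193213), .ofNat (nat_lit
 2291350686748946), .ofNat (nat_lit 5119722523516521), .ofNat (nat_lit 10203797578597230), .ofNat
 (nat_lit 6223401180211413), .negSucc (nat_lit 2174055157317628), .ofNat (nat_lit
 4852044750508744), .negSucc (nat_lit 1156807523969323), .ofNat (nat_lit 1072672521195417),
 .negSucc (nat_lit 7995468686908676), .ofNat (nat_lit 32535971221700), .negSucc (nat_lit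
 4333062582852636), .negSucc (nat_lit 2302857183061230), .negSucc (nat_lit 2300253611010319),
 .negSucc (nat_lit 1926089403934048), .negSucc (nat_lit 1526794394240728), .negSucc (nat_lit
 369433619399197), .ofNat (nat_lit 15656112611855), .ofNat (nat_lit 1412779878661561), .ofNat
 (nat_lit 379634360905470), .ofNat (nat_lit 762856264665709), .ofNat (nat_lit 534043530110314),
 .negSucc (nat_lit 94221883648514), .negSucc (nat_lit 156513039948260), .ofNat (nat_lit
 307573733969429), .negSucc (nat_lit 111847125492247), .negSucc (nat_lit 143270130475184), .negSucc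
 (nat_lit 72554012950325), .negSucc (nat_lit 3202298253272), .negSucc (nat_lit 671395662347546),
 .ofNat (nat_lit 303666590308), .ofNat (nat_lit 22911494716557)]), ((nat_lit 44, nat_lit 1, false),
 [.negSucc (nat_lit 3397899814259475), .ofNat (nat_lit 7224852478651607), .negSucc (nat_lit
 4796551871043574), .negSucc (nat_lit 10716382980811124), .negSucc (nat_lit 21358990218507890),
 .negSucc (nat_lit 13021818380195195), .ofNat (nat_lit 4552078019104928), .negSucc (nat_lit
 10151506031118072), .ofNat (nat_lit 2428607692442355), .negSucc (nat_lit 2229129631014306), .ofNat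
 (nat_lit 16744050653245202), .negSucc (nat_lit 69352040652799), .ofNat (nat_lit 9091147345974195),
 .ofNat (nat_lit 4824879196095248), .ofNat (nat_lit 4823429681568987), .ofNat (nat_lit
 4033590554926936), .ofNat (nat_lit 3180342906415255), .ofNat (nat_lit 766843045865852), .negSucc
 (nat_lit 32591857831917), .negSucc (nat_lit 2966279298647396), .negSucc (nat_lit 775235402859238),
 .negSucc (nat_lit 1438010322097466), .negSucc (nat_lit 1126597705378605), .ofNat (nat_lit
 205401706976986), .ofNat (nat_lit 340995700689553), .negSucc (nat_lit 670199290289758), .ofNat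
 (nat_lit 243601184980536), .ofNat (nat_lit 312030301024471), .ofNat (nat_lit 157999157507278),
 .ofNat (nat_lit 6973301983654), .ofNat (nat_lit 1461941779478562), .ofNat (nat_lit
 14221609844440), .ofNat (nat_lit 19641366832911), .ofNat (nat_lit 11451070504783)]), ((nat_lit 35,
 nat_lit 1, false), [.negSucc (nat_lit 1170898244561691), .ofNat (nat_lit 2490153744780414),
 .negSucc (nat_lit 1654058939503390), .negSucc (nat_lit 3694361517875171), .negSucc (nat_lit
 7365483282829482), .negSucc (nat_lit 4486652600197717), .ofNat (nat_lit 1570392693350031),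
 .negSucc (nat_lit 3498670588833396), .ofNat (nat_lit 835751467659723), .negSucc (nat_lit
 754586277586955), .ofNat (nat_lit 5783856188515669), .negSucc (nat_lit 23949982804461), .ofNat
 (nat_lit 3145288403482262), .ofNat (nat_lit 1661644999718811), .ofNat (nat_lit 1678672040151275),
 .ofNat (nat_lit 1386715520986842), .ofNat (nat_lit 1099458696523931), .ofNat (nat_lit
 265853819326878), .negSucc (nat_lit 11281088032422), .negSucc (nat_lit 1016630345937486), .negSucc
 (nat_lit 276040224507514), .negSucc (nat_lit 545442555294640), .negSucc (nat_lit 387748674026261),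
 .ofNat (nat_lit 76065313521585), .ofNat (nat_lit 113042176483268), .negSucc (nat_lit
 222152128166456), .ofNat (nat_lit 80770898139381), .ofNat (nat_lit 103471267666628), .ofNat
 (nat_lit 52406572567197), .ofNat (nat_lit 2312960020423), .ofNat (nat_lit 484914407970837),
 .negSucc (nat_lit 842510859698), .negSucc (nat_lit 14651945719879), .negSucc (nat_lit
 259224568851), .ofNat (nat_lit 2413669261593)]), ((nat_lit 42, nat_lit 1, false), [.ofNat (nat_lit
 5300842817890243), .negSucc (nat_lit 11271395099619059), .ofNat (nat_lit 7483462085019202), .ofNat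
 (nat_lit 16719024238622714), .ofNat (nat_lit 33328482201982326), .ofNat (nat_lit
 20322888279379799), .negSucc (nat_lit 7099680338122071), .ofNat (nat_lit 15839308720635659),
 .negSucc (nat_lit 3797523944695839), .ofNat (nat_lit 3485187568236969), .negSucc (nat_lit
 26127530666418005), .ofNat (nat_lit 105693149484809), .negSucc (nat_lit 14173729083696536),
 .negSucc (nat_lit 7528651150320447), .negSucc (nat_lit 7530644523523289), .negSucc (nat_lit
 6271772520670934), .negSucc (nat_lit 4990446827010264), .negSucc (nat_lit 1210072790581813),
 .ofNat (nat_lit 51352603516766), .ofNat (nat_lit 4706702447636783), .ofNat (nat_lit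
 1238548604891976), .ofNat (nat_lit 2280769678698333), .ofNat (nat_lit 1769192117999402), .negSucc
 (nat_lit 299948991057496), .negSucc (nat_lit 493936897072800), .ofNat (nat_lit 1023389260260574),
 .negSucc (nat_lit 371893851988703), .negSucc (nat_lit 476425761518061), .negSucc (nat_lit
 241299059793535), .negSucc (nat_lit 10650548978096), .negSucc (nat_lit 2233254901003617), .negSucc
 (nat_lit 24494750750622), .negSucc (nat_lit 8554334709534), .negSucc (nat_lit 16026210197801),
 .negSucc (nat_lit 3765213888810), .ofNat (nat_lit 44552340302358)]), ((nat_lit 56, nat_lit 1,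
 false), [.negSucc (nat_lit 2916233839250431), .ofNat (nat_lit 6200926405914845), .negSucc (nat_lit
 4116869391317442), .negSucc (nat_lit 9197932424405860), .negSucc (nat_lit 18335689136794896),
 .negSucc (nat_lit 11181338077716457), .ofNat (nat_lit 3905678787010657), .negSucc (nat_lit
 8713748752988119), .ofNat (nat_lit 2089893791647556), .negSucc (nat_lit 1917895125553789), .ofNat
 (nat_lit 14375546204406137), .negSucc (nat_lit 57698733039882), .ofNat (nat_lit 7793938948821426),
 .ofNat (nat_lit 4139610857344192), .ofNat (nat_lit 4148550228801305), .ofNat (nat_lit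
 3442648418885747), .ofNat (nat_lit 2757097083474431), .ofNat (nat_lit 671098577965304), .negSucc
 (nat_lit 28275622860976), .negSucc (nat_lit 2569792202670227), .negSucc (nat_lit 662215827313299),
 .negSucc (nat_lit 1257485072523721), .negSucc (nat_lit 968289013376911), .ofNat (nat_lit
 183637357576850), .ofNat (nat_lit 310475634556770), .negSucc (nat_lit 533904174837088), .ofNat
 (nat_lit 207917902343592), .ofNat (nat_lit 266221819782824), .ofNat (nat_lit 134721787242801),
 .ofNat (nat_lit 5946301566033), .ofNat (nat_lit 1246087756313582), .ofNat (nat_lit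
 17632192464628), .ofNat (nat_lit 406580918399), .ofNat (nat_lit 13630503752871), .negSucc (nat_lit
 782936756516), .ofNat (nat_lit 29498048227779), .ofNat (nat_lit 27205445374010)]), ((nat_lit 50,
 nat_lit 1, false), [.negSucc (nat_lit 3286111991350991), .ofNat (nat_lit 6987139412503451),
 .negSucc (nat_lit 4638298371801596), .negSucc (nat_lit 10363700158194113), .negSucc (nat_lit
 20657569490157116), .negSucc (nat_lit 12595087160148519), .ofNat (nat_lit 4401663087329277),
 .negSucc (nat_lit 9815597306512084), .ofNat (nat_lit 2358621552822739), .negSucc (nat_lit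
 2156691286748623), .ofNat (nat_lit 16195218428439415), .negSucc (nat_lit 66597192396361), .ofNat
 (nat_lit 8785728885945039), .ofNat (nat_lit 4666822938884786), .ofNat (nat_lit 4667940916345632),
 .ofNat (nat_lit 3883397638572520), .ofNat (nat_lit 3090138864823889), .ofNat (nat_lit
 743332349823015), .negSucc (nat_lit 31667872617331), .negSucc (nat_lit 2901433088581788), .negSucc
 (nat_lit 753239112716917), .negSucc (nat_lit 1412012116668366), .negSucc (nat_lit
 1095352184440471), .ofNat (nat_lit 198222312817755), .ofNat (nat_lit 334361546587297), .negSucc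
 (nat_lit 620407284966989), .ofNat (nat_lit 225338880371447), .ofNat (nat_lit 288727411401207),
 .ofNat (nat_lit 146295670992633), .ofNat (nat_lit 6458149441717), .ofNat (nat_lit
 1353896652924380), .ofNat (nat_lit 18286753354397), .negSucc (nat_lit 1846549308650), .ofNat
 (nat_lit 5776545108399), .ofNat (nat_lit 10482938733959), .negSucc (nat_lit 32319616942741),
 .negSucc (nat_lit 1322645530244), .ofNat (nat_lit 12592719370695)]), ((nat_lit 45, nat_lit 1,
 false), [.negSucc (nat_lit 166013874316004), .ofNat (nat_lit 352772404900790), .negSucc (nat_lit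
 233897930064535), .negSucc (nat_lit 522921005659515), .negSucc (nat_lit 1041219996611329),
 .negSucc (nat_lit 633512510007300), .ofNat (nat_lit 222567343676520), .negSucc (nat_lit
 491861553050768), .ofNat (nat_lit 124012410554550), .negSucc (nat_lit 103258918393793), .ofNat
 (nat_lit 819942893058030), .negSucc (nat_lit 3756310993634), .ofNat (nat_lit 436758522671029),
 .ofNat (nat_lit 230782135305430), .ofNat (nat_lit 242810005610431), .ofNat (nat_lit
 181458972547434), .ofNat (nat_lit 165765583473966), .ofNat (nat_lit 35555774747128), .negSucc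
 (nat_lit 1547264504307), .negSucc (nat_lit 138251845320188), .negSucc (nat_lit 42879393903635),
 .negSucc (nat_lit 61877073292986), .negSucc (nat_lit 53802948389474), .ofNat (nat_lit
 11658499192563), .negSucc (nat_lit 4332601516609), .negSucc (nat_lit 33828598591267), .ofNat
 (nat_lit 25101439293603), .ofNat (nat_lit 15281342527781), .ofNat (nat_lit 7723831429832), .ofNat
 (nat_lit 340723824478), .ofNat (nat_lit 71508842646677), .negSucc (nat_lit 1218938967296), .ofNat
 (nat_lit 3932704338760), .ofNat (nat_lit 1388094349754), .negSucc (nat_lit 649683462519), .negSucc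
 (nat_lit 1144935894266), .ofNat (nat_lit 575718251147), .negSucc (nat_lit 7032360150453), .ofNat
 (nat_lit 3763891153593)]), ((nat_lit 60, nat_lit 1, false), [.ofNat (nat_lit 1651509913559383),
 .negSucc (nat_lit 3511191432749894), .ofNat (nat_lit 2330436086140831), .ofNat (nat_lit
 5207469969412050), .ofNat (nat_lit 10377810665629344), .ofNat (nat_lit 6324241299397170), .negSucc
 (nat_lit 2212895037642647), .ofNat (nat_lit 4928611722151878), .negSucc (nat_lit
 1190382723611542), .ofNat (nat_lit 1076973755890270), .negSucc (nat_lit 8134947263754591), .ofNat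
 (nat_lit 35535604565968), .negSucc (nat_lit 4412760081514395), .negSucc (nat_lit
 2344360776181976), .negSucc (nat_lit 2338715896047686), .negSucc (nat_lit 1951397961034687),
 .negSucc (nat_lit 1534996065292977), .negSucc (nat_lit 351916997049683), .ofNat (nat_lit
 15919008632909), .ofNat (nat_lit 1485424194305808), .ofNat (nat_lit 390199185440240), .ofNat
 (nat_lit 725532494717600), .ofNat (nat_lit 557445895093090), .negSucc (nat_lit 86634464911173),
 .negSucc (nat_lit 155744108658416), .ofNat (nat_lit 322136733020865), .negSucc (nat_lit
 92414191292667), .negSucc (nat_lit 128776474322240), .negSucc (nat_lit 74276459604402), .negSucc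
 (nat_lit 3277356485597), .negSucc (nat_lit 687360576891375), .negSucc (nat_lit 5994906920117),
 .negSucc (nat_lit 1665937425936), .negSucc (nat_lit 7546417264833), .ofNat (nat_lit
 17899543547679), .negSucc (nat_lit 19501647979964), .negSucc (nat_lit 23624965624192), .ofNat
 (nat_lit 22639416651956), .ofNat (nat_lit 3960689531333), .ofNat (nat_lit 34408724198470)]),
 ((nat_lit 80, nat_lit 1, false), [.negSucc (nat_lit 851272582535488), .ofNat (nat_lit
 1809629315659010), .negSucc (nat_lit 1201591731173477), .negSucc (nat_lit 2683657666811474),
 .negSucc (nat_lit 5346896079668012), .negSucc (nat_lit 3257014410352865), .ofNat (nat_lit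
 1140825836734496), .negSucc (nat_lit 2541480279856182), .ofNat (nat_lit 611177813981384), .negSucc
 (nat_lit 558174236973019), .ofNat (nat_lit 4188084644891157), .negSucc (nat_lit 18677564407645),
 .ofNat (nat_lit 2276575054196023), .ofNat (nat_lit 1211978485924530), .ofNat (nat_lit
 1209614352225704), .ofNat (nat_lit 1004746881097969), .ofNat (nat_lit 803488962145432), .ofNat
 (nat_lit 203120920215122), .negSucc (nat_lit 6786813883958), .negSucc (nat_lit 758232064129680),
 .negSucc (nat_lit 201128580298938), .negSucc (nat_lit 369329234949460), .negSucc (nat_lit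
 284675741623492), .ofNat (nat_lit 46133631726723), .ofNat (nat_lit 74437406627819), .negSucc
 (nat_lit 166784140140345), .ofNat (nat_lit 63783172903520), .ofNat (nat_lit 88817017318584),
 .ofNat (nat_lit 48209454738760), .ofNat (nat_lit 1611926707302), .ofNat (nat_lit 338195367680235),
 .ofNat (nat_lit 10132457624489), .negSucc (nat_lit 20336053929086), .ofNat (nat_lit
 8952678608459), .ofNat (nat_lit 8330968831751), .ofNat (nat_lit 16880046165020), .ofNat (nat_lit
 25136831414515), .ofNat (nat_lit 7099466574943), .ofNat (nat_lit 874882010221), .ofNat (nat_lit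
 30029733408934), .ofNat (nat_lit 26045563621427)]), ((nat_lit 54, nat_lit 1, false), [.negSucc
 (nat_lit 372320761466003), .ofNat (nat_lit 791861344685472), .negSucc (nat_lit 525944592885509),
 .negSucc (nat_lit 1174846405096587), .negSucc (nat_lit 2342802050757427), .negSucc (nat_lit
 1429564644405834), .ofNat (nat_lit 498562809452583), .negSucc (nat_lit 1114835913655647), .ofNat
 (nat_lit 263784017762305), .negSucc (nat_lit 247430593163166), .ofNat (nat_lit 1836655023358023),
 .negSucc (nat_lit 6771822351779), .ofNat (nat_lit 1000274039117165), .ofNat (nat_lit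
 531075844479512), .ofNat (nat_lit 529735247525854), .ofNat (nat_lit 445580194800216), .ofNat
 (nat_lit 352257347290685), .ofNat (nat_lit 92624083365342), .negSucc (nat_lit 3552528293055),
 .negSucc (nat_lit 321001737540220), .negSucc (nat_lit 86917051792141), .negSucc (nat_lit
 161560022111401), .negSucc (nat_lit 122512539725852), .ofNat (nat_lit 22036346999198), .ofNat
 (nat_lit 32245065538144), .negSucc (nat_lit 75394296369308), .ofNat (nat_lit 31365469856829),
 .ofNat (nat_lit 37480266511534), .ofNat (nat_lit 14172601276249), .ofNat (nat_lit 626131648135),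
 .ofNat (nat_lit 131427734018807), .negSucc (nat_lit 1219096263230), .ofNat (nat_lit 693985910670),
 .ofNat (nat_lit 183419795253), .negSucc (nat_lit 7383531001282), .ofNat (nat_lit 5742472732622),
 .ofNat (nat_lit 6099537646026), .negSucc (nat_lit 11875300094916), .ofNat (nat_lit 4586978822468),
 .negSucc (nat_lit 20537436260524), .negSucc (nat_lit 581268020795), .ofNat (nat_lit
 6073384219320)]), ((nat_lit 72, nat_lit 1, false), [.ofNat (nat_lit 528520900512620), .negSucc
 (nat_lit 1124672083599861), .ofNat (nat_lit 746320669558786), .ofNat (nat_lit 1669310513257619),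
 .ofNat (nat_lit 3332441294687690), .ofNat (nat_lit 2037672992182259), .negSucc (nat_lit
 706962726718539), .ofNat (nat_lit 1582754388963765), .negSucc (nat_lit 376346654539272), .ofNat
 (nat_lit 348507149735663), .negSucc (nat_lit 2619424521775366), .ofNat (nat_lit 7819369407663),
 .negSucc (nat_lit 1416796703757829), .negSucc (nat_lit 746905713252798), .negSucc (nat_lit
 747342708771586), .negSucc (nat_lit 635142333170206), .negSucc (nat_lit 484530651945682), .negSucc
 (nat_lit 99304728366179), .ofNat (nat_lit 7866804170927), .ofNat (nat_lit 458031597438425), .ofNat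
 (nat_lit 124768999793460), .ofNat (nat_lit 228095309846945), .ofNat (nat_lit 176069010553044),
 .negSucc (nat_lit 29203199951440), .negSucc (nat_lit 44973855084357), .ofNat (nat_lit
 111479938918854), .negSucc (nat_lit 27746167591029), .negSucc (nat_lit 18819660070501), .negSucc
 (nat_lit 822866245810), .negSucc (nat_lit 1063164983566), .negSucc (nat_lit 222662537313963),
 .negSucc (nat_lit 4164143329636), .ofNat (nat_lit 10779950169528), .negSucc (nat_lit
 4653037052395), .negSucc (nat_lit 3703083916307), .negSucc (nat_lit 12606577988908), .negSucc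
 (nat_lit 13386919449977), .negSucc (nat_lit 2528689850359), .ofNat (nat_lit 3929765937244),
 .negSucc (nat_lit 14727440313421), .negSucc (nat_lit 14287313159766), .ofNat (nat_lit
 11289896775866), .ofNat (nat_lit 8261353684340)]), ((nat_lit 96, nat_lit 1, false), [.ofNat
 (nat_lit 274542078634966), .negSucc (nat_lit 583212103444750), .ofNat (nat_lit 387571835802307),
 .ofNat (nat_lit 864408306053332), .ofNat (nat_lit 1719931575615685), .ofNat (nat_lit
 1045006847948474), .negSucc (nat_lit 368353903200927), .ofNat (nat_lit 818629695069888), .negSucc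
 (nat_lit 197325365568578), .ofNat (nat_lit 180709171577023), .negSucc (nat_lit 1343540113421436),
 .ofNat (nat_lit 7170377893498), .negSucc (nat_lit 733713730009769), .negSucc (nat_lit
 393371496982452), .negSucc (nat_lit 393608917185079), .negSucc (nat_lit 319394272907138), .negSucc
 (nat_lit 269146006249665), .negSucc (nat_lit 81094537941195), .ofNat (nat_lit 722604266527),
 .ofNat (nat_lit 238710580745375), .ofNat (nat_lit 56984659774529), .ofNat (nat_lit
 117816255306733), .ofNat (nat_lit 91376458885607), .negSucc (nat_lit 23740873231780), .negSucc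
 (nat_lit 30118463297492), .ofNat (nat_lit 32676767605862), .negSucc (nat_lit 24161979706775),
 .negSucc (nat_lit 14170031510883), .ofNat (nat_lit 14858028875919), .ofNat (nat_lit
 1752064521243), .negSucc (nat_lit 131923045396472), .negSucc (nat_lit 2376195444559), .negSucc
 (nat_lit 2577202056707), .ofNat (nat_lit 32786394783), .negSucc (nat_lit 2296198914286), .negSucc
 (nat_lit 1197979249863), .negSucc (nat_lit 458456914055), .negSucc (nat_lit 1449827519620),
 .negSucc (nat_lit 1570364565062), .negSucc (nat_lit 626777564565), .ofNat (nat_lit 6902664305068),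
 .ofNat (nat_lit 1909059274380), .ofNat (nat_lit 7322927372878), .ofNat (nat_lit 7004690837582)]),
 ((nat_lit 128, nat_lit 1, false), [.ofNat (nat_lit 48094626203235), .negSucc (nat_lit
 102321834021412), .ofNat (nat_lit 67886012347020), .ofNat (nat_lit 151842144980933), .ofNat
 (nat_lit 303004086885974), .ofNat (nat_lit 185137946320764), .negSucc (nat_lit 64356306297303),
 .ofNat (nat_lit 143832450191499), .negSucc (nat_lit 34443421537677), .ofNat (nat_lit
 31498853727741), .negSucc (nat_lit 238067659884759), .ofNat (nat_lit 799941171030), .negSucc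
 (nat_lit 128616324864107), .negSucc (nat_lit 67921573600164), .negSucc (nat_lit 67877962956118),
 .negSucc (nat_lit 57469728475472), .negSucc (nat_lit 43942652439297), .negSucc (nat_lit
 8790233071688), .ofNat (nat_lit 670722564219), .ofNat (nat_lit 43257923963874), .ofNat (nat_lit
 12139994824868), .ofNat (nat_lit 20826060694290), .ofNat (nat_lit 16010913313117), .negSucc
 (nat_lit 1616537948328), .negSucc (nat_lit 4225891618436), .ofNat (nat_lit 12267237921897),
 .negSucc (nat_lit 3038810911669), .negSucc (nat_lit 7287003316021), .negSucc (nat_lit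
 7641014707711), .negSucc (nat_lit 477730918168), .negSucc (nat_lit 16799027594234), .negSucc
 (nat_lit 736370988686), .ofNat (nat_lit 1504185954818), .negSucc (nat_lit 823310431363), .negSucc
 (nat_lit 843658484378), .negSucc (nat_lit 845261885618), .negSucc (nat_lit 1761082446832),
 .negSucc (nat_lit 809020935054), .negSucc (nat_lit 1584702308634), .negSucc (nat_lit
 2073450878411), .negSucc (nat_lit 5331469980149), .negSucc (nat_lit 3307208279047), .negSucc
 (nat_lit 965436833532), .ofNat (nat_lit 6967794225496), .ofNat (nat_lit 771127377201)])]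

/-- the commands -/
noncomputable def C2 : List Cmd := [.m (nat_lit 1) (nat_lit 13595822178870984370701402260784685023128986358642578125000000000000000) B2]

theorem c_ok2 : okL 7 ES C2 = true := by decide +kernel

end Pool.Agent.H5.HT.D7
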