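import Pool.Agent.H5.HT.D7.D

/-! # Certificate data (7 jets, exponent 129/125) -/

set_option autoImplicit false

namespace Pool.Agent.H5.HT.D7

open Pool.Agent.H58.BJ
open Pool.Agent.H5.HT

/-- block 6, 1 -/
noncomputable def B3 : List (Row × List ℤ) := [((nat_lit 1, nat_lit 1, false), [.ofNat (nat_lit 870138583134436)]), ((nat_lit 1, nat_lit 2,
 false), [.ofNat (nat_lit 1018478114451685), .ofNat (nat_lit 72531273457658)]), ((nat_lit 2,
 nat_lit 1, false), [.negSucc (nat_lit 1999342529422356), .ofNat (nat_lit 1247128679229695), .ofNat
 (nat_lit 69067200014176)]), ((nat_lit 2, nat_lit 2, false), [.negSucc (nat_lit 4933181311307352),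
 .ofNat (nat_lit 2064603292950134), .ofNat (nat_lit 141463859529330), .ofNat (nat_lit
 28268940122954)]), ((nat_lit 3, nat_lit 1, false), [.negSucc (nat_lit 10189914345621397), .ofNat
 (nat_lit 977852240028102), .ofNat (nat_lit 49581189214916), .negSucc (nat_lit 13541284665851),
 .ofNat (nat_lit 34581951801692)]), ((nat_lit 3, nat_lit 2, false), [.ofNat (nat_lit
 39493895110926), .ofNat (nat_lit 3649800849278488), .ofNat (nat_lit 230533668735836), .ofNat
 (nat_lit 46037160074010), .ofNat (nat_lit 15155716900237), .ofNat (nat_lit 40326880422713)]),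
 ((nat_lit 4, nat_lit 1, false), [.negSucc (nat_lit 6660938199764860), .negSucc (nat_lit
 1288143150354303), .negSucc (nat_lit 71764366152292), .ofNat (nat_lit 15553180923099), .ofNat
 (nat_lit 33823602101020), .negSucc (nat_lit 2124215954710), .ofNat (nat_lit 10891893829648)]),
 ((nat_lit 4, nat_lit 2, false), [.ofNat (nat_lit 5244742166649838), .negSucc (nat_lit
 5073693696450909), .negSucc (nat_lit 327151582359311), .negSucc (nat_lit 55915077191123), .ofNat
 (nat_lit 18949867694489), .ofNat (nat_lit 33570811933071), .negSucc (nat_lit 489753137350), .ofNat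
 (nat_lit 56737239324572)]), ((nat_lit 5, nat_lit 1, false), [.negSucc (nat_lit 1657790999300724),
 .ofNat (nat_lit 3084304694052819), .ofNat (nat_lit 172588521562193), .negSucc (nat_lit
 29434259369739), .ofNat (nat_lit 61165578069496), .negSucc (nat_lit 5220893224015), .negSucc
 (nat_lit 9660583735256), .negSucc (nat_lit 227463846554), .ofNat (nat_lit 44398585893763)]),
 ((nat_lit 5, nat_lit 2, false), [.ofNat (nat_lit 8507454955977772), .ofNat (nat_lit
 8732058232951696), .ofNat (nat_lit 528238506291250), .ofNat (nat_lit 56606569926919), .ofNat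
 (nat_lit 4076967656457), .ofNat (nat_lit 90652617874777), .ofNat (nat_lit 4069613038121), .negSucc
 (nat_lit 6632528822696), .ofNat (nat_lit 29814413352488), .ofNat (nat_lit 48714871152950)]),
 ((nat_lit 6, nat_lit 1, false), [.negSucc (nat_lit 3877862021147276), .negSucc (nat_lit
 14403340978073234), .negSucc (nat_lit 841472424964416), .ofNat (nat_lit 6265392100509), .ofNat
 (nat_lit 66208657855837), .ofNat (nat_lit 4171463418246), .ofNat (nat_lit 12230250648875),
 .negSucc (nat_lit 34042000071002), .ofNat (nat_lit 7275324065101), .negSucc (nat_lit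
 34187091183803), .ofNat (nat_lit 73337051137919)]), ((nat_lit 6, nat_lit 2, false), [.ofNat
 (nat_lit 4766117578607874), .negSucc (nat_lit 9807194108646938), .negSucc (nat_lit
 598934684608452), .negSucc (nat_lit 76792615132983), .negSucc (nat_lit 30586344310576), .ofNat
 (nat_lit 13956868644975), .ofNat (nat_lit 999208341050), .ofNat (nat_lit 100201371931459), .ofNat
 (nat_lit 7390948858016), .ofNat (nat_lit 42799979104267), .ofNat (nat_lit 27272121891097), .ofNat
 (nat_lit 78856479365390)]), ((nat_lit 8, nat_lit 1, false), [.negSucc (nat_lit 8111972385513259),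
 .negSucc (nat_lit 11341290938625433), .negSucc (nat_lit 675174219882710), .negSucc (nat_lit
 13075261502662), .ofNat (nat_lit 10875352008172), .ofNat (nat_lit 8728713421121), .negSucc
 (nat_lit 10938459920784), .ofNat (nat_lit 22738593692380), .negSucc (nat_lit 37800056249502),
 .negSucc (nat_lit 34367793814968), .ofNat (nat_lit 73646114594160), .negSucc (nat_lit
 295911004327), .ofNat (nat_lit 11773782280551)]), ((nat_lit 8, nat_lit 2, false), [.negSucc
 (nat_lit 764438166570512), .negSucc (nat_lit 8749649685140980), .negSucc (nat_lit
 493125079057284), .negSucc (nat_lit 5588061336664), .negSucc (nat_lit 34822254382806), .negSucc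
 (nat_lit 32713924370470), .negSucc (nat_lit 15435468659182), .negSucc (nat_lit 81046457874792),
 .negSucc (nat_lit 17276110554759), .negSucc (nat_lit 3167219337661), .ofNat (nat_lit
 30170718435495), .ofNat (nat_lit 57299713200791), .ofNat (nat_lit 235306654881), .ofNat (nat_lit
 73719880646113)]), ((nat_lit 7, nat_lit 1, false), [.negSucc (nat_lit 8054108135683435), .ofNat
 (nat_lit 5533117359953490), .ofNat (nat_lit 321276601038260), .negSucc (nat_lit 29453347012902),
 .ofNat (nat_lit 46713566775751), .negSucc (nat_lit 22567727292348), .ofNat (nat_lit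
 1381979974171), .negSucc (nat_lit 3044270018647), .ofNat (nat_lit 89644360540041), .ofNat (nat_lit
 11764942239724), .negSucc (nat_lit 2998778694339), .negSucc (nat_lit 3860533058021), .ofNat
 (nat_lit 1139292877782), .negSucc (nat_lit 4646506467062), .ofNat (nat_lit 37678666128715)]),
 ((nat_lit 7, nat_lit 2, false), [.negSucc (nat_lit 11855872359956393), .ofNat (nat_lit
 12570498289694503), .ofNat (nat_lit 751751615130301), .ofNat (nat_lit 59610191137387), .negSucc
 (nat_lit 38458061896084), .ofNat (nat_lit 79863120700211), .ofNat (nat_lit 38565968296809),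
 .negSucc (nat_lit 18451930532959), .ofNat (nat_lit 39966818846616), .ofNat (nat_lit
 123481690312232), .ofNat (nat_lit 4196853579675), .negSucc (nat_lit 7213559296241), .ofNat
 (nat_lit 1682197764548), .negSucc (nat_lit 5637471557232), .ofNat (nat_lit 31370607586034), .ofNat
 (nat_lit 39571061532276)]), ((nat_lit 10, nat_lit 1, false), [.negSucc (nat_lit 5985751917939),
 .ofNat (nat_lit 14224559384060887), .ofNat (nat_lit 840030345491487), .ofNat (nat_lit
 19901497917904), .ofNat (nat_lit 16579168183237), .ofNat (nat_lit 1867111300542), .ofNat (nat_lit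
 31489425333229), .negSucc (nat_lit 40894739852578), .ofNat (nat_lit 62549464684122), .ofNat
 (nat_lit 657482656013), .ofNat (nat_lit 30862650611466), .negSucc (nat_lit 22847671572566),
 .negSucc (nat_lit 16954566976356), .negSucc (nat_lit 20439258728821), .ofNat (nat_lit
 40026851017014), .negSucc (nat_lit 26463178335273), .ofNat (nat_lit 109163267508904)]), ((nat_lit
 10, nat_lit 2, false), [.negSucc (nat_lit 12818885420096522), .ofNat (nat_lit 24671211888442),
 .ofNat (nat_lit 586674652691), .negSucc (nat_lit 21131833883171), .negSucc (nat_lit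
 83330595600439), .negSucc (nat_lit 56307540087664), .ofNat (nat_lit 29472312714242), .ofNat
 (nat_lit 44296758791261), .ofNat (nat_lit 2629664736612), .ofNat (nat_lit 54118417222512), .ofNat
 (nat_lit 2020855920435), .ofNat (nat_lit 70277053204564), .negSucc (nat_lit 5283946663326),
 .negSucc (nat_lit 29684064545488), .ofNat (nat_lit 40265170142233), .ofNat (nat_lit
 47838930718763), .ofNat (nat_lit 3005459952181), .ofNat (nat_lit 112296099313041)]), ((nat_lit 9,
 nat_lit 1, false), [.negSucc (nat_lit 5035300930312007), .negSucc (nat_lit 10077497594799371),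
 .negSucc (nat_lit 587957963829393), .negSucc (nat_lit 5806522896056), .negSucc (nat_lit
 3941981487140), .negSucc (nat_lit 11437892468101), .ofNat (nat_lit 7587926503132), .negSucc
 (nat_lit 22694350893170), .ofNat (nat_lit 40294889663801), .negSucc (nat_lit 10658915436432),
 .ofNat (nat_lit 46160259703829), .negSucc (nat_lit 17274537067091), .ofNat (nat_lit
 1617315886213), .ofNat (nat_lit 4647681080857), .ofNat (nat_lit 19990034236276), .ofNat (nat_lit
 5868848749044), .negSucc (nat_lit 31651385973037), .ofNat (nat_lit 11454735874039), .ofNat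
 (nat_lit 52385025576101)]), ((nat_lit 9, nat_lit 2, false), [.negSucc (nat_lit 24653547158024898),
 .negSucc (nat_lit 5561573961395475), .negSucc (nat_lit 332430304077464), .negSucc (nat_lit
 15884147847385), .ofNat (nat_lit 18162668448736), .ofNat (nat_lit 5574908395871), .ofNat (nat_lit
 15857215851330), .ofNat (nat_lit 44270100731194), .negSucc (nat_lit 22972801200963), .ofNat
 (nat_lit 26562168651465), .ofNat (nat_lit 35261308445341), .ofNat (nat_lit 67259884349038), .ofNat
 (nat_lit 559739636505), .ofNat (nat_lit 5036359145350), .ofNat (nat_lit 6856004771969), .ofNat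
 (nat_lit 7032755161493), .ofNat (nat_lit 19685772087671), .negSucc (nat_lit 50138022750496),
 .ofNat (nat_lit 22017656426666), .ofNat (nat_lit 49439852119382)]), ((nat_lit 12, nat_lit 1,
 false), [.negSucc (nat_lit 16705252107698202), .negSucc (nat_lit 3492565830441734), .negSucc
 (nat_lit 209682903505129), .negSucc (nat_lit 4839693981677), .negSucc (nat_lit 11320117249063),
 .negSucc (nat_lit 769752364714), .negSucc (nat_lit 3459729619524), .ofNat (nat_lit
 16734164032866), .negSucc (nat_lit 36738955880580), .negSucc (nat_lit 28481564515536), .ofNat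
 (nat_lit 76286561003102), .ofNat (nat_lit 2724488904624), .ofNat (nat_lit 13348133820423),
 .negSucc (nat_lit 53315038820415), .ofNat (nat_lit 19835616239381), .negSucc (nat_lit
 15665292366317), .ofNat (nat_lit 34238560749224), .negSucc (nat_lit 8447157836136), .ofNat
 (nat_lit 43353051022608), .negSucc (nat_lit 23486519385281), .ofNat (nat_lit 82806415309716)]),
 ((nat_lit 12, nat_lit 2, false), [.negSucc (nat_lit 13834632748685342), .ofNat (nat_lit
 4805925416514667), .ofNat (nat_lit 298789741361916), .ofNat (nat_lit 5177254476112), .negSucc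
 (nat_lit 36991330468380), .negSucc (nat_lit 43161168610226), .ofNat (nat_lit 1721565534367),
 .negSucc (nat_lit 90173177987693), .ofNat (nat_lit 1370870951025), .ofNat (nat_lit 7706153694737),
 .negSucc (nat_lit 38974931501436), .ofNat (nat_lit 27873382536086), .negSucc (nat_lit
 2179845193874), .ofNat (nat_lit 112126434010720), .ofNat (nat_lit 32002071154412), .ofNat (nat_lit
 19746903052249), .ofNat (nat_lit 33271414553079), .ofNat (nat_lit 32926787522254), .ofNat (nat_lit
 23428198765011), .ofNat (nat_lit 77383325126775), .ofNat (nat_lit 10231015903212), .ofNat (nat_lit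
 85986284317326)]), ((nat_lit 16, nat_lit 1, false), [.negSucc (nat_lit 14607420234689919),
 .negSucc (nat_lit 12328033936692332), .negSucc (nat_lit 724844224768874), .negSucc (nat_lit
 5440293212826), .ofNat (nat_lit 25955555800054), .ofNat (nat_lit 5714660582350), .ofNat (nat_lit
 3454488924535), .ofNat (nat_lit 2881855427675), .negSucc (nat_lit 42342994604098), .negSucc
 (nat_lit 3652325158843), .negSucc (nat_lit 2216311675655), .ofNat (nat_lit 17695467527440), .ofNat
 (nat_lit 6385532049287), .ofNat (nat_lit 31334387847336), .negSucc (nat_lit 2918789293925), .ofNat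
 (nat_lit 4575092557901), .negSucc (nat_lit 42659592094941), .negSucc (nat_lit 19774277510733),
 .negSucc (nat_lit 8407412408775), .negSucc (nat_lit 23133672165398), .ofNat (nat_lit
 81896308091913), .negSucc (nat_lit 664557787428), .ofNat (nat_lit 10081810794541)]), ((nat_lit 16,
 nat_lit 2, false), [.ofNat (nat_lit 2397935152454522), .ofNat (nat_lit 8493660124709082), .ofNat
 (nat_lit 500750143423294), .ofNat (nat_lit 2889210599816), .negSucc (nat_lit 15013574916538),
 .ofNat (nat_lit 578207228691), .ofNat (nat_lit 13232998302809), .negSucc (nat_lit 3689207996616),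
 .ofNat (nat_lit 17361058022736), .ofNat (nat_lit 14326398763918), .negSucc (nat_lit
 52623720446645), .negSucc (nat_lit 32091025457630), .negSucc (nat_lit 7609831264624), .negSucc
 (nat_lit 90709020833940), .negSucc (nat_lit 4389544118189), .ofNat (nat_lit 3428668075818),
 .negSucc (nat_lit 10930333072111), .negSucc (nat_lit 18263463001505), .ofNat (nat_lit
 1828755282151), .ofNat (nat_lit 23174818605901), .negSucc (nat_lit 1421011175126), .ofNat (nat_lit
 69104843047541), .negSucc (nat_lit 2694924618233), .ofNat (nat_lit 66432825001123)]), ((nat_lit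
 11, nat_lit 1, false), [.negSucc (nat_lit 15512327875162723), .ofNat (nat_lit 2346388320833342),
 .ofNat (nat_lit 138768893030376), .negSucc (nat_lit 17674215446785), .ofNat (nat_lit
 15264920532335), .negSucc (nat_lit 25094329101594), .ofNat (nat_lit 11603203875958), .negSucc
 (nat_lit 3653192703144), .ofNat (nat_lit 75463966955737), .ofNat (nat_lit 13644788460267),
 .negSucc (nat_lit 381036601469), .negSucc (nat_lit 3953024284184), .ofNat (nat_lit 3056555622572),
 .negSucc (nat_lit 4240252828559), .ofNat (nat_lit 56191757896261), .negSucc (nat_lit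
 4988600483436), .negSucc (nat_lit 6701282860186), .negSucc (nat_lit 436521320098), .negSucc
 (nat_lit 1105479638924), .ofNat (nat_lit 64052621694), .ofNat (nat_lit 7840342203), .ofNat
 (nat_lit 856750777372), .ofNat (nat_lit 371833623528), .ofNat (nat_lit 1497957104415), .ofNat
 (nat_lit 10469828370939)]), ((nat_lit 11, nat_lit 2, false), [.negSucc (nat_lit
 33524509513709666), .ofNat (nat_lit 6443807087142709), .ofNat (nat_lit 384276099312912), .ofNat
 (nat_lit 40123866175465), .negSucc (nat_lit 29980111144176), .ofNat (nat_lit 34976376183215),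
 .ofNat (nat_lit 48165071129910), .negSucc (nat_lit 15578583515155), .negSucc (nat_lit
 10868725175603), .ofNat (nat_lit 100322829495880), .ofNat (nat_lit 8622825519247), .negSucc
 (nat_lit 9532373970700), .ofNat (nat_lit 2246508564318), .negSucc (nat_lit 6867158534602), .ofNat
 (nat_lit 30430646765169), .ofNat (nat_lit 62751684017247), .negSucc (nat_lit 5075781224832),
 .ofNat (nat_lit 3399104174212), .ofNat (nat_lit 3011986832024), .negSucc (nat_lit 2299128675431),
 .ofNat (nat_lit 2097910720665), .negSucc (nat_lit 2023593087042), .negSucc (nat_lit 202734700271),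
 .ofNat (nat_lit 1423855998340), .negSucc (nat_lit 7481381159480), .ofNat (nat_lit
 20360458851023)]), ((nat_lit 14, nat_lit 1, false), [.negSucc (nat_lit 19508283109936342), .ofNat
 (nat_lit 30043653252290484), .ofNat (nat_lit 1771953698277510), .ofNat (nat_lit 32314879276761),
 .negSucc (nat_lit 55089623757755), .negSucc (nat_lit 26075518633338), .ofNat (nat_lit
 62252631158650), .negSucc (nat_lit 25497312478460), .ofNat (nat_lit 112647350949427), .ofNat
 (nat_lit 67895467005210), .negSucc (nat_lit 20109068264043), .negSucc (nat_lit 34227330457475),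
 .negSucc (nat_lit 17562697122699), .negSucc (nat_lit 25244722319663), .ofNat (nat_lit
 103625171673519), .negSucc (nat_lit 28690198871925), .ofNat (nat_lit 135056030658827), .negSucc
 (nat_lit 9879739352872), .ofNat (nat_lit 3280937091490), .ofNat (nat_lit 7929239237790), .negSucc
 (nat_lit 8978916613415), .ofNat (nat_lit 5331213936464), .ofNat (nat_lit 705191036670), .negSucc
 (nat_lit 2944150938447), .ofNat (nat_lit 21511147632869), .negSucc (nat_lit 33018837088299),
 .ofNat (nat_lit 30047638245046)]), ((nat_lit 14, nat_lit 2, false), [.ofNat (nat_lit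
 9036078719573885), .negSucc (nat_lit 88700938392165), .negSucc (nat_lit 6663024758471), .negSucc
 (nat_lit 212532560271), .ofNat (nat_lit 510402023975), .negSucc (nat_lit 20729429642241), .negSucc
 (nat_lit 13490766074009), .ofNat (nat_lit 20384417931956), .negSucc (nat_lit 45382459150274),
 .negSucc (nat_lit 44961104671616), .negSucc (nat_lit 18501045708613), .ofNat (nat_lit
 30973122835638), .negSucc (nat_lit 7241741354544), .negSucc (nat_lit 26361762081195), .negSucc
 (nat_lit 19434401690888), .ofNat (nat_lit 16610502773115), .negSucc (nat_lit 28626422496761),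
 .ofNat (nat_lit 138150367005120), .ofNat (nat_lit 6332139944587), .negSucc (nat_lit
 7075140286102), .ofNat (nat_lit 7188905409855), .negSucc (nat_lit 5164158990120), .ofNat (nat_lit
 633137657702), .ofNat (nat_lit 2585867895273), .ofNat (nat_lit 27356685641794), .ofNat (nat_lit
 66323762074456), .negSucc (nat_lit 25621955416796), .ofNat (nat_lit 56100562114225)]), ((nat_lit
 15, nat_lit 1, false), [.negSucc (nat_lit 3718146238151691), .negSucc (nat_lit 12524652492312194),
 .negSucc (nat_lit 733638302341480), .negSucc (nat_lit 11287550155806), .ofNat (nat_lit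
 7041894674975), .negSucc (nat_lit 3469352403142), .ofNat (nat_lit 181587342619), .negSucc (nat_lit
 23738234471690), .ofNat (nat_lit 16941447589623), .negSucc (nat_lit 27308143968439), .ofNat
 (nat_lit 50079888096290), .negSucc (nat_lit 17243599301911), .ofNat (nat_lit 1904264016799),
 .ofNat (nat_lit 4811194306923), .ofNat (nat_lit 11631112749677), .ofNat (nat_lit 302527911323),
 .negSucc (nat_lit 35177640871703), .ofNat (nat_lit 11970580988302), .ofNat (nat_lit
 50385395436767), .negSucc (nat_lit 10065223247170), .ofNat (nat_lit 8436786346150), .negSucc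
 (nat_lit 878596379758), .negSucc (nat_lit 878508246243), .ofNat (nat_lit 5400239584171), .negSucc
 (nat_lit 2791500614123), .ofNat (nat_lit 17489558327060), .negSucc (nat_lit 17961392661689),
 .negSucc (nat_lit 3781022152003), .ofNat (nat_lit 26960092406533)]), ((nat_lit 15, nat_lit 2,
 false), [.negSucc (nat_lit 31310946683420223), .negSucc (nat_lit 2837488236953591), .negSucc
 (nat_lit 169017532100970), .negSucc (nat_lit 1039044146802), .ofNat (nat_lit 5236224471225),
 .negSucc (nat_lit 11125933570065), .ofNat (nat_lit 29872811481151), .ofNat (nat_lit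
 37366523807379), .negSucc (nat_lit 14285030075067), .ofNat (nat_lit 45967576274926), .ofNat
 (nat_lit 38077486249223), .ofNat (nat_lit 76815118979003), .ofNat (nat_lit 770818293716), .negSucc
 (nat_lit 6208336990670), .ofNat (nat_lit 16586986685587), .ofNat (nat_lit 38117342042351), .ofNat
 (nat_lit 36904624561439), .negSucc (nat_lit 38871193397911), .ofNat (nat_lit 28264303508036),
 .ofNat (nat_lit 87762388381980), .ofNat (nat_lit 6039863408215), .negSucc (nat_lit 117600616647),
 .negSucc (nat_lit 841157142965), .negSucc (nat_lit 2148012352801), .negSucc (nat_lit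
 23436726352999), .negSucc (nat_lit 12125337058778), .ofNat (nat_lit 12195244082210), .negSucc
 (nat_lit 23675229167988), .ofNat (nat_lit 12185701373017), .ofNat (nat_lit 29750064644120)]),
 ((nat_lit 20, nat_lit 1, false), [.negSucc (nat_lit 38520517630547245), .ofNat (nat_lit
 7661976349626952), .ofNat (nat_lit 455564390366420), .ofNat (nat_lit 12046230931151), .negSucc
 (nat_lit 45552721372760), .negSucc (nat_lit 30217054936558), .ofNat (nat_lit 40832591417763),
 .negSucc (nat_lit 4158803471302), .ofNat (nat_lit 37002582224670), .ofNat (nat_lit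
 37108350859815), .ofNat (nat_lit 7296450611909), .negSucc (nat_lit 13419361636284), .ofNat
 (nat_lit 1472777382990), .negSucc (nat_lit 28835021896324), .ofNat (nat_lit 79379810999966),
 .negSucc (nat_lit 8911132694437), .ofNat (nat_lit 32457962273003), .ofNat (nat_lit 8342732296951),
 .ofNat (nat_lit 40727271905542), .negSucc (nat_lit 21866796211716), .ofNat (nat_lit
 40110019485434), .ofNat (nat_lit 14192598014349), .ofNat (nat_lit 6291915412430), .ofNat (nat_lit
 9778642191575), .ofNat (nat_lit 60537384899450), .negSucc (nat_lit 23505278612782), .ofNat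
 (nat_lit 58306999128645), .negSucc (nat_lit 16046333970237), .negSucc (nat_lit 26316601980138),
 .negSucc (nat_lit 16314678148046), .ofNat (nat_lit 93445756654958)]), ((nat_lit 20, nat_lit 2,
 false), [.ofNat (nat_lit 6612831070738915), .ofNat (nat_lit 1631413083269235), .ofNat (nat_lit
 95560626763706), .ofNat (nat_lit 2622541039289), .negSucc (nat_lit 14892010613333), .negSucc
 (nat_lit 4926814158527), .negSucc (nat_lit 11635714041787), .negSucc (nat_lit 2821080014047),
 .ofNat (nat_lit 31235810586026), .negSucc (nat_lit 5862943628312), .negSucc (nat_lit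
 37803679435665), .negSucc (nat_lit 10889861938727), .ofNat (nat_lit 8671297829127), .ofNat
 (nat_lit 29462206008288), .ofNat (nat_lit 23681404392730), .negSucc (nat_lit 17698816906812),
 .negSucc (nat_lit 37979850191915), .negSucc (nat_lit 35121747214816), .ofNat (nat_lit
 35135744326371), .ofNat (nat_lit 77255403276634), .negSucc (nat_lit 4956575560841), .ofNat
 (nat_lit 45180306270384), .negSucc (nat_lit 1098293349274), .negSucc (nat_lit 38227778655251),
 .ofNat (nat_lit 12101610868451), .ofNat (nat_lit 41750763237575), .negSucc (nat_lit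
 19111162150942), .ofNat (nat_lit 82444581774422), .ofNat (nat_lit 35830026246731), .ofNat (nat_lit
 39609328614187), .negSucc (nat_lit 44548451349409), .ofNat (nat_lit 103748927488785)]), ((nat_lit
 18, nat_lit 1, false), [.ofNat (nat_lit 12489133419713300), .negSucc (nat_lit 334455740202844),
 .negSucc (nat_lit 21018535874250), .negSucc (nat_lit 1111186922932), .ofNat (nat_lit
 9656486562259), .ofNat (nat_lit 9311125415472), .negSucc (nat_lit 20715853964589), .ofNat (nat_lit
 2869928474231), .negSucc (nat_lit 36680010912007), .negSucc (nat_lit 26204641795263), .ofNat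
 (nat_lit 16418482388645), .ofNat (nat_lit 14297360032823), .ofNat (nat_lit 3827065699005),
 .negSucc (nat_lit 33238298272132), .negSucc (nat_lit 28620988069802), .negSucc (nat_lit
 10686923527364), .ofNat (nat_lit 12978605901637), .negSucc (nat_lit 14884190711277), .ofNat
 (nat_lit 19695728353780), .negSucc (nat_lit 11430532402620), .ofNat (nat_lit 58990597441162),
 .negSucc (nat_lit 19531516238573), .negSucc (nat_lit 5016607717067), .ofNat (nat_lit
 6215796263752), .negSucc (nat_lit 24967361711738), .ofNat (nat_lit 11597350648962), .negSucc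
 (nat_lit 32783512051766), .ofNat (nat_lit 6038528255298), .ofNat (nat_lit 42193274809279),
 .negSucc (nat_lit 5086008634014), .negSucc (nat_lit 56585500825548), .negSucc (nat_lit
 3654254390993), .ofNat (nat_lit 38533043497590)]), ((nat_lit 18, nat_lit 2, false), [.negSucc
 (nat_lit 4474425798435185), .negSucc (nat_lit 9859884592919616), .negSucc (nat_lit
 578506979187575), .negSucc (nat_lit 20045718216883), .ofNat (nat_lit 22883707734261), .ofNat
 (nat_lit 4214134042255), .negSucc (nat_lit 9861008825912), .negSucc (nat_lit 25837853947783),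
 .negSucc (nat_lit 29842327528169), .negSucc (nat_lit 24415235724462), .ofNat (nat_lit
 2591351483796), .ofNat (nat_lit 9933408364777), .ofNat (nat_lit 4839484189014), .ofNat (nat_lit
 48763483068687), .negSucc (nat_lit 11960978283131), .ofNat (nat_lit 12334289905574), .ofNat
 (nat_lit 4884538282463), .ofNat (nat_lit 42062234727786), .negSucc (nat_lit 35130514587652),
 .ofNat (nat_lit 29750749956595), .ofNat (nat_lit 34582372136598), .ofNat (nat_lit 89544317057866),
 .ofNat (nat_lit 3431840831829), .ofNat (nat_lit 27150543095940), .ofNat (nat_lit 2915645514671),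
 .negSucc (nat_lit 20529439038579), .ofNat (nat_lit 16290077644987), .negSucc (nat_lit
 33302897084893), .negSucc (nat_lit 30500838481636), .ofNat (nat_lit 14134768535154), .ofNat
 (nat_lit 25023971692565), .negSucc (nat_lit 54347889803924), .ofNat (nat_lit 8975047725445),
 .ofNat (nat_lit 44421529545390)]), ((nat_lit 24, nat_lit 1, false), [.negSucc (nat_lit
 17772116015373633), .negSucc (nat_lit 12644000842367595), .negSucc (nat_lit 746081688050945),
 .negSucc (nat_lit 1695493676048), .ofNat (nat_lit 36620900492008), .ofNat (nat_lit
 10092116748571), .ofNat (nat_lit 6909054067132), .ofNat (nat_lit 8295637662585), .negSucc (nat_lit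
 55747005797482), .negSucc (nat_lit 3816152165369), .negSucc (nat_lit 9351181146169), .ofNat
 (nat_lit 18714309908630), .ofNat (nat_lit 8343648715749), .ofNat (nat_lit 33787414017877),
 .negSucc (nat_lit 5037639385142), .ofNat (nat_lit 12466937686895), .negSucc (nat_lit
 49558644129004), .negSucc (nat_lit 22659880746657), .negSucc (nat_lit 23057881560949), .negSucc
 (nat_lit 21584154575464), .ofNat (nat_lit 89058480495913), .ofNat (nat_lit 8362244502821), .ofNat
 (nat_lit 12408766699967), .negSucc (nat_lit 30101635393435), .ofNat (nat_lit 11132716233404),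
 .ofNat (nat_lit 6635394623780), .ofNat (nat_lit 9308895115279), .negSucc (nat_lit 5913216849973),
 .ofNat (nat_lit 17153969548569), .negSucc (nat_lit 11440298704850), .ofNat (nat_lit
 24902416338067), .negSucc (nat_lit 9619689393007), .ofNat (nat_lit 47836093390847), .negSucc
 (nat_lit 13667834447530), .ofNat (nat_lit 56685670963820)]), ((nat_lit 24, nat_lit 2, false),
 [.negSucc (nat_lit 12441871661423146), .negSucc (nat_lit 7879715763940178), .negSucc (nat_lit
 454591402381992), .negSucc (nat_lit 19602041196414), .negSucc (nat_lit 48575661670492), .negSucc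
 (nat_lit 16006236983744), .ofNat (nat_lit 17833485550650), .negSucc (nat_lit 12287732399946),
 .ofNat (nat_lit 50944441454720), .ofNat (nat_lit 23833298425038), .negSucc (nat_lit
 12575382810793), .negSucc (nat_lit 38471546735749), .negSucc (nat_lit 3544953415989), .negSucc
 (nat_lit 76526842655563), .ofNat (nat_lit 29050824852095), .negSucc (nat_lit 12579439891943),
 .negSucc (nat_lit 59456894732976), .negSucc (nat_lit 35845913316696), .ofNat (nat_lit
 17763955167966), .ofNat (nat_lit 21200818500928), .negSucc (nat_lit 57080019572107), .ofNat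
 (nat_lit 69628836400012), .ofNat (nat_lit 2763719768103), .ofNat (nat_lit 103478616572053), .ofNat
 (nat_lit 32085468309958), .negSucc (nat_lit 20343059750415), .ofNat (nat_lit 17525853402591),
 .ofNat (nat_lit 9656932812887), .negSucc (nat_lit 38747956641590), .ofNat (nat_lit 9293802974637),
 .ofNat (nat_lit 7923037152127), .ofNat (nat_lit 31359198609216), .ofNat (nat_lit 21302504147540),
 .ofNat (nat_lit 69188516894297), .negSucc (nat_lit 2466220755307), .ofNat (nat_lit
 56941478912614)]), ((nat_lit 32, nat_lit 1, false), [.negSucc (nat_lit 1842298710431545), .negSucc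
 (nat_lit 7569093316834075), .negSucc (nat_lit 448242229877475), .negSucc (nat_lit 4076005151752),
 .ofNat (nat_lit 21921664282398), .ofNat (nat_lit 7145273993532), .negSucc (nat_lit 6781289123459),
 .ofNat (nat_lit 8234853058858), .negSucc (nat_lit 39317512388646), .negSucc (nat_lit
 19096061785810), .ofNat (nat_lit 24212505827375), .ofNat (nat_lit 11615404767600), .ofNat (nat_lit
 4478119212326), .ofNat (nat_lit 5294234295497), .negSucc (nat_lit 17123599231001), .ofNat (nat_lit
 8081926446837), .negSucc (nat_lit 10902082098836), .negSucc (nat_lit 3071677485369), .negSucc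
 (nat_lit 28830662534729), .ofNat (nat_lit 4421505987797), .negSucc (nat_lit 21500504398021),
 .ofNat (nat_lit 1079764053366), .negSucc (nat_lit 2177102114709), .ofNat (nat_lit 21034333822749),
 .negSucc (nat_lit 16001661396278), .ofNat (nat_lit 3122980530753), .negSucc (nat_lit
 4147130162032), .ofNat (nat_lit 141297810994), .ofNat (nat_lit 28136251164542), .ofNat (nat_lit
 9881160808377), .negSucc (nat_lit 11806435401133), .negSucc (nat_lit 6274645908298), .ofNat
 (nat_lit 9478207735660), .negSucc (nat_lit 13369430852200), .ofNat (nat_lit 56149082718554),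
 .negSucc (nat_lit 445436487623), .ofNat (nat_lit 6279748635131)]), ((nat_lit 32, nat_lit 2,
 false), [.ofNat (nat_lit 1570676767587020), .ofNat (nat_lit 10421666579294203), .ofNat (nat_lit
 616377737181755), .ofNat (nat_lit 6901868116584), .negSucc (nat_lit 33089791429516), .negSucc
 (nat_lit 13094076574644), .ofNat (nat_lit 7661738373937), .negSucc (nat_lit 9043328373386), .ofNat
 (nat_lit 57641501704954), .ofNat (nat_lit 23315357545994), .negSucc (nat_lit 20762732131105),
 .negSucc (nat_lit 12691672797959), .negSucc (nat_lit 3239288273171), .negSucc (nat_lit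
 5486764982748), .ofNat (nat_lit 29552791737556), .negSucc (nat_lit 9169240373885), .ofNat (nat_lit
 26253206488103), .ofNat (nat_lit 15345351950860), .ofNat (nat_lit 30301693578739), .ofNat (nat_lit
 8074052977362), .negSucc (nat_lit 32846327729964), .negSucc (nat_lit 22608511070756), .negSucc
 (nat_lit 4718525200126), .negSucc (nat_lit 62931928254955), .ofNat (nat_lit 23370944634644),
 .negSucc (nat_lit 5293580788651), .ofNat (nat_lit 806163740052), .negSucc (nat_lit
 13487212613399), .negSucc (nat_lit 13774971035011), .negSucc (nat_lit 10148760323115), .ofNat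
 (nat_lit 15207031243932), .negSucc (nat_lit 17357831466101), .ofNat (nat_lit 14388512243399),
 .ofNat (nat_lit 21772092269695), .negSucc (nat_lit 13000600059376), .ofNat (nat_lit
 49270074642247), .negSucc (nat_lit 3596257467906), .ofNat (nat_lit 29442425184881)]), ((nat_lit
 13, nat_lit 1, false), [.negSucc (nat_lit 9692557824623814), .ofNat (nat_lit 1213644394580848),
 .ofNat (nat_lit 74280898918428), .negSucc (nat_lit 5514319314960), .negSucc (nat_lit
 11769419780637), .negSucc (nat_lit 14539409136924), .ofNat (nat_lit 10078729794253), .negSucc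
 (nat_lit 3996349530897), .ofNat (nat_lit 46342807917804), .ofNat (nat_lit 12868488432081),
 .negSucc (nat_lit 1886857415900), .negSucc (nat_lit 7017231398416), .ofNat (nat_lit 915362520460),
 .negSucc (nat_lit 2360180218190), .ofNat (nat_lit 38646987245630), .negSucc (nat_lit
 9166453245001), .negSucc (nat_lit 3337172347417), .ofNat (nat_lit 1982178582589), .ofNat (nat_lit
 10769205944529), .ofNat (nat_lit 2621225448284), .negSucc (nat_lit 4679223348219), .ofNat (nat_lit
 1772270020857), .ofNat (nat_lit 1265143249691), .negSucc (nat_lit 2548027488771), .ofNat (nat_lit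
 15519827652703), .negSucc (nat_lit 4162971101443), .ofNat (nat_lit 3384618395398), .ofNat (nat_lit
 2895608519424), .negSucc (nat_lit 12351689777462), .ofNat (nat_lit 153714659626), .ofNat (nat_lit
 3681944546708), .ofNat (nat_lit 4227916424534), .ofNat (nat_lit 1685079447009), .ofNat (nat_lit
 4667274223254), .ofNat (nat_lit 234811656448), .ofNat (nat_lit 2545469338133), .negSucc (nat_lit
 288897980224), .negSucc (nat_lit 1251207405644), .ofNat (nat_lit 10310040532658)]), ((nat_lit 13,
 nat_lit 2, false), [.ofNat (nat_lit 7639850177412108), .negSucc (nat_lit 6608600802905535),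
 .negSucc (nat_lit 390707446976096), .ofNat (nat_lit 1003044899483), .ofNat (nat_lit
 23094539295179), .ofNat (nat_lit 27149429582064), .negSucc (nat_lit 12889459850321), .negSucc
 (nat_lit 1001147783516), .negSucc (nat_lit 48893194887906), .negSucc (nat_lit 4374865003599),
 .ofNat (nat_lit 17904293486902), .ofNat (nat_lit 11016683375703), .ofNat (nat_lit 3430767532937),
 .ofNat (nat_lit 4797799301686), .negSucc (nat_lit 41446034544018), .ofNat (nat_lit
 23030818908418), .negSucc (nat_lit 21036273172868), .ofNat (nat_lit 722040844690), .negSucc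
 (nat_lit 13572101413244), .negSucc (nat_lit 5836810595840), .ofNat (nat_lit 9597971056351),
 .negSucc (nat_lit 2899643455948), .negSucc (nat_lit 859897551882), .ofNat (nat_lit 6196130759318),
 .negSucc (nat_lit 8709117665795), .ofNat (nat_lit 24899288523535), .negSucc (nat_lit
 10980268399519), .negSucc (nat_lit 4454306187913), .ofNat (nat_lit 13777147622399), .ofNat
 (nat_lit 1368554829489), .negSucc (nat_lit 4877721498672), .negSucc (nat_lit 2857682568166),
 .negSucc (nat_lit 1349470014006), .negSucc (nat_lit 3436739098519), .negSucc (nat_lit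
 714116614181), .negSucc (nat_lit 1707358605000), .ofNat (nat_lit 243930888054), .ofNat (nat_lit
 1429068479362), .negSucc (nat_lit 7413310815058), .ofNat (nat_lit 9125844067355)]), ((nat_lit 22,
 nat_lit 1, false), [.negSucc (nat_lit 46759664670695268), .ofNat (nat_lit 24873694729645559),
 .ofNat (nat_lit 1471084559787114), .ofNat (nat_lit 28111402666382), .negSucc (nat_lit
 86660973272978), .negSucc (nat_lit 49710172880973), .ofNat (nat_lit 76284135189694), .negSucc
 (nat_lit 15099594539901), .ofNat (nat_lit 118854580471615), .ofNat (nat_lit 91970311797835),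
 .negSucc (nat_lit 36919986074950), .negSucc (nat_lit 41559775317487), .negSucc (nat_lit
 10659495898011), .negSucc (nat_lit 21232502663238), .ofNat (nat_lit 133662670883619), .negSucc
 (nat_lit 9623004780145), .ofNat (nat_lit 77077876768635), .negSucc (nat_lit 421902924076), .ofNat
 (nat_lit 38414382293425), .ofNat (nat_lit 13814168303130), .negSucc (nat_lit 22506592009939),
 .ofNat (nat_lit 6337008529920), .ofNat (nat_lit 2610381465546), .negSucc (nat_lit 13962105347399),
 .ofNat (nat_lit 24901783133441), .negSucc (nat_lit 38968770149538), .ofNat (nat_lit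
 37789179659416), .ofNat (nat_lit 9887384648284), .negSucc (nat_lit 34633029031093), .negSucc
 (nat_lit 1343307403495), .ofNat (nat_lit 11280723791941), .ofNat (nat_lit 9477279475889), .ofNat
 (nat_lit 3591921451102), .ofNat (nat_lit 11279533982712), .ofNat (nat_lit 1109092109069), .ofNat
 (nat_lit 6284514932216), .negSucc (nat_lit 675656934751), .negSucc (nat_lit 3403461438061), .ofNat
 (nat_lit 24727282131009), .negSucc (nat_lit 10257222319445), .ofNat (nat_lit 6277187242808)]),
 ((nat_lit 22, nat_lit 2, false), [.ofNat (nat_lit 60496215541753060), .negSucc (nat_lit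
 54250126095448137), .negSucc (nat_lit 3194444203017128), .negSucc (nat_lit 67737025079300), .ofNat
 (nat_lit 109819392326920), .ofNat (nat_lit 62886635090636), .negSucc (nat_lit 117407946125143),
 .ofNat (nat_lit 12988029918801), .negSucc (nat_lit 135061193463695), .negSucc (nat_lit
 158681683300721), .ofNat (nat_lit 88931821254255), .ofNat (nat_lit 67905325194652), .ofNat
 (nat_lit 23612744872798), .ofNat (nat_lit 33135480728431), .negSucc (nat_lit 147151871412049),
 .negSucc (nat_lit 34610219732390), .negSucc (nat_lit 148042390375250), .ofNat (nat_lit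
 25218391876942), .negSucc (nat_lit 43757946064673), .negSucc (nat_lit 11053931309207), .ofNat
 (nat_lit 30186020598289), .negSucc (nat_lit 2998729600760), .negSucc (nat_lit 34337194913), .ofNat
 (nat_lit 19150720499596), .ofNat (nat_lit 40901846834229), .ofNat (nat_lit 58346174603528),
 .negSucc (nat_lit 47252905446905), .ofNat (nat_lit 13046770823431), .ofNat (nat_lit
 34753886322218), .ofNat (nat_lit 15648826182472), .negSucc (nat_lit 27954975063087), .negSucc
 (nat_lit 2395315674277), .negSucc (nat_lit 1253855504191), .negSucc (nat_lit 2342592437872),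
 .negSucc (nat_lit 2509189942436), .ofNat (nat_lit 274495109308), .ofNat (nat_lit 676445548102),
 .ofNat (nat_lit 9427256047481), .negSucc (nat_lit 2945253984041), .ofNat (nat_lit 37790608987836),
 .negSucc (nat_lit 9534122112343), .ofNat (nat_lit 29028232309686)]), ((nat_lit 21, nat_lit 1,
 false), [.ofNat (nat_lit 23766595788649405), .negSucc (nat_lit 40161984686471659), .negSucc
 (nat_lit 2377156590136160), .negSucc (nat_lit 28807283970662), .ofNat (nat_lit 143987827026964),
 .ofNat (nat_lit 61659898200638), .negSucc (nat_lit 66950150274122), .ofNat (nat_lit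
 19159186827159), .negSucc (nat_lit 233541643419994), .negSucc (nat_lit 120918294189909), .ofNat
 (nat_lit 82811187090959), .ofNat (nat_lit 72173706497190), .ofNat (nat_lit 21435234299738), .ofNat
 (nat_lit 29922394350147), .negSucc (nat_lit 149725885180050), .ofNat (nat_lit 32984348545815),
 .negSucc (nat_lit 82337535162058), .negSucc (nat_lit 33597613918813), .negSucc (nat_lit
 110980501216538), .negSucc (nat_lit 26213163196027), .ofNat (nat_lit 52537404416744), .negSucc
 (nat_lit 9261819271227), .negSucc (nat_lit 8995007205721), .ofNat (nat_lit 39413198557570),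
 .negSucc (nat_lit 46780637176246), .ofNat (nat_lit 44680403343691), .negSucc (nat_lit
 45665100058330), .negSucc (nat_lit 33722616063315), .ofNat (nat_lit 132263562802676), .ofNat
 (nat_lit 6636584089054), .negSucc (nat_lit 50244788993593), .negSucc (nat_lit 42246066061188),
 .negSucc (nat_lit 13342550495694), .negSucc (nat_lit 35868543837988), .negSucc (nat_lit
 6586543772952), .negSucc (nat_lit 19992149314007), .ofNat (nat_lit 1916764044522), .ofNat (nat_lit
 7081998377247), .negSucc (nat_lit 88999313832225), .ofNat (nat_lit 16095956391559), .negSucc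
 (nat_lit 809141174206), .ofNat (nat_lit 18559751521152), .ofNat (nat_lit 38933340664907)]),
 ((nat_lit 21, nat_lit 2, false), [.negSucc (nat_lit 678939831117475), .ofNat (nat_lit
 88819956130559089), .ofNat (nat_lit 5229792119195180), .ofNat (nat_lit 88227845342106), .negSucc
 (nat_lit 149397440873546), .negSucc (nat_lit 64233995848135), .ofNat (nat_lit 92417027148086),
 .negSucc (nat_lit 11585242326626), .ofNat (nat_lit 254588334639170), .ofNat (nat_lit
 165189759544162), .negSucc (nat_lit 160542170940686), .negSucc (nat_lit 84829465591748), .negSucc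
 (nat_lit 50216820750771), .negSucc (nat_lit 70185688596321), .ofNat (nat_lit 128791899000897),
 .ofNat (nat_lit 6132203442315), .ofNat (nat_lit 212540770724843), .ofNat (nat_lit 65273705153690),
 .ofNat (nat_lit 114480542077102), .ofNat (nat_lit 37426473334638), .negSucc (nat_lit
 47628757704296), .ofNat (nat_lit 3026336354265), .ofNat (nat_lit 5139688788483), .negSucc (nat_lit
 47342961251592), .negSucc (nat_lit 13784958201492), .negSucc (nat_lit 21609402550117), .ofNat
 (nat_lit 42107138800383), .ofNat (nat_lit 43024456618048), .negSucc (nat_lit 93700137734315),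
 .negSucc (nat_lit 7966178163597), .ofNat (nat_lit 75971462243362), .ofNat (nat_lit
 33760121725467), .ofNat (nat_lit 7237633990728), .ofNat (nat_lit 21486585478593), .ofNat (nat_lit
 6859782250462), .ofNat (nat_lit 13770513100864), .negSucc (nat_lit 2454576052819), .negSucc
 (nat_lit 15779379841966), .ofNat (nat_lit 51903340487181), .negSucc (nat_lit 41902659969971),
 .ofNat (nat_lit 4779554142714), .negSucc (nat_lit 63190634026620), .negSucc (nat_lit
 2280195420872), .ofNat (nat_lit 49609679928769)]), ((nat_lit 28, nat_lit 1, false), [.ofNat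
 (nat_lit 20041592749623288), .ofNat (nat_lit 45499359678479500), .ofNat (nat_lit
 2683388798588531), .ofNat (nat_lit 34875981289319), .negSucc (nat_lit 98212342804974), .negSucc
 (nat_lit 30190709334798), .ofNat (nat_lit 28608489910903), .negSucc (nat_lit 14984168240336),
 .ofNat (nat_lit 186127948328241), .ofNat (nat_lit 78694628594058), .negSucc (nat_lit
 83895199885517), .negSucc (nat_lit 60491841691409), .negSucc (nat_lit 27697027346744), .negSucc
 (nat_lit 32194851036957), .ofNat (nat_lit 67701379250558), .negSucc (nat_lit 29323012434309),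
 .ofNat (nat_lit 99575463861427), .ofNat (nat_lit 46434485034413), .ofNat (nat_lit 90033936460894),
 .ofNat (nat_lit 3468417360877), .negSucc (nat_lit 26454527153474), .ofNat (nat_lit 6664346742205),
 .ofNat (nat_lit 7580668970356), .negSucc (nat_lit 24217997380052), .ofNat (nat_lit
 39666539046527), .negSucc (nat_lit 21417942937003), .ofNat (nat_lit 34820931221074), .ofNat
 (nat_lit 21598611346282), .negSucc (nat_lit 89895945375386), .negSucc (nat_lit 20728966491932),
 .ofNat (nat_lit 80143566692018), .ofNat (nat_lit 18600576652485), .ofNat (nat_lit 9821658998359),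
 .ofNat (nat_lit 28395778775075), .negSucc (nat_lit 3064538196862), .ofNat (nat_lit
 13936549280519), .negSucc (nat_lit 2737019814517), .negSucc (nat_lit 21816749407136), .ofNat
 (nat_lit 51659138398874), .negSucc (nat_lit 3125213159376), .ofNat (nat_lit 19594688899229),
 .negSucc (nat_lit 28571944839885), .ofNat (nat_lit 33917194431734), .ofNat (nat_lit
 5507690195067), .ofNat (nat_lit 19710895643267)]), ((nat_lit 28, nat_lit 2, false), [.negSucc
 (nat_lit 33651885149585630), .negSucc (nat_lit 82304594040315379), .negSucc (nat_lit
 4847829796993715), .negSucc (nat_lit 71083338190463), .ofNat (nat_lit 137393787085250), .ofNat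
 (nat_lit 43469207809928), .negSucc (nat_lit 54270340392276), .ofNat (nat_lit 20119481985615),
 .negSucc (nat_lit 261136013247457), .negSucc (nat_lit 129357233278389), .ofNat (nat_lit
 145996224402490), .ofNat (nat_lit 93075177187998), .ofNat (nat_lit 52720704633523), .ofNat
 (nat_lit 55033988584003), .negSucc (nat_lit 82031871386225), .ofNat (nat_lit 20252263561839),
 .negSucc (nat_lit 202580567676440), .negSucc (nat_lit 87677301122120), .negSucc (nat_lit
 105483259678483), .ofNat (nat_lit 9320874711212), .ofNat (nat_lit 47629482942252), .ofNat (nat_lit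
 6138035962328), .negSucc (nat_lit 7217156152632), .ofNat (nat_lit 22398469603424), .negSucc
 (nat_lit 6003762443925), .ofNat (nat_lit 37418169613096), .negSucc (nat_lit 34353228179695),
 .negSucc (nat_lit 13797568483248), .ofNat (nat_lit 126742304933338), .ofNat (nat_lit
 41420430353636), .negSucc (nat_lit 87928158528681), .ofNat (nat_lit 13099858559727), .negSucc
 (nat_lit 12193499027068), .negSucc (nat_lit 27076739290734), .negSucc (nat_lit 3472120759321),
 .negSucc (nat_lit 10686809009120), .ofNat (nat_lit 2424018336529), .ofNat (nat_lit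
 21035330787796), .negSucc (nat_lit 59836072598889), .ofNat (nat_lit 23978046635823), .ofNat
 (nat_lit 287285197318), .ofNat (nat_lit 59217476913656), .ofNat (nat_lit 4024222150537), .ofNat
 (nat_lit 24713068821561), .negSucc (nat_lit 16974787013618), .ofNat (nat_lit 28837529931426)]),
 ((nat_lit 25, nat_lit 1, false), [.negSucc (nat_lit 11976679623724130), .ofNat (nat_lit
 24385373316612962), .ofNat (nat_lit 1446563289290884), .ofNat (nat_lit 13072887005529), .negSucc
 (nat_lit 104218067083406), .negSucc (nat_lit 42614930196301), .ofNat (nat_lit 41268006146471),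
 .negSucc (nat_lit 21578689519694), .ofNat (nat_lit 181719999648159), .ofNat (nat_lit
 75042406257072), .negSucc (nat_lit 44796465333926), .negSucc (nat_lit 58147610556466), .negSucc
 (nat_lit 14896918454515), .negSucc (nat_lit 18648163716882), .ofNat (nat_lit 108992126859459),
 .negSucc (nat_lit 32810650469257), .ofNat (nat_lit 45900089031484), .ofNat (nat_lit
 29021049780460), .ofNat (nat_lit 99247653276998), .ofNat (nat_lit 14082042529818), .negSucc
 (nat_lit 36216209384988), .ofNat (nat_lit 7666961533014), .ofNat (nat_lit 6885642685362), .negSucc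
 (nat_lit 27034872270493), .ofNat (nat_lit 41997517904260), .negSucc (nat_lit 25265139834720),
 .ofNat (nat_lit 24870808894395), .ofNat (nat_lit 23297735454498), .negSucc (nat_lit
 88369085189928), .negSucc (nat_lit 6119709228526), .ofNat (nat_lit 38794019633815), .ofNat
 (nat_lit 34347356497968), .ofNat (nat_lit 11199454127636), .ofNat (nat_lit 30026429211751), .ofNat
 (nat_lit 5246762192259), .ofNat (nat_lit 16511756504781), .negSucc (nat_lit 1544763660201),
 .negSucc (nat_lit 5362939926802), .ofNat (nat_lit 71175908824928), .negSucc (nat_lit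
 9604964681199), .negSucc (nat_lit 653096565800), .negSucc (nat_lit 13919795812697), .negSucc
 (nat_lit 29289472315376), .negSucc (nat_lit 13560100559), .negSucc (nat_lit 301697035375),
 .negSucc (nat_lit 67266367418), .ofNat (nat_lit 3241436324654)]), ((nat_lit 25, nat_lit 2, false),
 [.negSucc (nat_lit 17592739293051138), .negSucc (nat_lit 59980032863746330), .negSucc (nat_lit
 3533698154484105), .negSucc (nat_lit 52489011288175), .ofNat (nat_lit 109979653192950), .ofNat
 (nat_lit 37485915116642), .negSucc (nat_lit 45020221232936), .ofNat (nat_lit 19282574204065),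
 .negSucc (nat_lit 197304977766427), .negSucc (nat_lit 96722401249848), .ofNat (nat_lit
 117543797201442), .ofNat (nat_lit 81822966546766), .ofNat (nat_lit 35111456223095), .ofNat
 (nat_lit 39563297452039), .negSucc (nat_lit 79498579143396), .ofNat (nat_lit 21397972001892),
 .negSucc (nat_lit 128716099603738), .negSucc (nat_lit 54549013737982), .negSucc (nat_lit
 81117709698340), .ofNat (nat_lit 7359992219303), .ofNat (nat_lit 40031434602816), .negSucc
 (nat_lit 4291264258720), .negSucc (nat_lit 4972944447444), .ofNat (nat_lit 31755261779140),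
 .negSucc (nat_lit 15226695810400), .ofNat (nat_lit 14469941786928), .negSucc (nat_lit
 25218489976669), .negSucc (nat_lit 38104680643458), .ofNat (nat_lit 84833633099616), .ofNat
 (nat_lit 29249174318651), .negSucc (nat_lit 52089576850159), .negSucc (nat_lit 25950809870924),
 .negSucc (nat_lit 6000030296789), .negSucc (nat_lit 17412908844210), .negSucc (nat_lit
 5969683844738), .negSucc (nat_lit 11452853240100), .ofNat (nat_lit 1737749655239), .ofNat (nat_lit
 10152342380924), .negSucc (nat_lit 41028870305501), .ofNat (nat_lit 28048772759624), .negSucc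
 (nat_lit 1304595478807), .ofNat (nat_lit 41284682892636), .ofNat (nat_lit 2141188308216), .negSucc
 (nat_lit 37909173750667), .negSucc (nat_lit 726308771598), .negSucc (nat_lit 875434887742),
 .negSucc (nat_lit 3001251735337), .ofNat (nat_lit 6352970964230)]), ((nat_lit 30, nat_lit 1,
 false), [.negSucc (nat_lit 29771839613370505), .negSucc (nat_lit 25902506010222360), .negSucc
 (nat_lit 1524750043064455), .negSucc (nat_lit 16186876155983), .ofNat (nat_lit 42041696757580),
 .ofNat (nat_lit 4048273726983), .negSucc (nat_lit 1769661555888), .ofNat (nat_lit 7648223146334),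
 .negSucc (nat_lit 101902744504094), .negSucc (nat_lit 35761347991320), .ofNat (nat_lit
 55860322420937), .ofNat (nat_lit 35053494059505), .ofNat (nat_lit 17897578409316), .ofNat (nat_lit
 9376392631371), .negSucc (nat_lit 13620536569374), .ofNat (nat_lit 14348489103637), .negSucc
 (nat_lit 50422954685134), .negSucc (nat_lit 29675309235562), .negSucc (nat_lit 25797501304606),
 .negSucc (nat_lit 11331667999468), .ofNat (nat_lit 41163429739025), .negSucc (nat_lit
 6282146164933), .negSucc (nat_lit 4067991753834), .ofNat (nat_lit 28536736235931), .ofNat (nat_lit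
 3366120171285), .ofNat (nat_lit 3555939370994), .negSucc (nat_lit 7038828895), .negSucc (nat_lit
 21329526840041), .ofNat (nat_lit 54738123735302), .negSucc (nat_lit 8513637232958), .negSucc
 (nat_lit 37338024239763), .negSucc (nat_lit 22232235590077), .ofNat (nat_lit 16548045436728),
 .negSucc (nat_lit 16930506246350), .ofNat (nat_lit 2244988033064), .negSucc (nat_lit
 5676460879530), .ofNat (nat_lit 2094492500874), .ofNat (nat_lit 16758729177773), .negSucc (nat_lit
 38174543336287), .negSucc (nat_lit 2126676646567), .negSucc (nat_lit 3208612537407), .ofNat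
 (nat_lit 24263908057657), .negSucc (nat_lit 21770025527664), .negSucc (nat_lit 1613307242528),
 .negSucc (nat_lit 14436054782792), .ofNat (nat_lit 3640895743708), .ofNat (nat_lit
 11868103509427), .negSucc (nat_lit 6227525597410), .ofNat (nat_lit 20899459555851)]), ((nat_lit
 30, nat_lit 2, false), [.ofNat (nat_lit 39542099939994141), .ofNat (nat_lit 40699097086319165),
 .ofNat (nat_lit 2397077091363991), .ofNat (nat_lit 23461291533492), .negSucc (nat_lit
 77370417594022), .negSucc (nat_lit 12812334230465), .ofNat (nat_lit 4855507731564), .negSucc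
 (nat_lit 14059579950411), .ofNat (nat_lit 168203982342223), .ofNat (nat_lit 54317996157997),
 .negSucc (nat_lit 93034905149443), .negSucc (nat_lit 59025982750323), .negSucc (nat_lit
 23106785227959), .negSucc (nat_lit 18141979737012), .ofNat (nat_lit 45090589499422), .negSucc
 (nat_lit 37770721563749), .ofNat (nat_lit 89412077144231), .ofNat (nat_lit 50195413453973), .ofNat
 (nat_lit 50116127771947), .ofNat (nat_lit 24475894760601), .negSucc (nat_lit 24046888154674),
 .ofNat (nat_lit 38008800302954), .ofNat (nat_lit 7928994629278), .negSucc (nat_lit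
 29676301919164), .ofNat (nat_lit 18425736711975), .negSucc (nat_lit 8676902623997), .ofNat
 (nat_lit 5252053552590), .ofNat (nat_lit 37302065001360), .negSucc (nat_lit 79193953521094),
 .ofNat (nat_lit 19346565605972), .ofNat (nat_lit 59827637691677), .ofNat (nat_lit 49690896426352),
 .ofNat (nat_lit 16928786772768), .ofNat (nat_lit 57033812920258), .negSucc (nat_lit 827290708600),
 .ofNat (nat_lit 12592608291961), .negSucc (nat_lit 2404306098732), .negSucc (nat_lit
 15654674300638), .ofNat (nat_lit 61541035100505), .negSucc (nat_lit 4789104832102), .negSucc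
 (nat_lit 2298141409865), .negSucc (nat_lit 32483957174442), .ofNat (nat_lit 1748881346041),
 .negSucc (nat_lit 19030946334878), .ofNat (nat_lit 16206596503487), .negSucc (nat_lit
 27358432829353), .ofNat (nat_lit 725212284558), .ofNat (nat_lit 20976995004051), .negSucc (nat_lit
 16360090652422), .ofNat (nat_lit 34582656646362)]), ((nat_lit 40, nat_lit 1, false), [.ofNat
 (nat_lit 46980014626371620), .ofNat (nat_lit 8406830289400867), .ofNat (nat_lit 493535696405048),
 .negSucc (nat_lit 1881262241069), .ofNat (nat_lit 294804373531), .ofNat (nat_lit 19786357814231),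
 .negSucc (nat_lit 33801323202641), .negSucc (nat_lit 3641778316544), .ofNat (nat_lit
 33511868317507), .negSucc (nat_lit 10103228697000), .negSucc (nat_lit 22951376387920), .negSucc
 (nat_lit 2313284431303), .negSucc (nat_lit 6642627187814), .negSucc (nat_lit 5917768634856),
 .negSucc (nat_lit 42255578543440), .negSucc (nat_lit 18632168678984), .ofNat (nat_lit
 14469528865752), .ofNat (nat_lit 10851771361616), .ofNat (nat_lit 2690594989117), .negSucc
 (nat_lit 2545765960854), .ofNat (nat_lit 5260626075768), .ofNat (nat_lit 4159118691413), .ofNat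
 (nat_lit 3395425176130), .negSucc (nat_lit 21696800835833), .ofNat (nat_lit 2486763195817), .ofNat
 (nat_lit 10650310385664), .negSucc (nat_lit 7078054320759), .ofNat (nat_lit 5783496727738),
 .negSucc (nat_lit 12237596509287), .ofNat (nat_lit 2364355810810), .ofNat (nat_lit
 26612521321738), .ofNat (nat_lit 27455010074655), .ofNat (nat_lit 5866378853885), .negSucc
 (nat_lit 3180138772068), .ofNat (nat_lit 26044150005347), .ofNat (nat_lit 12197956911358), .ofNat
 (nat_lit 1140621379422), .ofNat (nat_lit 20304916602114), .ofNat (nat_lit 31531986008461), .ofNat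
 (nat_lit 3671153803433), .ofNat (nat_lit 17402425859847), .negSucc (nat_lit 20570110501416),
 .ofNat (nat_lit 18258158427280), .ofNat (nat_lit 21307979019602), .ofNat (nat_lit 14225013642544),
 .negSucc (nat_lit 9078914057156), .ofNat (nat_lit 9416338449801), .negSucc (nat_lit
 2849452277459), .ofNat (nat_lit 12071545530594), .negSucc (nat_lit 2145065504052), .ofNat (nat_lit
 37935968977602)]), ((nat_lit 40, nat_lit 2, false), [.negSucc (nat_lit 24195435313107086),
 .negSucc (nat_lit 7066403575913193), .negSucc (nat_lit 418723777760136), .ofNat (nat_lit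
 2727001304386), .ofNat (nat_lit 23754704278275), .negSucc (nat_lit 2907329725889), .ofNat (nat_lit
 12450019902155), .ofNat (nat_lit 11087438624016), .negSucc (nat_lit 61260371892802), .negSucc
 (nat_lit 9295535672352), .ofNat (nat_lit 13493453955276), .ofNat (nat_lit 3812296420465), .ofNat
 (nat_lit 1001625865279), .ofNat (nat_lit 12742605666887), .negSucc (nat_lit 13682347897027),
 .ofNat (nat_lit 27065268805535), .negSucc (nat_lit 16300187459857), .negSucc (nat_lit
 7293992952304), .negSucc (nat_lit 13352421975034), .negSucc (nat_lit 5667414967513), .negSucc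
 (nat_lit 7656775851489), .negSucc (nat_lit 8669235249992), .negSucc (nat_lit 4109014569242),
 .ofNat (nat_lit 43736067055184), .negSucc (nat_lit 18507254987622), .negSucc (nat_lit
 2729336091856), .negSucc (nat_lit 13489033286937), .negSucc (nat_lit 11535852067943), .ofNat
 (nat_lit 18928325769378), .negSucc (nat_lit 19085231818076), .negSucc (nat_lit 50133878807954),
 .negSucc (nat_lit 56303835579904), .ofNat (nat_lit 22423759453666), .ofNat (nat_lit
 30657247933699), .negSucc (nat_lit 30029757370528), .ofNat (nat_lit 2805962593189), .negSucc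
 (nat_lit 2127059822556), .negSucc (nat_lit 30925651819350), .negSucc (nat_lit 42123663603090),
 .negSucc (nat_lit 1669905541436), .ofNat (nat_lit 19063645771649), .ofNat (nat_lit
 21894162349866), .ofNat (nat_lit 20995142725308), .negSucc (nat_lit 1546399634863), .ofNat
 (nat_lit 2842163827847), .ofNat (nat_lit 38526961528935), .ofNat (nat_lit 1210590562008), .ofNat
 (nat_lit 5984583363213), .negSucc (nat_lit 710432952442), .ofNat (nat_lit 31827561927266),
 .negSucc (nat_lit 36883249859998), .ofNat (nat_lit 29530576387003)]), ((nat_lit 27, nat_lit 1,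
 false), [.ofNat (nat_lit 7711493587266297), .ofNat (nat_lit 3241603814222255), .ofNat (nat_lit
 190894573723439), .ofNat (nat_lit 1066130150346), .negSucc (nat_lit 4842384312354), .ofNat
 (nat_lit 1267486671420), .negSucc (nat_lit 4260209238114), .negSucc (nat_lit 2640065463083),
 .ofNat (nat_lit 8828830697343), .ofNat (nat_lit 1345430423731), .negSucc (nat_lit 7775205710222),
 .negSucc (nat_lit 1917637288526), .negSucc (nat_lit 1744419557342), .negSucc (nat_lit
 8640472816712), .negSucc (nat_lit 1531298949469), .negSucc (nat_lit 5635169374708), .ofNat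
 (nat_lit 6755358411769), .ofNat (nat_lit 1013049278333), .ofNat (nat_lit 3593642633822), .ofNat
 (nat_lit 512915355494), .ofNat (nat_lit 1161573897664), .negSucc (nat_lit 3801064498203), .negSucc
 (nat_lit 91559230019), .negSucc (nat_lit 6583726574131), .negSucc (nat_lit 4184672460249), .ofNat
 (nat_lit 1952640966571), .negSucc (nat_lit 7885711713986), .ofNat (nat_lit 4664693615048), .ofNat
 (nat_lit 3461283682876), .ofNat (nat_lit 4182435600069), .ofNat (nat_lit 379077450114), .ofNat
 (nat_lit 7895757730602), .ofNat (nat_lit 5303608777318), .ofNat (nat_lit 3315738139836), .ofNat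
 (nat_lit 428680385453), .ofNat (nat_lit 4433448901138), .negSucc (nat_lit 544188254226), .negSucc
 (nat_lit 3445550196696), .ofNat (nat_lit 12121241711931), .ofNat (nat_lit 2322255433988), .negSucc
 (nat_lit 1432097617618), .negSucc (nat_lit 5047616434247), .ofNat (nat_lit 7310887199494),
 .negSucc (nat_lit 490983325595), .ofNat (nat_lit 3004445614862), .negSucc (nat_lit 1770259089020),
 .negSucc (nat_lit 2308780564188), .ofNat (nat_lit 3857114181532), .negSucc (nat_lit
 10958073785091), .ofNat (nat_lit 311741641338), .negSucc (nat_lit 525369754192), .ofNat (nat_lit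
 301545626039), .ofNat (nat_lit 5513813914121)]), ((nat_lit 27, nat_lit 2, false), [.negSucc
 (nat_lit 12741212376061208), .negSucc (nat_lit 5297776097465969), .negSucc (nat_lit
 309959585828931), .negSucc (nat_lit 5574889008190), .ofNat (nat_lit 1106509190117), .negSucc
 (nat_lit 4179595328741), .ofNat (nat_lit 6830199401178), .negSucc (nat_lit 1972014559653),
 .negSucc (nat_lit 2051894862918), .negSucc (nat_lit 745852973241), .ofNat (nat_lit
 13749722926261), .ofNat (nat_lit 1583651501903), .ofNat (nat_lit 2608274341791), .ofNat (nat_lit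
 9023884509302), .ofNat (nat_lit 7550774976826), .ofNat (nat_lit 5470716255924), .negSucc (nat_lit
 9146881398494), .ofNat (nat_lit 1887402818938), .ofNat (nat_lit 6056186112743), .ofNat (nat_lit
 4748188632997), .ofNat (nat_lit 8400996837011), .ofNat (nat_lit 14155055077107), .ofNat (nat_lit
 209198335951), .ofNat (nat_lit 9702951211386), .ofNat (nat_lit 3131536461407), .negSucc (nat_lit
 9989453930570), .ofNat (nat_lit 13273168053257), .negSucc (nat_lit 5295414066589), .negSucc
 (nat_lit 15124833393224), .negSucc (nat_lit 3979688373340), .negSucc (nat_lit 7928338194450),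
 .negSucc (nat_lit 23715886946594), .ofNat (nat_lit 4584213696863), .ofNat (nat_lit 7417557456461),
 .ofNat (nat_lit 1104858821184), .negSucc (nat_lit 2816457168488), .ofNat (nat_lit 308670594491),
 .ofNat (nat_lit 1707412158883), .negSucc (nat_lit 11481875407783), .negSucc (nat_lit
 1250956423456), .ofNat (nat_lit 523716702830), .ofNat (nat_lit 3914280670947), .negSucc (nat_lit
 1797588993339), .ofNat (nat_lit 7269848841598), .negSucc (nat_lit 6112587011084), .ofNat (nat_lit
 6924911922548), .negSucc (nat_lit 202056083098), .negSucc (nat_lit 4986018141218), .ofNat (nat_lit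
 8874828291221), .negSucc (nat_lit 20585346449471), .negSucc (nat_lit 153452782893), .negSucc
 (nat_lit 1115197708544), .negSucc (nat_lit 2692599728484), .ofNat (nat_lit 6255929179302)]),
 ((nat_lit 36, nat_lit 1, false), [.negSucc (nat_lit 25695258509509787), .negSucc (nat_lit
 6756579951287066), .negSucc (nat_lit 396617329355309), .negSucc (nat_lit 931584402794), .ofNat
 (nat_lit 2457631691980), .negSucc (nat_lit 7947263049840), .ofNat (nat_lit 17442330312671), .ofNat
 (nat_lit 3499647697728), .negSucc (nat_lit 12336857880901), .ofNat (nat_lit 6393454802360), .ofNat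
 (nat_lit 5463492439597), .ofNat (nat_lit 609624641196), .ofNat (nat_lit 5135577987050), .ofNat
 (nat_lit 12445130999885), .ofNat (nat_lit 24422202679072), .ofNat (nat_lit 7354235712552),
 .negSucc (nat_lit 22203750005619), .negSucc (nat_lit 7436830726446), .ofNat (nat_lit
 2118761324629), .ofNat (nat_lit 5007640895), .ofNat (nat_lit 15227587117639), .ofNat (nat_lit
 2775438509599), .ofNat (nat_lit 2178568185950), .negSucc (nat_lit 10011534555112), .ofNat (nat_lit
 12699668877305), .negSucc (nat_lit 4260071248859), .ofNat (nat_lit 9131648718279), .negSucc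
 (nat_lit 3547483907376), .ofNat (nat_lit 958436400216), .negSucc (nat_lit 7702044909281), .ofNat
 (nat_lit 228545257270), .negSucc (nat_lit 20686300671801), .ofNat (nat_lit 28747072900543), .ofNat
 (nat_lit 4316839579754), .ofNat (nat_lit 13073503383867), .negSucc (nat_lit 3335484089092),
 .negSucc (nat_lit 1109798120605), .negSucc (nat_lit 7913067170618), .negSucc (nat_lit
 6661864625011), .negSucc (nat_lit 298878491812), .negSucc (nat_lit 7873518179953), .ofNat (nat_lit
 10846694540202), .negSucc (nat_lit 9091488564243), .negSucc (nat_lit 10603824317997), .negSucc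
 (nat_lit 6998414987150), .ofNat (nat_lit 6736184936982), .negSucc (nat_lit 359964788265), .ofNat
 (nat_lit 3493038629444), .negSucc (nat_lit 1330515715174), .ofNat (nat_lit 2867631121046),
 .negSucc (nat_lit 24721719817667), .ofNat (nat_lit 2847821074022), .ofNat (nat_lit
 11836448633847), .ofNat (nat_lit 1077435830006), .ofNat (nat_lit 13420299597489)]), ((nat_lit 36,
 nat_lit 2, false), [.negSucc (nat_lit 8863708522426302), .negSucc (nat_lit 3068068189496453),
 .negSucc (nat_lit 171263723622515), .negSucc (nat_lit 13692613036902), .negSucc (nat_lit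
 56531699512598), .negSucc (nat_lit 20191552305944), .ofNat (nat_lit 14060947125437), .negSucc
 (nat_lit 16755559447529), .ofNat (nat_lit 81531094821260), .ofNat (nat_lit 30843677221645), .ofNat
 (nat_lit 2292081993356), .negSucc (nat_lit 20915613611281), .ofNat (nat_lit 369389202800),
 .negSucc (nat_lit 23555601236582), .ofNat (nat_lit 57855003973085), .negSucc (nat_lit
 25174936998130), .negSucc (nat_lit 21335169092522), .negSucc (nat_lit 12078966160737), .ofNat
 (nat_lit 33031745696127), .ofNat (nat_lit 11343039912978), .negSucc (nat_lit 38662484687869),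
 .ofNat (nat_lit 23535577988952), .ofNat (nat_lit 6685870301483), .ofNat (nat_lit 1327514142661),
 .ofNat (nat_lit 39013653246759), .negSucc (nat_lit 16188286651865), .ofNat (nat_lit
 25213594633075), .ofNat (nat_lit 11444034887241), .negSucc (nat_lit 52359152773230), .ofNat
 (nat_lit 17121396891061), .ofNat (nat_lit 40520539370789), .ofNat (nat_lit 61046293439295),
 .negSucc (nat_lit 10023215887603), .ofNat (nat_lit 26979527247798), .ofNat (nat_lit
 25486272864655), .ofNat (nat_lit 49828219846715), .ofNat (nat_lit 1265534879881), .ofNat (nat_lit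
 18094399543703), .ofNat (nat_lit 30639156015859), .ofNat (nat_lit 627662716897), .negSucc (nat_lit
 7938916778900), .negSucc (nat_lit 7604728788515), .negSucc (nat_lit 10276210059871), .negSucc
 (nat_lit 2239451166432), .negSucc (nat_lit 2256735829995), .negSucc (nat_lit 22131278353424),
 .ofNat (nat_lit 6306013068614), .ofNat (nat_lit 1569187072040), .negSucc (nat_lit 136845703619),
 .negSucc (nat_lit 15342730651392), .ofNat (nat_lit 20502108982308), .negSucc (nat_lit
 19676340255517), .ofNat (nat_lit 2293939656531), .ofNat (nat_lit 12116326923932), .negSucc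
 (nat_lit 6229963299831), .ofNat (nat_lit 9649656142098)]), ((nat_lit 48, nat_lit 1, false),
 [.negSucc (nat_lit 1587629435892387), .negSucc (nat_lit 11028077961250225), .negSucc (nat_lit
 649659430860467), .negSucc (nat_lit 10346617457610), .ofNat (nat_lit 16827196449391), .ofNat
 (nat_lit 6318136376141), .negSucc (nat_lit 9629051351868), .ofNat (nat_lit 4497926029161),
 .negSucc (nat_lit 29417624757990), .negSucc (nat_lit 19683631577600), .ofNat (nat_lit
 27833682237206), .ofNat (nat_lit 12031226634194), .ofNat (nat_lit 6087167402551), .ofNat (nat_lit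
 7083985975508), .negSucc (nat_lit 11984443422119), .ofNat (nat_lit 660761579823), .negSucc
 (nat_lit 21771284968421), .negSucc (nat_lit 5019299794392), .negSucc (nat_lit 20146135837567),
 .ofNat (nat_lit 3296531904040), .negSucc (nat_lit 16287166073195), .ofNat (nat_lit 1013138486424),
 .negSucc (nat_lit 549728707355), .ofNat (nat_lit 13013622135646), .negSucc (nat_lit
 6506419806171), .ofNat (nat_lit 2151982856611), .negSucc (nat_lit 4011782452105), .ofNat (nat_lit
 436909069812), .ofNat (nat_lit 13989201865360), .ofNat (nat_lit 14528903396761), .negSucc (nat_lit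
 8231949749296), .ofNat (nat_lit 1872538309890), .ofNat (nat_lit 976915685619), .negSucc (nat_lit
 1592770780731), .ofNat (nat_lit 36220447979068), .ofNat (nat_lit 6733285661568), .ofNat (nat_lit
 3819484194647), .negSucc (nat_lit 4482136860028), .negSucc (nat_lit 996325163150), .ofNat (nat_lit
 2802258262975), .negSucc (nat_lit 4612126635433), .ofNat (nat_lit 6006616089154), .negSucc
 (nat_lit 3209763007700), .ofNat (nat_lit 6284872957545), .negSucc (nat_lit 3233798635842),
 .negSucc (nat_lit 3516250485047), .ofNat (nat_lit 1970618535443), .ofNat (nat_lit 4255747005439),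
 .ofNat (nat_lit 160205738909), .ofNat (nat_lit 2211803383867), .ofNat (nat_lit 5649312111630),
 .negSucc (nat_lit 2559903459673), .ofNat (nat_lit 8931971358216), .ofNat (nat_lit 3519596738079),
 .ofNat (nat_lit 20639823280494), .ofNat (nat_lit 5699143088329), .ofNat (nat_lit
 11602039330046)]), ((nat_lit 48, nat_lit 2, false), [.ofNat (nat_lit 5340416405455943), .ofNat
 (nat_lit 14222896230257884), .ofNat (nat_lit 839395869605620), .ofNat (nat_lit 10182468411501),
 .negSucc (nat_lit 32975647426674), .negSucc (nat_lit 11773689894510), .ofNat (nat_lit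
 7441129863102), .negSucc (nat_lit 7785979747887), .ofNat (nat_lit 62236111951582), .ofNat (nat_lit
 24819395345447), .negSucc (nat_lit 30216487691258), .negSucc (nat_lit 17369775105927), .negSucc
 (nat_lit 6276291475443), .negSucc (nat_lit 8180246436280), .ofNat (nat_lit 24473506014940),
 .negSucc (nat_lit 8592660708437), .ofNat (nat_lit 33197373771087), .ofNat (nat_lit
 18265676841816), .ofNat (nat_lit 34551476549347), .ofNat (nat_lit 9273729132463), .negSucc
 (nat_lit 24918932921416), .negSucc (nat_lit 18654269474804), .negSucc (nat_lit 4693261528578),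
 .negSucc (nat_lit 45586630094159), .ofNat (nat_lit 15316137474067), .negSucc (nat_lit
 5742662634310), .negSucc (nat_lit 2412194933173), .negSucc (nat_lit 7460494183325), .negSucc
 (nat_lit 17426003795052), .negSucc (nat_lit 12396543112609), .ofNat (nat_lit 5967690412925),
 .negSucc (nat_lit 20162118773880), .ofNat (nat_lit 7918151664413), .ofNat (nat_lit
 17319178286826), .negSucc (nat_lit 22321536094066), .ofNat (nat_lit 36194900518031), .negSucc
 (nat_lit 2284164134486), .ofNat (nat_lit 32975785303225), .ofNat (nat_lit 11987786397428),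
 .negSucc (nat_lit 3851343194629), .ofNat (nat_lit 3751898306538), .negSucc (nat_lit
 7835066962415), .ofNat (nat_lit 3768358332337), .negSucc (nat_lit 2586986543210), .ofNat (nat_lit
 5409603050251), .ofNat (nat_lit 2809947722184), .ofNat (nat_lit 3342242942027), .negSucc (nat_lit
 2345020313984), .ofNat (nat_lit 5744954050628), .ofNat (nat_lit 624466301549), .negSucc (nat_lit
 9972488486672), .ofNat (nat_lit 6940793076555), .ofNat (nat_lit 6440993224724), .ofNat (nat_lit
 3303868689739), .ofNat (nat_lit 1080092459791), .ofNat (nat_lit 9201200745663), .negSucc (nat_lit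
 977012995596), .ofNat (nat_lit 7717695584674)]), ((nat_lit 64, nat_lit 1, false), [.negSucc
 (nat_lit 1922813073849921), .negSucc (nat_lit 1527210676599854), .negSucc (nat_lit
 88295771791451), .negSucc (nat_lit 3326905693201), .negSucc (nat_lit 6645936064275), .negSucc
 (nat_lit 2794540947776), .ofNat (nat_lit 507031224416), .negSucc (nat_lit 1773724953501), .ofNat
 (nat_lit 11966542943199), .ofNat (nat_lit 2188675104390), .ofNat (nat_lit 1656895096363), .negSucc
 (nat_lit 2618603599626), .ofNat (nat_lit 745455640583), .ofNat (nat_lit 2377932123460), .ofNat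
 (nat_lit 7867324281349), .negSucc (nat_lit 4794745891134), .negSucc (nat_lit 5161401971480),
 .ofNat (nat_lit 557509002802), .ofNat (nat_lit 9519765315464), .ofNat (nat_lit 1277095248455),
 .negSucc (nat_lit 1117106902388), .negSucc (nat_lit 1124481919219), .ofNat (nat_lit 332105529293),
 .negSucc (nat_lit 2373962101750), .ofNat (nat_lit 7436343561280), .negSucc (nat_lit
 2349878382096), .ofNat (nat_lit 1059773690370), .ofNat (nat_lit 122443813836), .negSucc (nat_lit
 9916676051275), .ofNat (nat_lit 419656911099), .negSucc (nat_lit 292829816296), .ofNat (nat_lit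
 2504915111682), .ofNat (nat_lit 265733868759), .ofNat (nat_lit 8303881853157), .negSucc (nat_lit
 13354495216040), .ofNat (nat_lit 2730759878247), .negSucc (nat_lit 980573061606), .ofNat (nat_lit
 4217810026636), .ofNat (nat_lit 3225436009165), .ofNat (nat_lit 260962395046), .negSucc (nat_lit
 4001264925878), .ofNat (nat_lit 1794827941840), .negSucc (nat_lit 2687912391163), .negSucc
 (nat_lit 892670423307), .negSucc (nat_lit 1923897587152), .ofNat (nat_lit 635563615760), .negSucc
 (nat_lit 717354440775), .ofNat (nat_lit 1239809377810), .negSucc (nat_lit 690073379482), .ofNat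
 (nat_lit 1778432173897), .negSucc (nat_lit 7709924329872), .negSucc (nat_lit 5149938109094),
 .ofNat (nat_lit 2690277311096), .ofNat (nat_lit 2399047994522), .ofNat (nat_lit 7218509390006),
 .ofNat (nat_lit 5844600104282), .ofNat (nat_lit 11108204717944), .ofNat (nat_lit 441123204861),
 .ofNat (nat_lit 2665874448354)]), ((nat_lit 64, nat_lit 2, false), [.ofNat (nat_lit
 191930244519452), .negSucc (nat_lit 372199349019706), .negSucc (nat_lit 21988682426212), .negSucc
 (nat_lit 184195316780), .ofNat (nat_lit 812736742848), .ofNat (nat_lit 651414030689), .negSucc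
 (nat_lit 73951237450), .ofNat (nat_lit 267106347305), .negSucc (nat_lit 1533017714101), .negSucc
 (nat_lit 439415583246), .ofNat (nat_lit 877412435624), .ofNat (nat_lit 568284286538), .ofNat
 (nat_lit 90615722580), .negSucc (nat_lit 766655828910), .negSucc (nat_lit 416261459226), .negSucc
 (nat_lit 170423499901), .negSucc (nat_lit 1201797115918), .negSucc (nat_lit 1268250060237),
 .negSucc (nat_lit 2039311546966), .negSucc (nat_lit 655486926688), .ofNat (nat_lit 2856861862017),
 .ofNat (nat_lit 2973935547487), .ofNat (nat_lit 914019021329), .ofNat (nat_lit 2214607191447),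
 .negSucc (nat_lit 168035357678), .ofNat (nat_lit 640018487515), .ofNat (nat_lit 1751671417814),
 .ofNat (nat_lit 1482485528463), .ofNat (nat_lit 154912186705), .ofNat (nat_lit 1712477915689),
 .ofNat (nat_lit 3071323314648), .ofNat (nat_lit 5092298773360), .negSucc (nat_lit 732087385637),
 .negSucc (nat_lit 2433983818600), .ofNat (nat_lit 1559284058032), .negSucc (nat_lit
 5912190594345), .negSucc (nat_lit 373908199276), .negSucc (nat_lit 8030245161169), .negSucc
 (nat_lit 1642724357926), .ofNat (nat_lit 345961845554), .negSucc (nat_lit 2781166964006), .ofNat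
 (nat_lit 1356526761665), .negSucc (nat_lit 2712578709939), .ofNat (nat_lit 2327245113370),
 .negSucc (nat_lit 1257809638534), .negSucc (nat_lit 4160100022767), .negSucc (nat_lit
 704064086913), .negSucc (nat_lit 252883712866), .negSucc (nat_lit 826992043410), .negSucc (nat_lit
 1856698769911), .ofNat (nat_lit 5892076586975), .negSucc (nat_lit 3894686653739), .ofNat (nat_lit
 1370219368915), .negSucc (nat_lit 2507430367915), .ofNat (nat_lit 7295579994701), .negSucc
 (nat_lit 595580845120), .negSucc (nat_lit 425865806787), .ofNat (nat_lit 7245399971376), .negSucc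
 (nat_lit 2650372580197), .ofNat (nat_lit 771573344670)])]

/-- the commands -/
noncomputable def C3 : List Cmd := [.m (nat_lit 1) (nat_lit 13595822178870984370701402260784685023128986358642578125000000000000000) B3]

theorem c_ok3 : okL 7 ES C3 = true := by decide +kernel

end Pool.Agent.H5.HT.D7
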