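import Pool.Agent.H5.HT.D7.D

/-! # Certificate data (7 jets, exponent 129/125) -/

set_option autoImplicit false

namespace Pool.Agent.H5.HT.D7

open Pool.Agent.H58.BJ
open Pool.Agent.H5.HT

/-- block 5, 2 -/
noncomputable def B4 : List (Row × List ℤ) := [((nat_lit 1, nat_lit 1, false), [.ofNat (nat_lit 599340221136462)]), ((nat_lit 1, nat_lit 2,
 false), [.ofNat (nat_lit 807104716468654), .ofNat (nat_lit 780635301049704)]), ((nat_lit 1,
 nat_lit 3, false), [.ofNat (nat_lit 1554354431796134), .negSucc (nat_lit 645410722888074), .ofNat
 (nat_lit 149714524925880)]), ((nat_lit 1, nat_lit 4, false), [.ofNat (nat_lit 1785924321950955),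
 .ofNat (nat_lit 1331358336985290), .negSucc (nat_lit 1126316368307348), .ofNat (nat_lit
 110232554273683)]), ((nat_lit 2, nat_lit 1, false), [.negSucc (nat_lit 1071784017661525), .negSucc
 (nat_lit 2785600350345659), .ofNat (nat_lit 909810886398568), .negSucc (nat_lit 36909678035035),
 .ofNat (nat_lit 32380545869401)]), ((nat_lit 2, nat_lit 2, false), [.ofNat (nat_lit
 6562058630497626), .negSucc (nat_lit 5307177160342633), .negSucc (nat_lit 7231716636139803),
 .ofNat (nat_lit 863790708002465), .ofNat (nat_lit 119797879799374), .ofNat (nat_lit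
 84857537487731)]), ((nat_lit 2, nat_lit 3, false), [.negSucc (nat_lit 5585095623647158), .negSucc
 (nat_lit 855127845798633), .negSucc (nat_lit 1825786285558750), .ofNat (nat_lit 197713210551624),
 .ofNat (nat_lit 58533329449149), .ofNat (nat_lit 27445945466200), .ofNat (nat_lit
 21044854178709)]), ((nat_lit 2, nat_lit 4, false), [.ofNat (nat_lit 4164371700372527), .negSucc
 (nat_lit 2211590010197457), .negSucc (nat_lit 426326693704161), .ofNat (nat_lit 47120371390200),
 .negSucc (nat_lit 873957301292), .ofNat (nat_lit 35186596275922), .ofNat (nat_lit 2252987413295),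
 .ofNat (nat_lit 56726150339485)]), ((nat_lit 3, nat_lit 1, false), [.negSucc (nat_lit
 22096986897479825), .negSucc (nat_lit 6193287945125000), .ofNat (nat_lit 6293054747998775),
 .negSucc (nat_lit 557448229982939), .ofNat (nat_lit 66108602474578), .negSucc (nat_lit
 45150690330564), .ofNat (nat_lit 6236366041321), .negSucc (nat_lit 6886556823286), .ofNat (nat_lit
 39108040531679)]), ((nat_lit 3, nat_lit 2, false), [.negSucc (nat_lit 10378184435859694), .negSucc
 (nat_lit 25381107706332136), .ofNat (nat_lit 4435449242097302), .negSucc (nat_lit 89385396103005),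
 .ofNat (nat_lit 233942316039163), .ofNat (nat_lit 36819916065308), .ofNat (nat_lit
 12699485609425), .negSucc (nat_lit 46102258033502), .ofNat (nat_lit 32173855876004), .ofNat
 (nat_lit 74420615791379)]), ((nat_lit 3, nat_lit 3, false), [.negSucc (nat_lit 10193525765424912),
 .negSucc (nat_lit 6436073479600458), .negSucc (nat_lit 6536132118910742), .ofNat (nat_lit
 807412881453823), .ofNat (nat_lit 221471742771598), .ofNat (nat_lit 84854348533090), .ofNat
 (nat_lit 47350033535028), .ofNat (nat_lit 3604152945460), .ofNat (nat_lit 9235070654658), .ofNat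
 (nat_lit 26366803868052), .ofNat (nat_lit 83754913402511)]), ((nat_lit 3, nat_lit 4, false),
 [.ofNat (nat_lit 185289905083191), .negSucc (nat_lit 6581169122282611), .ofNat (nat_lit
 8493110418514366), .negSucc (nat_lit 835167255107322), .negSucc (nat_lit 46663959931023), .negSucc
 (nat_lit 50414565049632), .negSucc (nat_lit 428538026039), .ofNat (nat_lit 67655273147250), .ofNat
 (nat_lit 14687968882584), .ofNat (nat_lit 34413699963727), .negSucc (nat_lit 23325882424510),
 .ofNat (nat_lit 70820002467378)]), ((nat_lit 4, nat_lit 1, false), [.negSucc (nat_lit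
 9893216180738080), .negSucc (nat_lit 4883133064485665), .negSucc (nat_lit 736606520847233), .ofNat
 (nat_lit 188154254062893), .ofNat (nat_lit 116424077214851), .ofNat (nat_lit 33007728767570),
 .ofNat (nat_lit 6278237099285), .negSucc (nat_lit 8497165848111), .ofNat (nat_lit 39986880053469),
 .ofNat (nat_lit 1018379916189), .negSucc (nat_lit 1521060404272), .ofNat (nat_lit 1702098982669),
 .ofNat (nat_lit 10963417880077)]), ((nat_lit 4, nat_lit 2, false), [.negSucc (nat_lit
 22713708506148112), .negSucc (nat_lit 3155319892423628), .negSucc (nat_lit 1698811013152476),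
 .ofNat (nat_lit 236753877141974), .ofNat (nat_lit 140274886658368), .ofNat (nat_lit
 19577875926372), .ofNat (nat_lit 35350739257558), .ofNat (nat_lit 23043123929548), .ofNat (nat_lit
 37325854882645), .ofNat (nat_lit 16571462333656), .ofNat (nat_lit 69892311366774), .negSucc
 (nat_lit 69720392819111), .negSucc (nat_lit 10237927732276), .ofNat (nat_lit 102879336875393)]),
 ((nat_lit 4, nat_lit 3, false), [.negSucc (nat_lit 2618682024549940), .negSucc (nat_lit
 5226715552239296), .ofNat (nat_lit 50522752725020), .ofNat (nat_lit 103742216719902), .ofNat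
 (nat_lit 52493389860843), .negSucc (nat_lit 7466191598718), .negSucc (nat_lit 12208817275508),
 .negSucc (nat_lit 5483175980481), .ofNat (nat_lit 26568302201138), .ofNat (nat_lit
 17338291729893), .ofNat (nat_lit 81775041384377), .negSucc (nat_lit 10330698376730), .negSucc
 (nat_lit 1407236833354), .ofNat (nat_lit 22755158416111), .ofNat (nat_lit 65535252077859)]),
 ((nat_lit 4, nat_lit 4, false), [.negSucc (nat_lit 20137370078822810), .negSucc (nat_lit
 9714931704692096), .ofNat (nat_lit 21182671970419842), .negSucc (nat_lit 2142041070747122),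
 .negSucc (nat_lit 116218056076887), .negSucc (nat_lit 205628853663402), .ofNat (nat_lit
 1027611027431), .negSucc (nat_lit 96554974008842), .ofNat (nat_lit 3268943677132), .ofNat (nat_lit
 39638920284258), .negSucc (nat_lit 39861249598905), .ofNat (nat_lit 55503148121977), .ofNat
 (nat_lit 3434869849985), .negSucc (nat_lit 13014206858631), .ofNat (nat_lit 10172097526138),
 .ofNat (nat_lit 83453738115582)]), ((nat_lit 5, nat_lit 1, false), [.negSucc (nat_lit
 8262748725252621), .negSucc (nat_lit 8362307432987483), .negSucc (nat_lit 755283142002227), .ofNat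
 (nat_lit 257516629943553), .ofNat (nat_lit 146478181392531), .ofNat (nat_lit 25998883975959),
 .ofNat (nat_lit 7459421492615), .ofNat (nat_lit 3578345616373), .ofNat (nat_lit 39541636453487),
 .negSucc (nat_lit 29656409698094), .ofNat (nat_lit 12949342600016), .negSucc (nat_lit
 21843437579949), .negSucc (nat_lit 14408328418138), .ofNat (nat_lit 21557126940315), .negSucc
 (nat_lit 9770663209536), .negSucc (nat_lit 1085366937248), .ofNat (nat_lit 41071683111051)]),
 ((nat_lit 5, nat_lit 2, false), [.ofNat (nat_lit 17018543073332517), .ofNat (nat_lit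
 12599040635953007), .negSucc (nat_lit 11941107327098825), .ofNat (nat_lit 1060527303736465),
 .negSucc (nat_lit 41902225575827), .ofNat (nat_lit 104574069281771), .negSucc (nat_lit
 13531953832809), .negSucc (nat_lit 25605576560139), .negSucc (nat_lit 10638502077601), .ofNat
 (nat_lit 86750579986220), .negSucc (nat_lit 8825483191988), .negSucc (nat_lit 37148999829682),
 .negSucc (nat_lit 11570257670123), .negSucc (nat_lit 8142010693185), .negSucc (nat_lit
 5413756131317), .ofNat (nat_lit 13514132178237), .ofNat (nat_lit 24897167922018), .ofNat (nat_lit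
 94671697932840)]), ((nat_lit 5, nat_lit 3, false), [.negSucc (nat_lit 1282315565286751), .negSucc
 (nat_lit 10166842553239260), .negSucc (nat_lit 1452625418927307), .ofNat (nat_lit
 314514751977548), .ofNat (nat_lit 174684058927579), .ofNat (nat_lit 40680414587891), .ofNat
 (nat_lit 29219920856989), .ofNat (nat_lit 21059320985468), .negSucc (nat_lit 4833344942562),
 .ofNat (nat_lit 52620225323578), .ofNat (nat_lit 93718098492198), .ofNat (nat_lit 33988424237199),
 .negSucc (nat_lit 2470822893800), .negSucc (nat_lit 31237648307479), .negSucc (nat_lit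
 12307039804608), .ofNat (nat_lit 10557526147245), .negSucc (nat_lit 2144199094390), .ofNat
 (nat_lit 36454909745262), .ofNat (nat_lit 65819650046153)]), ((nat_lit 5, nat_lit 4, false),
 [.ofNat (nat_lit 728037783866276), .negSucc (nat_lit 1967690985740037), .ofNat (nat_lit
 10106645627778897), .negSucc (nat_lit 1079361656268765), .negSucc (nat_lit 130053943783035),
 .negSucc (nat_lit 91778720231756), .negSucc (nat_lit 5837867780830), .ofNat (nat_lit
 60629498434240), .ofNat (nat_lit 23040170281092), .ofNat (nat_lit 32425783789273), .negSucc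
 (nat_lit 29071424570912), .ofNat (nat_lit 122588160156618), .negSucc (nat_lit 11062210753102),
 .ofNat (nat_lit 12269250656203), .negSucc (nat_lit 3476975430363), .negSucc (nat_lit
 3361745641818), .ofNat (nat_lit 10526843422485), .ofNat (nat_lit 20219173907504), .negSucc
 (nat_lit 2529118988667), .ofNat (nat_lit 55530739681857)]), ((nat_lit 6, nat_lit 1, false),
 [.negSucc (nat_lit 4976576149749454), .ofNat (nat_lit 2098779926312276), .ofNat (nat_lit
 12392052849115935), .negSucc (nat_lit 1427129018271801), .negSucc (nat_lit 226667697914463),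
 .negSucc (nat_lit 122569666143093), .negSucc (nat_lit 30492272298574), .negSucc (nat_lit
 13274191058557), .ofNat (nat_lit 44768483560086), .ofNat (nat_lit 38901641582952), .negSucc
 (nat_lit 55967284858840), .ofNat (nat_lit 47482971098444), .ofNat (nat_lit 14535836040802),
 .negSucc (nat_lit 62886402565602), .negSucc (nat_lit 14670046339817), .ofNat (nat_lit
 3915815628559), .ofNat (nat_lit 23123749943533), .negSucc (nat_lit 8521491361149), .ofNat (nat_lit
 2717819650145), .negSucc (nat_lit 4904210366890), .ofNat (nat_lit 63739114704454)]), ((nat_lit 6,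
 nat_lit 2, false), [.ofNat (nat_lit 22560455213770710), .ofNat (nat_lit 3134071967555857),
 .negSucc (nat_lit 5479979917920426), .ofNat (nat_lit 528354545688451), .negSucc (nat_lit
 31946884517967), .ofNat (nat_lit 37653040011234), .ofNat (nat_lit 16547035103737), .ofNat (nat_lit
 34158316265515), .negSucc (nat_lit 65353453507076), .ofNat (nat_lit 5654320595758), .negSucc
 (nat_lit 6225749151453), .negSucc (nat_lit 57282036569212), .negSucc (nat_lit 11555587356918),
 .ofNat (nat_lit 121385419483489), .negSucc (nat_lit 1717855944438), .negSucc (nat_lit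
 24240998684400), .ofNat (nat_lit 13566007587371), .ofNat (nat_lit 71340926342070), .ofNat (nat_lit
 23841137969753), .negSucc (nat_lit 42160212914855), .ofNat (nat_lit 15125775202771), .ofNat
 (nat_lit 119942442316218)]), ((nat_lit 6, nat_lit 3, false), [.negSucc (nat_lit
 11266665405368181), .negSucc (nat_lit 30078636844261802), .ofNat (nat_lit 7677927975196249),
 .negSucc (nat_lit 273242061971967), .ofNat (nat_lit 281451429704143), .negSucc (nat_lit
 10440540162485), .negSucc (nat_lit 2832774034479), .negSucc (nat_lit 26185148511565), .ofNat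
 (nat_lit 37428241811158), .ofNat (nat_lit 3444454667862), .ofNat (nat_lit 61180222084856),
 .negSucc (nat_lit 8829620225615), .negSucc (nat_lit 3023254065322), .ofNat (nat_lit
 52165717335510), .ofNat (nat_lit 88036163448974), .ofNat (nat_lit 13778349133837), .ofNat (nat_lit
 15899714567610), .negSucc (nat_lit 410562511673), .ofNat (nat_lit 36430845791081), .ofNat (nat_lit
 904070147897), .negSucc (nat_lit 27868797741831), .ofNat (nat_lit 43511811988490), .ofNat (nat_lit
 96181014459291)]), ((nat_lit 6, nat_lit 4, false), [.ofNat (nat_lit 7859295465556859), .negSucc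
 (nat_lit 7232664618592489), .ofNat (nat_lit 13618875017222296), .negSucc (nat_lit
 1388422181301118), .negSucc (nat_lit 166320175110910), .negSucc (nat_lit 132951095095961),
 .negSucc (nat_lit 25182669515082), .negSucc (nat_lit 62299795077726), .negSucc (nat_lit
 40447666183500), .negSucc (nat_lit 10785609309000), .negSucc (nat_lit 44356221500328), .ofNat
 (nat_lit 30191814049743), .ofNat (nat_lit 10709994503043), .negSucc (nat_lit 31708317343498),
 .ofNat (nat_lit 3320399099290), .ofNat (nat_lit 148896534452066), .ofNat (nat_lit 2388950450192),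
 .ofNat (nat_lit 20482110392879), .ofNat (nat_lit 33547964121810), .ofNat (nat_lit 35494649364195),
 .ofNat (nat_lit 23349746794564), .ofNat (nat_lit 28514033320299), .negSucc (nat_lit
 8957106887997), .ofNat (nat_lit 100009474857773)]), ((nat_lit 8, nat_lit 1, false), [.negSucc
 (nat_lit 6384073500511219), .negSucc (nat_lit 135203290784628), .negSucc (nat_lit 71321740344340),
 .ofNat (nat_lit 9051431345409), .ofNat (nat_lit 14148349786392), .ofNat (nat_lit 6024684335344),
 .ofNat (nat_lit 3031242625907), .negSucc (nat_lit 2064110695083), .ofNat (nat_lit 8426096286449),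
 .ofNat (nat_lit 8575344412008), .ofNat (nat_lit 3825216290977), .negSucc (nat_lit 3258325166133),
 .ofNat (nat_lit 7453289192074), .ofNat (nat_lit 19142651807374), .negSucc (nat_lit 4816739705578),
 .ofNat (nat_lit 4658492436394), .negSucc (nat_lit 16825052414070), .negSucc (nat_lit
 7121453730411), .ofNat (nat_lit 941666747988), .negSucc (nat_lit 4441172232186), .ofNat (nat_lit
 62426486261914), .negSucc (nat_lit 1514464086347), .ofNat (nat_lit 83775171933), .negSucc (nat_lit
 46770974609), .ofNat (nat_lit 11719604852827)]), ((nat_lit 8, nat_lit 2, false), [.ofNat (nat_lit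
 9210777626924547), .negSucc (nat_lit 6762158207101515), .ofNat (nat_lit 25984110039565058),
 .negSucc (nat_lit 2819805150628727), .negSucc (nat_lit 381215166343930), .negSucc (nat_lit
 265244939719876), .negSucc (nat_lit 30166892092022), .negSucc (nat_lit 11910062272666), .negSucc
 (nat_lit 63589804197848), .ofNat (nat_lit 31634690365866), .negSucc (nat_lit 100299056185080),
 .ofNat (nat_lit 83494354916249), .negSucc (nat_lit 10515031512189), .negSucc (nat_lit
 113714367291694), .negSucc (nat_lit 18753904476915), .ofNat (nat_lit 28431431742875), .ofNat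
 (nat_lit 12195761816403), .negSucc (nat_lit 13474490206638), .ofNat (nat_lit 4895764203339),
 .negSucc (nat_lit 23184420762036), .negSucc (nat_lit 11385299128423), .ofNat (nat_lit
 77474393203492), .ofNat (nat_lit 4723429663696), .negSucc (nat_lit 21652884774247), .negSucc
 (nat_lit 5175731489648), .ofNat (nat_lit 86271068357342)]), ((nat_lit 8, nat_lit 3, false),
 [.negSucc (nat_lit 8940107238662416), .negSucc (nat_lit 33414777524897994), .ofNat (nat_lit
 29909718356432138), .negSucc (nat_lit 2755141476544488), .negSucc (nat_lit 21250935650639),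
 .negSucc (nat_lit 203136524456646), .ofNat (nat_lit 22453295796937), .negSucc (nat_lit
 18311182332668), .negSucc (nat_lit 18389292591120), .ofNat (nat_lit 54649478228122), .negSucc
 (nat_lit 118487844124441), .ofNat (nat_lit 61616564652180), .ofNat (nat_lit 5928466655489),
 .negSucc (nat_lit 60812828154368), .negSucc (nat_lit 70218617795768), .ofNat (nat_lit
 22176730145067), .ofNat (nat_lit 6061474829723), .negSucc (nat_lit 26306298418555), .ofNat
 (nat_lit 12333946433431), .negSucc (nat_lit 14256516906876), .negSucc (nat_lit 15947379949760),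
 .ofNat (nat_lit 52710992136366), .ofNat (nat_lit 44690421837125), .ofNat (nat_lit 20677029398294),
 .negSucc (nat_lit 7681387308003), .negSucc (nat_lit 4887023272557), .ofNat (nat_lit
 94214999881057)]), ((nat_lit 8, nat_lit 4, false), [.ofNat (nat_lit 15864225952208062), .negSucc
 (nat_lit 13238689310645058), .ofNat (nat_lit 10255155792203334), .negSucc (nat_lit
 912036747234541), .negSucc (nat_lit 76583440081409), .negSucc (nat_lit 54630889428548), .negSucc
 (nat_lit 26655191803877), .negSucc (nat_lit 2882089211646), .negSucc (nat_lit 19633632194078),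
 .ofNat (nat_lit 6675688746168), .negSucc (nat_lit 50212462755485), .ofNat (nat_lit
 22935364612028), .ofNat (nat_lit 17420080172056), .negSucc (nat_lit 71046913047919), .ofNat
 (nat_lit 22135118644326), .negSucc (nat_lit 69694199498273), .negSucc (nat_lit 15420312957123),
 .ofNat (nat_lit 19243925299651), .ofNat (nat_lit 38352840291239), .negSucc (nat_lit
 11759775931967), .ofNat (nat_lit 23009857022496), .ofNat (nat_lit 42592771035870), .negSucc
 (nat_lit 8002347811560), .ofNat (nat_lit 72203875021184), .negSucc (nat_lit 110940866352),
 .negSucc (nat_lit 14869076920866), .ofNat (nat_lit 25742025709934), .ofNat (nat_lit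
 92003512772103)]), ((nat_lit 7, nat_lit 1, false), [.negSucc (nat_lit 86318919332647), .negSucc
 (nat_lit 8066344114758555), .negSucc (nat_lit 4954315112116259), .ofNat (nat_lit 706653757547666),
 .ofNat (nat_lit 175456055028568), .ofNat (nat_lit 66713469888396), .ofNat (nat_lit
 10759326253043), .ofNat (nat_lit 6912876675849), .ofNat (nat_lit 27593170121329), .negSucc
 (nat_lit 35373957077966), .ofNat (nat_lit 22915380445875), .negSucc (nat_lit 27379404616291),
 .negSucc (nat_lit 12697291441744), .ofNat (nat_lit 29516141267308), .negSucc (nat_lit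
 10035038099769), .negSucc (nat_lit 1261682849992), .ofNat (nat_lit 47219885820067), .negSucc
 (nat_lit 5447728994881), .negSucc (nat_lit 2947217119371), .ofNat (nat_lit 233785989589), .negSucc
 (nat_lit 1627687839037), .ofNat (nat_lit 3962783867512), .negSucc (nat_lit 1068713156911), .ofNat
 (nat_lit 734090009286), .ofNat (nat_lit 381624215855), .negSucc (nat_lit 1596025933918), .negSucc
 (nat_lit 534808676544), .ofNat (nat_lit 871477107074), .ofNat (nat_lit 14542792781796)]),
 ((nat_lit 7, nat_lit 2, false), [.ofNat (nat_lit 62802403961268087), .ofNat (nat_lit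
 37669772575984021), .negSucc (nat_lit 7325575527585266), .ofNat (nat_lit 74049648400968), .negSucc
 (nat_lit 610383081763627), .negSucc (nat_lit 16536651680816), .negSucc (nat_lit 88459133956284),
 .ofNat (nat_lit 14838040726076), .negSucc (nat_lit 108935003729365), .ofNat (nat_lit
 67038269738972), .negSucc (nat_lit 109277365752386), .ofNat (nat_lit 9847429553427), .negSucc
 (nat_lit 9256215685652), .negSucc (nat_lit 67710208859153), .negSucc (nat_lit 31468491385439),
 .ofNat (nat_lit 25873822669752), .ofNat (nat_lit 36621806569613), .ofNat (nat_lit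
 118794834067452), .ofNat (nat_lit 30762219120843), .negSucc (nat_lit 17799971762379), .ofNat
 (nat_lit 17784326785625), .negSucc (nat_lit 4452599451903), .ofNat (nat_lit 5749812367554), .ofNat
 (nat_lit 12166685518405), .negSucc (nat_lit 2406182517563), .negSucc (nat_lit 20533233351669),
 .negSucc (nat_lit 3356993873926), .negSucc (nat_lit 5797660506612), .negSucc (nat_lit
 28753473902787), .ofNat (nat_lit 49109911899009)]), ((nat_lit 7, nat_lit 3, false), [.ofNat
 (nat_lit 31608125611991827), .negSucc (nat_lit 10987974972636536), .ofNat (nat_lit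
 1346620313905375), .ofNat (nat_lit 11987979712745), .ofNat (nat_lit 312549924864), .ofNat (nat_lit
 7851637928958), .negSucc (nat_lit 20623151112673), .ofNat (nat_lit 40129848635294), .negSucc
 (nat_lit 48568092359917), .ofNat (nat_lit 28311194728654), .ofNat (nat_lit 33019606953498), .ofNat
 (nat_lit 48548038107396), .negSucc (nat_lit 20749717526555), .negSucc (nat_lit 47366510607767),
 .negSucc (nat_lit 35669129418758), .ofNat (nat_lit 12959095880086), .ofNat (nat_lit
 23415429403021), .ofNat (nat_lit 51313253607204), .ofNat (nat_lit 113360546417672), .ofNat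
 (nat_lit 4895824254535), .ofNat (nat_lit 2528475249874), .negSucc (nat_lit 7332731885271), .ofNat
 (nat_lit 4385900622378), .negSucc (nat_lit 2842401387297), .negSucc (nat_lit 914078658193),
 .negSucc (nat_lit 4020036142528), .negSucc (nat_lit 3512934795518), .negSucc (nat_lit
 4513828054953), .negSucc (nat_lit 25483285275836), .ofNat (nat_lit 7572280561091), .ofNat (nat_lit
 22894618998947)]), ((nat_lit 7, nat_lit 4, false), [.ofNat (nat_lit 8479852937729768), .negSucc
 (nat_lit 3927225660455311), .ofNat (nat_lit 478688590571202), .ofNat (nat_lit 18776788079256),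
 .ofNat (nat_lit 19040335752111), .negSucc (nat_lit 4141006973968), .negSucc (nat_lit
 4470401314188), .ofNat (nat_lit 48909568571752), .ofNat (nat_lit 8925966666356), .negSucc (nat_lit
 13373978548632), .ofNat (nat_lit 16006569214557), .ofNat (nat_lit 81215164997738), .negSucc
 (nat_lit 24717591480113), .ofNat (nat_lit 22572036481587), .negSucc (nat_lit 13604621541366),
 .negSucc (nat_lit 11075739430770), .ofNat (nat_lit 37457196897986), .ofNat (nat_lit
 10792753101816), .ofNat (nat_lit 7390404895128), .ofNat (nat_lit 89793552594160), .negSucc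
 (nat_lit 4603787863898), .ofNat (nat_lit 8654131264501), .negSucc (nat_lit 2578760479007), .ofNat
 (nat_lit 2578725358865), .negSucc (nat_lit 3259677126410), .negSucc (nat_lit 5906571410308),
 .ofNat (nat_lit 3297284837681), .negSucc (nat_lit 5403801587561), .negSucc (nat_lit
 2037129224390), .ofNat (nat_lit 4892027746368), .ofNat (nat_lit 11802822987259), .ofNat (nat_lit
 35714839637239)]), ((nat_lit 10, nat_lit 1, false), [.ofNat (nat_lit 4098329859878620), .negSucc
 (nat_lit 13510759238528044), .ofNat (nat_lit 7049183048765917), .negSucc (nat_lit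
 549031291847652), .ofNat (nat_lit 35038478017456), .negSucc (nat_lit 38920488409500), .negSucc
 (nat_lit 8583177368525), .ofNat (nat_lit 641386020811), .ofNat (nat_lit 31351771169746), .ofNat
 (nat_lit 18350224693843), .negSucc (nat_lit 17112555622854), .ofNat (nat_lit 3786521918961),
 .negSucc (nat_lit 5499835160855), .negSucc (nat_lit 27590909168244), .negSucc (nat_lit
 14407264544821), .ofNat (nat_lit 8108727454411), .ofNat (nat_lit 45589809207104), .ofNat (nat_lit
 12449794520341), .ofNat (nat_lit 14988393653573), .negSucc (nat_lit 2701706418618), .ofNat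
 (nat_lit 50420836466862), .ofNat (nat_lit 17145860048429), .negSucc (nat_lit 5268554054993),
 .negSucc (nat_lit 1899419039320), .negSucc (nat_lit 2901796871623), .ofNat (nat_lit
 12291629359573), .ofNat (nat_lit 7344598089994), .ofNat (nat_lit 8200827034928), .ofNat (nat_lit
 17572483831681), .negSucc (nat_lit 32729558196473), .ofNat (nat_lit 4924532140501), .ofNat
 (nat_lit 6599513115197), .ofNat (nat_lit 49284220183469)]), ((nat_lit 10, nat_lit 2, false),
 [.ofNat (nat_lit 48333008178152578), .ofNat (nat_lit 69248087804315401), .negSucc (nat_lit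
 20129006531189517), .ofNat (nat_lit 954402393415823), .negSucc (nat_lit 744638473917412), .ofNat
 (nat_lit 19626386765454), .negSucc (nat_lit 82491869486589), .ofNat (nat_lit 47371909879092),
 .negSucc (nat_lit 116511739825367), .negSucc (nat_lit 15250140181819), .negSucc (nat_lit
 70158318954426), .ofNat (nat_lit 29282647397253), .ofNat (nat_lit 6016002979453), .ofNat (nat_lit
 22665451626544), .negSucc (nat_lit 13881505366194), .ofNat (nat_lit 1457591012674), .negSucc
 (nat_lit 16550163298472), .ofNat (nat_lit 31305000564020), .negSucc (nat_lit 15601369793092),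
 .negSucc (nat_lit 23417968099803), .ofNat (nat_lit 20755478438964), .ofNat (nat_lit
 31225350955738), .ofNat (nat_lit 31581558521558), .negSucc (nat_lit 15781035468470), .ofNat
 (nat_lit 12076414097469), .negSucc (nat_lit 17206658674039), .negSucc (nat_lit 36722518585125),
 .ofNat (nat_lit 10090664424622), .negSucc (nat_lit 7625776187690), .ofNat (nat_lit
 84734850416474), .ofNat (nat_lit 23674385596937), .negSucc (nat_lit 56441269659043), .negSucc
 (nat_lit 84125609509737), .ofNat (nat_lit 113748432824627)]), ((nat_lit 10, nat_lit 3, false),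
 [.ofNat (nat_lit 26695740372091857), .ofNat (nat_lit 45462050327999962), .negSucc (nat_lit
 44168077425561137), .ofNat (nat_lit 4105563079712969), .ofNat (nat_lit 20005303072684), .ofNat
 (nat_lit 317761524954657), .negSucc (nat_lit 47513113326321), .ofNat (nat_lit 32122433908980),
 .negSucc (nat_lit 20265747554556), .negSucc (nat_lit 91074822703086), .ofNat (nat_lit
 96755398534703), .negSucc (nat_lit 72468265008391), .negSucc (nat_lit 29348490165681), .ofNat
 (nat_lit 83045294026821), .ofNat (nat_lit 8737801667170), .negSucc (nat_lit 1841355696520), .ofNat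
 (nat_lit 80208058768269), .negSucc (nat_lit 3335509961322), .negSucc (nat_lit 37003172692765),
 .ofNat (nat_lit 26991409651889), .negSucc (nat_lit 25786716437926), .negSucc (nat_lit
 32115354515114), .ofNat (nat_lit 131897706958318), .negSucc (nat_lit 21757262644211), .ofNat
 (nat_lit 12740697741470), .negSucc (nat_lit 9191601363893), .negSucc (nat_lit 32327768412308),
 .negSucc (nat_lit 25058337433779), .negSucc (nat_lit 36274562294741), .ofNat (nat_lit
 44333529919871), .ofNat (nat_lit 49793926394557), .negSucc (nat_lit 20499130262282), .negSucc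
 (nat_lit 50552119124261), .ofNat (nat_lit 48199646543261), .ofNat (nat_lit 80578379084232)]),
 ((nat_lit 10, nat_lit 4, false), [.negSucc (nat_lit 547988319780593), .ofNat (nat_lit
 3646079091721004), .ofNat (nat_lit 2882388278447700), .negSucc (nat_lit 408875063763225), .negSucc
 (nat_lit 94587902456967), .negSucc (nat_lit 45782120446962), .negSucc (nat_lit 14595436457104),
 .negSucc (nat_lit 2810975484572), .negSucc (nat_lit 51178876053335), .negSucc (nat_lit
 32575713162748), .ofNat (nat_lit 7396104271117), .negSucc (nat_lit 7253153443779), .ofNat (nat_lit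
 28958299955513), .negSucc (nat_lit 50435190940852), .ofNat (nat_lit 2254010762586), .ofNat
 (nat_lit 54341520684171), .negSucc (nat_lit 9415881826135), .negSucc (nat_lit 16285831850114),
 .ofNat (nat_lit 27216420298543), .ofNat (nat_lit 15691474708332), .ofNat (nat_lit 18330765614450),
 .ofNat (nat_lit 24265890547424), .ofNat (nat_lit 5360419114884), .ofNat (nat_lit 95922054999727),
 .negSucc (nat_lit 4764247231546), .negSucc (nat_lit 10024937290722), .ofNat (nat_lit
 4593412340596), .negSucc (nat_lit 14041127316423), .negSucc (nat_lit 8984409916556), .ofNat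
 (nat_lit 36771774918571), .negSucc (nat_lit 33266806802121), .ofNat (nat_lit 71580755337524),
 .negSucc (nat_lit 8353893630466), .negSucc (nat_lit 21663961440369), .ofNat (nat_lit
 30299777995192), .ofNat (nat_lit 97796203068117)]), ((nat_lit 9, nat_lit 1, false), [.negSucc
 (nat_lit 3249217318752406), .ofNat (nat_lit 11656997367138638), .ofNat (nat_lit 1137917081752812),
 .negSucc (nat_lit 338377558976162), .negSucc (nat_lit 160120394604664), .negSucc (nat_lit
 34937885287940), .negSucc (nat_lit 17146635396227), .negSucc (nat_lit 4677233016207), .ofNat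
 (nat_lit 3947897204800), .ofNat (nat_lit 6694483718080), .negSucc (nat_lit 21848093862220), .ofNat
 (nat_lit 16580384585583), .ofNat (nat_lit 7963896743626), .negSucc (nat_lit 9030700264279), .ofNat
 (nat_lit 2205084897768), .ofNat (nat_lit 651786475791), .ofNat (nat_lit 4329144399634), .negSucc
 (nat_lit 15614443337326), .negSucc (nat_lit 6463343347645), .ofNat (nat_lit 1910639563051), .ofNat
 (nat_lit 12605853754282), .negSucc (nat_lit 24177511695892), .ofNat (nat_lit 8788023377699),
 .ofNat (nat_lit 1088779598119), .ofNat (nat_lit 1663929905450), .ofNat (nat_lit 7272399360746),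
 .negSucc (nat_lit 3199439128361), .negSucc (nat_lit 136122719171), .ofNat (nat_lit 1332882565140),
 .ofNat (nat_lit 16314736455724), .negSucc (nat_lit 12176976787813), .negSucc (nat_lit
 240842903034), .negSucc (nat_lit 29042893100497), .ofNat (nat_lit 8428757245715), .negSucc
 (nat_lit 1467695372938), .ofNat (nat_lit 5313171422020), .ofNat (nat_lit 30643096158376)]),
 ((nat_lit 9, nat_lit 2, false), [.negSucc (nat_lit 158280756976432), .negSucc (nat_lit
 13427645953354995), .negSucc (nat_lit 3597355911416201), .ofNat (nat_lit 653451606790872), .ofNat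
 (nat_lit 239184651786389), .ofNat (nat_lit 53946094173678), .ofNat (nat_lit 44907983888663),
 .negSucc (nat_lit 2232077407441), .ofNat (nat_lit 2767795388064), .negSucc (nat_lit
 6581484665425), .ofNat (nat_lit 47367780739398), .negSucc (nat_lit 41023207293752), .negSucc
 (nat_lit 4347848014240), .ofNat (nat_lit 24040176800977), .ofNat (nat_lit 5380802183249), .negSucc
 (nat_lit 20323572453867), .negSucc (nat_lit 574953117677), .ofNat (nat_lit 57427073522035),
 .negSucc (nat_lit 8532483902671), .negSucc (nat_lit 6236915338318), .ofNat (nat_lit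
 20151355568876), .ofNat (nat_lit 88424394629153), .negSucc (nat_lit 108072967174), .negSucc
 (nat_lit 21375745802792), .negSucc (nat_lit 3138905227315), .ofNat (nat_lit 345079590642), .ofNat
 (nat_lit 12787581096098), .ofNat (nat_lit 6019399063480), .negSucc (nat_lit 9978525863446),
 .negSucc (nat_lit 27441917255015), .negSucc (nat_lit 329697038018), .ofNat (nat_lit
 13347249309616), .ofNat (nat_lit 51528204833777), .negSucc (nat_lit 66845595146828), .negSucc
 (nat_lit 3645869407761), .ofNat (nat_lit 8198253982980), .negSucc (nat_lit 16826446078266), .ofNat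
 (nat_lit 59950192284805)]), ((nat_lit 9, nat_lit 3, false), [.ofNat (nat_lit 7541430652868851),
 .negSucc (nat_lit 48485941538190365), .ofNat (nat_lit 17682739287698603), .negSucc (nat_lit
 1093811109641034), .ofNat (nat_lit 291646387950509), .negSucc (nat_lit 59932672398707), .ofNat
 (nat_lit 39033487859084), .negSucc (nat_lit 12439235524886), .ofNat (nat_lit 7371608998589),
 .ofNat (nat_lit 20619321806196), .negSucc (nat_lit 10001244724076), .ofNat (nat_lit
 9349510722760), .negSucc (nat_lit 587123770212), .negSucc (nat_lit 6019374018287), .ofNat (nat_lit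
 25139220374590), .ofNat (nat_lit 17232933134831), .negSucc (nat_lit 12307863581469), .ofNat
 (nat_lit 20627111050193), .ofNat (nat_lit 39570714314526), .negSucc (nat_lit 7978523067999),
 .ofNat (nat_lit 2559035702077), .ofNat (nat_lit 82154222662303), .ofNat (nat_lit 5449811895042),
 .ofNat (nat_lit 11056641640997), .negSucc (nat_lit 6795452220153), .negSucc (nat_lit
 7312560698907), .ofNat (nat_lit 13504961894301), .ofNat (nat_lit 21067092910747), .ofNat (nat_lit
 18543860653027), .negSucc (nat_lit 40012721909920), .negSucc (nat_lit 384860238972), .negSucc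
 (nat_lit 1862725472554), .ofNat (nat_lit 36746254647732), .negSucc (nat_lit 42562846961622),
 .negSucc (nat_lit 53318340130344), .ofNat (nat_lit 5681672064228), .negSucc (nat_lit
 24808976052445), .ofNat (nat_lit 25728877822593), .ofNat (nat_lit 34292865820178)]), ((nat_lit 9,
 nat_lit 4, false), [.ofNat (nat_lit 2027650410057476), .negSucc (nat_lit 37268680530755910),
 .ofNat (nat_lit 15001702596538666), .negSucc (nat_lit 1012205097156176), .ofNat (nat_lit
 188495051514885), .negSucc (nat_lit 38702733642636), .negSucc (nat_lit 1827142966960), .negSucc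
 (nat_lit 17154952204400), .ofNat (nat_lit 16544566878148), .ofNat (nat_lit 8928221695843),
 .negSucc (nat_lit 47162980557069), .ofNat (nat_lit 13267904899816), .negSucc (nat_lit
 3495343560940), .ofNat (nat_lit 16115022862182), .negSucc (nat_lit 4252122012423), .ofNat (nat_lit
 47056408676126), .ofNat (nat_lit 2401211879474), .negSucc (nat_lit 12163668738820), .ofNat
 (nat_lit 48687580849275), .ofNat (nat_lit 14227339888318), .ofNat (nat_lit 5803150432848), .ofNat
 (nat_lit 20345423131464), .negSucc (nat_lit 20702076315870), .ofNat (nat_lit 60942742409776),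
 .ofNat (nat_lit 2770145512824), .ofNat (nat_lit 17796069583203), .negSucc (nat_lit 5991802929860),
 .ofNat (nat_lit 10357242544753), .ofNat (nat_lit 8052859613563), .negSucc (nat_lit
 27914168825378), .ofNat (nat_lit 26734528232329), .negSucc (nat_lit 20430654668858), .negSucc
 (nat_lit 7828413794730), .ofNat (nat_lit 10021138753117), .negSucc (nat_lit 20324203542393),
 .negSucc (nat_lit 43840610277919), .ofNat (nat_lit 5296234596623), .ofNat (nat_lit 8037818934973),
 .negSucc (nat_lit 6299856535420), .ofNat (nat_lit 40904361672420)]), ((nat_lit 12, nat_lit 1,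
 false), [.negSucc (nat_lit 25087846226328533), .negSucc (nat_lit 11956729504417658), .ofNat
 (nat_lit 35980759429036755), .negSucc (nat_lit 3806468756791013), .negSucc (nat_lit
 331324952131450), .negSucc (nat_lit 320873710054604), .negSucc (nat_lit 26918377978228), .negSucc
 (nat_lit 16994811707290), .ofNat (nat_lit 1187601178382), .ofNat (nat_lit 98281978814455),
 .negSucc (nat_lit 119855335146913), .ofNat (nat_lit 87061887482338), .ofNat (nat_lit
 27033537663467), .negSucc (nat_lit 69959300944901), .negSucc (nat_lit 15286117896961), .ofNat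
 (nat_lit 33259613833859), .negSucc (nat_lit 58895144593505), .negSucc (nat_lit 8655996525715),
 .ofNat (nat_lit 17335992120498), .negSucc (nat_lit 22332259240763), .ofNat (nat_lit
 82254722238060), .ofNat (nat_lit 38832267392727), .negSucc (nat_lit 1730647021450), .ofNat
 (nat_lit 19159169635018), .ofNat (nat_lit 4241175002776), .negSucc (nat_lit 43290373097235),
 .ofNat (nat_lit 2531702740946), .ofNat (nat_lit 13308257817154), .ofNat (nat_lit 10978125872153),
 .negSucc (nat_lit 6174004207076), .negSucc (nat_lit 18846110875055), .ofNat (nat_lit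
 6597635270343), .ofNat (nat_lit 17722263865412), .ofNat (nat_lit 5717086501325), .negSucc (nat_lit
 10516596037978), .ofNat (nat_lit 13330541269735), .ofNat (nat_lit 37457721709670), .negSucc
 (nat_lit 10770684657627), .ofNat (nat_lit 11618144672802), .negSucc (nat_lit 3040276294596),
 .ofNat (nat_lit 51264248181302)]), ((nat_lit 12, nat_lit 2, false), [.ofNat (nat_lit
 5876361502948481), .ofNat (nat_lit 6817365511857497), .negSucc (nat_lit 16141519087636021), .ofNat
 (nat_lit 1668568878769105), .ofNat (nat_lit 146622922386770), .ofNat (nat_lit 127991762125526),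
 .ofNat (nat_lit 17395438489759), .ofNat (nat_lit 12470521528551), .negSucc (nat_lit
 12523928661778), .negSucc (nat_lit 46547768780373), .ofNat (nat_lit 73050895926310), .negSucc
 (nat_lit 35971392853641), .negSucc (nat_lit 18902714571644), .negSucc (nat_lit 4460680341333),
 .ofNat (nat_lit 20020530034676), .ofNat (nat_lit 2117428112449), .ofNat (nat_lit 2515909733303),
 .ofNat (nat_lit 5256524195968), .negSucc (nat_lit 31724673029722), .negSucc (nat_lit
 1990863149413), .negSucc (nat_lit 57454252382953), .ofNat (nat_lit 38634972198809), .negSucc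
 (nat_lit 35698361584986), .negSucc (nat_lit 5347448265873), .ofNat (nat_lit 1271011967117), .ofNat
 (nat_lit 122154262089733), .negSucc (nat_lit 276481948034), .negSucc (nat_lit 30251632549560),
 .ofNat (nat_lit 2188927674966), .negSucc (nat_lit 11307569114121), .ofNat (nat_lit
 17716499562894), .negSucc (nat_lit 32312379676893), .ofNat (nat_lit 2010864376035), .ofNat
 (nat_lit 38205546723121), .negSucc (nat_lit 6866447474608), .ofNat (nat_lit 6087824772564),
 .negSucc (nat_lit 500758864540), .ofNat (nat_lit 72408442252889), .ofNat (nat_lit 22680935631723),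
 .negSucc (nat_lit 23270619727877), .negSucc (nat_lit 27056694097971), .ofNat (nat_lit
 88111406319962)]), ((nat_lit 12, nat_lit 3, false), [.negSucc (nat_lit 9495067536887196), .ofNat
 (nat_lit 2233290379597271), .negSucc (nat_lit 6785388821959600), .ofNat (nat_lit 705930258037176),
 .ofNat (nat_lit 115282717288883), .ofNat (nat_lit 64331656232791), .ofNat (nat_lit
 55621607197097), .negSucc (nat_lit 2675882182658), .ofNat (nat_lit 14572181060636), .ofNat
 (nat_lit 6905558800698), .ofNat (nat_lit 21296388487633), .negSucc (nat_lit 23040641070522),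
 .negSucc (nat_lit 2407109126127), .ofNat (nat_lit 7157081604726), .negSucc (nat_lit
 44324571449019), .negSucc (nat_lit 17116003074664), .ofNat (nat_lit 9560258248001), .negSucc
 (nat_lit 5565439544807), .negSucc (nat_lit 55727615750601), .ofNat (nat_lit 2343949090968),
 .negSucc (nat_lit 5000672514042), .ofNat (nat_lit 19989769058042), .ofNat (nat_lit 3495360409361),
 .ofNat (nat_lit 25473678937035), .ofNat (nat_lit 483732700153), .ofNat (nat_lit 26033852430589),
 .ofNat (nat_lit 105172481567071), .ofNat (nat_lit 1579807091176), .ofNat (nat_lit 1187592083857),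
 .negSucc (nat_lit 25378130143623), .ofNat (nat_lit 36387119817427), .negSucc (nat_lit
 32644888941855), .negSucc (nat_lit 21874258207023), .ofNat (nat_lit 3990617322747), .ofNat
 (nat_lit 26448322482493), .negSucc (nat_lit 1948216920360), .ofNat (nat_lit 3714333683517), .ofNat
 (nat_lit 26717244829843), .ofNat (nat_lit 34464440876879), .negSucc (nat_lit 4771683664715),
 .negSucc (nat_lit 30085441267397), .ofNat (nat_lit 52564117446102), .ofNat (nat_lit
 73513392009301)]), ((nat_lit 12, nat_lit 4, false), [.negSucc (nat_lit 7201599640185451), .negSucc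
 (nat_lit 25216021968141979), .ofNat (nat_lit 9925330396761041), .negSucc (nat_lit
 638129495088631), .ofNat (nat_lit 171897449273249), .negSucc (nat_lit 24392853770250), .ofNat
 (nat_lit 18184033774485), .negSucc (nat_lit 21660664568374), .ofNat (nat_lit 15513172932581),
 .negSucc (nat_lit 3654436708077), .negSucc (nat_lit 4403176068909), .negSucc (nat_lit
 4980274837153), .ofNat (nat_lit 8857580336985), .negSucc (nat_lit 39297434154215), .ofNat (nat_lit
 21005051647496), .negSucc (nat_lit 68408985656664), .negSucc (nat_lit 9938377632963), .negSucc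
 (nat_lit 10592335696683), .ofNat (nat_lit 32651429605284), .negSucc (nat_lit 4556302097480),
 .negSucc (nat_lit 9808517844524), .negSucc (nat_lit 60280348961), .ofNat (nat_lit 41751803899321),
 .ofNat (nat_lit 34171025437184), .negSucc (nat_lit 357285473811), .ofNat (nat_lit 2556197743300),
 .ofNat (nat_lit 23288825624247), .ofNat (nat_lit 154268488610679), .negSucc (nat_lit
 2424884388402), .negSucc (nat_lit 12023992933463), .ofNat (nat_lit 4474510016030), .ofNat (nat_lit
 2480976003621), .negSucc (nat_lit 3711995516054), .negSucc (nat_lit 15950334737830), .negSucc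
 (nat_lit 3574317198675), .ofNat (nat_lit 16198578456273), .negSucc (nat_lit 4531578591261), .ofNat
 (nat_lit 8371465757919), .ofNat (nat_lit 857372729969), .ofNat (nat_lit 44328950094052), .ofNat
 (nat_lit 609104922857), .negSucc (nat_lit 9262408833011), .ofNat (nat_lit 8116961556719), .ofNat
 (nat_lit 66941742974198)]), ((nat_lit 16, nat_lit 1, false), [.negSucc (nat_lit
 24350049775993448), .negSucc (nat_lit 528195460358521), .ofNat (nat_lit 7552005888669026),
 .negSucc (nat_lit 810182151159702), .negSucc (nat_lit 8327221982253), .negSucc (nat_lit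
 66557293398344), .ofNat (nat_lit 8909322950577), .negSucc (nat_lit 16566860336197), .ofNat
 (nat_lit 26788455609316), .ofNat (nat_lit 24721574290768), .negSucc (nat_lit 12106818856402),
 .ofNat (nat_lit 14836164009920), .ofNat (nat_lit 13088011433498), .negSucc (nat_lit
 6066017345943), .ofNat (nat_lit 19580569281799), .ofNat (nat_lit 6014816658385), .negSucc (nat_lit
 38038916561267), .negSucc (nat_lit 1287161507165), .negSucc (nat_lit 12956823403579), .negSucc
 (nat_lit 2237837403037), .negSucc (nat_lit 9352574034279), .ofNat (nat_lit 7853803384672),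
 .negSucc (nat_lit 1748076218205), .negSucc (nat_lit 824043458103), .ofNat (nat_lit 634842525590),
 .ofNat (nat_lit 21230430512840), .negSucc (nat_lit 2839771976287), .ofNat (nat_lit 6324672463787),
 .ofNat (nat_lit 5982973953357), .ofNat (nat_lit 9096509996199), .negSucc (nat_lit 11710613123271),
 .ofNat (nat_lit 164624548668), .negSucc (nat_lit 2681442538623), .negSucc (nat_lit 2677753712281),
 .negSucc (nat_lit 9060965214543), .ofNat (nat_lit 8272843433549), .ofNat (nat_lit 7233899497844),
 .negSucc (nat_lit 10232743181003), .ofNat (nat_lit 11201432655430), .negSucc (nat_lit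
 3208002911271), .ofNat (nat_lit 49736743783633), .negSucc (nat_lit 593822823970), .negSucc
 (nat_lit 62579328355), .negSucc (nat_lit 146173340517), .ofNat (nat_lit 9874100635444)]),
 ((nat_lit 16, nat_lit 2, false), [.ofNat (nat_lit 806090484415286), .negSucc (nat_lit
 7571119032293385), .ofNat (nat_lit 19308795506104984), .negSucc (nat_lit 2033759080654726),
 .negSucc (nat_lit 213077715387308), .negSucc (nat_lit 177817701125900), .negSucc (nat_lit
 22958296531786), .ofNat (nat_lit 317316059386), .negSucc (nat_lit 15794230223915), .ofNat (nat_lit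
 48139189352170), .negSucc (nat_lit 64706786471272), .ofNat (nat_lit 39326435838106), .ofNat
 (nat_lit 5276906931940), .negSucc (nat_lit 53464652887361), .ofNat (nat_lit 331719196986), .ofNat
 (nat_lit 2898647546431), .negSucc (nat_lit 4538872868517), .ofNat (nat_lit 11817878921802), .ofNat
 (nat_lit 14649419080628), .negSucc (nat_lit 3442136778699), .negSucc (nat_lit 29662952440624),
 .ofNat (nat_lit 4258117114411), .negSucc (nat_lit 20207792610467), .ofNat (nat_lit
 35972685918522), .negSucc (nat_lit 21905962493185), .negSucc (nat_lit 82583405862604), .negSucc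
 (nat_lit 28319665205467), .ofNat (nat_lit 39536500772096), .negSucc (nat_lit 7827207616976),
 .negSucc (nat_lit 30001172422653), .negSucc (nat_lit 4961775283550), .ofNat (nat_lit
 5562069099176), .ofNat (nat_lit 24518726022111), .ofNat (nat_lit 1168623808767), .negSucc (nat_lit
 6911120365123), .ofNat (nat_lit 1275784097408), .ofNat (nat_lit 21661370394349), .ofNat (nat_lit
 7757069439496), .ofNat (nat_lit 14885235655163), .negSucc (nat_lit 16672975993104), .negSucc
 (nat_lit 36543534060743), .ofNat (nat_lit 88408770971184), .ofNat (nat_lit 3938105678179), .ofNat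
 (nat_lit 2759182727290), .negSucc (nat_lit 13426855318672), .ofNat (nat_lit 37475657870251)]),
 ((nat_lit 16, nat_lit 3, false), [.negSucc (nat_lit 13115658500419865), .negSucc (nat_lit
 4421129217505267), .ofNat (nat_lit 5254539159523252), .negSucc (nat_lit 502781442134471), .ofNat
 (nat_lit 13215782020103), .negSucc (nat_lit 32870879834736), .ofNat (nat_lit 167051536207),
 .negSucc (nat_lit 7074411874427), .ofNat (nat_lit 21092646311365), .ofNat (nat_lit
 14923797722292), .negSucc (nat_lit 8273296326079), .ofNat (nat_lit 1424047908613), .ofNat (nat_lit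
 9236799969707), .ofNat (nat_lit 4363813156189), .ofNat (nat_lit 37662007680232), .negSucc (nat_lit
 611688347188), .negSucc (nat_lit 34075288784383), .ofNat (nat_lit 12774467585803), .ofNat (nat_lit
 423036272621), .negSucc (nat_lit 5917514985423), .ofNat (nat_lit 15947952326394), .ofNat (nat_lit
 20474404677041), .negSucc (nat_lit 45352526455003), .ofNat (nat_lit 16476779350806), .negSucc
 (nat_lit 1522235575424), .negSucc (nat_lit 11954162742058), .negSucc (nat_lit 70680109367404),
 .ofNat (nat_lit 41495276603030), .negSucc (nat_lit 9989089207195), .negSucc (nat_lit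
 22168629290727), .ofNat (nat_lit 3174381761735), .negSucc (nat_lit 4068023871395), .ofNat (nat_lit
 2331631979622), .negSucc (nat_lit 14479237007289), .negSucc (nat_lit 4945238374874), .negSucc
 (nat_lit 4120801134850), .ofNat (nat_lit 14193304698990), .negSucc (nat_lit 8336555420252), .ofNat
 (nat_lit 19160062695720), .negSucc (nat_lit 26325523704470), .negSucc (nat_lit 29240837208660),
 .ofNat (nat_lit 59658113376654), .ofNat (nat_lit 43134489138672), .ofNat (nat_lit 1085129238958),
 .negSucc (nat_lit 6117097020495), .negSucc (nat_lit 29356488130927), .ofNat (nat_lit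
 52699815675624)]), ((nat_lit 16, nat_lit 4, false), [.negSucc (nat_lit 1088292365740059), .negSucc
 (nat_lit 15507630004638616), .negSucc (nat_lit 5792875481075096), .ofNat (nat_lit
 936899208691580), .ofNat (nat_lit 288354914435383), .ofNat (nat_lit 104106946883285), .ofNat
 (nat_lit 29651876070450), .negSucc (nat_lit 3814016838585), .ofNat (nat_lit 21643161838634),
 .negSucc (nat_lit 22942244895568), .ofNat (nat_lit 43796974540063), .negSucc (nat_lit
 23009649045850), .negSucc (nat_lit 1240321400520), .ofNat (nat_lit 42263719206151), .negSucc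
 (nat_lit 2782360969064), .negSucc (nat_lit 10199341346294), .negSucc (nat_lit 3726569785580),
 .negSucc (nat_lit 13105472707422), .ofNat (nat_lit 10582378824787), .ofNat (nat_lit
 1605628334175), .negSucc (nat_lit 8841685305725), .negSucc (nat_lit 17942094519497), .negSucc
 (nat_lit 107523244532), .negSucc (nat_lit 8882797024374), .ofNat (nat_lit 2584578460881), .negSucc
 (nat_lit 21029498396861), .ofNat (nat_lit 33100546876859), .negSucc (nat_lit 65035026944836),
 .ofNat (nat_lit 8226736528739), .negSucc (nat_lit 6269829163559), .ofNat (nat_lit 181606419026),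
 .negSucc (nat_lit 7975253332213), .ofNat (nat_lit 2165711319496), .negSucc (nat_lit
 2472124510184), .negSucc (nat_lit 13706311982923), .negSucc (nat_lit 18899310558301), .negSucc
 (nat_lit 18866660590426), .ofNat (nat_lit 14066717382486), .ofNat (nat_lit 6446658454030),
 .negSucc (nat_lit 211160093634), .negSucc (nat_lit 2983470428311), .ofNat (nat_lit 355279309848),
 .ofNat (nat_lit 8850870912562), .ofNat (nat_lit 33517912785636), .ofNat (nat_lit 5263043844726),
 .negSucc (nat_lit 32306680641198), .ofNat (nat_lit 22245848924966), .ofNat (nat_lit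
 52945576708624)]), ((nat_lit 11, nat_lit 1, false), [.ofNat (nat_lit 1743314652698068), .negSucc
 (nat_lit 5412714156102809), .negSucc (nat_lit 4735731216896184), .ofNat (nat_lit 626641503006407),
 .ofNat (nat_lit 132460350593651), .ofNat (nat_lit 59108879576160), .ofNat (nat_lit
 11320638517350), .ofNat (nat_lit 3143146873522), .ofNat (nat_lit 10331956851394), .negSucc
 (nat_lit 21274247265273), .ofNat (nat_lit 24250601608014), .negSucc (nat_lit 18288875568720),
 .negSucc (nat_lit 6045048017834), .ofNat (nat_lit 20198328932096), .negSucc (nat_lit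
 4470419035380), .negSucc (nat_lit 3762207715930), .ofNat (nat_lit 22866289705560), .negSucc
 (nat_lit 7079927251139), .negSucc (nat_lit 1697076955820), .ofNat (nat_lit 1268609291387),
 .negSucc (nat_lit 4184916415846), .ofNat (nat_lit 1450872092854), .negSucc (nat_lit 705538915976),
 .negSucc (nat_lit 1297775777453), .ofNat (nat_lit 565335737335), .negSucc (nat_lit 143392482876),
 .negSucc (nat_lit 417203763943), .negSucc (nat_lit 1437876456345), .ofNat (nat_lit
 11112525983581), .negSucc (nat_lit 2657499093259), .ofNat (nat_lit 5056182008764), .negSucc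
 (nat_lit 581062291255), .ofNat (nat_lit 729598585473), .negSucc (nat_lit 2075663840702), .ofNat
 (nat_lit 702328810969), .negSucc (nat_lit 2099715178937), .negSucc (nat_lit 1942566585788),
 .negSucc (nat_lit 938302498864), .negSucc (nat_lit 1755386399943), .ofNat (nat_lit 352166058339),
 .negSucc (nat_lit 948947271535), .negSucc (nat_lit 160848466122), .ofNat (nat_lit 194205297317),
 .ofNat (nat_lit 758536979541), .ofNat (nat_lit 73339655144), .ofNat (nat_lit 911751898358), .ofNat
 (nat_lit 358192599425), .negSucc (nat_lit 352880201657), .ofNat (nat_lit 4678281470162)]),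
 ((nat_lit 11, nat_lit 2, false), [.negSucc (nat_lit 841231053998909), .ofNat (nat_lit
 15496946069563116), .ofNat (nat_lit 7595449117750306), .negSucc (nat_lit 1128610306160151),
 .negSucc (nat_lit 302012694249391), .negSucc (nat_lit 109391550279063), .negSucc (nat_lit
 27493660653949), .negSucc (nat_lit 7186148467794), .negSucc (nat_lit 18284983886536), .ofNat
 (nat_lit 49943149729613), .negSucc (nat_lit 55409229240809), .ofNat (nat_lit 28941597011897),
 .ofNat (nat_lit 8643529313157), .negSucc (nat_lit 43015880281826), .ofNat (nat_lit 4862971058654),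
 .ofNat (nat_lit 11840434929981), .negSucc (nat_lit 32160099716173), .ofNat (nat_lit
 34794186346655), .ofNat (nat_lit 3095331223862), .negSucc (nat_lit 6252223881385), .ofNat (nat_lit
 7440727657907), .negSucc (nat_lit 2491743632880), .ofNat (nat_lit 1050765521388), .ofNat (nat_lit
 4153810121235), .negSucc (nat_lit 1526590595213), .negSucc (nat_lit 5241167048989), .negSucc
 (nat_lit 762003478640), .ofNat (nat_lit 2627113915126), .negSucc (nat_lit 16517223434601), .ofNat
 (nat_lit 18502690421958), .negSucc (nat_lit 9738770887365), .negSucc (nat_lit 3346718536340),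
 .negSucc (nat_lit 13108519685479), .ofNat (nat_lit 2242462155235), .negSucc (nat_lit
 10586507547887), .ofNat (nat_lit 8112108022150), .ofNat (nat_lit 7799507046484), .ofNat (nat_lit
 1376746738869), .ofNat (nat_lit 5028372604888), .negSucc (nat_lit 755683657015), .ofNat (nat_lit
 3828123399070), .ofNat (nat_lit 1172117462067), .ofNat (nat_lit 1930371703782), .negSucc (nat_lit
 506397715513), .ofNat (nat_lit 670870400515), .ofNat (nat_lit 273328226748), .ofNat (nat_lit
 2347468092648), .ofNat (nat_lit 704394957938), .negSucc (nat_lit 7047712518652), .ofNat (nat_lit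
 14961209038971)]), ((nat_lit 11, nat_lit 3, false), [.ofNat (nat_lit 21158996065085514), .negSucc
 (nat_lit 6497950197365508), .negSucc (nat_lit 1038149802807537), .ofNat (nat_lit 219586052052658),
 .ofNat (nat_lit 23874354352606), .ofNat (nat_lit 21196310300523), .negSucc (nat_lit
 11526543217815), .ofNat (nat_lit 21598893371829), .negSucc (nat_lit 24303071452901), .ofNat
 (nat_lit 505434079616), .ofNat (nat_lit 12950926137221), .ofNat (nat_lit 14684564133615), .negSucc
 (nat_lit 20150181158595), .negSucc (nat_lit 14838723299652), .negSucc (nat_lit 16953024693265),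
 .ofNat (nat_lit 3917835927127), .ofNat (nat_lit 15141719895472), .ofNat (nat_lit 20414065422572),
 .ofNat (nat_lit 52283670664510), .ofNat (nat_lit 7639043233914), .negSucc (nat_lit 1270010673331),
 .negSucc (nat_lit 6207747652762), .ofNat (nat_lit 2049174339512), .negSucc (nat_lit
 5830939019888), .negSucc (nat_lit 936319775594), .ofNat (nat_lit 38644062381), .negSucc (nat_lit
 2551341106135), .negSucc (nat_lit 1648780102284), .negSucc (nat_lit 22855332307089), .negSucc
 (nat_lit 3449612299805), .ofNat (nat_lit 20276306194988), .negSucc (nat_lit 1032823317851),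
 .negSucc (nat_lit 2915828998834), .ofNat (nat_lit 1525065252785), .negSucc (nat_lit
 4142488779000), .ofNat (nat_lit 2007589411196), .ofNat (nat_lit 200602798067), .ofNat (nat_lit
 231691882934), .ofNat (nat_lit 1382001244631), .negSucc (nat_lit 791677260302), .ofNat (nat_lit
 1664055987014), .ofNat (nat_lit 34893593245), .ofNat (nat_lit 804661877163), .negSucc (nat_lit
 665561469741), .ofNat (nat_lit 242163770297), .negSucc (nat_lit 340348494580), .ofNat (nat_lit
 330917189917), .ofNat (nat_lit 644147863849), .negSucc (nat_lit 1259490442161), .ofNat (nat_lit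
 5023900312740), .ofNat (nat_lit 4435209466467)]), ((nat_lit 11, nat_lit 4, false), [.ofNat
 (nat_lit 9127277292476244), .negSucc (nat_lit 26296246450397069), .ofNat (nat_lit
 4872649345763093), .negSucc (nat_lit 75584959388151), .ofNat (nat_lit 210686760558370), .ofNat
 (nat_lit 13969119890336), .ofNat (nat_lit 6475468698153), .ofNat (nat_lit 16691546984758), .ofNat
 (nat_lit 2316049267701), .negSucc (nat_lit 16553938377571), .ofNat (nat_lit 13610346471338),
 .ofNat (nat_lit 26382113306630), .negSucc (nat_lit 14882270367280), .ofNat (nat_lit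
 14651726155878), .negSucc (nat_lit 13120796604199), .negSucc (nat_lit 5738310415037), .ofNat
 (nat_lit 25293422446285), .negSucc (nat_lit 13265205434050), .ofNat (nat_lit 35839210284135),
 .ofNat (nat_lit 33203931939379), .negSucc (nat_lit 7535906270071), .ofNat (nat_lit
 11847837408650), .negSucc (nat_lit 10715559048442), .ofNat (nat_lit 548511956316), .negSucc
 (nat_lit 3294007195968), .negSucc (nat_lit 2366062282979), .ofNat (nat_lit 4361612048036),
 .negSucc (nat_lit 964528400732), .ofNat (nat_lit 8225227727785), .negSucc (nat_lit 2391207258412),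
 .ofNat (nat_lit 7830248149659), .ofNat (nat_lit 32714932291798), .ofNat (nat_lit 529437672243),
 .negSucc (nat_lit 4046797206249), .negSucc (nat_lit 5528080776079), .ofNat (nat_lit
 3318950034358), .negSucc (nat_lit 4207326348109), .ofNat (nat_lit 4430197872858), .ofNat (nat_lit
 1635553385783), .negSucc (nat_lit 1191792585737), .negSucc (nat_lit 1696852848829), .negSucc
 (nat_lit 1375835685037), .ofNat (nat_lit 1970834796761), .negSucc (nat_lit 2556464606958), .ofNat
 (nat_lit 237924996711), .negSucc (nat_lit 1143728722707), .negSucc (nat_lit 1330037081654), .ofNat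
 (nat_lit 4048208851397), .ofNat (nat_lit 4150486383492), .negSucc (nat_lit 967044388605), .ofNat
 (nat_lit 5221694820278), .ofNat (nat_lit 16905522166561)]), ((nat_lit 14, nat_lit 1, false),
 [.ofNat (nat_lit 55344278882816269), .ofNat (nat_lit 751691307963081), .negSucc (nat_lit
 8823374540526715), .ofNat (nat_lit 924370494618396), .negSucc (nat_lit 109374719715819), .ofNat
 (nat_lit 76447582267578), .negSucc (nat_lit 43950413697745), .ofNat (nat_lit 32979904732880),
 .negSucc (nat_lit 62578539476161), .negSucc (nat_lit 29155481471807), .negSucc (nat_lit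
 34596122021834), .negSucc (nat_lit 14762205943055), .negSucc (nat_lit 19784653596417), .negSucc
 (nat_lit 9146210268749), .negSucc (nat_lit 39150038810081), .ofNat (nat_lit 8074027629120), .ofNat
 (nat_lit 85694428370819), .ofNat (nat_lit 32168011314236), .ofNat (nat_lit 31010701383924),
 .negSucc (nat_lit 9879613365814), .ofNat (nat_lit 24950114602368), .ofNat (nat_lit 6924113350477),
 .ofNat (nat_lit 2375977234088), .ofNat (nat_lit 6396043413136), .negSucc (nat_lit 1778688867325),
 .negSucc (nat_lit 5146163955584), .ofNat (nat_lit 2201624525235), .negSucc (nat_lit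
 3474243412302), .negSucc (nat_lit 1299801204266), .ofNat (nat_lit 7234554866184), .ofNat (nat_lit
 12370127624339), .ofNat (nat_lit 6843448583176), .ofNat (nat_lit 46206443598079), .negSucc
 (nat_lit 514948693917), .ofNat (nat_lit 15429990846262), .negSucc (nat_lit 9250359177806),
 .negSucc (nat_lit 9327775451929), .negSucc (nat_lit 2627742438945), .negSucc (nat_lit
 5322143913479), .ofNat (nat_lit 917408020196), .negSucc (nat_lit 4549177372822), .negSucc (nat_lit
 1380643032792), .negSucc (nat_lit 3485606976095), .ofNat (nat_lit 1401710577365), .negSucc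
 (nat_lit 710469276809), .negSucc (nat_lit 301951726764), .negSucc (nat_lit 3225661556936),
 .negSucc (nat_lit 740231787055), .ofNat (nat_lit 7119134797149), .negSucc (nat_lit
 19725838618756), .negSucc (nat_lit 1652867533217), .negSucc (nat_lit 3085421037373), .ofNat
 (nat_lit 8580880585335)]), ((nat_lit 14, nat_lit 2, false), [.negSucc (nat_lit 94534084687563002),
 .ofNat (nat_lit 19260507339890016), .negSucc (nat_lit 31271788015882690), .ofNat (nat_lit
 3234327023065879), .ofNat (nat_lit 687161122767511), .ofNat (nat_lit 268070909047203), .ofNat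
 (nat_lit 143751551870969), .negSucc (nat_lit 43575790064766), .ofNat (nat_lit 147944955706255),
 .negSucc (nat_lit 42939350688097), .ofNat (nat_lit 257042261298012), .negSucc (nat_lit
 82385166623222), .ofNat (nat_lit 2318272579813), .ofNat (nat_lit 127216654487821), .ofNat (nat_lit
 73516816207282), .negSucc (nat_lit 52689169625239), .negSucc (nat_lit 105708678809578), .negSucc
 (nat_lit 84849154844415), .negSucc (nat_lit 115597802214609), .ofNat (nat_lit 46751816310845),
 .negSucc (nat_lit 62914488481129), .negSucc (nat_lit 34457408569622), .ofNat (nat_lit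
 22195884049059), .negSucc (nat_lit 52004193392696), .ofNat (nat_lit 14092020671683), .ofNat
 (nat_lit 28886693642682), .negSucc (nat_lit 24456072152775), .negSucc (nat_lit 7216884766519),
 .ofNat (nat_lit 13436763991000), .negSucc (nat_lit 50639980193364), .ofNat (nat_lit
 58147678654767), .negSucc (nat_lit 60270037383351), .negSucc (nat_lit 90109207219404), .ofNat
 (nat_lit 30379349607229), .negSucc (nat_lit 13217069624796), .negSucc (nat_lit 16259014469373),
 .ofNat (nat_lit 9477356536294), .negSucc (nat_lit 3127870860220), .negSucc (nat_lit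
 9771511158708), .ofNat (nat_lit 5998990066050), .negSucc (nat_lit 756856705587), .ofNat (nat_lit
 989633550750), .ofNat (nat_lit 14738545745057), .ofNat (nat_lit 12374200988480), .ofNat (nat_lit
 644708848060), .ofNat (nat_lit 2426651717765), .ofNat (nat_lit 9173132879070), .negSucc (nat_lit
 10097458778973), .ofNat (nat_lit 31607786809106), .ofNat (nat_lit 56130143127980), .ofNat (nat_lit
 3111338802549), .negSucc (nat_lit 20064413147880), .negSucc (nat_lit 18228770198811), .ofNat
 (nat_lit 26548156043856)]), ((nat_lit 14, nat_lit 3, false), [.negSucc (nat_lit 4567872951777588),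
 .ofNat (nat_lit 49740494201730965), .negSucc (nat_lit 41658344570655844), .ofNat (nat_lit
 3773031195074988), .ofNat (nat_lit 84943889676954), .ofNat (nat_lit 281337069697491), .ofNat
 (nat_lit 19390236067678), .ofNat (nat_lit 14990196019605), .ofNat (nat_lit 30530228607916),
 .negSucc (nat_lit 68499614398677), .ofNat (nat_lit 135487166377283), .negSucc (nat_lit
 76625904061004), .negSucc (nat_lit 25921422804634), .ofNat (nat_lit 76248959231273), .ofNat
 (nat_lit 14451507336297), .negSucc (nat_lit 22573923512720), .ofNat (nat_lit 23529222034139),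
 .negSucc (nat_lit 12134332006517), .negSucc (nat_lit 66270736379423), .ofNat (nat_lit
 28923977801163), .negSucc (nat_lit 23653009873778), .negSucc (nat_lit 45267922335958), .ofNat
 (nat_lit 52061793982586), .negSucc (nat_lit 31248467136465), .ofNat (nat_lit 13785407034359),
 .ofNat (nat_lit 7629715031325), .negSucc (nat_lit 24334451813773), .negSucc (nat_lit
 20035806408502), .negSucc (nat_lit 15619295115875), .negSucc (nat_lit 6829637953472), .ofNat
 (nat_lit 39689677019756), .negSucc (nat_lit 25835195599946), .negSucc (nat_lit 53816389598430),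
 .ofNat (nat_lit 24715410761956), .ofNat (nat_lit 53107843388162), .negSucc (nat_lit
 1304652356943), .negSucc (nat_lit 2644367678004), .negSucc (nat_lit 133106694049), .negSucc
 (nat_lit 2039214211134), .negSucc (nat_lit 434813605141), .ofNat (nat_lit 3140593417571), .ofNat
 (nat_lit 181920539529), .ofNat (nat_lit 3631747709012), .ofNat (nat_lit 1567529798427), .ofNat
 (nat_lit 861771309696), .negSucc (nat_lit 587497433279), .negSucc (nat_lit 525253851341), .negSucc
 (nat_lit 21895113016), .ofNat (nat_lit 9607401697557), .ofNat (nat_lit 14775549410063), .ofNat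
 (nat_lit 12052984110717), .negSucc (nat_lit 1665440147173), .negSucc (nat_lit 773860587872),
 .ofNat (nat_lit 8548194262516), .ofNat (nat_lit 17006805626182)]), ((nat_lit 14, nat_lit 4,
 false), [.negSucc (nat_lit 19865547609225512), .negSucc (nat_lit 37980186750933663), .ofNat
 (nat_lit 45107413325463345), .negSucc (nat_lit 4347993196423396), .negSucc (nat_lit
 182221719359384), .negSucc (nat_lit 340945245824593), .negSucc (nat_lit 39141533086603), .negSucc
 (nat_lit 19237626569480), .negSucc (nat_lit 6623348215069), .ofNat (nat_lit 65837350688945),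
 .negSucc (nat_lit 125329914328650), .ofNat (nat_lit 93021401638331), .ofNat (nat_lit
 35924214308061), .negSucc (nat_lit 87023504456577), .negSucc (nat_lit 593063634750), .ofNat
 (nat_lit 32604760860412), .negSucc (nat_lit 54065766255865), .negSucc (nat_lit 26833246595479),
 .ofNat (nat_lit 86542365055185), .negSucc (nat_lit 31882007900553), .ofNat (nat_lit
 15979980567476), .ofNat (nat_lit 21463570100492), .negSucc (nat_lit 15428154550795), .ofNat
 (nat_lit 34198443617925), .negSucc (nat_lit 5445579242129), .negSucc (nat_lit 11003818363061),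
 .ofNat (nat_lit 6751432170267), .ofNat (nat_lit 6771443918620), .ofNat (nat_lit 17654579509745),
 .ofNat (nat_lit 32718170419019), .negSucc (nat_lit 63861118404787), .ofNat (nat_lit
 55982765310124), .negSucc (nat_lit 13760501591679), .negSucc (nat_lit 13542341281454), .ofNat
 (nat_lit 8265254166875), .ofNat (nat_lit 71737081631368), .ofNat (nat_lit 7021398218879), .ofNat
 (nat_lit 17019525096201), .ofNat (nat_lit 18537384093378), .negSucc (nat_lit 8944166508338),
 .ofNat (nat_lit 6576126412889), .negSucc (nat_lit 8046264139051), .negSucc (nat_lit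
 1992829134514), .negSucc (nat_lit 7498054499228), .ofNat (nat_lit 1662806021618), .negSucc
 (nat_lit 8847626380734), .negSucc (nat_lit 272378277668), .ofNat (nat_lit 8537536748815), .negSucc
 (nat_lit 18457843994289), .ofNat (nat_lit 9413360625349), .ofNat (nat_lit 3126669946610), .ofNat
 (nat_lit 44041095048130), .ofNat (nat_lit 15324406459623), .negSucc (nat_lit 9199842460246),
 .ofNat (nat_lit 6982872332168), .ofNat (nat_lit 31555928894474)]), ((nat_lit 15, nat_lit 1,
 false), [.negSucc (nat_lit 23481107455833642), .negSucc (nat_lit 1966136797127099), .ofNat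
 (nat_lit 795541728412261), .negSucc (nat_lit 34019507658154), .ofNat (nat_lit 108772687463614),
 .ofNat (nat_lit 2265314439582), .ofNat (nat_lit 23832045806167), .negSucc (nat_lit
 14386358745896), .ofNat (nat_lit 37956633030125), .ofNat (nat_lit 4981047733798), .ofNat (nat_lit
 28456500303067), .negSucc (nat_lit 3906117589662), .ofNat (nat_lit 7066468269655), .ofNat (nat_lit
 13702135499457), .ofNat (nat_lit 16148374149414), .negSucc (nat_lit 5280845995464), .negSucc
 (nat_lit 17976021706860), .negSucc (nat_lit 22619190062159), .negSucc (nat_lit 15746995018625),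
 .ofNat (nat_lit 7105551282982), .negSucc (nat_lit 2559059455185), .negSucc (nat_lit
 10376265925604), .ofNat (nat_lit 3297860991847), .negSucc (nat_lit 3832232453353), .ofNat (nat_lit
 1283005746027), .ofNat (nat_lit 11536037577481), .negSucc (nat_lit 738782666541), .ofNat (nat_lit
 1331433656804), .ofNat (nat_lit 12699228802735), .negSucc (nat_lit 10198737710879), .negSucc
 (nat_lit 2997921750675), .negSucc (nat_lit 2427990092491), .negSucc (nat_lit 19752725422951),
 .ofNat (nat_lit 941144370673), .negSucc (nat_lit 7824895566620), .ofNat (nat_lit 5115367037832),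
 .ofNat (nat_lit 18417855622083), .negSucc (nat_lit 182620501307), .ofNat (nat_lit 2707127439215),
 .ofNat (nat_lit 1611569738086), .ofNat (nat_lit 748062750919), .ofNat (nat_lit 247958686877),
 .ofNat (nat_lit 1203084662785), .negSucc (nat_lit 915027202780), .ofNat (nat_lit 477509189818),
 .ofNat (nat_lit 1589216068457), .ofNat (nat_lit 1400082651260), .ofNat (nat_lit 692144916589),
 .ofNat (nat_lit 3705530089987), .ofNat (nat_lit 8311190726752), .ofNat (nat_lit 1176013297304),
 .ofNat (nat_lit 1660718554323), .negSucc (nat_lit 3017432450295), .negSucc (nat_lit 370384626270),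
 .ofNat (nat_lit 34776917370), .negSucc (nat_lit 701922529274), .ofNat (nat_lit 4973556708617)]),
 ((nat_lit 15, nat_lit 2, false), [.ofNat (nat_lit 48829105092655538), .ofNat (nat_lit
 3654816741379593), .ofNat (nat_lit 19966860865071492), .negSucc (nat_lit 2338962596669976),
 .negSucc (nat_lit 574989291334467), .negSucc (nat_lit 216146433420013), .negSucc (nat_lit
 92657642300123), .ofNat (nat_lit 22739628156267), .negSucc (nat_lit 95242339520099), .ofNat
 (nat_lit 38795248155455), .negSucc (nat_lit 162606060710552), .ofNat (nat_lit 68480681480902),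
 .ofNat (nat_lit 6254826721337), .negSucc (nat_lit 85829131937518), .negSucc (nat_lit
 35886575348641), .ofNat (nat_lit 26028105057344), .ofNat (nat_lit 21125092442805), .ofNat (nat_lit
 69323593419576), .ofNat (nat_lit 54502031091559), .negSucc (nat_lit 32210366439480), .ofNat
 (nat_lit 47706588338894), .ofNat (nat_lit 55726651913236), .negSucc (nat_lit 635504742928), .ofNat
 (nat_lit 6385200460944), .negSucc (nat_lit 5029607883260), .negSucc (nat_lit 32353909819262),
 .ofNat (nat_lit 3145594999025), .ofNat (nat_lit 13430636569062), .negSucc (nat_lit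
 21861413444087), .ofNat (nat_lit 52760965202486), .negSucc (nat_lit 31984432285285), .ofNat
 (nat_lit 18496467638184), .ofNat (nat_lit 44104945892642), .negSucc (nat_lit 12876698435215),
 .ofNat (nat_lit 5596018600197), .ofNat (nat_lit 7538636979264), .negSucc (nat_lit 7893705080561),
 .ofNat (nat_lit 46820063531540), .ofNat (nat_lit 10054502029426), .negSucc (nat_lit
 13121092098727), .ofNat (nat_lit 4846735408184), .negSucc (nat_lit 861969997553), .negSucc
 (nat_lit 6500379330355), .ofNat (nat_lit 3123684984137), .negSucc (nat_lit 1110941858704),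
 .negSucc (nat_lit 10138495630045), .negSucc (nat_lit 5606424704408), .ofNat (nat_lit
 4948126810388), .negSucc (nat_lit 23234605535336), .negSucc (nat_lit 17276891732245), .ofNat
 (nat_lit 3741012419576), .ofNat (nat_lit 546266245443), .ofNat (nat_lit 10541845403173), .negSucc
 (nat_lit 3275532023736), .negSucc (nat_lit 236392618458), .ofNat (nat_lit 4479810216121), .negSucc
 (nat_lit 8100960398126), .ofNat (nat_lit 18701579543560)]), ((nat_lit 15, nat_lit 3, false),
 [.ofNat (nat_lit 18301320662559707), .negSucc (nat_lit 28907420149207540), .ofNat (nat_lit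
 18303608605774127), .negSucc (nat_lit 1539403480217080), .negSucc (nat_lit 15862727527914),
 .negSucc (nat_lit 110907423172858), .negSucc (nat_lit 15155265398796), .ofNat (nat_lit
 2051369633848), .negSucc (nat_lit 27022218255786), .ofNat (nat_lit 27232313571986), .negSucc
 (nat_lit 68580643523117), .ofNat (nat_lit 34588323171653), .ofNat (nat_lit 4702413849506),
 .negSucc (nat_lit 37910235979623), .negSucc (nat_lit 4149528089657), .ofNat (nat_lit
 23495880336270), .negSucc (nat_lit 1226353439096), .ofNat (nat_lit 19755330608510), .ofNat
 (nat_lit 37893563894318), .negSucc (nat_lit 12200230081535), .ofNat (nat_lit 13916135921448),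
 .ofNat (nat_lit 56464624575206), .ofNat (nat_lit 6981603583072), .ofNat (nat_lit 17193304855911),
 .negSucc (nat_lit 6157606233214), .negSucc (nat_lit 21591779416666), .ofNat (nat_lit
 4716025012755), .ofNat (nat_lit 13889134819310), .ofNat (nat_lit 5874385162793), .ofNat (nat_lit
 2282904034061), .negSucc (nat_lit 1938608025242), .ofNat (nat_lit 3192728114873), .ofNat (nat_lit
 30344732922881), .negSucc (nat_lit 20069315843221), .negSucc (nat_lit 27129559279528), .ofNat
 (nat_lit 3125396633642), .negSucc (nat_lit 17207412401509), .ofNat (nat_lit 19377509030942),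
 .ofNat (nat_lit 27664587478559), .negSucc (nat_lit 1755216641071), .ofNat (nat_lit 1681304798783),
 .ofNat (nat_lit 271366649538), .negSucc (nat_lit 1658791399732), .negSucc (nat_lit 635026172558),
 .negSucc (nat_lit 658941749369), .negSucc (nat_lit 3509190898347), .negSucc (nat_lit
 1243342522192), .negSucc (nat_lit 204077693391), .negSucc (nat_lit 10033080749951), .negSucc
 (nat_lit 5674900027302), .ofNat (nat_lit 1303849284081), .negSucc (nat_lit 3809664213123), .ofNat
 (nat_lit 1950407907688), .negSucc (nat_lit 283087380225), .negSucc (nat_lit 6901339474060), .ofNat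
 (nat_lit 1249440919421), .negSucc (nat_lit 2044599122762), .ofNat (nat_lit 7241232512939), .ofNat
 (nat_lit 4876519441267)]), ((nat_lit 15, nat_lit 4, false), [.negSucc (nat_lit 826915682844451),
 .negSucc (nat_lit 3096182812713006), .negSucc (nat_lit 25629397400304358), .ofNat (nat_lit
 2917708974168881), .ofNat (nat_lit 444206875188552), .ofNat (nat_lit 267012194177777), .ofNat
 (nat_lit 53594616417502), .ofNat (nat_lit 5692597678816), .ofNat (nat_lit 27451398010978),
 .negSucc (nat_lit 58654973832988), .ofNat (nat_lit 105666987834467), .negSucc (nat_lit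
 83653350333974), .negSucc (nat_lit 15899127564475), .ofNat (nat_lit 83351802325171), .ofNat
 (nat_lit 8595991010377), .ofNat (nat_lit 245366674861), .ofNat (nat_lit 25929164236463), .negSucc
 (nat_lit 10647385032363), .negSucc (nat_lit 27850920725170), .ofNat (nat_lit 33198279987944),
 .negSucc (nat_lit 14408675513234), .negSucc (nat_lit 452540114009), .ofNat (nat_lit 372669626999),
 .ofNat (nat_lit 30330914049922), .ofNat (nat_lit 4659918134820), .ofNat (nat_lit 29883022979184),
 .negSucc (nat_lit 8288794120646), .ofNat (nat_lit 1629061035783), .negSucc (nat_lit 394933625582),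
 .negSucc (nat_lit 40532303491158), .ofNat (nat_lit 44659928000604), .negSucc (nat_lit
 14429700195062), .negSucc (nat_lit 12903534340443), .ofNat (nat_lit 2003672373780), .negSucc
 (nat_lit 9438569271308), .negSucc (nat_lit 15179448686323), .ofNat (nat_lit 4031850341901), .ofNat
 (nat_lit 1670572845929), .negSucc (nat_lit 20498411952990), .ofNat (nat_lit 46596322146942),
 .negSucc (nat_lit 4905585059116), .ofNat (nat_lit 6588214428320), .ofNat (nat_lit 5221340151373),
 .ofNat (nat_lit 2942764340012), .negSucc (nat_lit 845532800520), .ofNat (nat_lit 2719585689513),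
 .ofNat (nat_lit 1433983288906), .negSucc (nat_lit 5112670879408), .ofNat (nat_lit 9731420038352),
 .negSucc (nat_lit 4779978989288), .negSucc (nat_lit 1283385195299), .negSucc (nat_lit
 10365242868897), .negSucc (nat_lit 6697096796001), .ofNat (nat_lit 5114075361524), .negSucc
 (nat_lit 3706126382746), .negSucc (nat_lit 17077732367394), .ofNat (nat_lit 3717403884382),
 .negSucc (nat_lit 1722677381544), .ofNat (nat_lit 2817696695696), .ofNat (nat_lit
 11765560941685)]), ((nat_lit 20, nat_lit 1, false), [.negSucc (nat_lit 9466819867476287), .ofNat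
 (nat_lit 13175255716119835), .ofNat (nat_lit 1389880230654198), .negSucc (nat_lit
 392420700351640), .negSucc (nat_lit 151028522906465), .negSucc (nat_lit 52272715248906), .ofNat
 (nat_lit 6424850948908), .negSucc (nat_lit 4410573273801), .ofNat (nat_lit 2461988882350), .ofNat
 (nat_lit 23529429432618), .negSucc (nat_lit 4872217301127), .ofNat (nat_lit 7435044730734), .ofNat
 (nat_lit 10230289282146), .negSucc (nat_lit 17944767909074), .ofNat (nat_lit 3104813741939),
 .ofNat (nat_lit 4736375252370), .negSucc (nat_lit 18128099205600), .ofNat (nat_lit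
 12638463963200), .negSucc (nat_lit 25096877769355), .negSucc (nat_lit 1578478954868), .ofNat
 (nat_lit 28376950865036), .ofNat (nat_lit 15998178189889), .negSucc (nat_lit 1100560239988),
 .ofNat (nat_lit 5398121556025), .negSucc (nat_lit 577425894329), .ofNat (nat_lit 2196666261098),
 .ofNat (nat_lit 10247843333733), .ofNat (nat_lit 3846168194565), .negSucc (nat_lit 66550627754),
 .negSucc (nat_lit 12798926912154), .negSucc (nat_lit 4992686984848), .negSucc (nat_lit
 6969094384615), .ofNat (nat_lit 10835401827247), .ofNat (nat_lit 16293524518419), .negSucc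
 (nat_lit 14437382182041), .ofNat (nat_lit 14158304358138), .negSucc (nat_lit 5219821901612),
 .negSucc (nat_lit 23655083872804), .negSucc (nat_lit 62292424660), .ofNat (nat_lit 1450069368045),
 .ofNat (nat_lit 20301909766092), .ofNat (nat_lit 7344302435549), .negSucc (nat_lit 7123053292213),
 .negSucc (nat_lit 2467062199777), .ofNat (nat_lit 3682010280783), .ofNat (nat_lit 27353210627320),
 .ofNat (nat_lit 12991544798981), .negSucc (nat_lit 2240061928794), .ofNat (nat_lit
 15183835794170), .negSucc (nat_lit 11184176346658), .negSucc (nat_lit 10418528897405), .negSucc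
 (nat_lit 2377607965070), .ofNat (nat_lit 14075574848401), .negSucc (nat_lit 24913095138279),
 .negSucc (nat_lit 1437997664549), .negSucc (nat_lit 10918753562792), .ofNat (nat_lit
 2060215127965), .negSucc (nat_lit 7645768908330), .ofNat (nat_lit 3696847566457), .negSucc
 (nat_lit 3234014367973), .ofNat (nat_lit 26865349027425)]), ((nat_lit 20, nat_lit 2, false),
 [.ofNat (nat_lit 19930703634993576), .negSucc (nat_lit 37938343295830396), .negSucc (nat_lit
 14061146917451962), .ofNat (nat_lit 2244289551712411), .ofNat (nat_lit 594919037090906), .ofNat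
 (nat_lit 244455010366138), .ofNat (nat_lit 45537674284796), .ofNat (nat_lit 5931276699426), .ofNat
 (nat_lit 2163975049251), .negSucc (nat_lit 66175755304161), .ofNat (nat_lit 75038153252148),
 .negSucc (nat_lit 58274367621419), .negSucc (nat_lit 22075926468402), .ofNat (nat_lit
 85403144559555), .negSucc (nat_lit 7096387352537), .negSucc (nat_lit 20534444297628), .ofNat
 (nat_lit 36623085708617), .negSucc (nat_lit 38286326608363), .ofNat (nat_lit 37398239702275),
 .negSucc (nat_lit 10655424594245), .negSucc (nat_lit 58079740641728), .negSucc (nat_lit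
 14285095188521), .negSucc (nat_lit 20609250835680), .ofNat (nat_lit 1925879071059), .ofNat
 (nat_lit 7122241983493), .ofNat (nat_lit 18717710146783), .negSucc (nat_lit 12170478728910),
 .negSucc (nat_lit 12981728109284), .ofNat (nat_lit 13718967648708), .negSucc (nat_lit
 2359690045280), .ofNat (nat_lit 37549567046061), .negSucc (nat_lit 4544247985786), .negSucc
 (nat_lit 9403275838549), .negSucc (nat_lit 50837089176575), .ofNat (nat_lit 12035719174833),
 .negSucc (nat_lit 27785901126424), .ofNat (nat_lit 17391806976579), .ofNat (nat_lit
 48686600227642), .ofNat (nat_lit 9644768235959), .negSucc (nat_lit 11171552088706), .negSucc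
 (nat_lit 28045114923635), .ofNat (nat_lit 27339957750451), .ofNat (nat_lit 30021769580179), .ofNat
 (nat_lit 17422178017921), .negSucc (nat_lit 4623655531869), .negSucc (nat_lit 38688030092260),
 .negSucc (nat_lit 37082497433805), .ofNat (nat_lit 16451475492617), .ofNat (nat_lit
 14727925602322), .ofNat (nat_lit 20206479222277), .ofNat (nat_lit 27485037933291), .negSucc
 (nat_lit 13839690639920), .ofNat (nat_lit 7584152704103), .ofNat (nat_lit 75105865212530), .ofNat
 (nat_lit 13856518992101), .negSucc (nat_lit 834703859957), .ofNat (nat_lit 2002971343055), .ofNat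
 (nat_lit 15756767121888), .negSucc (nat_lit 2850253249127), .ofNat (nat_lit 4201781594344),
 .negSucc (nat_lit 45338988641249), .ofNat (nat_lit 54296788076889)]), ((nat_lit 20, nat_lit 3,
 false), [.negSucc (nat_lit 29601287514533084), .ofNat (nat_lit 13180593257438159), .negSucc
 (nat_lit 22013475730068153), .ofNat (nat_lit 2241349601631458), .ofNat (nat_lit 301282777393967),
 .ofNat (nat_lit 186073249637604), .ofNat (nat_lit 73494624399570), .negSucc (nat_lit
 13877132194865), .ofNat (nat_lit 56613391227922), .negSucc (nat_lit 28127191358606), .ofNat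
 (nat_lit 120612024928471), .negSucc (nat_lit 60329825683554), .negSucc (nat_lit 676243420312),
 .ofNat (nat_lit 72325583290157), .ofNat (nat_lit 14660699157558), .negSucc (nat_lit
 26560737757293), .negSucc (nat_lit 14170402418167), .negSucc (nat_lit 25765055138601), .negSucc
 (nat_lit 61619823728684), .ofNat (nat_lit 9610429154808), .negSucc (nat_lit 16611089087081),
 .negSucc (nat_lit 14989705283791), .negSucc (nat_lit 3341299745437), .negSucc (nat_lit
 7871238975040), .ofNat (nat_lit 9378269139795), .ofNat (nat_lit 26040908936345), .ofNat (nat_lit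
 8655997693986), .negSucc (nat_lit 391044273828), .ofNat (nat_lit 6546315160364), .negSucc (nat_lit
 19746175436843), .ofNat (nat_lit 33652062082623), .negSucc (nat_lit 21059100511522), .negSucc
 (nat_lit 16472204898799), .negSucc (nat_lit 12744245506558), .ofNat (nat_lit 10233426143767),
 .negSucc (nat_lit 19795068232660), .negSucc (nat_lit 3732725482624), .ofNat (nat_lit
 2163577914043), .negSucc (nat_lit 2177513563402), .ofNat (nat_lit 1484099847079), .negSucc
 (nat_lit 14183021309517), .ofNat (nat_lit 28579307319222), .ofNat (nat_lit 46693570196132), .ofNat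
 (nat_lit 8914067732280), .negSucc (nat_lit 606707706611), .negSucc (nat_lit 5965784864365),
 .negSucc (nat_lit 10119144876769), .ofNat (nat_lit 2033788254478), .ofNat (nat_lit 8679395008549),
 .ofNat (nat_lit 13740617700551), .ofNat (nat_lit 26296046725959), .negSucc (nat_lit
 16724002099603), .ofNat (nat_lit 2218877218605), .ofNat (nat_lit 27596265515510), .ofNat (nat_lit
 24309456567374), .negSucc (nat_lit 7322107884292), .ofNat (nat_lit 4412572142985), .ofNat (nat_lit
 11554457790495), .ofNat (nat_lit 5752396169679), .ofNat (nat_lit 10877091994628), .negSucc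
 (nat_lit 8297276173455), .ofNat (nat_lit 22689509649612), .ofNat (nat_lit 37148712120803)]),
 ((nat_lit 20, nat_lit 4, false), [.negSucc (nat_lit 73394157046375652), .ofNat (nat_lit
 5830605703304041), .negSucc (nat_lit 31496971872290733), .ofNat (nat_lit 3482981675988409), .ofNat
 (nat_lit 756603652184282), .ofNat (nat_lit 306327280959396), .ofNat (nat_lit 92798662823649),
 .negSucc (nat_lit 38411220541562), .ofNat (nat_lit 115697326303626), .negSucc (nat_lit
 76711598921909), .ofNat (nat_lit 236113783211341), .negSucc (nat_lit 97069124188579), .negSucc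
 (nat_lit 7758363637140), .ofNat (nat_lit 114944633239699), .ofNat (nat_lit 41071549480208),
 .negSucc (nat_lit 59064686179019), .negSucc (nat_lit 21051741716926), .negSucc (nat_lit
 78884279187794), .negSucc (nat_lit 85547718750399), .ofNat (nat_lit 56787504288768), .negSucc
 (nat_lit 70302546441560), .negSucc (nat_lit 85569116202877), .ofNat (nat_lit 71178109337360),
 .negSucc (nat_lit 57901563505170), .ofNat (nat_lit 8570296335150), .ofNat (nat_lit
 30508396763223), .negSucc (nat_lit 9872531832670), .negSucc (nat_lit 7876662706189), .negSucc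
 (nat_lit 20066545161038), .negSucc (nat_lit 16602478700446), .ofNat (nat_lit 33490752041435),
 .negSucc (nat_lit 12533185737233), .negSucc (nat_lit 31781278589649), .negSucc (nat_lit
 25148105106415), .ofNat (nat_lit 37967964176980), .negSucc (nat_lit 46783369190966), .ofNat
 (nat_lit 22522364913075), .ofNat (nat_lit 14542364430008), .negSucc (nat_lit 47352128577371),
 .ofNat (nat_lit 42841587242830), .negSucc (nat_lit 4133535927793), .negSucc (nat_lit
 15008963943003), .ofNat (nat_lit 23557275209543), .ofNat (nat_lit 24189827632253), .ofNat (nat_lit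
 350331241079), .negSucc (nat_lit 868896305221), .ofNat (nat_lit 19421036493814), .negSucc (nat_lit
 26986706326440), .ofNat (nat_lit 5893208946388), .ofNat (nat_lit 34675081624644), .negSucc
 (nat_lit 5886421126320), .negSucc (nat_lit 1731659473626), .negSucc (nat_lit 9733135373906),
 .negSucc (nat_lit 2891622478777), .negSucc (nat_lit 5522228177049), .ofNat (nat_lit
 46309183513992), .ofNat (nat_lit 2638616136833), .ofNat (nat_lit 9002551567027), .ofNat (nat_lit
 1127733449700), .ofNat (nat_lit 11465399189310), .ofNat (nat_lit 15433423061072), .negSucc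
 (nat_lit 31518554281621), .ofNat (nat_lit 31924571287004), .ofNat (nat_lit 30509029952923)]),
 ((nat_lit 18, nat_lit 1, false), [.ofNat (nat_lit 4193754618170831), .negSucc (nat_lit
 12259797553131019), .ofNat (nat_lit 3956992199745626), .negSucc (nat_lit 225484534108264), .ofNat
 (nat_lit 71932781729426), .negSucc (nat_lit 5369249549448), .negSucc (nat_lit 2694238030250),
 .ofNat (nat_lit 2771683788334), .negSucc (nat_lit 5135873053136), .ofNat (nat_lit 560197100290),
 .negSucc (nat_lit 12242873728414), .ofNat (nat_lit 5190141022860), .negSucc (nat_lit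
 3750045714130), .ofNat (nat_lit 5513011270133), .negSucc (nat_lit 10538256469218), .ofNat (nat_lit
 3841287837734), .ofNat (nat_lit 7780675237127), .negSucc (nat_lit 9068709893556), .ofNat (nat_lit
 18352701976210), .negSucc (nat_lit 3334057047152), .ofNat (nat_lit 1430619401570), .negSucc
 (nat_lit 1113070950654), .negSucc (nat_lit 302004936936), .ofNat (nat_lit 279752343030), .ofNat
 (nat_lit 1186655899406), .negSucc (nat_lit 9916616664513), .negSucc (nat_lit 568514562927), .ofNat
 (nat_lit 3068810728368), .ofNat (nat_lit 7317461012774), .negSucc (nat_lit 1786460407398), .ofNat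
 (nat_lit 5196805667510), .ofNat (nat_lit 4708707688751), .ofNat (nat_lit 2755401913145), .negSucc
 (nat_lit 9523860557923), .ofNat (nat_lit 6980635845120), .negSucc (nat_lit 5547089633355), .ofNat
 (nat_lit 23049383891567), .ofNat (nat_lit 7017778261279), .ofNat (nat_lit 4093820401616), .ofNat
 (nat_lit 485925189216), .ofNat (nat_lit 4858146239615), .negSucc (nat_lit 7362224256917), .ofNat
 (nat_lit 12204668025334), .ofNat (nat_lit 3237739089943), .negSucc (nat_lit 2052456732795),
 .negSucc (nat_lit 10876203053861), .negSucc (nat_lit 9414318661203), .negSucc (nat_lit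
 1537127689995), .negSucc (nat_lit 720401463491), .ofNat (nat_lit 3159171883320), .ofNat (nat_lit
 6025942923678), .ofNat (nat_lit 2838961867514), .negSucc (nat_lit 4730879203635), .ofNat (nat_lit
 13292076910819), .ofNat (nat_lit 833416121679), .ofNat (nat_lit 3169040928894), .ofNat (nat_lit
 8636604719090), .ofNat (nat_lit 4151838799271), .negSucc (nat_lit 4347540974850), .ofNat (nat_lit
 1838887425118), .negSucc (nat_lit 15764376418511), .ofNat (nat_lit 377904227859), .negSucc
 (nat_lit 1317094660862), .negSucc (nat_lit 2148635202332), .ofNat (nat_lit 11026904408694)]),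
 ((nat_lit 18, nat_lit 2, false), [.negSucc (nat_lit 37883808073882926), .ofNat (nat_lit
 37961805045644632), .negSucc (nat_lit 536337151703383), .negSucc (nat_lit 585806025021809),
 .negSucc (nat_lit 281646206106817), .negSucc (nat_lit 89886413100410), .negSucc (nat_lit
 15721528056105), .negSucc (nat_lit 10724886201817), .ofNat (nat_lit 34839876687441), .ofNat
 (nat_lit 25375390301419), .ofNat (nat_lit 9864228116198), .ofNat (nat_lit 15320769540710), .ofNat
 (nat_lit 19317487101224), .negSucc (nat_lit 36694801070415), .ofNat (nat_lit 31242855035436),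
 .ofNat (nat_lit 2092041781394), .negSucc (nat_lit 56570010247280), .ofNat (nat_lit
 11635403605179), .negSucc (nat_lit 44139684134432), .ofNat (nat_lit 14336551401487), .ofNat
 (nat_lit 3046228740946), .negSucc (nat_lit 15529284768037), .ofNat (nat_lit 16221720556058),
 .negSucc (nat_lit 5055433815715), .ofNat (nat_lit 354374328679), .ofNat (nat_lit 23371926938001),
 .ofNat (nat_lit 2482451713506), .negSucc (nat_lit 22673394969506), .negSucc (nat_lit
 13439849663108), .ofNat (nat_lit 15740517427347), .negSucc (nat_lit 32962992424410), .negSucc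
 (nat_lit 11508822028914), .negSucc (nat_lit 5537263747171), .ofNat (nat_lit 64972195571554),
 .negSucc (nat_lit 5659705527508), .ofNat (nat_lit 20204560699646), .negSucc (nat_lit
 10304174353722), .ofNat (nat_lit 17822283714494), .negSucc (nat_lit 25204714732138), .ofNat
 (nat_lit 4383519671884), .ofNat (nat_lit 17806445784104), .ofNat (nat_lit 42821865859562),
 .negSucc (nat_lit 14855933568688), .negSucc (nat_lit 28612345070696), .ofNat (nat_lit
 5659433985631), .ofNat (nat_lit 22814387686639), .ofNat (nat_lit 20573364598351), .ofNat (nat_lit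
 7332970472770), .negSucc (nat_lit 12397850237645), .negSucc (nat_lit 6076585875724), .negSucc
 (nat_lit 7815980656403), .ofNat (nat_lit 538232420986), .negSucc (nat_lit 1580425603691), .negSucc
 (nat_lit 35150338954815), .negSucc (nat_lit 5936666543716), .ofNat (nat_lit 8671678647806),
 .negSucc (nat_lit 9642827851659), .ofNat (nat_lit 12275994304209), .ofNat (nat_lit
 13331437950641), .negSucc (nat_lit 17356365962046), .ofNat (nat_lit 31589446580610), .negSucc
 (nat_lit 31576256196161), .negSucc (nat_lit 1042222591484), .ofNat (nat_lit 7489271527136),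
 .negSucc (nat_lit 10529424490816), .ofNat (nat_lit 30163760173824)]), ((nat_lit 18, nat_lit 3,
 false), [.negSucc (nat_lit 2453745548760036), .ofNat (nat_lit 18054574825341258), .ofNat (nat_lit
 3477731400272988), .negSucc (nat_lit 704882558641708), .negSucc (nat_lit 255309528824889),
 .negSucc (nat_lit 75319454062312), .negSucc (nat_lit 30576407475670), .ofNat (nat_lit
 3722645082503), .negSucc (nat_lit 8337791098956), .ofNat (nat_lit 19150045271850), .negSucc
 (nat_lit 45421243557481), .ofNat (nat_lit 18640685691589), .ofNat (nat_lit 7192579144621),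
 .negSucc (nat_lit 27035055615240), .negSucc (nat_lit 1553034570626), .ofNat (nat_lit
 5864703205430), .negSucc (nat_lit 8668859710640), .ofNat (nat_lit 21262140800471), .negSucc
 (nat_lit 3172631453677), .ofNat (nat_lit 2051697602699), .ofNat (nat_lit 9797432001051), .negSucc
 (nat_lit 16571344727502), .ofNat (nat_lit 6226881980280), .ofNat (nat_lit 6893928693890), .negSucc
 (nat_lit 1634989187730), .ofNat (nat_lit 9670960204030), .ofNat (nat_lit 23759892154594), .ofNat
 (nat_lit 3480375431196), .negSucc (nat_lit 6658451158540), .ofNat (nat_lit 15259317154321),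
 .negSucc (nat_lit 26539065200869), .negSucc (nat_lit 1595301509428), .negSucc (nat_lit
 9996102849697), .ofNat (nat_lit 29165393596640), .ofNat (nat_lit 9215399508231), .ofNat (nat_lit
 19342542782562), .ofNat (nat_lit 22119685962955), .ofNat (nat_lit 16014279895835), .ofNat (nat_lit
 1768547636430), .negSucc (nat_lit 555788627978), .ofNat (nat_lit 339442821375), .ofNat (nat_lit
 17016762362767), .ofNat (nat_lit 10904210769744), .negSucc (nat_lit 13496213104840), .ofNat
 (nat_lit 2157846973533), .ofNat (nat_lit 7818283072998), .ofNat (nat_lit 5914070892664), .ofNat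
 (nat_lit 1136124310203), .negSucc (nat_lit 15313054012552), .negSucc (nat_lit 7400198676711),
 .negSucc (nat_lit 9781008595685), .ofNat (nat_lit 6605282546452), .ofNat (nat_lit 924944739205),
 .negSucc (nat_lit 14139107204339), .negSucc (nat_lit 9451523761131), .ofNat (nat_lit
 7154259301929), .negSucc (nat_lit 10962811406953), .negSucc (nat_lit 547780147741), .ofNat
 (nat_lit 9960132512693), .negSucc (nat_lit 16400530656085), .ofNat (nat_lit 6520599515347),
 .negSucc (nat_lit 11744717951561), .negSucc (nat_lit 22359957759497), .ofNat (nat_lit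
 2634312132625), .negSucc (nat_lit 1987117654009), .ofNat (nat_lit 15506323912883), .ofNat (nat_lit
 8352075256699)]), ((nat_lit 18, nat_lit 4, false), [.ofNat (nat_lit 49961952506228072), .negSucc
 (nat_lit 24269383212677804), .ofNat (nat_lit 23166074871231543), .negSucc (nat_lit
 2196180740931255), .negSucc (nat_lit 294279847315607), .negSucc (nat_lit 173458992501513),
 .negSucc (nat_lit 36670658274050), .ofNat (nat_lit 17303925704119), .negSucc (nat_lit
 72373395662473), .ofNat (nat_lit 42268742790097), .negSucc (nat_lit 143554894548076), .ofNat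
 (nat_lit 47357031289960), .negSucc (nat_lit 2935184696326), .negSucc (nat_lit 67971972287875),
 .negSucc (nat_lit 22891658089426), .ofNat (nat_lit 23135484670262), .ofNat (nat_lit
 23173775586606), .ofNat (nat_lit 46944970500123), .ofNat (nat_lit 70105338666184), .negSucc
 (nat_lit 39919106218429), .ofNat (nat_lit 29946930755681), .ofNat (nat_lit 53451618848694),
 .negSucc (nat_lit 36750365874038), .ofNat (nat_lit 39837409370085), .negSucc (nat_lit
 7841157537636), .negSucc (nat_lit 13348200014189), .ofNat (nat_lit 13856234134574), .ofNat
 (nat_lit 68538205867533), .ofNat (nat_lit 12224044658992), .negSucc (nat_lit 14563166426436),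
 .negSucc (nat_lit 13424125105910), .ofNat (nat_lit 7326928802996), .ofNat (nat_lit
 24980832072746), .negSucc (nat_lit 5242170611792), .negSucc (nat_lit 32041533515202), .ofNat
 (nat_lit 36442110455631), .negSucc (nat_lit 16525039877766), .negSucc (nat_lit 15852056126971),
 .ofNat (nat_lit 54675810184804), .negSucc (nat_lit 10375732109103), .ofNat (nat_lit 145997709908),
 .ofNat (nat_lit 5182659940577), .negSucc (nat_lit 13754754696082), .ofNat (nat_lit
 46818633765751), .negSucc (nat_lit 770841397158), .negSucc (nat_lit 3452425673262), .negSucc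
 (nat_lit 7696497591245), .ofNat (nat_lit 12990477021649), .negSucc (nat_lit 4775118718453),
 .negSucc (nat_lit 17621165033975), .negSucc (nat_lit 2938994025507), .ofNat (nat_lit
 1924977752862), .ofNat (nat_lit 8054608259038), .ofNat (nat_lit 3049008539207), .ofNat (nat_lit
 1128669865522), .negSucc (nat_lit 25555352026850), .negSucc (nat_lit 1968033895851), .negSucc
 (nat_lit 2870050431822), .negSucc (nat_lit 5479865717652), .ofNat (nat_lit 7282123731142),
 .negSucc (nat_lit 8667815140839), .ofNat (nat_lit 18816104234711), .negSucc (nat_lit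
 22138523136420), .negSucc (nat_lit 19231324379454), .ofNat (nat_lit 5014155531926), .negSucc
 (nat_lit 3825828457456), .ofNat (nat_lit 3763653772418), .ofNat (nat_lit 11040821056360)]),
 ((nat_lit 24, nat_lit 1, false), [.negSucc (nat_lit 18437871179824306), .negSucc (nat_lit
 3991302576133793), .ofNat (nat_lit 2452641703267124), .negSucc (nat_lit 185576170069638), .ofNat
 (nat_lit 91061269217925), .negSucc (nat_lit 9188417159969), .ofNat (nat_lit 20243191129211),
 .negSucc (nat_lit 9743650108066), .ofNat (nat_lit 26124007600521), .ofNat (nat_lit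
 11113174559229), .ofNat (nat_lit 11533759075791), .negSucc (nat_lit 429276081487), .ofNat (nat_lit
 7251962546476), .ofNat (nat_lit 4618932758596), .ofNat (nat_lit 16471406620903), .ofNat (nat_lit
 2454131714858), .negSucc (nat_lit 29375488952726), .negSucc (nat_lit 5519143838931), .negSucc
 (nat_lit 15304423516514), .ofNat (nat_lit 737848858063), .negSucc (nat_lit 9129131361970), .ofNat
 (nat_lit 13701049706551), .negSucc (nat_lit 2491761052824), .ofNat (nat_lit 1066371359620), .ofNat
 (nat_lit 902390491687), .ofNat (nat_lit 9472693256608), .negSucc (nat_lit 10045065559376), .ofNat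
 (nat_lit 6092625407608), .ofNat (nat_lit 3602411903137), .negSucc (nat_lit 3888316072455), .ofNat
 (nat_lit 955736584128), .negSucc (nat_lit 3931773557230), .negSucc (nat_lit 3182100713384),
 .negSucc (nat_lit 5364369783745), .negSucc (nat_lit 9110192861882), .ofNat (nat_lit
 3251600124488), .ofNat (nat_lit 478752285904), .negSucc (nat_lit 8283640449587), .ofNat (nat_lit
 6527835694319), .negSucc (nat_lit 4721019045571), .ofNat (nat_lit 28933853499845), .ofNat (nat_lit
 1370412271863), .ofNat (nat_lit 6175551908981), .negSucc (nat_lit 3321004809262), .ofNat (nat_lit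
 4650127621678), .negSucc (nat_lit 14799174702482), .ofNat (nat_lit 6263295186412), .negSucc
 (nat_lit 5656375627489), .ofNat (nat_lit 7487589799174), .ofNat (nat_lit 2248223460654), .negSucc
 (nat_lit 373697411519), .negSucc (nat_lit 167482966279), .ofNat (nat_lit 3100043394723), .negSucc
 (nat_lit 4114582951318), .negSucc (nat_lit 1119466380197), .negSucc (nat_lit 8313284329270),
 .ofNat (nat_lit 9069387701869), .ofNat (nat_lit 1204079829277), .negSucc (nat_lit 2882150588042),
 .negSucc (nat_lit 1507182323396), .ofNat (nat_lit 6597660720065), .ofNat (nat_lit 1119059944996),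
 .negSucc (nat_lit 1589794810638), .negSucc (nat_lit 5134275644929), .ofNat (nat_lit
 14792770318802), .ofNat (nat_lit 1922065449231), .negSucc (nat_lit 3089990054517), .negSucc
 (nat_lit 96842493714), .ofNat (nat_lit 17324757168749)]), ((nat_lit 24, nat_lit 2, false), [.ofNat
 (nat_lit 23923016426706660), .ofNat (nat_lit 4269384411861409), .negSucc (nat_lit
 2970125314921191), .ofNat (nat_lit 231175647607967), .negSucc (nat_lit 109831807984544), .ofNat
 (nat_lit 7435363558188), .negSucc (nat_lit 19547120997037), .ofNat (nat_lit 10638869731707),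
 .negSucc (nat_lit 41190306382220), .negSucc (nat_lit 8315898785600), .negSucc (nat_lit
 12031853015210), .negSucc (nat_lit 929668399858), .negSucc (nat_lit 11236937518084), .negSucc
 (nat_lit 249195367609), .negSucc (nat_lit 18922317280750), .negSucc (nat_lit 666508436958), .ofNat
 (nat_lit 46349418673501), .ofNat (nat_lit 5279001532127), .ofNat (nat_lit 11831051976510), .ofNat
 (nat_lit 464074979696), .negSucc (nat_lit 19999764559252), .negSucc (nat_lit 28433448856548),
 .ofNat (nat_lit 10105483698692), .ofNat (nat_lit 1520279656270), .negSucc (nat_lit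
 12023047367148), .negSucc (nat_lit 22615644352372), .negSucc (nat_lit 6094610092889), .ofNat
 (nat_lit 15328171999902), .negSucc (nat_lit 21011372892554), .ofNat (nat_lit 91141965103),
 .negSucc (nat_lit 7927067948728), .ofNat (nat_lit 18603305981244), .ofNat (nat_lit
 15959772410520), .ofNat (nat_lit 4073564122071), .negSucc (nat_lit 897672829746), .negSucc
 (nat_lit 3564041044308), .negSucc (nat_lit 3476692825280), .negSucc (nat_lit 4512168651996),
 .negSucc (nat_lit 17272388751791), .ofNat (nat_lit 2043825924999), .negSucc (nat_lit
 30974114682308), .ofNat (nat_lit 50599654356453), .negSucc (nat_lit 25024025395895), .ofNat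
 (nat_lit 13786518580975), .negSucc (nat_lit 4419699407388), .ofNat (nat_lit 62430596381666),
 .negSucc (nat_lit 3019775621345), .negSucc (nat_lit 15297785921692), .negSucc (nat_lit
 6548297523430), .negSucc (nat_lit 11727852273602), .ofNat (nat_lit 10618937284791), .ofNat
 (nat_lit 12415540018602), .ofNat (nat_lit 6174473640056), .ofNat (nat_lit 3672021013431), .ofNat
 (nat_lit 9549842032564), .negSucc (nat_lit 2451655299145), .negSucc (nat_lit 425311792829), .ofNat
 (nat_lit 6966741908990), .ofNat (nat_lit 16258674766030), .negSucc (nat_lit 14967686749757),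
 .negSucc (nat_lit 5223014444338), .ofNat (nat_lit 10632556767115), .ofNat (nat_lit 8464131623945),
 .ofNat (nat_lit 5530923043904), .negSucc (nat_lit 10156667727843), .ofNat (nat_lit
 42613426368011), .ofNat (nat_lit 12681989343808), .negSucc (nat_lit 14911701525512), .negSucc
 (nat_lit 20160491053463), .ofNat (nat_lit 36987347757790)]), ((nat_lit 24, nat_lit 3, false),
 [.negSucc (nat_lit 10626513544918473), .negSucc (nat_lit 1894836389021127), .ofNat (nat_lit
 18715222010684860), .negSucc (nat_lit 2061657330586441), .negSucc (nat_lit 240860175560011),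
 .negSucc (nat_lit 179041937981976), .negSucc (nat_lit 28495528393302), .negSucc (nat_lit
 13230528482363), .negSucc (nat_lit 6486019526714), .ofNat (nat_lit 46373952894095), .negSucc
 (nat_lit 70147502291128), .ofNat (nat_lit 50296981649844), .ofNat (nat_lit 13175940581895),
 .negSucc (nat_lit 43865296497423), .ofNat (nat_lit 10817710422174), .ofNat (nat_lit
 14748207650607), .negSucc (nat_lit 27715782863115), .ofNat (nat_lit 469250076722), .ofNat (nat_lit
 6132462706594), .negSucc (nat_lit 12554513965950), .ofNat (nat_lit 19123351801341), .ofNat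
 (nat_lit 20667266900373), .negSucc (nat_lit 11504603383294), .ofNat (nat_lit 9873461700462),
 .negSucc (nat_lit 4269213864968), .negSucc (nat_lit 20848771617723), .negSucc (nat_lit
 44342439493525), .ofNat (nat_lit 20003619301469), .negSucc (nat_lit 20791857360364), .ofNat
 (nat_lit 7858140048622), .negSucc (nat_lit 17228771789181), .ofNat (nat_lit 10240683124181),
 .ofNat (nat_lit 8889605129355), .negSucc (nat_lit 682986917095), .negSucc (nat_lit 9948924429303),
 .negSucc (nat_lit 1660804453451), .ofNat (nat_lit 4380411982958), .negSucc (nat_lit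
 9761664273889), .negSucc (nat_lit 7807874564676), .negSucc (nat_lit 15956978533025), .ofNat
 (nat_lit 224257147034), .ofNat (nat_lit 37506843609667), .negSucc (nat_lit 6198159265459), .ofNat
 (nat_lit 3320285502331), .negSucc (nat_lit 2773461657046), .negSucc (nat_lit 5758598489886),
 .ofNat (nat_lit 31982415609616), .negSucc (nat_lit 7388645009544), .negSucc (nat_lit
 8976557271637), .negSucc (nat_lit 1428651203926), .ofNat (nat_lit 5876558246948), .negSucc
 (nat_lit 90915125661), .negSucc (nat_lit 2828465583503), .ofNat (nat_lit 2969475003902), .ofNat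
 (nat_lit 5855261041923), .negSucc (nat_lit 1957544456796), .negSucc (nat_lit 11278632477580),
 .ofNat (nat_lit 2027118323573), .ofNat (nat_lit 16187217540116), .negSucc (nat_lit
 10841232462287), .negSucc (nat_lit 2418539794116), .ofNat (nat_lit 6080112200787), .ofNat (nat_lit
 13551868157534), .ofNat (nat_lit 5565708202897), .negSucc (nat_lit 13234878142956), .ofNat
 (nat_lit 20808574545964), .ofNat (nat_lit 20747219553686), .negSucc (nat_lit 16743130543421),
 .negSucc (nat_lit 2723261152853), .ofNat (nat_lit 26207952946288), .ofNat (nat_lit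
 9682144154061)]), ((nat_lit 24, nat_lit 4, false), [.negSucc (nat_lit 9629392012281431), .negSucc
 (nat_lit 9591556215103484), .negSucc (nat_lit 8698302657992781), .ofNat (nat_lit
 1159595155038652), .ofNat (nat_lit 297875624595304), .ofNat (nat_lit 117666849776849), .ofNat
 (nat_lit 31629867364079), .negSucc (nat_lit 8321639282951), .ofNat (nat_lit 31284200655175),
 .negSucc (nat_lit 30919584031947), .ofNat (nat_lit 66671713407269), .negSucc (nat_lit
 28185254604412), .ofNat (nat_lit 681594761676), .ofNat (nat_lit 39776526398223), .ofNat (nat_lit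
 5856386596225), .negSucc (nat_lit 24664882389697), .negSucc (nat_lit 9039743396217), .negSucc
 (nat_lit 24000845959553), .negSucc (nat_lit 2859275489837), .ofNat (nat_lit 9011741074596),
 .negSucc (nat_lit 11242858854713), .negSucc (nat_lit 20926497483158), .ofNat (nat_lit
 5948171994503), .negSucc (nat_lit 9161967323712), .ofNat (nat_lit 4045737403942), .negSucc
 (nat_lit 22496812496613), .ofNat (nat_lit 18420666733016), .negSucc (nat_lit 56891414687174),
 .ofNat (nat_lit 4610693353045), .negSucc (nat_lit 6101480162968), .ofNat (nat_lit 11370450251016),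
 .negSucc (nat_lit 10916558400262), .negSucc (nat_lit 6764357158270), .negSucc (nat_lit
 10135564502768), .ofNat (nat_lit 3158529125386), .negSucc (nat_lit 27910538727136), .negSucc
 (nat_lit 13699436223590), .ofNat (nat_lit 13021772709596), .negSucc (nat_lit 2165545567950),
 .ofNat (nat_lit 2961344048388), .negSucc (nat_lit 7141432789738), .negSucc (nat_lit
 1318628951213), .ofNat (nat_lit 32918860627702), .ofNat (nat_lit 10384664360830), .ofNat (nat_lit
 3061988958031), .negSucc (nat_lit 34818340615134), .ofNat (nat_lit 13746509425924), .ofNat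
 (nat_lit 57251185335316), .ofNat (nat_lit 9982753534594), .ofNat (nat_lit 6602191206179), .negSucc
 (nat_lit 3835000773316), .negSucc (nat_lit 10033235712757), .negSucc (nat_lit 1655664200963),
 .ofNat (nat_lit 2365451450530), .negSucc (nat_lit 5339709710012), .ofNat (nat_lit 2034159560367),
 .ofNat (nat_lit 232134477988), .ofNat (nat_lit 6325651426210), .negSucc (nat_lit 8038836669795),
 .ofNat (nat_lit 570723436756), .ofNat (nat_lit 5810752106882), .negSucc (nat_lit 2443961868362),
 .negSucc (nat_lit 777461564381), .ofNat (nat_lit 7164680610823), .ofNat (nat_lit 116374516056),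
 .negSucc (nat_lit 323195439768), .negSucc (nat_lit 5494558690315), .ofNat (nat_lit
 12420791747208), .ofNat (nat_lit 7207319506795), .negSucc (nat_lit 3164743793551), .ofNat (nat_lit
 3723121803705), .ofNat (nat_lit 10766909472531)]), ((nat_lit 32, nat_lit 1, false), [.ofNat
 (nat_lit 4100778595453653), .ofNat (nat_lit 1531700784093620), .negSucc (nat_lit
 7231692648562491), .ofNat (nat_lit 780105991684221), .ofNat (nat_lit 81402167872993), .ofNat
 (nat_lit 67605531191374), .ofNat (nat_lit 7775545273745), .ofNat (nat_lit 4191067648997), .negSucc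
 (nat_lit 613331255316), .negSucc (nat_lit 17395941149122), .ofNat (nat_lit 25131063132156),
 .negSucc (nat_lit 18432123511747), .negSucc (nat_lit 4867840106640), .ofNat (nat_lit
 18693742937635), .negSucc (nat_lit 871263211453), .negSucc (nat_lit 4720301588687), .ofNat
 (nat_lit 10142284873483), .negSucc (nat_lit 1296740972817), .negSucc (nat_lit 3120006994457),
 .ofNat (nat_lit 4150589434602), .negSucc (nat_lit 6022572969941), .negSucc (nat_lit
 9394225196494), .ofNat (nat_lit 3483851982035), .negSucc (nat_lit 3330651583104), .ofNat (nat_lit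
 553955703843), .ofNat (nat_lit 4379160602858), .ofNat (nat_lit 1173012190036), .negSucc (nat_lit
 1600668320368), .negSucc (nat_lit 2936556304839), .negSucc (nat_lit 1172304128073), .ofNat
 (nat_lit 5433793431879), .negSucc (nat_lit 1745958664497), .negSucc (nat_lit 1197835535652),
 .ofNat (nat_lit 98568418732), .ofNat (nat_lit 1372914668664), .negSucc (nat_lit 3656928300476),
 .negSucc (nat_lit 478399420458), .ofNat (nat_lit 2182679252686), .negSucc (nat_lit 6575755921533),
 .ofNat (nat_lit 1799207817013), .negSucc (nat_lit 10228523404632), .ofNat (nat_lit 398395581273),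
 .ofNat (nat_lit 2468140573577), .negSucc (nat_lit 1500964109491), .negSucc (nat_lit 867106139636),
 .ofNat (nat_lit 5703798100701), .negSucc (nat_lit 913038612854), .negSucc (nat_lit 1438669653482),
 .negSucc (nat_lit 485683569473), .negSucc (nat_lit 717229141031), .ofNat (nat_lit 3199602512308),
 .negSucc (nat_lit 2187542397943), .negSucc (nat_lit 794447069240), .ofNat (nat_lit 6312120859054),
 .negSucc (nat_lit 596132872602), .negSucc (nat_lit 1393992814305), .ofNat (nat_lit 3274150068806),
 .ofNat (nat_lit 4382732079435), .negSucc (nat_lit 1831761767081), .negSucc (nat_lit 93056173216),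
 .negSucc (nat_lit 3655165807446), .ofNat (nat_lit 467302239229), .negSucc (nat_lit 120759916523),
 .negSucc (nat_lit 2908849193674), .ofNat (nat_lit 4158048295998), .ofNat (nat_lit 2276131777675),
 .negSucc (nat_lit 2856835296687), .negSucc (nat_lit 256383480079), .ofNat (nat_lit
 15941464450125), .ofNat (nat_lit 25935706730), .negSucc (nat_lit 849043662085), .negSucc (nat_lit
 455301397480), .ofNat (nat_lit 5674328658329)]), ((nat_lit 32, nat_lit 2, false), [.ofNat (nat_lit
 6696774198630128), .ofNat (nat_lit 723344214399207), .negSucc (nat_lit 2661719409857033), .ofNat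
 (nat_lit 273704312253522), .negSucc (nat_lit 4794150451044), .ofNat (nat_lit 16763988959029),
 .negSucc (nat_lit 3260520301739), .ofNat (nat_lit 1169287227319), .negSucc (nat_lit
 6243482207502), .negSucc (nat_lit 11397119452760), .ofNat (nat_lit 15587480459436), .ofNat
 (nat_lit 118822931730), .negSucc (nat_lit 3772816045626), .negSucc (nat_lit 4437352187427),
 .negSucc (nat_lit 10776731494162), .negSucc (nat_lit 6942870967955), .ofNat (nat_lit
 15272416081950), .negSucc (nat_lit 9843447888139), .negSucc (nat_lit 366406065486), .negSucc
 (nat_lit 443695066088), .ofNat (nat_lit 10275788872522), .ofNat (nat_lit 1210470880726), .ofNat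
 (nat_lit 4793405148655), .negSucc (nat_lit 8909644067858), .ofNat (nat_lit 2973294492310),
 .negSucc (nat_lit 2911858077688), .ofNat (nat_lit 5465855152060), .negSucc (nat_lit
 19677602380141), .ofNat (nat_lit 1991802763712), .ofNat (nat_lit 4522050956491), .ofNat (nat_lit
 6813568704883), .ofNat (nat_lit 5265499050971), .negSucc (nat_lit 2185118334751), .ofNat (nat_lit
 358634778104), .ofNat (nat_lit 7329491646162), .negSucc (nat_lit 5346645974182), .negSucc (nat_lit
 23757573732972), .ofNat (nat_lit 2244127502926), .negSucc (nat_lit 9087423085097), .ofNat (nat_lit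
 8011602351193), .negSucc (nat_lit 714561838174), .negSucc (nat_lit 17273084430033), .negSucc
 (nat_lit 10417235498793), .ofNat (nat_lit 880870923606), .negSucc (nat_lit 589724791051), .negSucc
 (nat_lit 5719425451188), .negSucc (nat_lit 12823721095355), .ofNat (nat_lit 7825798517837), .ofNat
 (nat_lit 5833158335556), .negSucc (nat_lit 2814521912153), .negSucc (nat_lit 1519984674567),
 .ofNat (nat_lit 6545749552609), .negSucc (nat_lit 7220338882856), .negSucc (nat_lit
 11476725739193), .ofNat (nat_lit 1666323845043), .negSucc (nat_lit 5658608729822), .negSucc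
 (nat_lit 768347680583), .negSucc (nat_lit 1755552228889), .ofNat (nat_lit 4975766002048), .negSucc
 (nat_lit 1889618947760), .ofNat (nat_lit 6852712286872), .negSucc (nat_lit 11441233561778), .ofNat
 (nat_lit 9192393151357), .negSucc (nat_lit 2196231884581), .negSucc (nat_lit 446530969294), .ofNat
 (nat_lit 11790093429976), .ofNat (nat_lit 12240355965485), .negSucc (nat_lit 14482446657945),
 .negSucc (nat_lit 17475187455919), .ofNat (nat_lit 36789640009299), .ofNat (nat_lit
 1883497779433), .ofNat (nat_lit 717426436666), .negSucc (nat_lit 11326650886174), .ofNat (nat_lit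
 2790179094796)]), ((nat_lit 32, nat_lit 3, false), [.ofNat (nat_lit 4894966178665193), .ofNat
 (nat_lit 3776125606794683), .ofNat (nat_lit 1821976428804391), .negSucc (nat_lit 277836291294164),
 .negSucc (nat_lit 103547890545148), .negSucc (nat_lit 34944486026557), .negSucc (nat_lit
 13385235258572), .negSucc (nat_lit 3433427623999), .negSucc (nat_lit 10436302069614), .ofNat
 (nat_lit 1260400046754), .negSucc (nat_lit 6971833391918), .ofNat (nat_lit 12659849591767),
 .negSucc (nat_lit 309873231965), .negSucc (nat_lit 16267215725585), .negSucc (nat_lit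
 10990230809543), .negSucc (nat_lit 5003875923133), .ofNat (nat_lit 11538242706373), .negSucc
 (nat_lit 4172459692945), .ofNat (nat_lit 3452923084874), .negSucc (nat_lit 2771609872031), .ofNat
 (nat_lit 5995234262168), .negSucc (nat_lit 6402908501251), .ofNat (nat_lit 5039180409486),
 .negSucc (nat_lit 7173690482805), .ofNat (nat_lit 627654875490), .negSucc (nat_lit 380401037738),
 .ofNat (nat_lit 14791467441199), .negSucc (nat_lit 18231104530823), .ofNat (nat_lit
 2266665512303), .ofNat (nat_lit 12753073034211), .negSucc (nat_lit 3311227295547), .ofNat (nat_lit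
 6499812213680), .ofNat (nat_lit 1302509289429), .ofNat (nat_lit 4996333857025), .ofNat (nat_lit
 4917208825402), .negSucc (nat_lit 1389659513533), .negSucc (nat_lit 18885042271429), .ofNat
 (nat_lit 4398672546594), .negSucc (nat_lit 7711261679318), .ofNat (nat_lit 6965317645625), .ofNat
 (nat_lit 7691244293982), .negSucc (nat_lit 10952034611223), .negSucc (nat_lit 25113392415593),
 .ofNat (nat_lit 639452435150), .ofNat (nat_lit 1923242195639), .ofNat (nat_lit 20806043266341),
 .negSucc (nat_lit 24202165322896), .ofNat (nat_lit 10547301750822), .ofNat (nat_lit 535747172982),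
 .negSucc (nat_lit 3367208154676), .negSucc (nat_lit 898095542537), .ofNat (nat_lit 2244039320583),
 .negSucc (nat_lit 9156493305005), .negSucc (nat_lit 1818442629399), .ofNat (nat_lit 751561749670),
 .ofNat (nat_lit 748977965284), .negSucc (nat_lit 6207020745648), .negSucc (nat_lit 366236478080),
 .ofNat (nat_lit 5717756419865), .negSucc (nat_lit 1973906545191), .negSucc (nat_lit
 2620551313468), .negSucc (nat_lit 10435946558149), .ofNat (nat_lit 6018372087597), .ofNat (nat_lit
 2179465948615), .negSucc (nat_lit 6460991211834), .ofNat (nat_lit 4841867796055), .ofNat (nat_lit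
 14885617999927), .negSucc (nat_lit 17552854084296), .negSucc (nat_lit 13405704294533), .ofNat
 (nat_lit 25815884167299), .ofNat (nat_lit 5071109443765), .negSucc (nat_lit 7718449530335),
 .negSucc (nat_lit 4925049649304), .ofNat (nat_lit 2380664694456), .ofNat (nat_lit
 7634748415094)]), ((nat_lit 32, nat_lit 4, false), [.ofNat (nat_lit 5374074647559074), .ofNat
 (nat_lit 2019874965675011), .negSucc (nat_lit 2752215407954860), .ofNat (nat_lit 268367873180073),
 .negSucc (nat_lit 3565775270461), .ofNat (nat_lit 22324099167779), .negSucc (nat_lit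
 842387243287), .ofNat (nat_lit 5748263451971), .negSucc (nat_lit 5094637221055), .negSucc (nat_lit
 4032861699412), .negSucc (nat_lit 1450117780181), .negSucc (nat_lit 6423514532806), .negSucc
 (nat_lit 2090543937950), .ofNat (nat_lit 6233669201047), .negSucc (nat_lit 810704436013), .ofNat
 (nat_lit 4774189897496), .ofNat (nat_lit 5960777652583), .ofNat (nat_lit 7908306288908), .ofNat
 (nat_lit 1177962529569), .negSucc (nat_lit 887429221435), .ofNat (nat_lit 4029921031976), .ofNat
 (nat_lit 2526495947838), .negSucc (nat_lit 2633935893731), .ofNat (nat_lit 988988477890), .ofNat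
 (nat_lit 655343878441), .ofNat (nat_lit 9770366715310), .negSucc (nat_lit 2780801519894), .ofNat
 (nat_lit 9625428462640), .ofNat (nat_lit 70446943138), .ofNat (nat_lit 390223306800), .negSucc
 (nat_lit 598724093303), .ofNat (nat_lit 903353399296), .ofNat (nat_lit 596492430087), .ofNat
 (nat_lit 2297183407501), .negSucc (nat_lit 2256505458923), .ofNat (nat_lit 5515746076619), .ofNat
 (nat_lit 840525152045), .negSucc (nat_lit 3612256488026), .ofNat (nat_lit 1054697077988), .negSucc
 (nat_lit 1557574316881), .negSucc (nat_lit 2510229056937), .negSucc (nat_lit 380716009766),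
 .negSucc (nat_lit 368030345954), .negSucc (nat_lit 2378431098758), .ofNat (nat_lit 112396069839),
 .ofNat (nat_lit 1614029873957), .ofNat (nat_lit 5471727587648), .negSucc (nat_lit 13146745410095),
 .negSucc (nat_lit 1517638337168), .negSucc (nat_lit 4051523020425), .ofNat (nat_lit
 2054281240302), .ofNat (nat_lit 4014079757319), .ofNat (nat_lit 4105438095203), .negSucc (nat_lit
 2229950458590), .ofNat (nat_lit 1793795188027), .negSucc (nat_lit 2973238684936), .ofNat (nat_lit
 3790657823827), .negSucc (nat_lit 491754404641), .negSucc (nat_lit 77999828714), .negSucc (nat_lit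
 3029644400830), .negSucc (nat_lit 2025151379257), .ofNat (nat_lit 4305029299307), .negSucc
 (nat_lit 3146555697304), .negSucc (nat_lit 4608132144546), .ofNat (nat_lit 361373579833), .ofNat
 (nat_lit 3359419311005), .negSucc (nat_lit 6530689453376), .ofNat (nat_lit 281859285020), .negSucc
 (nat_lit 4856784924954), .negSucc (nat_lit 3361350335897), .negSucc (nat_lit 2033928462042),
 .ofNat (nat_lit 2738125303439), .ofNat (nat_lit 1158362841902), .negSucc (nat_lit 403918869417),
 .ofNat (nat_lit 7604189886310), .ofNat (nat_lit 773603044412)])]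

/-- the commands -/
noncomputable def C4 : List Cmd := [.m (nat_lit 1) (nat_lit 13595822178870984370701402260784685023128986358642578125000000000000000) B4]

theorem c_ok4 : okL 7 ES C4 = true := by decide +kernel

end Pool.Agent.H5.HT.D7
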