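import Pool.Agent.H5.HT.D7.D

/-! # Certificate data (7 jets, exponent 129/125) -/

set_option autoImplicit false

namespace Pool.Agent.H5.HT.D7

open Pool.Agent.H58.BJ
open Pool.Agent.H5.HT

/-- block 4, 3 -/
noncomputable def B5 : List (Row × List ℤ) := [((nat_lit 1, nat_lit 1, false), [.ofNat (nat_lit 14602746720812591)]), ((nat_lit 1, nat_lit 2,
 false), [.ofNat (nat_lit 87063782266415447), .ofNat (nat_lit 7100221593090033)]), ((nat_lit 1,
 nat_lit 3, false), [.ofNat (nat_lit 42929108760788448), .negSucc (nat_lit 8099117397462269),
 .ofNat (nat_lit 23213045379853979)]), ((nat_lit 1, nat_lit 4, false), [.ofNat (nat_lit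
 79081316048727699), .negSucc (nat_lit 78459820834561), .ofNat (nat_lit 16024676570938246), .ofNat
 (nat_lit 8870057921312495)]), ((nat_lit 1, nat_lit 5, false), [.ofNat (nat_lit 13895698927347946),
 .negSucc (nat_lit 6052800804522071), .ofNat (nat_lit 14536501009226410), .negSucc (nat_lit
 332880598828132), .ofNat (nat_lit 728889809921532)]), ((nat_lit 1, nat_lit 6, false), [.ofNat
 (nat_lit 30735181627514219), .negSucc (nat_lit 5067271794463277), .ofNat (nat_lit
 14797705391234369), .ofNat (nat_lit 3130322582277408), .ofNat (nat_lit 513037424671937), .ofNat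
 (nat_lit 15503657662110)]), ((nat_lit 1, nat_lit 8, false), [.ofNat (nat_lit 13309836161581116),
 .ofNat (nat_lit 441480876610131), .ofNat (nat_lit 5917026963374334), .ofNat (nat_lit
 3149311412263039), .ofNat (nat_lit 995748908095835), .ofNat (nat_lit 2584294828251), .ofNat
 (nat_lit 17958131290591)]), ((nat_lit 2, nat_lit 1, false), [.ofNat (nat_lit 80674550572710182),
 .ofNat (nat_lit 993831291113170), .ofNat (nat_lit 997759796439384), .negSucc (nat_lit
 1820459417706257), .ofNat (nat_lit 369834800826969), .ofNat (nat_lit 527884693317), .ofNat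
 (nat_lit 704281437664), .ofNat (nat_lit 20230433549626)]), ((nat_lit 2, nat_lit 2, false),
 [.negSucc (nat_lit 154896074712846618), .negSucc (nat_lit 55742779697887830), .ofNat (nat_lit
 37528709476880912), .ofNat (nat_lit 19503826757353721), .ofNat (nat_lit 1590757502790190), .ofNat
 (nat_lit 9670757284284), .negSucc (nat_lit 856408118607), .ofNat (nat_lit 70217177863572), .ofNat
 (nat_lit 81172107422448)]), ((nat_lit 2, nat_lit 3, false), [.negSucc (nat_lit
 183185649113558533), .ofNat (nat_lit 43170690527194184), .negSucc (nat_lit 35721877123978694),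
 .ofNat (nat_lit 9640911156108317), .negSucc (nat_lit 4264531601355257), .negSucc (nat_lit
 5234369737702), .ofNat (nat_lit 8919470336696), .negSucc (nat_lit 71625903314994), .ofNat (nat_lit
 8108325663332), .ofNat (nat_lit 90807854632147)]), ((nat_lit 2, nat_lit 4, false), [.negSucc
 (nat_lit 132746682892170556), .negSucc (nat_lit 59794202919158843), .negSucc (nat_lit
 18287726878529768), .ofNat (nat_lit 22528076736027895), .negSucc (nat_lit 2825804466059935),
 .ofNat (nat_lit 45921654556285), .ofNat (nat_lit 13295165006012), .ofNat (nat_lit 39457453035518),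
 .ofNat (nat_lit 149661048218010), .negSucc (nat_lit 36332781872482), .ofNat (nat_lit
 152999330995366)]), ((nat_lit 2, nat_lit 5, false), [.negSucc (nat_lit 77408837624518588), .ofNat
 (nat_lit 31335513569842884), .negSucc (nat_lit 45648679846769485), .ofNat (nat_lit
 6336842324400038), .negSucc (nat_lit 5718833820227345), .negSucc (nat_lit 3283838609692), .ofNat
 (nat_lit 2777112997275), .negSucc (nat_lit 28868772163832), .ofNat (nat_lit 5609996395669), .ofNat
 (nat_lit 39711434871225), .ofNat (nat_lit 9836691578542), .ofNat (nat_lit 14828270249295)]),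
 ((nat_lit 2, nat_lit 6, false), [.negSucc (nat_lit 94361387671939088), .negSucc (nat_lit
 1803496349735240), .negSucc (nat_lit 38444422410269775), .ofNat (nat_lit 6756733610501239),
 .negSucc (nat_lit 1467083211955677), .negSucc (nat_lit 19076650802479), .negSucc (nat_lit
 9271535856919), .ofNat (nat_lit 7587506346721), .ofNat (nat_lit 53436442809213), .negSucc (nat_lit
 9291655009145), .ofNat (nat_lit 59276211009798), .ofNat (nat_lit 19908334136018), .ofNat (nat_lit
 68702284901632)]), ((nat_lit 2, nat_lit 8, false), [.negSucc (nat_lit 95673358653151915), .negSucc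
 (nat_lit 8396579262264760), .negSucc (nat_lit 26704477626646750), .negSucc (nat_lit
 16746241360460824), .ofNat (nat_lit 8053382118044331), .negSucc (nat_lit 10688467827725), .negSucc
 (nat_lit 36031705463770), .ofNat (nat_lit 48838134966092), .ofNat (nat_lit 14222513270957),
 .negSucc (nat_lit 39118676113474), .negSucc (nat_lit 12665186665892), .negSucc (nat_lit
 6373907813356), .ofNat (nat_lit 19464178375641), .ofNat (nat_lit 90301800669784)]), ((nat_lit 3,
 nat_lit 1, false), [.negSucc (nat_lit 8199152467886270), .ofNat (nat_lit 37323509167072444),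
 .negSucc (nat_lit 49654967459129554), .negSucc (nat_lit 8268455730779906), .negSucc (nat_lit
 2039328692606746), .negSucc (nat_lit 814111214178), .ofNat (nat_lit 686167674522), .ofNat (nat_lit
 14091454318186), .negSucc (nat_lit 35313770023434), .ofNat (nat_lit 13902627920363), .ofNat
 (nat_lit 3096751204741), .ofNat (nat_lit 3898534407621), .negSucc (nat_lit 5317156281589),
 .negSucc (nat_lit 2104603453853), .ofNat (nat_lit 37452926090106)]), ((nat_lit 3, nat_lit 2,
 false), [.negSucc (nat_lit 116625052942597792), .negSucc (nat_lit 79786352815464847), .ofNat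
 (nat_lit 109776214706091605), .negSucc (nat_lit 33183346540778107), .ofNat (nat_lit
 7675779348986977), .negSucc (nat_lit 74390224642055), .ofNat (nat_lit 21787010097450), .ofNat
 (nat_lit 106255511710142), .negSucc (nat_lit 54164949637084), .ofNat (nat_lit 60786447512462),
 .negSucc (nat_lit 143859664954705), .negSucc (nat_lit 17132796602062), .negSucc (nat_lit
 11762152963538), .negSucc (nat_lit 5612307586401), .negSucc (nat_lit 1662553374498), .ofNat
 (nat_lit 92581959320476)]), ((nat_lit 3, nat_lit 3, false), [.ofNat (nat_lit 18726316331777999),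
 .negSucc (nat_lit 21902260869620919), .ofNat (nat_lit 85690073460198584), .negSucc (nat_lit
 40347693831358192), .ofNat (nat_lit 24993496059547481), .negSucc (nat_lit 52431193342160), .ofNat
 (nat_lit 47339136426030), .negSucc (nat_lit 3978384288990), .negSucc (nat_lit 119021959382900),
 .ofNat (nat_lit 20111895502196), .negSucc (nat_lit 162183561306853), .negSucc (nat_lit
 69531126719416), .ofNat (nat_lit 36181016439003), .ofNat (nat_lit 48336631829246), .negSucc
 (nat_lit 83970330154672), .ofNat (nat_lit 81506966216993), .ofNat (nat_lit 137589806647768)]),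
 ((nat_lit 3, nat_lit 4, false), [.ofNat (nat_lit 273503475766061582), .negSucc (nat_lit
 47383228779846528), .negSucc (nat_lit 27950195086107057), .negSucc (nat_lit 1414876974155422),
 .ofNat (nat_lit 732466014659683), .ofNat (nat_lit 55523573922320), .negSucc (nat_lit
 14838365410093), .ofNat (nat_lit 105490910624916), .ofNat (nat_lit 84693168010746), .negSucc
 (nat_lit 35833756344241), .ofNat (nat_lit 87484456538957), .negSucc (nat_lit 28519072803991),
 .negSucc (nat_lit 6242039605046), .negSucc (nat_lit 32979668813677), .negSucc (nat_lit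
 241064852506), .ofNat (nat_lit 38752123824037), .ofNat (nat_lit 58548788040492), .ofNat (nat_lit
 104004527188743)]), ((nat_lit 3, nat_lit 5, false), [.ofNat (nat_lit 136596042853243576), .ofNat
 (nat_lit 34808863695006225), .negSucc (nat_lit 9600055798345992), .negSucc (nat_lit
 28306662939263681), .ofNat (nat_lit 5440238924175999), .negSucc (nat_lit 26446414224984), .ofNat
 (nat_lit 17339224288083), .negSucc (nat_lit 58726833586411), .negSucc (nat_lit 115793693877889),
 .ofNat (nat_lit 19140737966684), .negSucc (nat_lit 94504093496408), .negSucc (nat_lit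
 28329734200098), .ofNat (nat_lit 16243936429560), .ofNat (nat_lit 6376266215459), .negSucc
 (nat_lit 55862701556102), .ofNat (nat_lit 59384107654031), .ofNat (nat_lit 83447803727538), .ofNat
 (nat_lit 13506380462122), .ofNat (nat_lit 73679534003205)]), ((nat_lit 3, nat_lit 6, false),
 [.ofNat (nat_lit 60231183404622371), .negSucc (nat_lit 63430540347000620), .ofNat (nat_lit
 33259247844880577), .negSucc (nat_lit 21959789518607091), .ofNat (nat_lit 36920861433891467),
 .negSucc (nat_lit 10274103821766), .ofNat (nat_lit 39008370114414), .ofNat (nat_lit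
 212558138683896), .ofNat (nat_lit 39127761414598), .negSucc (nat_lit 118700489502458), .negSucc
 (nat_lit 41505912586969), .negSucc (nat_lit 47247995012447), .ofNat (nat_lit 134289292121669),
 .ofNat (nat_lit 123788197780997), .negSucc (nat_lit 28144273882741), .ofNat (nat_lit
 14350403120525), .ofNat (nat_lit 117691992429639), .ofNat (nat_lit 52906023845107), .negSucc
 (nat_lit 39846808416623), .ofNat (nat_lit 114319544883037)]), ((nat_lit 3, nat_lit 8, false),
 [.negSucc (nat_lit 43218280405265236), .negSucc (nat_lit 13305981636424867), .negSucc (nat_lit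
 79828206461055), .negSucc (nat_lit 13894157805996558), .ofNat (nat_lit 8822693186074359), .negSucc
 (nat_lit 41702913753737), .negSucc (nat_lit 4652259788379), .ofNat (nat_lit 67706919276967),
 .negSucc (nat_lit 6535482567623), .negSucc (nat_lit 23748995910944), .negSucc (nat_lit
 41477054909675), .negSucc (nat_lit 3357086660568), .ofNat (nat_lit 17977217011643), .ofNat
 (nat_lit 98051733385895), .ofNat (nat_lit 6351282990592), .ofNat (nat_lit 21225268141838),
 .negSucc (nat_lit 12184166185409), .ofNat (nat_lit 11959143417104), .ofNat (nat_lit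
 3447652911508), .negSucc (nat_lit 1419569193460), .ofNat (nat_lit 70414675203568)]), ((nat_lit 4,
 nat_lit 1, false), [.ofNat (nat_lit 56703990673200563), .negSucc (nat_lit 9106095976797415),
 .negSucc (nat_lit 5879388576418019), .ofNat (nat_lit 316140955277495), .negSucc (nat_lit
 160210773311573), .ofNat (nat_lit 6901305627109), .ofNat (nat_lit 1756396440544), .ofNat (nat_lit
 80994925074320), .ofNat (nat_lit 37074721096921), .ofNat (nat_lit 16841524867990), .negSucc
 (nat_lit 3150182701661), .ofNat (nat_lit 2964339516817), .negSucc (nat_lit 4463515671172),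
 .negSucc (nat_lit 1222856378305), .ofNat (nat_lit 37366401820684), .negSucc (nat_lit
 1161709377710), .negSucc (nat_lit 357079087284), .ofNat (nat_lit 1499469034728), .negSucc (nat_lit
 3142565504108), .negSucc (nat_lit 224128626206), .ofNat (nat_lit 845397485404), .ofNat (nat_lit
 11450170683734)]), ((nat_lit 4, nat_lit 2, false), [.negSucc (nat_lit 145766286185424668),
 .negSucc (nat_lit 30676850288137295), .ofNat (nat_lit 8652310544529976), .ofNat (nat_lit
 17042471977803938), .negSucc (nat_lit 7990099348188900), .negSucc (nat_lit 9164503377788), .ofNat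
 (nat_lit 2948649979837), .negSucc (nat_lit 34414066646572), .ofNat (nat_lit 18256151871495),
 .negSucc (nat_lit 17340424432434), .ofNat (nat_lit 101786444392366), .ofNat (nat_lit
 18666358063197), .negSucc (nat_lit 11319546950769), .negSucc (nat_lit 22663844615281), .ofNat
 (nat_lit 1645565214544), .ofNat (nat_lit 65418775139575), .negSucc (nat_lit 48724696972440),
 .negSucc (nat_lit 26751505194027), .negSucc (nat_lit 10979803037815), .ofNat (nat_lit
 8243370566021), .negSucc (nat_lit 3800823041793), .negSucc (nat_lit 14718778557515), .ofNat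
 (nat_lit 78319024896594)]), ((nat_lit 4, nat_lit 3, false), [.ofNat (nat_lit 201118216584268435),
 .negSucc (nat_lit 49938034575500081), .ofNat (nat_lit 21716506978089520), .negSucc (nat_lit
 11201275820990936), .ofNat (nat_lit 12146868111305279), .negSucc (nat_lit 4138001202413), .negSucc
 (nat_lit 5285333434223), .ofNat (nat_lit 2725695346593), .negSucc (nat_lit 62174450521875),
 .negSucc (nat_lit 162092237128169), .negSucc (nat_lit 2424685717576), .negSucc (nat_lit
 25345333516372), .ofNat (nat_lit 14069244699178), .ofNat (nat_lit 11288613968500), .negSucc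
 (nat_lit 49693979350391), .ofNat (nat_lit 66477401445708), .ofNat (nat_lit 58326615822899), .ofNat
 (nat_lit 9933036727369), .ofNat (nat_lit 19398597713165), .ofNat (nat_lit 1868296810242), .negSucc
 (nat_lit 7526498629431), .negSucc (nat_lit 23399651244057), .negSucc (nat_lit 12770082555498),
 .ofNat (nat_lit 106434399009859)]), ((nat_lit 4, nat_lit 4, false), [.ofNat (nat_lit
 166378498339065330), .ofNat (nat_lit 46384225098503596), .negSucc (nat_lit 30090477280795495),
 .negSucc (nat_lit 35699563891258679), .negSucc (nat_lit 4896886835889975), .negSucc (nat_lit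
 44952765111855), .negSucc (nat_lit 24979151250998), .negSucc (nat_lit 14018070410110), .negSucc
 (nat_lit 107139155560788), .ofNat (nat_lit 78773312356579), .negSucc (nat_lit 81018190786617),
 .ofNat (nat_lit 28549998198667), .negSucc (nat_lit 46465183468595), .ofNat (nat_lit
 5986323652304), .ofNat (nat_lit 11360073997314), .ofNat (nat_lit 11452043436727), .negSucc
 (nat_lit 38554618795078), .ofNat (nat_lit 55877180644338), .ofNat (nat_lit 3352986591189),
 .negSucc (nat_lit 4713465365006), .negSucc (nat_lit 23663104317773), .negSucc (nat_lit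
 25351981546654), .ofNat (nat_lit 14265091768910), .ofNat (nat_lit 42273039988956), .ofNat (nat_lit
 119513083149354)]), ((nat_lit 4, nat_lit 5, false), [.ofNat (nat_lit 264908753062216890), .negSucc
 (nat_lit 24797845441877821), .ofNat (nat_lit 71727542938204051), .negSucc (nat_lit
 38495780279730266), .ofNat (nat_lit 17974927947826331), .negSucc (nat_lit 30778509002721), .ofNat
 (nat_lit 2623767094446), .negSucc (nat_lit 39180180752503), .negSucc (nat_lit 135487411675962),
 .negSucc (nat_lit 77161643782069), .negSucc (nat_lit 91143763274863), .negSucc (nat_lit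
 67419939260779), .negSucc (nat_lit 9464211530505), .negSucc (nat_lit 1193236690799), .negSucc
 (nat_lit 43546012210224), .ofNat (nat_lit 60648478957626), .ofNat (nat_lit 63333805111732), .ofNat
 (nat_lit 24261682378876), .ofNat (nat_lit 79380949982874), .negSucc (nat_lit 5081560212546),
 .ofNat (nat_lit 512934682458), .negSucc (nat_lit 7553732702146), .negSucc (nat_lit
 18056205527453), .ofNat (nat_lit 40125636540258), .ofNat (nat_lit 1620492949323), .ofNat (nat_lit
 38899029716891)]), ((nat_lit 4, nat_lit 6, false), [.ofNat (nat_lit 33462927946710969), .negSucc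
 (nat_lit 19168919120059335), .ofNat (nat_lit 28541465605818645), .negSucc (nat_lit
 21472743582416233), .ofNat (nat_lit 6646079151867759), .ofNat (nat_lit 3700654298561), .ofNat
 (nat_lit 3879093658031), .ofNat (nat_lit 41919239968711), .negSucc (nat_lit 24759658386142),
 .negSucc (nat_lit 1016695660990), .negSucc (nat_lit 71716195146736), .negSucc (nat_lit
 8173567140342), .negSucc (nat_lit 78797928284808), .ofNat (nat_lit 26437714574909), .negSucc
 (nat_lit 11703207468627), .ofNat (nat_lit 5706041862943), .ofNat (nat_lit 9441028980995), .ofNat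
 (nat_lit 20848168256745), .negSucc (nat_lit 13606447348947), .ofNat (nat_lit 31869922826712),
 .ofNat (nat_lit 7210189772733), .negSucc (nat_lit 7636177026526), .ofNat (nat_lit 8627323622023),
 .ofNat (nat_lit 12628635211430), .ofNat (nat_lit 31767606634722), .ofNat (nat_lit 18109972101123),
 .ofNat (nat_lit 109747507717140)]), ((nat_lit 4, nat_lit 8, false), [.negSucc (nat_lit
 5337957432467677), .ofNat (nat_lit 14765879187800902), .ofNat (nat_lit 10509449510053614), .ofNat
 (nat_lit 3221242962470585), .negSucc (nat_lit 8336672240606312), .negSucc (nat_lit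
 13697978798603), .negSucc (nat_lit 4144976514924), .negSucc (nat_lit 54291086235980), .negSucc
 (nat_lit 40844889036921), .ofNat (nat_lit 34726981193156), .negSucc (nat_lit 29691572606935),
 .ofNat (nat_lit 28278680357169), .negSucc (nat_lit 1272840735949), .negSucc (nat_lit
 116286088467472), .ofNat (nat_lit 8739944503), .negSucc (nat_lit 457323920866), .negSucc (nat_lit
 6454092865687), .negSucc (nat_lit 3545039840486), .negSucc (nat_lit 2609058563948), .ofNat
 (nat_lit 18589070758938), .ofNat (nat_lit 28115597622993), .negSucc (nat_lit 13562265330381),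
 .ofNat (nat_lit 7033835493655), .negSucc (nat_lit 10669939320472), .negSucc (nat_lit
 4204378924865), .ofNat (nat_lit 11894232313276), .ofNat (nat_lit 23143687764565), .ofNat (nat_lit
 93959755993322)]), ((nat_lit 5, nat_lit 1, false), [.negSucc (nat_lit 4875371520923854), .ofNat
 (nat_lit 27750649730661764), .negSucc (nat_lit 30415280930859534), .negSucc (nat_lit
 12217837597929369), .negSucc (nat_lit 320163246685508), .negSucc (nat_lit 7566968149998), .ofNat
 (nat_lit 3230906930726), .negSucc (nat_lit 184077398251), .negSucc (nat_lit 54084616836690),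
 .ofNat (nat_lit 6670968127686), .negSucc (nat_lit 13455855271457), .negSucc (nat_lit
 2125568650630), .negSucc (nat_lit 3154005981180), .ofNat (nat_lit 399640671283), .ofNat (nat_lit
 23600944132243), .ofNat (nat_lit 6427638060397), .ofNat (nat_lit 10852358682281), .ofNat (nat_lit
 3885193688178), .ofNat (nat_lit 10817033718112), .ofNat (nat_lit 3246320687554), .ofNat (nat_lit
 1553667684423), .negSucc (nat_lit 1972209292536), .ofNat (nat_lit 1972259611361), .negSucc
 (nat_lit 1030633505156), .negSucc (nat_lit 141888655417), .ofNat (nat_lit 3038757416604), .negSucc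
 (nat_lit 2287441277146), .negSucc (nat_lit 387349990078), .ofNat (nat_lit 19328721977268)]),
 ((nat_lit 5, nat_lit 2, false), [.negSucc (nat_lit 81095394384576357), .negSucc (nat_lit
 88399684825029125), .ofNat (nat_lit 50846822483609423), .ofNat (nat_lit 26433281416674708),
 .negSucc (nat_lit 9116133699855471), .negSucc (nat_lit 10028128395606), .negSucc (nat_lit
 5842509553553), .ofNat (nat_lit 138201436923727), .ofNat (nat_lit 177392005878282), .ofNat
 (nat_lit 64450473490108), .ofNat (nat_lit 38469545988560), .ofNat (nat_lit 44225989994703),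
 .negSucc (nat_lit 22552950319043), .negSucc (nat_lit 26478418693496), .ofNat (nat_lit
 41184400178205), .ofNat (nat_lit 43134916242904), .negSucc (nat_lit 80313610577817), .negSucc
 (nat_lit 45349962097554), .negSucc (nat_lit 37019027798350), .ofNat (nat_lit 2486698695954),
 .negSucc (nat_lit 5893234257997), .negSucc (nat_lit 15840075032478), .ofNat (nat_lit
 35706499256325), .ofNat (nat_lit 14650014604454), .ofNat (nat_lit 28641938535297), .negSucc
 (nat_lit 6237779935418), .ofNat (nat_lit 5713069549172), .ofNat (nat_lit 16825226564787), .negSucc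
 (nat_lit 41915179333289), .ofNat (nat_lit 71264144396234)]), ((nat_lit 5, nat_lit 3, false),
 [.ofNat (nat_lit 188866009172248156), .negSucc (nat_lit 9571631367435163), .ofNat (nat_lit
 26599204212808679), .negSucc (nat_lit 17485881984305127), .ofNat (nat_lit 10165799365948918),
 .negSucc (nat_lit 2801859343075), .ofNat (nat_lit 25140162101472), .ofNat (nat_lit
 62424051218709), .negSucc (nat_lit 36305542507773), .ofNat (nat_lit 22090384022339), .negSucc
 (nat_lit 67744634214405), .negSucc (nat_lit 37498542128915), .ofNat (nat_lit 31602086372816),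
 .ofNat (nat_lit 28021554565266), .negSucc (nat_lit 13051112642332), .ofNat (nat_lit
 48381681383556), .ofNat (nat_lit 118330148875332), .negSucc (nat_lit 23579104525973), .negSucc
 (nat_lit 18860165933175), .negSucc (nat_lit 29708435321626), .negSucc (nat_lit 8079293567874),
 .negSucc (nat_lit 7372324431700), .ofNat (nat_lit 24345124596751), .negSucc (nat_lit
 6124186015884), .ofNat (nat_lit 9483304252387), .negSucc (nat_lit 2258942783268), .ofNat (nat_lit
 7768788871), .ofNat (nat_lit 9919407845586), .negSucc (nat_lit 71777819007454), .ofNat (nat_lit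
 35185350978110), .ofNat (nat_lit 57652809852718)]), ((nat_lit 5, nat_lit 4, false), [.ofNat
 (nat_lit 257723551550543121), .negSucc (nat_lit 15616578233887733), .ofNat (nat_lit
 9754285753291663), .ofNat (nat_lit 10659328960808388), .ofNat (nat_lit 6071966060142362), .ofNat
 (nat_lit 108115796837), .ofNat (nat_lit 22718937102390), .ofNat (nat_lit 127553881299366), .ofNat
 (nat_lit 80802624396944), .ofNat (nat_lit 14358279648056), .ofNat (nat_lit 61419236063460),
 .negSucc (nat_lit 32876515283164), .ofNat (nat_lit 7101850244146), .ofNat (nat_lit 7167400670740),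
 .ofNat (nat_lit 15840852787973), .ofNat (nat_lit 3672008649720), .ofNat (nat_lit 43748314086655),
 .ofNat (nat_lit 94273221907029), .negSucc (nat_lit 27253140702138), .ofNat (nat_lit
 39606170048801), .negSucc (nat_lit 57237492508194), .ofNat (nat_lit 6613083131578), .ofNat
 (nat_lit 37640151240482), .negSucc (nat_lit 13531090314197), .negSucc (nat_lit 6005061049032),
 .negSucc (nat_lit 17630469746618), .ofNat (nat_lit 3669736612850), .ofNat (nat_lit
 10233727283630), .negSucc (nat_lit 16755695511213), .negSucc (nat_lit 12178929366371), .ofNat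
 (nat_lit 18327713349680), .ofNat (nat_lit 84988897256820)]), ((nat_lit 5, nat_lit 5, false),
 [.ofNat (nat_lit 282814757412310710), .ofNat (nat_lit 19456419725117062), .ofNat (nat_lit
 757550146298242), .negSucc (nat_lit 23652922959048519), .ofNat (nat_lit 1415960363665810),
 .negSucc (nat_lit 10550320877664), .ofNat (nat_lit 7046722401865), .negSucc (nat_lit
 39263085842783), .negSucc (nat_lit 100963878704863), .ofNat (nat_lit 4021021017146), .negSucc
 (nat_lit 70584109632907), .negSucc (nat_lit 26993340535063), .ofNat (nat_lit 15724824781291),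
 .negSucc (nat_lit 2966722071222), .negSucc (nat_lit 37748238625147), .ofNat (nat_lit
 58882396118361), .ofNat (nat_lit 91380497164248), .ofNat (nat_lit 7022300070211), .ofNat (nat_lit
 91061243423760), .negSucc (nat_lit 9433868169649), .negSucc (nat_lit 1696062055424), .negSucc
 (nat_lit 14109917069176), .ofNat (nat_lit 8201360453918), .negSucc (nat_lit 6929144102890), .ofNat
 (nat_lit 8566620342962), .ofNat (nat_lit 4162069362199), .negSucc (nat_lit 1647134446525), .ofNat
 (nat_lit 6616339098504), .negSucc (nat_lit 21503160103879), .ofNat (nat_lit 18219263307667),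
 .ofNat (nat_lit 32365281013774), .negSucc (nat_lit 5215637162065), .ofNat (nat_lit
 18136603997755)]), ((nat_lit 5, nat_lit 6, false), [.ofNat (nat_lit 135110680894499690), .negSucc
 (nat_lit 63399748676520941), .ofNat (nat_lit 107767946016091033), .negSucc (nat_lit
 33386707575915589), .ofNat (nat_lit 45284293225329255), .negSucc (nat_lit 56147622658011), .ofNat
 (nat_lit 75975400834685), .ofNat (nat_lit 236001815053140), .negSucc (nat_lit 21285744069300),
 .negSucc (nat_lit 73739701287431), .negSucc (nat_lit 110822138894742), .negSucc (nat_lit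
 76504022024065), .ofNat (nat_lit 123755997777069), .ofNat (nat_lit 146578579437167), .negSucc
 (nat_lit 37724635071125), .ofNat (nat_lit 19376192469047), .ofNat (nat_lit 128686983228368),
 .ofNat (nat_lit 55963752255539), .negSucc (nat_lit 49759281750980), .ofNat (nat_lit
 142706017852695), .ofNat (nat_lit 1892196064443), .ofNat (nat_lit 6088838235071), .ofNat (nat_lit
 22520853625443), .negSucc (nat_lit 11738903166835), .negSucc (nat_lit 9598725576227), .negSucc
 (nat_lit 7620898940069), .ofNat (nat_lit 4007520307126), .negSucc (nat_lit 8821531451516), .ofNat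
 (nat_lit 6165098051198), .negSucc (nat_lit 25271884448710), .ofNat (nat_lit 16097012055474),
 .ofNat (nat_lit 42944225296620), .ofNat (nat_lit 6079163937365), .ofNat (nat_lit
 45069730182488)]), ((nat_lit 5, nat_lit 8, false), [.negSucc (nat_lit 41988749067895882), .negSucc
 (nat_lit 14340122002141409), .ofNat (nat_lit 50813120641634346), .negSucc (nat_lit
 20647867426471707), .ofNat (nat_lit 5163041270148520), .negSucc (nat_lit 40045790656196), .ofNat
 (nat_lit 7726857073602), .ofNat (nat_lit 31229960689588), .negSucc (nat_lit 37493922547565),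
 .ofNat (nat_lit 39741188420117), .negSucc (nat_lit 83060903449190), .negSucc (nat_lit
 3131490202147), .ofNat (nat_lit 14885342390507), .ofNat (nat_lit 44186556319369), .ofNat (nat_lit
 548468462132), .ofNat (nat_lit 43314987727469), .negSucc (nat_lit 31393773049745), .ofNat (nat_lit
 1362047778430), .negSucc (nat_lit 3478365631995), .negSucc (nat_lit 578414177349), .ofNat (nat_lit
 112178500303184), .ofNat (nat_lit 3836332717560), .ofNat (nat_lit 3956777204279), .ofNat (nat_lit
 3110996964432), .negSucc (nat_lit 3656082360818), .negSucc (nat_lit 7324636398562), .negSucc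
 (nat_lit 635240841333), .negSucc (nat_lit 3035972833969), .ofNat (nat_lit 2809947474909), .negSucc
 (nat_lit 5466495493911), .negSucc (nat_lit 10098830263054), .ofNat (nat_lit 12247151192809),
 .ofNat (nat_lit 4853715594429), .ofNat (nat_lit 18697847693831), .ofNat (nat_lit
 46529166534425)]), ((nat_lit 6, nat_lit 1, false), [.ofNat (nat_lit 63964534157542109), .ofNat
 (nat_lit 10578834670466346), .negSucc (nat_lit 6014116097910908), .negSucc (nat_lit
 42883747532715450), .ofNat (nat_lit 10821360504038077), .negSucc (nat_lit 36153146111501), .ofNat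
 (nat_lit 7838416540079), .ofNat (nat_lit 25864385182776), .negSucc (nat_lit 131330958897330),
 .negSucc (nat_lit 33844024599969), .negSucc (nat_lit 111088654111104), .negSucc (nat_lit
 36466933999701), .negSucc (nat_lit 5251270264690), .ofNat (nat_lit 12783655649732), .ofNat
 (nat_lit 25738125087714), .ofNat (nat_lit 44851914161214), .ofNat (nat_lit 57970904008729), .ofNat
 (nat_lit 25085216993716), .ofNat (nat_lit 21948479303882), .negSucc (nat_lit 5570626689674),
 .ofNat (nat_lit 10962705578410), .ofNat (nat_lit 9585837961855), .negSucc (nat_lit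
 52890501016811), .negSucc (nat_lit 4227000985710), .negSucc (nat_lit 5571951307422), .ofNat
 (nat_lit 7555141027553), .negSucc (nat_lit 7106945867678), .negSucc (nat_lit 25064762456), .ofNat
 (nat_lit 20889900966028), .negSucc (nat_lit 13308993946440), .negSucc (nat_lit 2610397892462),
 .negSucc (nat_lit 7641217748157), .ofNat (nat_lit 7809266478651), .negSucc (nat_lit
 3706642468258), .ofNat (nat_lit 3053450456376), .ofNat (nat_lit 35013723152699)]), ((nat_lit 6,
 nat_lit 2, false), [.negSucc (nat_lit 177868998162127697), .negSucc (nat_lit 573168513934533),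
 .negSucc (nat_lit 31635427659920350), .ofNat (nat_lit 19926884320853281), .negSucc (nat_lit
 20646865017450413), .ofNat (nat_lit 3373669549684), .negSucc (nat_lit 7824910953520), .negSucc
 (nat_lit 12036829417689), .ofNat (nat_lit 76900805247189), .ofNat (nat_lit 77508780948694), .ofNat
 (nat_lit 85131942398422), .ofNat (nat_lit 51509869091005), .negSucc (nat_lit 48658221712741),
 .negSucc (nat_lit 29480189561809), .ofNat (nat_lit 7017200464871), .ofNat (nat_lit
 14267378509503), .negSucc (nat_lit 120903629373748), .negSucc (nat_lit 2544346891957), .negSucc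
 (nat_lit 39220548303986), .ofNat (nat_lit 16298513380983), .ofNat (nat_lit 10115479630787),
 .negSucc (nat_lit 16379479696557), .ofNat (nat_lit 97815806088435), .ofNat (nat_lit
 18470886091180), .negSucc (nat_lit 46529862374439), .ofNat (nat_lit 9144574012920), .negSucc
 (nat_lit 2902279620038), .ofNat (nat_lit 14820424478666), .negSucc (nat_lit 11776041043705),
 .ofNat (nat_lit 69052403557227), .ofNat (nat_lit 19113826360062), .negSucc (nat_lit
 19193172136242), .negSucc (nat_lit 18220894632067), .ofNat (nat_lit 1540477682807), .ofNat
 (nat_lit 4177278527817), .negSucc (nat_lit 31877084926010), .ofNat (nat_lit 81721082095459)]),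
 ((nat_lit 6, nat_lit 3, false), [.negSucc (nat_lit 131236388850755560), .ofNat (nat_lit
 21824092818816664), .negSucc (nat_lit 105441800244720922), .ofNat (nat_lit 1479366554592637),
 .negSucc (nat_lit 745922456734088), .ofNat (nat_lit 44803239582902), .ofNat (nat_lit
 9044818914864), .ofNat (nat_lit 133345933524415), .ofNat (nat_lit 11428482763614), .negSucc
 (nat_lit 63634745225485), .ofNat (nat_lit 49703666380776), .ofNat (nat_lit 27647719260317), .ofNat
 (nat_lit 20256971077547), .ofNat (nat_lit 31723980456782), .ofNat (nat_lit 69885670893135),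
 .negSucc (nat_lit 23729485652954), .negSucc (nat_lit 3186475537387), .ofNat (nat_lit
 1729483395696), .negSucc (nat_lit 69576384337294), .ofNat (nat_lit 13696426964739), .negSucc
 (nat_lit 21073994752180), .negSucc (nat_lit 5204883773864), .ofNat (nat_lit 43818799760320),
 .ofNat (nat_lit 89972761831692), .negSucc (nat_lit 26064576526127), .ofNat (nat_lit
 8751331259062), .negSucc (nat_lit 21748339477450), .ofNat (nat_lit 1953682931165), .negSucc
 (nat_lit 54191891551409), .ofNat (nat_lit 11551642564411), .ofNat (nat_lit 65816419918444), .ofNat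
 (nat_lit 624911152328), .negSucc (nat_lit 25132731234620), .negSucc (nat_lit 2136225796611),
 .ofNat (nat_lit 13299433133336), .negSucc (nat_lit 39741562312966), .ofNat (nat_lit
 64414284259315), .ofNat (nat_lit 97687976050133)]), ((nat_lit 6, nat_lit 4, false), [.negSucc
 (nat_lit 38837153888870036), .negSucc (nat_lit 34704152901760506), .negSucc (nat_lit
 42406289563979537), .ofNat (nat_lit 62090992145794107), .negSucc (nat_lit 20949845459406734),
 .ofNat (nat_lit 46368315536235), .negSucc (nat_lit 58048576558773), .ofNat (nat_lit
 10447064941556), .ofNat (nat_lit 204674787829330), .negSucc (nat_lit 23229224757379), .ofNat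
 (nat_lit 187421498696825), .ofNat (nat_lit 91886521574734), .ofNat (nat_lit 479060913745),
 .negSucc (nat_lit 54343605082571), .negSucc (nat_lit 10628000032704), .negSucc (nat_lit
 84708030255200), .negSucc (nat_lit 75988096815119), .negSucc (nat_lit 25832172717354), .ofNat
 (nat_lit 23681769099553), .negSucc (nat_lit 36975137291268), .negSucc (nat_lit 14960394729610),
 .negSucc (nat_lit 25460711274043), .ofNat (nat_lit 58583810040884), .ofNat (nat_lit
 31273187317282), .ofNat (nat_lit 145963814932665), .negSucc (nat_lit 13883570543731), .negSucc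
 (nat_lit 7241087035649), .negSucc (nat_lit 27850874734970), .negSucc (nat_lit 13600091115326),
 .ofNat (nat_lit 20808722971123), .negSucc (nat_lit 4436451565699), .ofNat (nat_lit
 69056108593466), .ofNat (nat_lit 9602022900210), .negSucc (nat_lit 19980468236057), .negSucc
 (nat_lit 27796057187196), .ofNat (nat_lit 24312448425678), .negSucc (nat_lit 2383012262884),
 .ofNat (nat_lit 33837033270247), .ofNat (nat_lit 106393229251714)]), ((nat_lit 6, nat_lit 5,
 false), [.ofNat (nat_lit 34496369116374264), .negSucc (nat_lit 16799629610826915), .ofNat (nat_lit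
 16579330821429349), .negSucc (nat_lit 4344218133199381), .ofNat (nat_lit 7135033799471956), .ofNat
 (nat_lit 15868358271939), .negSucc (nat_lit 7505698745825), .ofNat (nat_lit 461587993578),
 .negSucc (nat_lit 10110631964206), .negSucc (nat_lit 69358518674403), .negSucc (nat_lit
 1273157202965), .negSucc (nat_lit 22954044334622), .negSucc (nat_lit 6192612280124), .negSucc
 (nat_lit 7743517400153), .ofNat (nat_lit 18043263336143), .negSucc (nat_lit 2426018472576), .ofNat
 (nat_lit 13138072644335), .ofNat (nat_lit 1927838487348), .ofNat (nat_lit 9145898139083), .negSucc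
 (nat_lit 13115596738726), .negSucc (nat_lit 4393695305726), .negSucc (nat_lit 7341871168521),
 .ofNat (nat_lit 4692957129909), .ofNat (nat_lit 40577379158405), .negSucc (nat_lit 2260814381485),
 .ofNat (nat_lit 41521568544401), .ofNat (nat_lit 6071588445265), .ofNat (nat_lit 61661877480),
 .negSucc (nat_lit 27951609245183), .ofNat (nat_lit 14520195524300), .ofNat (nat_lit
 18091256913909), .ofNat (nat_lit 8990938845298), .ofNat (nat_lit 4950375804052), .ofNat (nat_lit
 10526488006227), .ofNat (nat_lit 7364301587263), .negSucc (nat_lit 9139795465519), .ofNat (nat_lit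
 21575971653837), .ofNat (nat_lit 58471730442307), .negSucc (nat_lit 8490207258151), .ofNat
 (nat_lit 55926062723550)]), ((nat_lit 6, nat_lit 6, false), [.negSucc (nat_lit 52667923823847349),
 .negSucc (nat_lit 26077888048921674), .ofNat (nat_lit 27821558680227103), .ofNat (nat_lit
 47462134108860602), .negSucc (nat_lit 16510736103347458), .ofNat (nat_lit 38646330914477),
 .negSucc (nat_lit 21853386355574), .negSucc (nat_lit 66758998858198), .ofNat (nat_lit
 143216927741344), .ofNat (nat_lit 45708463763474), .ofNat (nat_lit 125886271824651), .ofNat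
 (nat_lit 40656667624574), .negSucc (nat_lit 52573874544227), .negSucc (nat_lit 60955039243325),
 .negSucc (nat_lit 6269307859472), .negSucc (nat_lit 37250627113797), .negSucc (nat_lit
 58984753051575), .negSucc (nat_lit 39539483551467), .ofNat (nat_lit 29533100221442), .negSucc
 (nat_lit 2946844978514), .negSucc (nat_lit 3774457068185), .negSucc (nat_lit 24276645207088),
 .ofNat (nat_lit 47092027309188), .ofNat (nat_lit 6391221895251), .ofNat (nat_lit 52107362277191),
 .ofNat (nat_lit 15062338900073), .ofNat (nat_lit 130055523896461), .ofNat (nat_lit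
 19560346407133), .negSucc (nat_lit 13975930497109), .ofNat (nat_lit 8906273060065), .ofNat
 (nat_lit 403438587430), .ofNat (nat_lit 40663757554267), .ofNat (nat_lit 18711312700202), .ofNat
 (nat_lit 22397733794993), .negSucc (nat_lit 31838782828818), .ofNat (nat_lit 21708739682542),
 .negSucc (nat_lit 6022389322921), .ofNat (nat_lit 26853529047869), .ofNat (nat_lit
 59978369523305), .negSucc (nat_lit 10626206550929), .ofNat (nat_lit 88001167682498)]), ((nat_lit
 6, nat_lit 8, false), [.negSucc (nat_lit 113137122466498359), .ofNat (nat_lit 12213601672516086),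
 .negSucc (nat_lit 4235618004796428), .ofNat (nat_lit 6623853546735893), .ofNat (nat_lit
 2003836258670984), .ofNat (nat_lit 13529182521273), .ofNat (nat_lit 2362633502349), .negSucc
 (nat_lit 70818370970884), .negSucc (nat_lit 9387761545546), .negSucc (nat_lit 22966954016011),
 .ofNat (nat_lit 16696516344855), .ofNat (nat_lit 10586344257130), .negSucc (nat_lit
 5812462448737), .negSucc (nat_lit 50366048624878), .ofNat (nat_lit 213352430243), .negSucc
 (nat_lit 25972915402020), .ofNat (nat_lit 12354915731153), .negSucc (nat_lit 56255437460540),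
 .negSucc (nat_lit 9834266659833), .ofNat (nat_lit 54235509294444), .negSucc (nat_lit
 17614493641106), .negSucc (nat_lit 31495590882984), .negSucc (nat_lit 3675029774264), .negSucc
 (nat_lit 5551192439137), .ofNat (nat_lit 8864743914311), .ofNat (nat_lit 15045391318347), .ofNat
 (nat_lit 26207714482678), .ofNat (nat_lit 141820935374457), .ofNat (nat_lit 4580902127983),
 .negSucc (nat_lit 17277019791270), .ofNat (nat_lit 19834130994442), .negSucc (nat_lit
 11567915499226), .ofNat (nat_lit 11173939692729), .ofNat (nat_lit 29539665967764), .ofNat (nat_lit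
 20820991471467), .ofNat (nat_lit 4183985444436), .negSucc (nat_lit 2115632582062), .negSucc
 (nat_lit 8775674666759), .negSucc (nat_lit 16384235378974), .ofNat (nat_lit 3760952162434), .ofNat
 (nat_lit 10227631278604), .ofNat (nat_lit 62856478673723)]), ((nat_lit 8, nat_lit 1, false),
 [.ofNat (nat_lit 5569683090274449), .negSucc (nat_lit 10800972404011315), .ofNat (nat_lit
 20219398776573669), .negSucc (nat_lit 2369398706158786), .ofNat (nat_lit 621172325573053),
 .negSucc (nat_lit 8033799355070), .ofNat (nat_lit 3614827025162), .ofNat (nat_lit 20757387696038),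
 .ofNat (nat_lit 4609042440070), .ofNat (nat_lit 12710915347589), .negSucc (nat_lit
 11503854348738), .negSucc (nat_lit 234525347961), .negSucc (nat_lit 1086126921101), .negSucc
 (nat_lit 4396004120860), .ofNat (nat_lit 4918964042574), .ofNat (nat_lit 11113506161064), .negSucc
 (nat_lit 2932124476397), .negSucc (nat_lit 3476094691496), .negSucc (nat_lit 2568713026069),
 .negSucc (nat_lit 1076455310292), .ofNat (nat_lit 6140918679651), .ofNat (nat_lit 7707169245274),
 .ofNat (nat_lit 21717605235971), .negSucc (nat_lit 4055360243492), .negSucc (nat_lit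
 4763106705327), .ofNat (nat_lit 3986749950902), .negSucc (nat_lit 4085903145927), .ofNat (nat_lit
 167378017892), .ofNat (nat_lit 1843000423064), .negSucc (nat_lit 11440885497044), .negSucc
 (nat_lit 2738611498287), .negSucc (nat_lit 6983015518703), .ofNat (nat_lit 7283584150137),
 .negSucc (nat_lit 3496104243466), .ofNat (nat_lit 3405758149755), .ofNat (nat_lit 33207278722552),
 .negSucc (nat_lit 646101753729), .ofNat (nat_lit 380945896331), .ofNat (nat_lit 123043117478),
 .ofNat (nat_lit 870861266633), .negSucc (nat_lit 29583847682), .negSucc (nat_lit 14206720054),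
 .ofNat (nat_lit 11155160909010)]), ((nat_lit 8, nat_lit 2, false), [.negSucc (nat_lit
 76463535494254943), .negSucc (nat_lit 12266451312002860), .negSucc (nat_lit 1215153689521860),
 .negSucc (nat_lit 29891809005125762), .ofNat (nat_lit 6162840120246432), .negSucc (nat_lit
 14079491051967), .negSucc (nat_lit 6099773827172), .negSucc (nat_lit 30783879662867), .negSucc
 (nat_lit 124789291795771), .negSucc (nat_lit 60757984623834), .negSucc (nat_lit 42732754034860),
 .negSucc (nat_lit 18870335097539), .ofNat (nat_lit 821742644873), .ofNat (nat_lit 9531229488308),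
 .negSucc (nat_lit 49614472275446), .ofNat (nat_lit 6994240305875), .ofNat (nat_lit
 27579758759499), .ofNat (nat_lit 17342077487708), .ofNat (nat_lit 13868935609938), .negSucc
 (nat_lit 2543727243477), .ofNat (nat_lit 2262320291442), .negSucc (nat_lit 37805889317967),
 .negSucc (nat_lit 63314538341374), .negSucc (nat_lit 47822286090645), .ofNat (nat_lit
 48405168362590), .ofNat (nat_lit 7524439606328), .negSucc (nat_lit 10408739720875), .ofNat
 (nat_lit 761867213609), .ofNat (nat_lit 27597159177395), .ofNat (nat_lit 6231646870446), .ofNat
 (nat_lit 20113348042951), .negSucc (nat_lit 9611159715742), .negSucc (nat_lit 17670717352724),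
 .ofNat (nat_lit 9685242510757), .ofNat (nat_lit 5609388618377), .negSucc (nat_lit 34011220750489),
 .ofNat (nat_lit 84170213726086), .negSucc (nat_lit 271175142449), .negSucc (nat_lit 899921630125),
 .negSucc (nat_lit 2944370255173), .ofNat (nat_lit 2079421707228), .negSucc (nat_lit
 3387135434062), .negSucc (nat_lit 24151174995688), .ofNat (nat_lit 32034767895071)]), ((nat_lit 8,
 nat_lit 3, false), [.negSucc (nat_lit 47791867923115876), .negSucc (nat_lit 80093205584246115),
 .ofNat (nat_lit 20283366656552183), .negSucc (nat_lit 16571589777597142), .ofNat (nat_lit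
 8959745615918315), .ofNat (nat_lit 22748013723243), .ofNat (nat_lit 18837226960149), .ofNat
 (nat_lit 231570193275449), .ofNat (nat_lit 27382349579915), .negSucc (nat_lit 27831319028783),
 .negSucc (nat_lit 7935386798649), .ofNat (nat_lit 6681860907487), .ofNat (nat_lit 5521121038094),
 .ofNat (nat_lit 27462201842388), .ofNat (nat_lit 12227340290845), .ofNat (nat_lit 11331558883222),
 .ofNat (nat_lit 13279912300476), .ofNat (nat_lit 6316593492622), .negSucc (nat_lit
 27651067135687), .ofNat (nat_lit 19200083271969), .negSucc (nat_lit 8116129738366), .ofNat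
 (nat_lit 2094936007454), .negSucc (nat_lit 21663870868365), .negSucc (nat_lit 90020441435066),
 .ofNat (nat_lit 39495409231357), .ofNat (nat_lit 6385927584044), .negSucc (nat_lit 3196307192431),
 .negSucc (nat_lit 7271890907436), .ofNat (nat_lit 26054077852961), .negSucc (nat_lit
 15642055236920), .ofNat (nat_lit 18134315920008), .negSucc (nat_lit 16879414401210), .negSucc
 (nat_lit 22786270935314), .negSucc (nat_lit 10620234710857), .ofNat (nat_lit 4234467389219),
 .negSucc (nat_lit 42469937223626), .ofNat (nat_lit 70927079450137), .ofNat (nat_lit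
 52250464531247), .ofNat (nat_lit 7444204900377), .ofNat (nat_lit 266005829658), .negSucc (nat_lit
 3522436142130), .ofNat (nat_lit 2596268461584), .negSucc (nat_lit 23199834034259), .negSucc
 (nat_lit 35542790259344), .ofNat (nat_lit 77771628761827)]), ((nat_lit 8, nat_lit 4, false),
 [.ofNat (nat_lit 36492452443525117), .ofNat (nat_lit 2991043691779645), .negSucc (nat_lit
 47157491222608427), .negSucc (nat_lit 26145407244137259), .negSucc (nat_lit 786240462870366),
 .ofNat (nat_lit 16968664751021), .negSucc (nat_lit 25848250172882), .ofNat (nat_lit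
 32541802805088), .negSucc (nat_lit 15578114751298), .negSucc (nat_lit 25520947506487), .negSucc
 (nat_lit 57727650165767), .ofNat (nat_lit 8159498285209), .negSucc (nat_lit 17169325585399),
 .negSucc (nat_lit 13860607729752), .negSucc (nat_lit 24644313022153), .negSucc (nat_lit
 27619771102353), .ofNat (nat_lit 18513416487397), .negSucc (nat_lit 135215078178), .ofNat (nat_lit
 52409436171712), .negSucc (nat_lit 9493173122290), .ofNat (nat_lit 20979678682524), .ofNat
 (nat_lit 5331695721475), .negSucc (nat_lit 52115134826427), .ofNat (nat_lit 43063323042776),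
 .negSucc (nat_lit 85352689525711), .negSucc (nat_lit 1835120730628), .negSucc (nat_lit
 27724088465652), .ofNat (nat_lit 38763561488864), .ofNat (nat_lit 8596195145855), .ofNat (nat_lit
 32364509428252), .negSucc (nat_lit 12035134603668), .ofNat (nat_lit 6895276969634), .ofNat
 (nat_lit 16472892887921), .ofNat (nat_lit 4626221271186), .negSucc (nat_lit 32029968043833),
 .negSucc (nat_lit 7231690470065), .ofNat (nat_lit 414879818083), .ofNat (nat_lit 3688080843606),
 .ofNat (nat_lit 76099084085588), .negSucc (nat_lit 4719616156000), .negSucc (nat_lit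
 6459057082475), .ofNat (nat_lit 8246851422369), .ofNat (nat_lit 6090781967836), .negSucc (nat_lit
 27448552632723), .ofNat (nat_lit 33346721889929), .ofNat (nat_lit 93250561822942)]), ((nat_lit 8,
 nat_lit 5, false), [.negSucc (nat_lit 131238204095859909), .negSucc (nat_lit 22282372625325316),
 .negSucc (nat_lit 27748478566431183), .ofNat (nat_lit 32080535521376901), .negSucc (nat_lit
 10414260010715800), .ofNat (nat_lit 53338650026248), .ofNat (nat_lit 5770710064099), .ofNat
 (nat_lit 116192341812630), .ofNat (nat_lit 131955495625735), .ofNat (nat_lit 23661045669450),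
 .ofNat (nat_lit 81492234684694), .ofNat (nat_lit 68286362207651), .ofNat (nat_lit 6585790617329),
 .ofNat (nat_lit 3205891420218), .ofNat (nat_lit 22329114431817), .negSucc (nat_lit
 36975386629887), .negSucc (nat_lit 29346044091161), .negSucc (nat_lit 28979134449931), .negSucc
 (nat_lit 61822749144726), .ofNat (nat_lit 6710950644357), .negSucc (nat_lit 2347804253605), .ofNat
 (nat_lit 12852840732118), .ofNat (nat_lit 27130178110317), .negSucc (nat_lit 35914408858118),
 .ofNat (nat_lit 3184314606384), .negSucc (nat_lit 40724502536521), .ofNat (nat_lit 1832192257126),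
 .negSucc (nat_lit 12365139711472), .ofNat (nat_lit 4564676337764), .negSucc (nat_lit
 14941619351734), .ofNat (nat_lit 5206211116767), .ofNat (nat_lit 9859649767166), .negSucc (nat_lit
 5541292545868), .ofNat (nat_lit 15531129732692), .ofNat (nat_lit 1595950443081), .negSucc (nat_lit
 15552356031969), .ofNat (nat_lit 19766937124564), .ofNat (nat_lit 31576393082360), .negSucc
 (nat_lit 9637585389219), .ofNat (nat_lit 29192439134551), .negSucc (nat_lit 2668997106787),
 .negSucc (nat_lit 3736618716124), .negSucc (nat_lit 5119598782531), .negSucc (nat_lit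
 1456354788889), .ofNat (nat_lit 48560581529708), .ofNat (nat_lit 11926861837775), .ofNat (nat_lit
 51691594804332)]), ((nat_lit 8, nat_lit 6, false), [.ofNat (nat_lit 75129623264927135), .ofNat
 (nat_lit 9991219134031427), .negSucc (nat_lit 8533842345769917), .negSucc (nat_lit
 26300074042051168), .ofNat (nat_lit 6839446802406805), .negSucc (nat_lit 22728062392498), .ofNat
 (nat_lit 14713143030441), .ofNat (nat_lit 66658862201008), .negSucc (nat_lit 68941236339022),
 .ofNat (nat_lit 6278079562930), .negSucc (nat_lit 47576461667024), .negSucc (nat_lit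
 11177896866036), .ofNat (nat_lit 10368099792957), .ofNat (nat_lit 428029009210), .ofNat (nat_lit
 16545960358652), .negSucc (nat_lit 5574628910912), .ofNat (nat_lit 32904224961290), .ofNat
 (nat_lit 9963701948809), .ofNat (nat_lit 44311188895969), .negSucc (nat_lit 5267964954996), .ofNat
 (nat_lit 14707389036650), .negSucc (nat_lit 8890898265077), .ofNat (nat_lit 33617959380039),
 .negSucc (nat_lit 29241146809501), .negSucc (nat_lit 27997086778489), .ofNat (nat_lit
 29548754646769), .negSucc (nat_lit 95157620509909), .ofNat (nat_lit 56158811398262), .negSucc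
 (nat_lit 6172524086049), .ofNat (nat_lit 27553159571140), .ofNat (nat_lit 14834003346408), .ofNat
 (nat_lit 6165915699456), .ofNat (nat_lit 8182338288923), .ofNat (nat_lit 5736580855391), .negSucc
 (nat_lit 35429811136405), .negSucc (nat_lit 9792268993173), .negSucc (nat_lit 8091043533467),
 .ofNat (nat_lit 15553178055937), .ofNat (nat_lit 46410383605475), .negSucc (nat_lit
 4188060947794), .ofNat (nat_lit 40273685992552), .negSucc (nat_lit 11049187477847), .ofNat
 (nat_lit 5101304169141), .ofNat (nat_lit 23172430890773), .ofNat (nat_lit 6560425266413), .ofNat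
 (nat_lit 39564078576613), .ofNat (nat_lit 19892385638972), .ofNat (nat_lit 79318181035456)]),
 ((nat_lit 8, nat_lit 8, false), [.ofNat (nat_lit 17897839637601716), .ofNat (nat_lit
 33020800852854925), .negSucc (nat_lit 10851288895705513), .negSucc (nat_lit 33230869504994690),
 .ofNat (nat_lit 12051139346804123), .negSucc (nat_lit 15254332037927), .ofNat (nat_lit
 23740666785620), .ofNat (nat_lit 7528674222605), .negSucc (nat_lit 132621196567906), .negSucc
 (nat_lit 30877578515550), .negSucc (nat_lit 91184410659999), .negSucc (nat_lit 45724737711753),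
 .ofNat (nat_lit 16112989461853), .ofNat (nat_lit 24523960387814), .ofNat (nat_lit 5179694114799),
 .ofNat (nat_lit 15350019180325), .ofNat (nat_lit 79644357776377), .ofNat (nat_lit 5334760892482),
 .ofNat (nat_lit 4189158858470), .negSucc (nat_lit 1059411906516), .ofNat (nat_lit 3741085720032),
 .ofNat (nat_lit 23652681499241), .negSucc (nat_lit 20558544013108), .negSucc (nat_lit
 26190582370541), .negSucc (nat_lit 44423101226689), .ofNat (nat_lit 13236856662842), .ofNat
 (nat_lit 16295408047835), .negSucc (nat_lit 69925936678756), .negSucc (nat_lit 10589959384316),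
 .negSucc (nat_lit 11781440931820), .ofNat (nat_lit 21377474076462), .negSucc (nat_lit
 12113808073750), .negSucc (nat_lit 333660590310), .negSucc (nat_lit 7892774871238), .negSucc
 (nat_lit 8365114966935), .ofNat (nat_lit 14656054356078), .negSucc (nat_lit 3113854053083), .ofNat
 (nat_lit 17988601009284), .ofNat (nat_lit 12848701769005), .negSucc (nat_lit 14439478144729),
 .ofNat (nat_lit 15523777244251), .ofNat (nat_lit 25427096091464), .ofNat (nat_lit 214081425728),
 .ofNat (nat_lit 13993189931270), .negSucc (nat_lit 10221538677583), .negSucc (nat_lit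
 33925522827354), .ofNat (nat_lit 3559395885165), .ofNat (nat_lit 28355851803073), .ofNat (nat_lit
 55209843202317)]), ((nat_lit 7, nat_lit 1, false), [.negSucc (nat_lit 3718612990863874), .ofNat
 (nat_lit 13340014176222687), .negSucc (nat_lit 12157364240580345), .negSucc (nat_lit
 4613920878806581), .negSucc (nat_lit 727256595084210), .negSucc (nat_lit 317537194720), .ofNat
 (nat_lit 774669342183), .negSucc (nat_lit 9634973302233), .negSucc (nat_lit 27138907191441),
 .ofNat (nat_lit 3598353588020), .negSucc (nat_lit 4753932176950), .negSucc (nat_lit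
 1562267999284), .ofNat (nat_lit 514800129713), .negSucc (nat_lit 987391186455), .ofNat (nat_lit
 8521701280908), .ofNat (nat_lit 580195957103), .ofNat (nat_lit 7614724165504), .ofNat (nat_lit
 910751713018), .ofNat (nat_lit 5701433750339), .negSucc (nat_lit 1839982646672), .ofNat (nat_lit
 1102636623865), .negSucc (nat_lit 952596392863), .ofNat (nat_lit 2994844446693), .negSucc (nat_lit
 1078158065758), .negSucc (nat_lit 4290783265), .ofNat (nat_lit 2115532664702), .negSucc (nat_lit
 525391882834), .negSucc (nat_lit 1628599766529), .ofNat (nat_lit 12509550400936), .negSucc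
 (nat_lit 1255173105548), .ofNat (nat_lit 2979682881050), .ofNat (nat_lit 5137329334), .negSucc
 (nat_lit 2071297253566), .ofNat (nat_lit 675258539903), .negSucc (nat_lit 1366688348027), .negSucc
 (nat_lit 1168155887604), .negSucc (nat_lit 728645198587), .ofNat (nat_lit 39256446636), .negSucc
 (nat_lit 1146157237320), .ofNat (nat_lit 1829880169576), .ofNat (nat_lit 252394197844), .ofNat
 (nat_lit 564844557419), .negSucc (nat_lit 104940041069), .negSucc (nat_lit 193930235697), .negSucc
 (nat_lit 382959819535), .ofNat (nat_lit 570544071881), .negSucc (nat_lit 8032520898), .negSucc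
 (nat_lit 10987577868), .negSucc (nat_lit 1498030118677), .ofNat (nat_lit 4416000799433)]),
 ((nat_lit 7, nat_lit 2, false), [.negSucc (nat_lit 10235188791692995), .negSucc (nat_lit
 43456453472166288), .ofNat (nat_lit 24874103108083160), .ofNat (nat_lit 16699583007132358),
 .negSucc (nat_lit 1489856518189648), .negSucc (nat_lit 765089591295), .negSucc (nat_lit
 6294861829959), .ofNat (nat_lit 49616365720104), .ofNat (nat_lit 101941756004797), .ofNat (nat_lit
 4160519801591), .ofNat (nat_lit 27472826375869), .ofNat (nat_lit 18258967501440), .negSucc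
 (nat_lit 13541515334236), .negSucc (nat_lit 6115104507921), .negSucc (nat_lit 3130857555293),
 .ofNat (nat_lit 10851496011026), .negSucc (nat_lit 39224805579472), .negSucc (nat_lit
 12622633971956), .negSucc (nat_lit 15048015999329), .ofNat (nat_lit 2741615441362), .negSucc
 (nat_lit 3982253405890), .negSucc (nat_lit 3489915942873), .ofNat (nat_lit 2424149137240), .ofNat
 (nat_lit 5926775652981), .ofNat (nat_lit 8970975486768), .negSucc (nat_lit 5899947149107), .ofNat
 (nat_lit 273277757943), .ofNat (nat_lit 12336325265074), .negSucc (nat_lit 31086088827293), .ofNat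
 (nat_lit 22519851429899), .negSucc (nat_lit 7890240425419), .negSucc (nat_lit 4382568441590),
 .ofNat (nat_lit 3952694501032), .negSucc (nat_lit 6904658484280), .ofNat (nat_lit 6208013035036),
 .ofNat (nat_lit 2395825970601), .ofNat (nat_lit 1596246591796), .ofNat (nat_lit 2400947883925),
 .ofNat (nat_lit 4560232465744), .negSucc (nat_lit 6206162332539), .ofNat (nat_lit 1057959222949),
 .ofNat (nat_lit 1653614009690), .ofNat (nat_lit 350758369686), .negSucc (nat_lit 3555257582749),
 .negSucc (nat_lit 3185484374185), .negSucc (nat_lit 2089513431058), .ofNat (nat_lit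
 1678928147925), .negSucc (nat_lit 2813201576370), .ofNat (nat_lit 3887841295937), .negSucc
 (nat_lit 12564354908419), .ofNat (nat_lit 17209026573271)]), ((nat_lit 7, nat_lit 3, false),
 [.ofNat (nat_lit 119335511660083108), .ofNat (nat_lit 8944335915669947), .negSucc (nat_lit
 32469202007288098), .ofNat (nat_lit 7989579530443016), .ofNat (nat_lit 265789097750133), .ofNat
 (nat_lit 22679987970151), .ofNat (nat_lit 2318752611194), .ofNat (nat_lit 51245388613537), .ofNat
 (nat_lit 36658899957274), .ofNat (nat_lit 4499621694600), .ofNat (nat_lit 32658621272954),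
 .negSucc (nat_lit 1361611104182), .ofNat (nat_lit 5561601135250), .ofNat (nat_lit 10117346492913),
 .ofNat (nat_lit 24729981951922), .negSucc (nat_lit 2861297841909), .ofNat (nat_lit
 33471087144923), .negSucc (nat_lit 16830759255688), .negSucc (nat_lit 24467945446982), .negSucc
 (nat_lit 19217695530145), .negSucc (nat_lit 16336455088929), .negSucc (nat_lit 11218115092323),
 .ofNat (nat_lit 7587994967732), .negSucc (nat_lit 4007597078132), .ofNat (nat_lit 5896345925587),
 .negSucc (nat_lit 7228779800585), .ofNat (nat_lit 3100873295793), .ofNat (nat_lit 11926327015436),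
 .negSucc (nat_lit 65111069484738), .ofNat (nat_lit 10225802664475), .ofNat (nat_lit
 39237779953061), .ofNat (nat_lit 1266578238094), .ofNat (nat_lit 6874330816083), .negSucc (nat_lit
 8141645410672), .ofNat (nat_lit 1642870945833), .negSucc (nat_lit 3049527284708), .ofNat (nat_lit
 2650129066284), .negSucc (nat_lit 3245248027066), .ofNat (nat_lit 1532561145347), .negSucc
 (nat_lit 3976613299594), .ofNat (nat_lit 8383413392217), .ofNat (nat_lit 2085933822916), .negSucc
 (nat_lit 795122869257), .negSucc (nat_lit 2111552613174), .negSucc (nat_lit 3090543665108), .ofNat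
 (nat_lit 3647932046586), .ofNat (nat_lit 272966363574), .ofNat (nat_lit 1091396449679), .negSucc
 (nat_lit 345531463049), .negSucc (nat_lit 3378227968343), .ofNat (nat_lit 12415930360904), .ofNat
 (nat_lit 18082910514079)]), ((nat_lit 7, nat_lit 4, false), [.ofNat (nat_lit 72085671505783568),
 .ofNat (nat_lit 24428786974932135), .negSucc (nat_lit 37285880689497778), .negSucc (nat_lit
 3631266315585558), .ofNat (nat_lit 9320895510520723), .ofNat (nat_lit 28882784041920), .ofNat
 (nat_lit 20142708957931), .ofNat (nat_lit 53014828899443), .negSucc (nat_lit 35845875518342),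
 .negSucc (nat_lit 41563216364245), .ofNat (nat_lit 22777277474062), .negSucc (nat_lit
 30978144330217), .ofNat (nat_lit 30254827562005), .ofNat (nat_lit 35599496593697), .ofNat (nat_lit
 14389249353264), .negSucc (nat_lit 35854893739306), .ofNat (nat_lit 86432277656371), .ofNat
 (nat_lit 20902178257123), .negSucc (nat_lit 26701365683350), .ofNat (nat_lit 5319834957092),
 .negSucc (nat_lit 35931797642164), .ofNat (nat_lit 515869454620), .ofNat (nat_lit 15489390152907),
 .negSucc (nat_lit 16266778273506), .negSucc (nat_lit 8975985144044), .ofNat (nat_lit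
 2885517589542), .negSucc (nat_lit 3301592688343), .negSucc (nat_lit 116114632850), .negSucc
 (nat_lit 3427880997993), .negSucc (nat_lit 20189870626013), .ofNat (nat_lit 37447162339920),
 .ofNat (nat_lit 36286579850875), .negSucc (nat_lit 8179413590113), .ofNat (nat_lit 2320728836558),
 .negSucc (nat_lit 24741306987857), .negSucc (nat_lit 8315534985294), .negSucc (nat_lit
 358297959693), .negSucc (nat_lit 7642450115576), .negSucc (nat_lit 2869149316062), .ofNat (nat_lit
 6481989472568), .ofNat (nat_lit 11973053064094), .ofNat (nat_lit 9880214920640), .negSucc (nat_lit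
 2788698019943), .negSucc (nat_lit 2591280043827), .ofNat (nat_lit 3494913788948), .negSucc
 (nat_lit 4314128763052), .negSucc (nat_lit 1492475146449), .ofNat (nat_lit 6495713604770),
 .negSucc (nat_lit 6117605928788), .ofNat (nat_lit 16858661299833), .negSucc (nat_lit
 5730112967094), .ofNat (nat_lit 15169876832971), .ofNat (nat_lit 33548115400808)]), ((nat_lit 7,
 nat_lit 5, false), [.ofNat (nat_lit 180085731792442016), .ofNat (nat_lit 4035106262204746),
 .negSucc (nat_lit 8169307109558479), .ofNat (nat_lit 764329319162765), .negSucc (nat_lit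
 1817677840552094), .ofNat (nat_lit 7894883191422), .negSucc (nat_lit 2352742340711), .negSucc
 (nat_lit 3291278081981), .negSucc (nat_lit 6203447805700), .negSucc (nat_lit 2270059705299),
 .ofNat (nat_lit 7244280907503), .negSucc (nat_lit 3970823523264), .ofNat (nat_lit 2793112782228),
 .negSucc (nat_lit 4006822406875), .negSucc (nat_lit 2477254808278), .ofNat (nat_lit
 15438576840996), .ofNat (nat_lit 28889636891507), .negSucc (nat_lit 3005921476785), .ofNat
 (nat_lit 32906832194286), .negSucc (nat_lit 5369888923661), .negSucc (nat_lit 6845692279116),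
 .negSucc (nat_lit 16275686851265), .ofNat (nat_lit 4913508195780), .negSucc (nat_lit
 2897679546775), .ofNat (nat_lit 8135135335046), .negSucc (nat_lit 222391749051), .ofNat (nat_lit
 1492286226795), .ofNat (nat_lit 6964396536166), .negSucc (nat_lit 20321452989826), .ofNat (nat_lit
 9982182316567), .ofNat (nat_lit 22205114192517), .negSucc (nat_lit 1838111865483), .ofNat (nat_lit
 16423491493640), .negSucc (nat_lit 1871354867621), .ofNat (nat_lit 670749956490), .negSucc
 (nat_lit 2505423206872), .ofNat (nat_lit 870890481922), .negSucc (nat_lit 1915238633113), .negSucc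
 (nat_lit 194238815108), .negSucc (nat_lit 599150078855), .ofNat (nat_lit 3771557421240), .ofNat
 (nat_lit 352729847687), .negSucc (nat_lit 535466051258), .negSucc (nat_lit 755961183381), .negSucc
 (nat_lit 1262114611657), .ofNat (nat_lit 2241499212756), .negSucc (nat_lit 739990055977), .ofNat
 (nat_lit 1061351097957), .negSucc (nat_lit 633025905513), .negSucc (nat_lit 129774425514), .ofNat
 (nat_lit 3933378937344), .ofNat (nat_lit 10003929162716), .negSucc (nat_lit 414610503570), .ofNat
 (nat_lit 3123875287389)]), ((nat_lit 7, nat_lit 6, false), [.ofNat (nat_lit 70644943338416914),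
 .negSucc (nat_lit 12082442279706554), .ofNat (nat_lit 64622833919325648), .negSucc (nat_lit
 23870830594604386), .ofNat (nat_lit 16770211894757501), .negSucc (nat_lit 29481409150378), .ofNat
 (nat_lit 40712317755460), .ofNat (nat_lit 73635877770066), .negSucc (nat_lit 73272178120046),
 .ofNat (nat_lit 4965718007409), .negSucc (nat_lit 73827130799737), .negSucc (nat_lit
 44414089923630), .ofNat (nat_lit 52927479613862), .ofNat (nat_lit 52581239833452), .negSucc
 (nat_lit 18629009166256), .ofNat (nat_lit 7659287971865), .ofNat (nat_lit 65665721981931), .ofNat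
 (nat_lit 18744228995437), .negSucc (nat_lit 16491864127675), .ofNat (nat_lit 47905641438485),
 .ofNat (nat_lit 3944551101461), .ofNat (nat_lit 6597140324650), .ofNat (nat_lit 17800227992191),
 .negSucc (nat_lit 10605130346916), .negSucc (nat_lit 11703442872618), .negSucc (nat_lit
 2463541841774), .ofNat (nat_lit 3853006183699), .negSucc (nat_lit 15406818372421), .ofNat (nat_lit
 9518754347553), .negSucc (nat_lit 30344673863430), .ofNat (nat_lit 17153987539005), .ofNat
 (nat_lit 31986764993654), .negSucc (nat_lit 5904359259773), .ofNat (nat_lit 45377186542385),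
 .negSucc (nat_lit 5659032329410), .negSucc (nat_lit 4502184713381), .ofNat (nat_lit 826861800467),
 .negSucc (nat_lit 4978721983708), .negSucc (nat_lit 1463566127120), .ofNat (nat_lit
 4804219200449), .ofNat (nat_lit 6247067934067), .negSucc (nat_lit 1017104849342), .negSucc
 (nat_lit 1960175586344), .negSucc (nat_lit 328362271858), .ofNat (nat_lit 802073243169), .ofNat
 (nat_lit 934369159981), .negSucc (nat_lit 864698578393), .ofNat (nat_lit 2382471608690), .negSucc
 (nat_lit 2917176867974), .ofNat (nat_lit 5831141666542), .negSucc (nat_lit 3201902822292), .ofNat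
 (nat_lit 9960681555623), .ofNat (nat_lit 12082362938000), .ofNat (nat_lit 4843894734919), .ofNat
 (nat_lit 11891567506131)]), ((nat_lit 7, nat_lit 8, false), [.negSucc (nat_lit 32782730274299458),
 .ofNat (nat_lit 4984780977009216), .ofNat (nat_lit 36800990134558419), .negSucc (nat_lit
 17519330609921301), .ofNat (nat_lit 5567534894263657), .negSucc (nat_lit 41759610224493), .ofNat
 (nat_lit 15447449551418), .ofNat (nat_lit 8326846810537), .negSucc (nat_lit 42068984127729),
 .ofNat (nat_lit 40969703383652), .negSucc (nat_lit 71421932950342), .negSucc (nat_lit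
 12126138435481), .ofNat (nat_lit 12559501290048), .ofNat (nat_lit 21976378336047), .ofNat (nat_lit
 7535772396721), .ofNat (nat_lit 24552921821405), .negSucc (nat_lit 10960040593531), .negSucc
 (nat_lit 3676571366764), .negSucc (nat_lit 17909358278240), .ofNat (nat_lit 11415088235833),
 .ofNat (nat_lit 52187744718141), .ofNat (nat_lit 3878297921478), .negSucc (nat_lit 346368005417),
 .ofNat (nat_lit 4601830742982), .negSucc (nat_lit 4483659781440), .negSucc (nat_lit
 4970887962370), .negSucc (nat_lit 2023457613412), .negSucc (nat_lit 3676351962055), .negSucc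
 (nat_lit 4459001656174), .ofNat (nat_lit 1345873835229), .negSucc (nat_lit 2434873885510), .ofNat
 (nat_lit 4559012110416), .ofNat (nat_lit 4632088258135), .ofNat (nat_lit 15948287220564), .ofNat
 (nat_lit 46626921101937), .ofNat (nat_lit 5130869738072), .negSucc (nat_lit 1464868283620),
 .negSucc (nat_lit 1990052709636), .negSucc (nat_lit 476429806524), .ofNat (nat_lit 5477060100114),
 .negSucc (nat_lit 828281057112), .negSucc (nat_lit 439847166459), .ofNat (nat_lit 962112647266),
 .ofNat (nat_lit 2575513810400), .negSucc (nat_lit 791627294918), .negSucc (nat_lit 3552194237588),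
 .negSucc (nat_lit 1951334257366), .ofNat (nat_lit 4079224702375), .negSucc (nat_lit
 3712203815410), .negSucc (nat_lit 4848830009486), .ofNat (nat_lit 643177798818), .negSucc (nat_lit
 5053463800920), .negSucc (nat_lit 3741710209559), .ofNat (nat_lit 3622708586499), .ofNat (nat_lit
 4370714919621), .ofNat (nat_lit 21268036781735)]), ((nat_lit 10, nat_lit 1, false), [.ofNat
 (nat_lit 4434453977954445), .negSucc (nat_lit 609163513059801), .negSucc (nat_lit
 18192973788258728), .negSucc (nat_lit 3027907592631865), .negSucc (nat_lit 2609842075497599),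
 .negSucc (nat_lit 7094223324045), .ofNat (nat_lit 1760341496265), .ofNat (nat_lit 49261122842868),
 .ofNat (nat_lit 4083629465982), .ofNat (nat_lit 12185881154553), .ofNat (nat_lit 2837444546141),
 .ofNat (nat_lit 6232109109774), .negSucc (nat_lit 2145967267936), .negSucc (nat_lit
 2958129447695), .ofNat (nat_lit 47658925958747), .ofNat (nat_lit 15256833911703), .negSucc
 (nat_lit 4123768916729), .negSucc (nat_lit 11782793607569), .negSucc (nat_lit 5243748670948),
 .ofNat (nat_lit 9198062001571), .ofNat (nat_lit 4235329752885), .negSucc (nat_lit 8063910934649),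
 .ofNat (nat_lit 4509280975153), .ofNat (nat_lit 4704938439935), .ofNat (nat_lit 12463275054359),
 .ofNat (nat_lit 2804736645692), .ofNat (nat_lit 271695388345), .ofNat (nat_lit 2022712651831),
 .ofNat (nat_lit 6706571548133), .ofNat (nat_lit 34428172870590), .ofNat (nat_lit 3271566266544),
 .ofNat (nat_lit 5724057796544), .ofNat (nat_lit 2718062752967), .ofNat (nat_lit 8538523131042),
 .ofNat (nat_lit 1038929019088), .ofNat (nat_lit 16327773703120), .negSucc (nat_lit 1367829306203),
 .negSucc (nat_lit 2832617757405), .negSucc (nat_lit 3315291813857), .ofNat (nat_lit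
 2798019473011), .negSucc (nat_lit 2341578780389), .negSucc (nat_lit 6386533334782), .negSucc
 (nat_lit 274364034621), .ofNat (nat_lit 6439222786407), .ofNat (nat_lit 5694141118693), .ofNat
 (nat_lit 2080237783715), .negSucc (nat_lit 3324389907921), .ofNat (nat_lit 3138242701107),
 .negSucc (nat_lit 1173467042299), .ofNat (nat_lit 8470052778973), .negSucc (nat_lit
 23757522541805), .negSucc (nat_lit 2121035669468), .negSucc (nat_lit 5883072933257), .ofNat
 (nat_lit 1327780731807), .ofNat (nat_lit 1292981690093), .ofNat (nat_lit 1928521460824), .ofNat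
 (nat_lit 11692276110287)]), ((nat_lit 10, nat_lit 2, false), [.ofNat (nat_lit 25800807802004349),
 .ofNat (nat_lit 94772495403954004), .negSucc (nat_lit 11130986776868145), .ofNat (nat_lit
 4405935652868368), .negSucc (nat_lit 19312051752764055), .ofNat (nat_lit 7948667493709), .negSucc
 (nat_lit 28779190045612), .negSucc (nat_lit 280895714214501), .negSucc (nat_lit 89311609300975),
 .ofNat (nat_lit 107427348844795), .negSucc (nat_lit 5498152435968), .ofNat (nat_lit
 2834786723228), .negSucc (nat_lit 27840553041054), .negSucc (nat_lit 62292204672370), .negSucc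
 (nat_lit 65521822921334), .negSucc (nat_lit 13410542883746), .negSucc (nat_lit 60058705372158),
 .ofNat (nat_lit 43432215577325), .ofNat (nat_lit 43980633914159), .negSucc (nat_lit
 67353090347469), .negSucc (nat_lit 883092162280), .ofNat (nat_lit 17098084222590), .negSucc
 (nat_lit 1962235388109), .negSucc (nat_lit 6261211764148), .negSucc (nat_lit 47507336829402),
 .negSucc (nat_lit 22791614324140), .ofNat (nat_lit 24379761002204), .negSucc (nat_lit
 21212776390829), .negSucc (nat_lit 10524674033811), .negSucc (nat_lit 110183855561157), .ofNat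
 (nat_lit 11444863949777), .negSucc (nat_lit 9646309390126), .negSucc (nat_lit 8687771726968),
 .negSucc (nat_lit 16032613924784), .ofNat (nat_lit 9306551395708), .negSucc (nat_lit
 41001075415014), .ofNat (nat_lit 30115859644128), .ofNat (nat_lit 13211440073671), .negSucc
 (nat_lit 7756280077265), .ofNat (nat_lit 4561291365063), .negSucc (nat_lit 210150464883), .ofNat
 (nat_lit 13698401839055), .ofNat (nat_lit 3440800110160), .negSucc (nat_lit 10062880644942),
 .negSucc (nat_lit 32071829427651), .ofNat (nat_lit 24230842528708), .ofNat (nat_lit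
 12844635951722), .negSucc (nat_lit 16538891281599), .negSucc (nat_lit 19333157073028), .ofNat
 (nat_lit 29925357551679), .ofNat (nat_lit 77595106082894), .ofNat (nat_lit 9275044324945),
 .negSucc (nat_lit 36886746979705), .negSucc (nat_lit 2011314677653), .negSucc (nat_lit
 1785854525029), .negSucc (nat_lit 15216962316092), .negSucc (nat_lit 31524895956018), .ofNat
 (nat_lit 35745136267195)]), ((nat_lit 10, nat_lit 3, false), [.negSucc (nat_lit
 75172173784120114), .ofNat (nat_lit 153236396035471777), .negSucc (nat_lit 31527718891849197),
 .negSucc (nat_lit 30793253445620659), .ofNat (nat_lit 8367398691186206), .negSucc (nat_lit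
 26112376538962), .ofNat (nat_lit 33397640168917), .negSucc (nat_lit 180259390493227), .negSucc
 (nat_lit 199371521941934), .ofNat (nat_lit 102511765865266), .negSucc (nat_lit 113364604765345),
 .negSucc (nat_lit 54168761632397), .ofNat (nat_lit 47007374556358), .ofNat (nat_lit
 30023402717042), .ofNat (nat_lit 11405179055814), .negSucc (nat_lit 22740282472689), .ofNat
 (nat_lit 34922494212105), .ofNat (nat_lit 12520763098137), .negSucc (nat_lit 59750302962476),
 .negSucc (nat_lit 12877778163286), .negSucc (nat_lit 7297358402308), .ofNat (nat_lit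
 23132592550737), .negSucc (nat_lit 2548017451373), .ofNat (nat_lit 13765446769828), .negSucc
 (nat_lit 58386187906340), .negSucc (nat_lit 19532411470363), .ofNat (nat_lit 26960182356700),
 .negSucc (nat_lit 30545022531601), .negSucc (nat_lit 24295127106085), .negSucc (nat_lit
 104190017330213), .ofNat (nat_lit 18292381004077), .negSucc (nat_lit 953052473189), .negSucc
 (nat_lit 8757015711766), .ofNat (nat_lit 2482445941524), .ofNat (nat_lit 15628224099082), .negSucc
 (nat_lit 46935742104709), .ofNat (nat_lit 28636574141851), .ofNat (nat_lit 43143056416639),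
 .negSucc (nat_lit 17838172860384), .ofNat (nat_lit 15233636751099), .ofNat (nat_lit
 15723090143530), .ofNat (nat_lit 5216676817611), .ofNat (nat_lit 7570197413975), .ofNat (nat_lit
 4313508737092), .negSucc (nat_lit 18456837183119), .ofNat (nat_lit 10689657354673), .ofNat
 (nat_lit 7873185117815), .ofNat (nat_lit 3057178522185), .negSucc (nat_lit 26582888796387), .ofNat
 (nat_lit 26424571145751), .ofNat (nat_lit 37117582194136), .ofNat (nat_lit 29529606895461),
 .negSucc (nat_lit 24060204565916), .negSucc (nat_lit 10496472544868), .negSucc (nat_lit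
 3719263359955), .negSucc (nat_lit 4158815343114), .negSucc (nat_lit 13821429308399), .ofNat
 (nat_lit 29493597038096), .ofNat (nat_lit 59046973021883)]), ((nat_lit 10, nat_lit 4, false),
 [.negSucc (nat_lit 119285151076298050), .negSucc (nat_lit 80740055361874979), .ofNat (nat_lit
 37330277726437508), .negSucc (nat_lit 13816266412242116), .ofNat (nat_lit 33364703962386116),
 .ofNat (nat_lit 33205720216224), .ofNat (nat_lit 26504272782157), .ofNat (nat_lit
 136012377541720), .negSucc (nat_lit 9172834281502), .negSucc (nat_lit 204885661614631), .negSucc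
 (nat_lit 28425108903362), .negSucc (nat_lit 50371697932200), .ofNat (nat_lit 49258362327056),
 .ofNat (nat_lit 90670440715266), .negSucc (nat_lit 73181727623703), .negSucc (nat_lit
 44724472364353), .ofNat (nat_lit 148764804731808), .negSucc (nat_lit 23844857353621), .negSucc
 (nat_lit 36753468170417), .ofNat (nat_lit 12359254995119), .ofNat (nat_lit 8287593994542), .ofNat
 (nat_lit 7662970465757), .negSucc (nat_lit 13519436658081), .negSucc (nat_lit 10020111363485),
 .ofNat (nat_lit 14290446534372), .ofNat (nat_lit 29688287899749), .negSucc (nat_lit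
 36213694558567), .ofNat (nat_lit 11599836246339), .ofNat (nat_lit 13147313317697), .ofNat (nat_lit
 586464080035), .negSucc (nat_lit 8363756966008), .negSucc (nat_lit 13592747323835), .negSucc
 (nat_lit 8963566014440), .negSucc (nat_lit 412181221296), .negSucc (nat_lit 35425477590543),
 .ofNat (nat_lit 12867514281485), .negSucc (nat_lit 10192386213893), .ofNat (nat_lit
 13507111060373), .ofNat (nat_lit 53495392653122), .negSucc (nat_lit 20175580763768), .ofNat
 (nat_lit 38963150083920), .ofNat (nat_lit 5411010210023), .negSucc (nat_lit 3055344555765),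
 .negSucc (nat_lit 4236254617656), .ofNat (nat_lit 8750923573947), .negSucc (nat_lit
 38689827269673), .negSucc (nat_lit 7094133569572), .ofNat (nat_lit 2128453575699), .ofNat (nat_lit
 29619803564044), .negSucc (nat_lit 38635052723128), .negSucc (nat_lit 7088251185499), .ofNat
 (nat_lit 11585872610634), .ofNat (nat_lit 83525619542930), .ofNat (nat_lit 1633158262830), .ofNat
 (nat_lit 14619812934993), .ofNat (nat_lit 8826945685233), .ofNat (nat_lit 45171927345098),
 .negSucc (nat_lit 39619674634996), .ofNat (nat_lit 39388060831690), .ofNat (nat_lit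
 56221892870604)]), ((nat_lit 10, nat_lit 5, false), [.negSucc (nat_lit 46339296357413692), .ofNat
 (nat_lit 83898912537681985), .ofNat (nat_lit 2361996399267275), .ofNat (nat_lit 6843953333880870),
 .negSucc (nat_lit 495357617108143), .negSucc (nat_lit 11369952059235), .ofNat (nat_lit
 10439117416944), .negSucc (nat_lit 172730077566398), .negSucc (nat_lit 46827261996370), .ofNat
 (nat_lit 64272988398141), .negSucc (nat_lit 19859832525873), .negSucc (nat_lit 25766843257257),
 .ofNat (nat_lit 16437070821630), .ofNat (nat_lit 463568526693), .ofNat (nat_lit 12314242388213),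
 .negSucc (nat_lit 19302352336898), .negSucc (nat_lit 10745656615251), .negSucc (nat_lit
 7883434290543), .negSucc (nat_lit 31970167815042), .negSucc (nat_lit 6699119608286), .negSucc
 (nat_lit 9048694279814), .ofNat (nat_lit 4270683195421), .ofNat (nat_lit 1921505642582), .ofNat
 (nat_lit 15921240397684), .negSucc (nat_lit 21791670359136), .negSucc (nat_lit 6539746308807),
 .ofNat (nat_lit 26302935308613), .negSucc (nat_lit 12536848699568), .negSucc (nat_lit
 17592539306903), .negSucc (nat_lit 29212968919943), .negSucc (nat_lit 6701151328222), .ofNat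
 (nat_lit 19561287274160), .negSucc (nat_lit 1735650879773), .ofNat (nat_lit 13924605389675),
 .ofNat (nat_lit 12351518018246), .negSucc (nat_lit 14943012281225), .ofNat (nat_lit
 8959863686996), .ofNat (nat_lit 23980182183696), .negSucc (nat_lit 15581675659972), .ofNat
 (nat_lit 36991284912104), .ofNat (nat_lit 10293826198265), .negSucc (nat_lit 1401912303700),
 .ofNat (nat_lit 4909528790279), .ofNat (nat_lit 3944247133633), .negSucc (nat_lit 8124749217957),
 .ofNat (nat_lit 4671153001216), .ofNat (nat_lit 2618634732297), .ofNat (nat_lit 3360138438073),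
 .negSucc (nat_lit 12628230762178), .ofNat (nat_lit 10166815000265), .ofNat (nat_lit
 10758500602840), .ofNat (nat_lit 19392581744037), .negSucc (nat_lit 12385983663072), .ofNat
 (nat_lit 2057638844148), .ofNat (nat_lit 2708154118194), .negSucc (nat_lit 3540848183300),
 .negSucc (nat_lit 5729421964081), .ofNat (nat_lit 9869298111650), .ofNat (nat_lit 33655297402647),
 .ofNat (nat_lit 989732363039), .ofNat (nat_lit 13901041080321)]), ((nat_lit 10, nat_lit 6, false),
 [.negSucc (nat_lit 17410263784731986), .negSucc (nat_lit 52342062726047901), .ofNat (nat_lit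
 5406607918267251), .ofNat (nat_lit 20405123378444686), .ofNat (nat_lit 3661159159839555), .ofNat
 (nat_lit 42121638401720), .ofNat (nat_lit 2396520187546), .ofNat (nat_lit 61920980200891), .ofNat
 (nat_lit 79757463589796), .negSucc (nat_lit 83923558732594), .ofNat (nat_lit 78525224985977),
 .negSucc (nat_lit 2682271568401), .negSucc (nat_lit 7207628803842), .ofNat (nat_lit
 14518767874905), .negSucc (nat_lit 16324737712691), .negSucc (nat_lit 20492177399740), .ofNat
 (nat_lit 30356605635811), .negSucc (nat_lit 15347410807204), .ofNat (nat_lit 17201286536967),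
 .ofNat (nat_lit 7282393067364), .negSucc (nat_lit 21638565420811), .negSucc (nat_lit
 9307216367748), .ofNat (nat_lit 12668029288401), .negSucc (nat_lit 9537137145573), .ofNat (nat_lit
 22062652318512), .ofNat (nat_lit 19913769354501), .ofNat (nat_lit 8340731276574), .ofNat (nat_lit
 22168683330855), .negSucc (nat_lit 10363131050541), .ofNat (nat_lit 3245757722166), .negSucc
 (nat_lit 2770191320675), .ofNat (nat_lit 8874828175757), .negSucc (nat_lit 13036784128350), .ofNat
 (nat_lit 6015363070128), .negSucc (nat_lit 31106714293718), .ofNat (nat_lit 12658241759412),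
 .negSucc (nat_lit 6284167014407), .ofNat (nat_lit 5246135947182), .ofNat (nat_lit 31510208641425),
 .negSucc (nat_lit 10329255315346), .ofNat (nat_lit 66275366026261), .ofNat (nat_lit
 1414859005952), .negSucc (nat_lit 2906702700032), .ofNat (nat_lit 42530410650), .negSucc (nat_lit
 1412358798312), .negSucc (nat_lit 9255196826341), .negSucc (nat_lit 1424265048951), .ofNat
 (nat_lit 560097715020), .ofNat (nat_lit 7745495056255), .negSucc (nat_lit 15560006141083),
 .negSucc (nat_lit 548039853366), .ofNat (nat_lit 16862998586115), .ofNat (nat_lit 35478065617300),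
 .ofNat (nat_lit 531247314345), .ofNat (nat_lit 30029793805163), .ofNat (nat_lit 4851923369734),
 .ofNat (nat_lit 15994589598460), .negSucc (nat_lit 16729524009535), .ofNat (nat_lit
 5407776912936), .ofNat (nat_lit 25829352073327), .ofNat (nat_lit 17016048744744), .ofNat (nat_lit
 38817606740674)]), ((nat_lit 10, nat_lit 8, false), [.negSucc (nat_lit 43892261370709411), .ofNat
 (nat_lit 31860698060736259), .negSucc (nat_lit 33280357590361876), .negSucc (nat_lit
 21015252390995120), .ofNat (nat_lit 39758775328983337), .ofNat (nat_lit 10348599750593), .ofNat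
 (nat_lit 62868016426204), .ofNat (nat_lit 93696221215632), .negSucc (nat_lit 72238053574471),
 .negSucc (nat_lit 135411939271163), .negSucc (nat_lit 56430305825405), .negSucc (nat_lit
 62612569014570), .ofNat (nat_lit 105485546071472), .ofNat (nat_lit 133953708367071), .ofNat
 (nat_lit 10008273748019), .negSucc (nat_lit 56393091721964), .ofNat (nat_lit 156470863022417),
 .negSucc (nat_lit 41394939056040), .negSucc (nat_lit 80534196272913), .ofNat (nat_lit
 83228372915096), .negSucc (nat_lit 46231088943663), .negSucc (nat_lit 4524405659849), .negSucc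
 (nat_lit 13516680428919), .negSucc (nat_lit 9465366622104), .negSucc (nat_lit 4521739494149),
 .ofNat (nat_lit 12887341381362), .negSucc (nat_lit 1664448983451), .ofNat (nat_lit 8415643223789),
 .negSucc (nat_lit 17861467626066), .negSucc (nat_lit 13598701878505), .ofNat (nat_lit
 44733805301158), .negSucc (nat_lit 31278480225443), .negSucc (nat_lit 931052614053), .negSucc
 (nat_lit 2816375594473), .ofNat (nat_lit 6456279280384), .ofNat (nat_lit 446930837172), .negSucc
 (nat_lit 3953560931254), .ofNat (nat_lit 177134333664), .negSucc (nat_lit 18549294028492), .ofNat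
 (nat_lit 10886407450493), .ofNat (nat_lit 32880337521562), .ofNat (nat_lit 27424138063163), .ofNat
 (nat_lit 996716811680), .ofNat (nat_lit 7425441213200), .negSucc (nat_lit 918291137594), .negSucc
 (nat_lit 3816358766555), .negSucc (nat_lit 2281648476997), .ofNat (nat_lit 14912615493191),
 .negSucc (nat_lit 26997549081984), .ofNat (nat_lit 10374197397722), .negSucc (nat_lit
 8634031919440), .negSucc (nat_lit 2084273055982), .ofNat (nat_lit 13484151314547), .negSucc
 (nat_lit 7796321985340), .negSucc (nat_lit 5529281303427), .ofNat (nat_lit 37257600609237),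
 .negSucc (nat_lit 14759316699205), .ofNat (nat_lit 14518348698185), .negSucc (nat_lit
 6851700122670), .negSucc (nat_lit 31810761639737), .ofNat (nat_lit 6200043299388), .ofNat (nat_lit
 30515920098790), .ofNat (nat_lit 30524179572004)]), ((nat_lit 9, nat_lit 1, false), [.ofNat
 (nat_lit 14058338991813550), .ofNat (nat_lit 6670609652090068), .ofNat (nat_lit 7088899434469610),
 .negSucc (nat_lit 13809934784258638), .ofNat (nat_lit 5281549908577147), .negSucc (nat_lit
 5956584885586), .ofNat (nat_lit 4103220392424), .negSucc (nat_lit 24215309580354), .negSucc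
 (nat_lit 58087823674849), .negSucc (nat_lit 19975660282238), .negSucc (nat_lit 40132095204356),
 .negSucc (nat_lit 16731344723727), .ofNat (nat_lit 3750194614127), .ofNat (nat_lit 8828743215591),
 .negSucc (nat_lit 20952348591619), .ofNat (nat_lit 5305652529107), .ofNat (nat_lit
 27746259888606), .ofNat (nat_lit 14974570788908), .ofNat (nat_lit 11691222387689), .negSucc
 (nat_lit 6039000774801), .ofNat (nat_lit 433523613735), .ofNat (nat_lit 6568018276309), .negSucc
 (nat_lit 17051936164728), .negSucc (nat_lit 5266590415201), .negSucc (nat_lit 7974084342836),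
 .ofNat (nat_lit 1376171791619), .negSucc (nat_lit 4683790908252), .negSucc (nat_lit
 2291399282904), .ofNat (nat_lit 9295590741390), .negSucc (nat_lit 26651689942216), .ofNat (nat_lit
 2234568250289), .negSucc (nat_lit 6112682528047), .negSucc (nat_lit 2158017297216), .negSucc
 (nat_lit 7583061831243), .negSucc (nat_lit 392695074032), .ofNat (nat_lit 268900720631), .negSucc
 (nat_lit 295166967973), .ofNat (nat_lit 3455579380131), .ofNat (nat_lit 2045348388882), .negSucc
 (nat_lit 3073680807140), .ofNat (nat_lit 1394175066316), .ofNat (nat_lit 3060641526813), .negSucc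
 (nat_lit 164025846235), .negSucc (nat_lit 3467237671914), .negSucc (nat_lit 3097939829837),
 .negSucc (nat_lit 1060236025984), .ofNat (nat_lit 2392414256573), .negSucc (nat_lit 85509816594),
 .negSucc (nat_lit 1643587200271), .ofNat (nat_lit 1104445118338), .ofNat (nat_lit 13269568367574),
 .ofNat (nat_lit 3019050533463), .ofNat (nat_lit 3257946895180), .negSucc (nat_lit 1040936883898),
 .negSucc (nat_lit 298520206910), .negSucc (nat_lit 1470932410292), .negSucc (nat_lit
 5553523164115), .negSucc (nat_lit 859774425729), .negSucc (nat_lit 240503600613), .negSucc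
 (nat_lit 40683028809), .ofNat (nat_lit 365528717663), .negSucc (nat_lit 209094839575), .ofNat
 (nat_lit 120957354025), .ofNat (nat_lit 6134498343736)]), ((nat_lit 9, nat_lit 2, false),
 [.negSucc (nat_lit 62734518121199848), .negSucc (nat_lit 58520401746480541), .negSucc (nat_lit
 8105416178415057), .ofNat (nat_lit 31964473099792225), .negSucc (nat_lit 5036683973716500), .ofNat
 (nat_lit 9415430558174), .negSucc (nat_lit 6474593324169), .ofNat (nat_lit 132614025633152),
 .ofNat (nat_lit 179690326740613), .negSucc (nat_lit 9783321865353), .ofNat (nat_lit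
 94443259850595), .ofNat (nat_lit 42430889579970), .negSucc (nat_lit 17662969255682), .ofNat
 (nat_lit 3057576996114), .ofNat (nat_lit 40145633552897), .negSucc (nat_lit 8381710013171),
 .negSucc (nat_lit 54747905947905), .negSucc (nat_lit 36214368813008), .negSucc (nat_lit
 38858851483293), .ofNat (nat_lit 33211045170607), .ofNat (nat_lit 647872924503), .negSucc (nat_lit
 19823613037607), .ofNat (nat_lit 37698874665993), .ofNat (nat_lit 20237466053731), .ofNat (nat_lit
 16751869655830), .ofNat (nat_lit 5678491035273), .negSucc (nat_lit 2323594175646), .ofNat (nat_lit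
 25924139644304), .negSucc (nat_lit 16698457403660), .ofNat (nat_lit 102499202223047), .negSucc
 (nat_lit 14464587021543), .ofNat (nat_lit 5879660942439), .ofNat (nat_lit 7042539328642), .ofNat
 (nat_lit 20660354964093), .negSucc (nat_lit 2845882032039), .ofNat (nat_lit 17435184678612),
 .ofNat (nat_lit 13467943016354), .negSucc (nat_lit 2787966173792), .negSucc (nat_lit
 7424966622495), .negSucc (nat_lit 5327647391071), .ofNat (nat_lit 2695227714758), .negSucc
 (nat_lit 4180126887688), .ofNat (nat_lit 501101730856), .ofNat (nat_lit 10265165602765), .ofNat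
 (nat_lit 12986359611119), .negSucc (nat_lit 7534671992212), .negSucc (nat_lit 8919090740081),
 .negSucc (nat_lit 85497923091), .ofNat (nat_lit 12109919935382), .negSucc (nat_lit
 31789823530936), .negSucc (nat_lit 37893657379081), .negSucc (nat_lit 9793464596421), .ofNat
 (nat_lit 11147305627812), .ofNat (nat_lit 5819758269916), .negSucc (nat_lit 3015476880998), .ofNat
 (nat_lit 9240246076593), .ofNat (nat_lit 26468335892911), .negSucc (nat_lit 13079181933558),
 .negSucc (nat_lit 3760383466358), .ofNat (nat_lit 3674924940489), .negSucc (nat_lit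
 1160614525571), .ofNat (nat_lit 1797919194639), .negSucc (nat_lit 1637360732632), .negSucc
 (nat_lit 17753445546099), .ofNat (nat_lit 27191250247530)]), ((nat_lit 9, nat_lit 3, false),
 [.negSucc (nat_lit 31960679263153266), .negSucc (nat_lit 52175724071597979), .negSucc (nat_lit
 72455847782891901), .ofNat (nat_lit 37752339113527965), .negSucc (nat_lit 17457659272116582),
 .ofNat (nat_lit 42807365599839), .negSucc (nat_lit 30809166149351), .ofNat (nat_lit
 160444110048555), .ofNat (nat_lit 200798792368394), .negSucc (nat_lit 21908041572052), .ofNat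
 (nat_lit 136345268263020), .ofNat (nat_lit 76520598539047), .negSucc (nat_lit 37506790441164),
 .negSucc (nat_lit 26563864767763), .ofNat (nat_lit 55934858779894), .negSucc (nat_lit
 23198945409252), .negSucc (nat_lit 78923137424591), .negSucc (nat_lit 9828557470144), .ofNat
 (nat_lit 6272731378676), .ofNat (nat_lit 6582254199079), .negSucc (nat_lit 5818835519718),
 .negSucc (nat_lit 10671228668248), .ofNat (nat_lit 38064808871734), .ofNat (nat_lit
 23608730716450), .ofNat (nat_lit 22834856437471), .ofNat (nat_lit 6013550271698), .negSucc
 (nat_lit 26049962886375), .ofNat (nat_lit 22944568367848), .negSucc (nat_lit 33688492829732),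
 .ofNat (nat_lit 77263867317945), .ofNat (nat_lit 22282501039826), .ofNat (nat_lit 6325321089173),
 .negSucc (nat_lit 11139006512401), .negSucc (nat_lit 2214156164301), .ofNat (nat_lit
 1155969805083), .ofNat (nat_lit 7877570226342), .ofNat (nat_lit 6278912008104), .ofNat (nat_lit
 23528282756283), .ofNat (nat_lit 7667607812139), .ofNat (nat_lit 1304895969486), .negSucc (nat_lit
 21455217607188), .negSucc (nat_lit 2511943021332), .negSucc (nat_lit 1452374030773), .ofNat
 (nat_lit 1437873098697), .ofNat (nat_lit 6231854468157), .negSucc (nat_lit 9800384193320),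
 .negSucc (nat_lit 8016026264169), .negSucc (nat_lit 3852494696770), .ofNat (nat_lit
 17394403283204), .negSucc (nat_lit 27575383462635), .negSucc (nat_lit 18642834959051), .negSucc
 (nat_lit 19680013648513), .ofNat (nat_lit 7642206878510), .ofNat (nat_lit 14947133045018),
 .negSucc (nat_lit 8663818452864), .ofNat (nat_lit 4406735325717), .ofNat (nat_lit 14878239832633),
 .negSucc (nat_lit 12650358582489), .negSucc (nat_lit 35916937830544), .ofNat (nat_lit
 2148570057662), .negSucc (nat_lit 2188556457127), .ofNat (nat_lit 6373497259228), .negSucc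
 (nat_lit 1736190610977), .negSucc (nat_lit 9494554649651), .ofNat (nat_lit 24288027078557), .ofNat
 (nat_lit 22144132079054)]), ((nat_lit 9, nat_lit 4, false), [.negSucc (nat_lit 25888279374858420),
 .negSucc (nat_lit 12093004934601549), .negSucc (nat_lit 20068627854699571), .ofNat (nat_lit
 4398687319219148), .ofNat (nat_lit 685033718840483), .ofNat (nat_lit 2972044501343), .ofNat
 (nat_lit 13365025730238), .ofNat (nat_lit 96867392348255), .ofNat (nat_lit 48012843348025),
 .negSucc (nat_lit 4522965601552), .ofNat (nat_lit 16069324501809), .ofNat (nat_lit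
 16120545312519), .ofNat (nat_lit 20455097307016), .ofNat (nat_lit 14949269907062), .ofNat (nat_lit
 28890233817318), .ofNat (nat_lit 537816367906), .negSucc (nat_lit 24722381175589), .ofNat (nat_lit
 3117205251171), .ofNat (nat_lit 2729956814854), .ofNat (nat_lit 46211519347415), .negSucc (nat_lit
 23665343880500), .negSucc (nat_lit 4843791065151), .ofNat (nat_lit 9062343838621), .ofNat (nat_lit
 1991247267477), .ofNat (nat_lit 17077606701490), .negSucc (nat_lit 13348258069148), .negSucc
 (nat_lit 3506578234618), .negSucc (nat_lit 26347599619550), .negSucc (nat_lit 13762156661338),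
 .negSucc (nat_lit 253643608713), .ofNat (nat_lit 13297534018454), .ofNat (nat_lit 36662089690072),
 .ofNat (nat_lit 6486419351912), .negSucc (nat_lit 53016962146203), .ofNat (nat_lit
 21637366231876), .negSucc (nat_lit 504484587413), .ofNat (nat_lit 11723057164386), .ofNat (nat_lit
 1549043096281), .ofNat (nat_lit 52537386710690), .ofNat (nat_lit 4930857436351), .negSucc (nat_lit
 13571033132459), .negSucc (nat_lit 23648406686824), .negSucc (nat_lit 1904187896598), .negSucc
 (nat_lit 3384015279208), .negSucc (nat_lit 6531256898984), .ofNat (nat_lit 15469588206697), .ofNat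
 (nat_lit 5289823758691), .negSucc (nat_lit 2535847553825), .negSucc (nat_lit 1691663774758),
 .ofNat (nat_lit 27192004018670), .ofNat (nat_lit 385378030702), .negSucc (nat_lit 1947828833042),
 .negSucc (nat_lit 28180198616654), .ofNat (nat_lit 2299477181512), .ofNat (nat_lit 2109036122066),
 .negSucc (nat_lit 14387761487038), .negSucc (nat_lit 24721080381242), .ofNat (nat_lit
 19838553868572), .negSucc (nat_lit 29288663958072), .negSucc (nat_lit 32791512371558), .ofNat
 (nat_lit 4883235918039), .ofNat (nat_lit 1944905697088), .ofNat (nat_lit 4721959609645), .ofNat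
 (nat_lit 10223066713792), .negSucc (nat_lit 7018162889984), .ofNat (nat_lit 19548688543182),
 .ofNat (nat_lit 32169807383487)]), ((nat_lit 9, nat_lit 5, false), [.negSucc (nat_lit
 9260961777844101), .negSucc (nat_lit 20980603020544740), .negSucc (nat_lit 51861061505086250),
 .ofNat (nat_lit 4776384784785483), .negSucc (nat_lit 6313295559436700), .ofNat (nat_lit
 22905243455240), .negSucc (nat_lit 19355766629269), .ofNat (nat_lit 94222415941665), .ofNat
 (nat_lit 57883484890909), .negSucc (nat_lit 26978851588056), .ofNat (nat_lit 43392407331609),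
 .ofNat (nat_lit 30962485952005), .negSucc (nat_lit 20328628670024), .negSucc (nat_lit
 15329203923947), .ofNat (nat_lit 31608097404120), .negSucc (nat_lit 8405604855746), .negSucc
 (nat_lit 21229359395868), .ofNat (nat_lit 4728640651379), .ofNat (nat_lit 13943376106366),
 .negSucc (nat_lit 9847343031507), .ofNat (nat_lit 3237280298939), .ofNat (nat_lit 128442314406),
 .ofNat (nat_lit 9208090429089), .ofNat (nat_lit 6126979248769), .ofNat (nat_lit 7878397413825),
 .ofNat (nat_lit 10898974478831), .negSucc (nat_lit 15959052896481), .ofNat (nat_lit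
 8001705399809), .negSucc (nat_lit 20015799167936), .ofNat (nat_lit 24804828299820), .ofNat
 (nat_lit 20967947326137), .negSucc (nat_lit 7771641797536), .negSucc (nat_lit 4789871031870),
 .negSucc (nat_lit 5667576534924), .negSucc (nat_lit 1286067460623), .ofNat (nat_lit
 2971709259269), .ofNat (nat_lit 735232436764), .ofNat (nat_lit 16866210496484), .ofNat (nat_lit
 6033342418260), .ofNat (nat_lit 10046322661500), .negSucc (nat_lit 15028803979944), .ofNat
 (nat_lit 1728042777484), .negSucc (nat_lit 1062250638998), .negSucc (nat_lit 1924271456964),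
 .ofNat (nat_lit 2212277435347), .negSucc (nat_lit 7694223439945), .negSucc (nat_lit
 3521036039221), .negSucc (nat_lit 3270167322301), .ofNat (nat_lit 7517098809865), .negSucc
 (nat_lit 8961752198311), .negSucc (nat_lit 4523644953217), .negSucc (nat_lit 17408868691413),
 .ofNat (nat_lit 6075186477266), .ofNat (nat_lit 8191882129131), .negSucc (nat_lit 9932666103506),
 .ofNat (nat_lit 2905998773242), .ofNat (nat_lit 5429400463872), .negSucc (nat_lit 6049355925693),
 .negSucc (nat_lit 20807891457170), .ofNat (nat_lit 103125865089), .negSucc (nat_lit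
 7952572532323), .ofNat (nat_lit 3691059758503), .negSucc (nat_lit 1464372021920), .negSucc
 (nat_lit 3399406434000), .ofNat (nat_lit 9493077924780), .ofNat (nat_lit 16328645319546), .ofNat
 (nat_lit 158904917276), .ofNat (nat_lit 4918358475627)]), ((nat_lit 9, nat_lit 6, false),
 [.negSucc (nat_lit 62724202708810414), .negSucc (nat_lit 36191206357838646), .ofNat (nat_lit
 34960675701411700), .ofNat (nat_lit 23494747623860560), .ofNat (nat_lit 2141014040100091), .ofNat
 (nat_lit 9658109114384), .ofNat (nat_lit 7418575310166), .ofNat (nat_lit 29805976884631), .ofNat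
 (nat_lit 97887808789982), .negSucc (nat_lit 4764244880588), .ofNat (nat_lit 48452865252728),
 .ofNat (nat_lit 11595908617409), .ofNat (nat_lit 13852639000474), .ofNat (nat_lit 8348405435577),
 .negSucc (nat_lit 5263334877178), .negSucc (nat_lit 11255519720254), .negSucc (nat_lit
 22452118582826), .negSucc (nat_lit 23971704100932), .negSucc (nat_lit 20131740854341), .ofNat
 (nat_lit 31000428565227), .negSucc (nat_lit 7061337655756), .negSucc (nat_lit 14827266499097),
 .ofNat (nat_lit 13275636472364), .ofNat (nat_lit 5759864981583), .ofNat (nat_lit 13677245985952),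
 .negSucc (nat_lit 5431738566437), .ofNat (nat_lit 26935153010191), .ofNat (nat_lit 4084764060408),
 .ofNat (nat_lit 6656446501949), .ofNat (nat_lit 12227227574665), .negSucc (nat_lit 7913056152826),
 .ofNat (nat_lit 18386667811426), .ofNat (nat_lit 24359014333216), .negSucc (nat_lit
 15899934329211), .ofNat (nat_lit 9559759526438), .negSucc (nat_lit 958569699868), .ofNat (nat_lit
 4792290417585), .ofNat (nat_lit 5712555641406), .ofNat (nat_lit 24814270141875), .negSucc (nat_lit
 5693133149372), .ofNat (nat_lit 11280282707822), .negSucc (nat_lit 7067150625593), .negSucc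
 (nat_lit 926804493123), .negSucc (nat_lit 2636733269955), .negSucc (nat_lit 2182388932977), .ofNat
 (nat_lit 8061580470896), .ofNat (nat_lit 2448798834483), .negSucc (nat_lit 2484478400266),
 .negSucc (nat_lit 2583490072127), .ofNat (nat_lit 12621433034028), .negSucc (nat_lit
 931232101173), .negSucc (nat_lit 1699477904845), .negSucc (nat_lit 13492396259923), .ofNat
 (nat_lit 1120470462327), .negSucc (nat_lit 3449579633015), .negSucc (nat_lit 9431058115728),
 .negSucc (nat_lit 9026749747150), .ofNat (nat_lit 6924292896150), .negSucc (nat_lit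
 7699079259844), .negSucc (nat_lit 13732630710946), .negSucc (nat_lit 7340049580487), .negSucc
 (nat_lit 20858951019328), .ofNat (nat_lit 628612687260), .ofNat (nat_lit 2518819278131), .negSucc
 (nat_lit 2602726714301), .ofNat (nat_lit 11167380711118), .ofNat (nat_lit 16878297524221), .ofNat
 (nat_lit 4485004076821), .ofNat (nat_lit 9027291051895)]), ((nat_lit 9, nat_lit 8, false), [.ofNat
 (nat_lit 6100152570674944), .ofNat (nat_lit 18337717994493577), .negSucc (nat_lit
 22472966052533157), .ofNat (nat_lit 7988851659476349), .negSucc (nat_lit 31973215797776878),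
 .negSucc (nat_lit 2919070524470), .negSucc (nat_lit 66197838830982), .negSucc (nat_lit
 173310093537096), .negSucc (nat_lit 21357717198553), .ofNat (nat_lit 80444717755340), .ofNat
 (nat_lit 50052621126021), .ofNat (nat_lit 46385564290232), .negSucc (nat_lit 91228508598215),
 .negSucc (nat_lit 127428096565952), .ofNat (nat_lit 3638189405289), .ofNat (nat_lit
 29454735622802), .negSucc (nat_lit 86597866704940), .ofNat (nat_lit 7389206011196), .ofNat
 (nat_lit 68994857254874), .negSucc (nat_lit 81444054905559), .ofNat (nat_lit 35073254416643),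
 .negSucc (nat_lit 16531830215828), .negSucc (nat_lit 6252140710326), .ofNat (nat_lit
 2939432344862), .ofNat (nat_lit 11118578342824), .ofNat (nat_lit 6072870015863), .ofNat (nat_lit
 8261641629073), .ofNat (nat_lit 40097666783134), .ofNat (nat_lit 22984041391622), .negSucc
 (nat_lit 5248248250752), .negSucc (nat_lit 3581331503753), .negSucc (nat_lit 14758111649275),
 .ofNat (nat_lit 15623268968558), .ofNat (nat_lit 38170092272992), .negSucc (nat_lit
 6763398335314), .ofNat (nat_lit 6910082340513), .ofNat (nat_lit 394479497194), .negSucc (nat_lit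
 4665686600801), .negSucc (nat_lit 2240514910214), .ofNat (nat_lit 1383257999175), .negSucc
 (nat_lit 19061893085697), .ofNat (nat_lit 38101799335569), .ofNat (nat_lit 610463989662), .negSucc
 (nat_lit 1644146388877), .negSucc (nat_lit 65452175231), .ofNat (nat_lit 1264971825017), .ofNat
 (nat_lit 3953009391744), .negSucc (nat_lit 6031212556643), .ofNat (nat_lit 14012600140619),
 .negSucc (nat_lit 4286676235373), .ofNat (nat_lit 6731819018043), .ofNat (nat_lit 2263156492151),
 .negSucc (nat_lit 5190842535108), .ofNat (nat_lit 3466853273956), .negSucc (nat_lit 691490560733),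
 .negSucc (nat_lit 7958067782971), .ofNat (nat_lit 7011437673726), .negSucc (nat_lit
 8780966996043), .ofNat (nat_lit 3323574653758), .ofNat (nat_lit 18428542285535), .negSucc (nat_lit
 1565093292601), .negSucc (nat_lit 22701829340690), .negSucc (nat_lit 18728884937605), .negSucc
 (nat_lit 2261623803058), .negSucc (nat_lit 386198246414), .negSucc (nat_lit 6210678392962),
 .negSucc (nat_lit 3691894096247), .ofNat (nat_lit 2359135762730), .ofNat (nat_lit 4186224473446),
 .ofNat (nat_lit 11382039281871)]), ((nat_lit 12, nat_lit 1, false), [.ofNat (nat_lit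
 24949833684091362), .negSucc (nat_lit 4448919216900873), .ofNat (nat_lit 12676374979011166),
 .negSucc (nat_lit 15085318672482038), .ofNat (nat_lit 7075599389665433), .negSucc (nat_lit
 12777070059038), .ofNat (nat_lit 9595658887197), .ofNat (nat_lit 18271688079437), .negSucc
 (nat_lit 44213947876600), .negSucc (nat_lit 17751310423838), .negSucc (nat_lit 39731067560408),
 .negSucc (nat_lit 20585243043736), .ofNat (nat_lit 6433601919495), .ofNat (nat_lit
 14439631748679), .ofNat (nat_lit 3191431701078), .ofNat (nat_lit 19025728941439), .ofNat (nat_lit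
 26628930491617), .ofNat (nat_lit 6562401311309), .ofNat (nat_lit 983769120950), .ofNat (nat_lit
 2774802759713), .ofNat (nat_lit 2478783922236), .ofNat (nat_lit 4016673825543), .negSucc (nat_lit
 5536022074991), .negSucc (nat_lit 9048175712203), .negSucc (nat_lit 1523702199022), .ofNat
 (nat_lit 9685890937756), .negSucc (nat_lit 3089912122842), .negSucc (nat_lit 12302900976), .ofNat
 (nat_lit 4611548471963), .negSucc (nat_lit 5397473203130), .ofNat (nat_lit 1387686552005),
 .negSucc (nat_lit 8994179283514), .ofNat (nat_lit 1909710890421), .negSucc (nat_lit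
 8527918168445), .ofNat (nat_lit 2213401304267), .ofNat (nat_lit 21915288784632), .negSucc (nat_lit
 654825566982), .ofNat (nat_lit 3227569108580), .negSucc (nat_lit 341338370786), .negSucc (nat_lit
 1974128093687), .ofNat (nat_lit 2789752970607), .ofNat (nat_lit 593072427086), .ofNat (nat_lit
 3847678967989), .negSucc (nat_lit 13726772611927), .ofNat (nat_lit 4808425787382), .negSucc
 (nat_lit 1319409444233), .negSucc (nat_lit 5331152151262), .ofNat (nat_lit 1361742109338),
 .negSucc (nat_lit 1321880517145), .ofNat (nat_lit 8875143956506), .negSucc (nat_lit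
 3912044069985), .negSucc (nat_lit 455744180758), .negSucc (nat_lit 1915969674238), .negSucc
 (nat_lit 762195336176), .ofNat (nat_lit 916946967398), .ofNat (nat_lit 998236684361), .ofNat
 (nat_lit 4085281313600), .negSucc (nat_lit 2731961244960), .ofNat (nat_lit 981769980188), .negSucc
 (nat_lit 2276362024619), .ofNat (nat_lit 1498839003832), .ofNat (nat_lit 1837230365578), .negSucc
 (nat_lit 556615944417), .ofNat (nat_lit 9757971983717), .negSucc (nat_lit 1921078973222), .negSucc
 (nat_lit 546738154834), .negSucc (nat_lit 528542349323), .ofNat (nat_lit 364299693750), .ofNat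
 (nat_lit 1154523757992), .negSucc (nat_lit 486096204604), .ofNat (nat_lit 15009118478959)]),
 ((nat_lit 12, nat_lit 2, false), [.negSucc (nat_lit 257236989572733), .ofNat (nat_lit
 11757162150057499), .negSucc (nat_lit 18875635491467850), .negSucc (nat_lit 7373749299300466),
 .negSucc (nat_lit 1239342645542236), .ofNat (nat_lit 3409421089055), .negSucc (nat_lit
 11380060631800), .negSucc (nat_lit 50932201289522), .negSucc (nat_lit 47582544492964), .negSucc
 (nat_lit 16887404163024), .negSucc (nat_lit 10939393994105), .negSucc (nat_lit 1850979665831),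
 .negSucc (nat_lit 2209234448833), .negSucc (nat_lit 13441233808690), .negSucc (nat_lit
 33698439721861), .negSucc (nat_lit 9136445978083), .ofNat (nat_lit 4193299067550), .ofNat (nat_lit
 12690381142234), .ofNat (nat_lit 22343504812807), .negSucc (nat_lit 9357058750826), .ofNat
 (nat_lit 3975283847738), .negSucc (nat_lit 18052072023595), .negSucc (nat_lit 24563960425245),
 .negSucc (nat_lit 4196729321602), .ofNat (nat_lit 12216206685674), .negSucc (nat_lit
 5123859854270), .negSucc (nat_lit 15583490559297), .ofNat (nat_lit 3980056323306), .negSucc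
 (nat_lit 1750517808448), .ofNat (nat_lit 6833441197334), .ofNat (nat_lit 1226099099207), .negSucc
 (nat_lit 6786021907364), .negSucc (nat_lit 10888994743991), .ofNat (nat_lit 6960072333220),
 .negSucc (nat_lit 12507507783189), .negSucc (nat_lit 32365857972331), .ofNat (nat_lit
 37389216900782), .negSucc (nat_lit 22104943246954), .ofNat (nat_lit 17575177587300), .ofNat
 (nat_lit 6447104390128), .negSucc (nat_lit 6603144613091), .negSucc (nat_lit 9098330698110),
 .negSucc (nat_lit 8622372667363), .ofNat (nat_lit 29580963230633), .negSucc (nat_lit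
 296357777081), .negSucc (nat_lit 37401096406953), .ofNat (nat_lit 12445927546697), .negSucc
 (nat_lit 6760985640001), .negSucc (nat_lit 8208424172632), .negSucc (nat_lit 4862083152161),
 .ofNat (nat_lit 6386910456675), .ofNat (nat_lit 9145402610569), .negSucc (nat_lit 16820095900515),
 .ofNat (nat_lit 4757470965233), .negSucc (nat_lit 10789749949911), .negSucc (nat_lit
 16711324700125), .ofNat (nat_lit 6622495577608), .ofNat (nat_lit 26067295095580), .ofNat (nat_lit
 359809769695), .negSucc (nat_lit 858446877544), .negSucc (nat_lit 865659095002), .negSucc (nat_lit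
 3736953489568), .ofNat (nat_lit 2421877591006), .negSucc (nat_lit 16646929968356), .ofNat (nat_lit
 40897747230318), .ofNat (nat_lit 6790890418046), .negSucc (nat_lit 5889287526321), .ofNat (nat_lit
 1769056252643), .negSucc (nat_lit 6688314621229), .ofNat (nat_lit 5239840294581), .negSucc
 (nat_lit 32980147200699), .ofNat (nat_lit 50061395280650)]), ((nat_lit 12, nat_lit 3, false),
 [.ofNat (nat_lit 31538939861078999), .ofNat (nat_lit 3848299942134196), .ofNat (nat_lit
 5920109992083880), .negSucc (nat_lit 35861954799923500), .ofNat (nat_lit 5312321977821930),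
 .negSucc (nat_lit 13367133259699), .ofNat (nat_lit 1474022787749), .ofNat (nat_lit
 18309556863217), .negSucc (nat_lit 101854846705843), .ofNat (nat_lit 9984576034130), .negSucc
 (nat_lit 83570943192441), .negSucc (nat_lit 14420871828387), .negSucc (nat_lit 5865887272917),
 .negSucc (nat_lit 2269810820854), .negSucc (nat_lit 20147126360586), .ofNat (nat_lit
 37879296788361), .ofNat (nat_lit 14789023703818), .ofNat (nat_lit 27580300249024), .ofNat (nat_lit
 24706375969262), .negSucc (nat_lit 7652650088254), .negSucc (nat_lit 8094442904651), .ofNat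
 (nat_lit 18223383179368), .negSucc (nat_lit 48478103557899), .negSucc (nat_lit 41651001248706),
 .negSucc (nat_lit 5077498308265), .negSucc (nat_lit 12165149239132), .negSucc (nat_lit
 5089809243022), .negSucc (nat_lit 15813310785360), .ofNat (nat_lit 1051580503821), .negSucc
 (nat_lit 40041648816332), .negSucc (nat_lit 2338169077179), .negSucc (nat_lit 11154896440181),
 .negSucc (nat_lit 13624362989982), .ofNat (nat_lit 2940086238603), .ofNat (nat_lit 3206014611689),
 .negSucc (nat_lit 14254293430561), .ofNat (nat_lit 33936279292245), .ofNat (nat_lit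
 19677840359078), .ofNat (nat_lit 17070623491051), .negSucc (nat_lit 13426717752616), .negSucc
 (nat_lit 14167672841471), .ofNat (nat_lit 4959298561680), .negSucc (nat_lit 9232892671611),
 .negSucc (nat_lit 21966175664298), .ofNat (nat_lit 38814177591303), .negSucc (nat_lit
 12085448762950), .ofNat (nat_lit 18314941231546), .negSucc (nat_lit 25816760738276), .ofNat
 (nat_lit 5246268747215), .negSucc (nat_lit 12208639817268), .ofNat (nat_lit 7396996416904), .ofNat
 (nat_lit 6000484696451), .negSucc (nat_lit 14070854394847), .ofNat (nat_lit 15537345360244),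
 .negSucc (nat_lit 21032872497733), .negSucc (nat_lit 17166860260434), .ofNat (nat_lit
 5215272704334), .ofNat (nat_lit 18743133591321), .ofNat (nat_lit 7089632929302), .negSucc (nat_lit
 5632555915517), .ofNat (nat_lit 7919385869563), .negSucc (nat_lit 3589578510512), .ofNat (nat_lit
 8965150251712), .negSucc (nat_lit 18875037473549), .ofNat (nat_lit 33635578771065), .ofNat
 (nat_lit 28360681101435), .negSucc (nat_lit 9816380507432), .ofNat (nat_lit 13758762972269),
 .negSucc (nat_lit 10855030274918), .ofNat (nat_lit 4032715821755), .negSucc (nat_lit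
 15412717482756), .ofNat (nat_lit 60869799406966), .ofNat (nat_lit 37216461936328)]), ((nat_lit 12,
 nat_lit 4, false), [.negSucc (nat_lit 65723332591250533), .negSucc (nat_lit 46051404877845401),
 .negSucc (nat_lit 31001751572370832), .ofNat (nat_lit 24866566341451874), .negSucc (nat_lit
 16392606205251909), .ofNat (nat_lit 44293188892075), .negSucc (nat_lit 48381367445349), .ofNat
 (nat_lit 40940251411946), .ofNat (nat_lit 142853174174332), .negSucc (nat_lit 11821187554371),
 .ofNat (nat_lit 107755048375948), .ofNat (nat_lit 54939896098545), .negSucc (nat_lit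
 36163417455359), .negSucc (nat_lit 25026215349155), .negSucc (nat_lit 1861293704386), .negSucc
 (nat_lit 15460694266680), .negSucc (nat_lit 69104433943525), .negSucc (nat_lit 22021078612512),
 .ofNat (nat_lit 24278552697207), .negSucc (nat_lit 6720303717000), .negSucc (nat_lit
 24210724693172), .negSucc (nat_lit 9629375743019), .negSucc (nat_lit 23738712992166), .ofNat
 (nat_lit 17004427659264), .negSucc (nat_lit 3133093412134), .negSucc (nat_lit 23515121188387),
 .ofNat (nat_lit 13782586425466), .ofNat (nat_lit 8181096117984), .negSucc (nat_lit 1824348497878),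
 .negSucc (nat_lit 1187599465128), .negSucc (nat_lit 9844498041275), .ofNat (nat_lit
 24576412111859), .ofNat (nat_lit 22731873376875), .ofNat (nat_lit 12407873671594), .ofNat (nat_lit
 2048164222525), .negSucc (nat_lit 21825312452878), .negSucc (nat_lit 30134761167948), .ofNat
 (nat_lit 27919175563970), .ofNat (nat_lit 13035211943196), .negSucc (nat_lit 1250752365129),
 .negSucc (nat_lit 38559830236290), .ofNat (nat_lit 25451007738231), .negSucc (nat_lit
 6282079322319), .negSucc (nat_lit 29707335055378), .negSucc (nat_lit 2318774717141), .ofNat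
 (nat_lit 113836046070074), .negSucc (nat_lit 4908733187509), .negSucc (nat_lit 23163665201494),
 .negSucc (nat_lit 9435625474031), .negSucc (nat_lit 12803323601793), .negSucc (nat_lit
 1771359006164), .ofNat (nat_lit 1103668616766), .negSucc (nat_lit 11482728234190), .ofNat (nat_lit
 1788467839013), .ofNat (nat_lit 24049043203945), .negSucc (nat_lit 13969505751069), .ofNat
 (nat_lit 17909302235472), .negSucc (nat_lit 2445646832817), .negSucc (nat_lit 16659320891785),
 .ofNat (nat_lit 19571596709011), .ofNat (nat_lit 3615763094949), .ofNat (nat_lit 12295578611480),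
 .ofNat (nat_lit 5236688146647), .negSucc (nat_lit 4860750073522), .ofNat (nat_lit 9456208691902),
 .ofNat (nat_lit 8838738396216), .ofNat (nat_lit 48628264723553), .ofNat (nat_lit 1776366003209),
 .ofNat (nat_lit 9573062808055), .negSucc (nat_lit 19731185999720), .ofNat (nat_lit
 16765281922554), .negSucc (nat_lit 10719517333376), .ofNat (nat_lit 35098894990750), .ofNat
 (nat_lit 38179571096227)]), ((nat_lit 12, nat_lit 5, false), [.negSucc (nat_lit
 55688040352924532), .ofNat (nat_lit 12598560801179918), .negSucc (nat_lit 13600797460490876),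
 .ofNat (nat_lit 19621863460543088), .negSucc (nat_lit 12881505380845031), .ofNat (nat_lit
 31933051377879), .negSucc (nat_lit 2074540369861), .ofNat (nat_lit 17274565069471), .ofNat
 (nat_lit 62442256293389), .ofNat (nat_lit 73661987529527), .ofNat (nat_lit 50974270807224), .ofNat
 (nat_lit 46281105783067), .negSucc (nat_lit 1278417526126), .negSucc (nat_lit 17477059066090),
 .ofNat (nat_lit 7140380980524), .negSucc (nat_lit 14943344818712), .negSucc (nat_lit
 45705330089286), .negSucc (nat_lit 14344411136432), .negSucc (nat_lit 15828205123570), .negSucc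
 (nat_lit 6597282917681), .negSucc (nat_lit 17358504500197), .ofNat (nat_lit 18200336091603),
 .ofNat (nat_lit 24460682326330), .negSucc (nat_lit 23392991119754), .negSucc (nat_lit
 3031856304508), .negSucc (nat_lit 36944409522313), .ofNat (nat_lit 1962577610173), .negSucc
 (nat_lit 16771206534355), .negSucc (nat_lit 6295058557060), .negSucc (nat_lit 36364769449875),
 .ofNat (nat_lit 6181140694224), .ofNat (nat_lit 16282603666076), .negSucc (nat_lit
 14329987838898), .ofNat (nat_lit 17357792044701), .ofNat (nat_lit 6856035591619), .negSucc
 (nat_lit 17934184309536), .ofNat (nat_lit 8560046520388), .ofNat (nat_lit 22544283546688),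
 .negSucc (nat_lit 3482630959044), .negSucc (nat_lit 8021635312259), .negSucc (nat_lit
 6641976677980), .negSucc (nat_lit 76049189210), .negSucc (nat_lit 2097747826748), .negSucc
 (nat_lit 2009806124780), .ofNat (nat_lit 21736078370119), .ofNat (nat_lit 17144836877841), .ofNat
 (nat_lit 34985952825150), .negSucc (nat_lit 9949803798427), .ofNat (nat_lit 2327840477200),
 .negSucc (nat_lit 1223958999557), .ofNat (nat_lit 6625713370427), .ofNat (nat_lit 4718250118596),
 .negSucc (nat_lit 6789148660763), .ofNat (nat_lit 16722199967695), .negSucc (nat_lit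
 13771298929615), .negSucc (nat_lit 12579714666193), .ofNat (nat_lit 5493546953756), .ofNat
 (nat_lit 2979666615183), .negSucc (nat_lit 201459254245), .negSucc (nat_lit 205828704053), .ofNat
 (nat_lit 12627543398382), .negSucc (nat_lit 6536617054822), .ofNat (nat_lit 6033712907865),
 .negSucc (nat_lit 1595356454366), .ofNat (nat_lit 12367385883329), .ofNat (nat_lit
 14453075723639), .negSucc (nat_lit 4881150988750), .ofNat (nat_lit 18439182150443), .negSucc
 (nat_lit 11571695870728), .negSucc (nat_lit 307000679779), .negSucc (nat_lit 5541908429064),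
 .ofNat (nat_lit 28549872520645), .ofNat (nat_lit 31576794118828), .ofNat (nat_lit 242437335319),
 .ofNat (nat_lit 12919750391688)]), ((nat_lit 12, nat_lit 6, false), [.negSucc (nat_lit
 5153949165533950), .negSucc (nat_lit 33950210724063628), .negSucc (nat_lit 28916497307629552),
 .ofNat (nat_lit 6037682847502937), .negSucc (nat_lit 6911467678643557), .ofNat (nat_lit
 9565596599032), .negSucc (nat_lit 19974794764720), .ofNat (nat_lit 94448662653008), .ofNat
 (nat_lit 74146864664372), .negSucc (nat_lit 7033084553945), .ofNat (nat_lit 53070752119219),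
 .ofNat (nat_lit 35306225753930), .negSucc (nat_lit 22633806423597), .negSucc (nat_lit
 11638659258710), .ofNat (nat_lit 17732305649942), .negSucc (nat_lit 10270621710602), .negSucc
 (nat_lit 40818668067805), .ofNat (nat_lit 3820296464275), .ofNat (nat_lit 18838016422212), .ofNat
 (nat_lit 3881091564722), .negSucc (nat_lit 4358133819232), .negSucc (nat_lit 19557067449383),
 .ofNat (nat_lit 23640296620323), .negSucc (nat_lit 4887020718616), .ofNat (nat_lit 6868007623733),
 .ofNat (nat_lit 5848585098736), .negSucc (nat_lit 42319335503012), .ofNat (nat_lit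
 26179685427164), .negSucc (nat_lit 374828528800), .ofNat (nat_lit 35121497857744), .ofNat (nat_lit
 3411727523478), .ofNat (nat_lit 17464786193302), .ofNat (nat_lit 8674013923291), .negSucc (nat_lit
 5172323534877), .negSucc (nat_lit 10928209098194), .negSucc (nat_lit 25817698235564), .negSucc
 (nat_lit 16888188915220), .negSucc (nat_lit 2218817723156), .ofNat (nat_lit 13081469572728),
 .ofNat (nat_lit 28874103423916), .negSucc (nat_lit 17809856611072), .negSucc (nat_lit
 393167657185), .negSucc (nat_lit 4020663640047), .ofNat (nat_lit 9140935143121), .negSucc (nat_lit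
 3389232455185), .ofNat (nat_lit 51988087203894), .ofNat (nat_lit 4765843509307), .ofNat (nat_lit
 49219800501093), .negSucc (nat_lit 4234351078488), .negSucc (nat_lit 5774725108816), .negSucc
 (nat_lit 4453776313329), .ofNat (nat_lit 10523583544903), .negSucc (nat_lit 4552457662608),
 .negSucc (nat_lit 7807774621803), .ofNat (nat_lit 14676709146383), .negSucc (nat_lit
 11553140584799), .ofNat (nat_lit 12390015975418), .negSucc (nat_lit 271476911813), .negSucc
 (nat_lit 7425904658895), .ofNat (nat_lit 12974915398129), .negSucc (nat_lit 3130685284859), .ofNat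
 (nat_lit 16245637554479), .ofNat (nat_lit 4112214511914), .ofNat (nat_lit 5928114777978), .ofNat
 (nat_lit 7261854430589), .ofNat (nat_lit 14931909331616), .ofNat (nat_lit 23077039295029),
 .negSucc (nat_lit 3026791856235), .ofNat (nat_lit 16824832372645), .negSucc (nat_lit
 20957239785652), .ofNat (nat_lit 4158042945144), .negSucc (nat_lit 6661730007109), .ofNat (nat_lit
 15856042766953), .ofNat (nat_lit 26325361843967), .ofNat (nat_lit 13153428552980), .ofNat (nat_lit
 10400594850321)]), ((nat_lit 12, nat_lit 8, false), [.ofNat (nat_lit 31380199561795131), .ofNat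
 (nat_lit 32535334710540839), .ofNat (nat_lit 4700911809187980), .negSucc (nat_lit
 50059686213354950), .ofNat (nat_lit 25440360870890790), .negSucc (nat_lit 26128944475224), .ofNat
 (nat_lit 51519982914101), .ofNat (nat_lit 59449318658967), .negSucc (nat_lit 177118271331845),
 .negSucc (nat_lit 47565758434953), .negSucc (nat_lit 147108392362924), .negSucc (nat_lit
 67508775383138), .ofNat (nat_lit 47230200690036), .ofNat (nat_lit 57266138038140), .ofNat (nat_lit
 2646947863925), .ofNat (nat_lit 13987191101629), .ofNat (nat_lit 121795269945597), .ofNat (nat_lit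
 12206581680665), .negSucc (nat_lit 13703742829244), .ofNat (nat_lit 28016283255889), .ofNat
 (nat_lit 1334088815577), .ofNat (nat_lit 24433040497349), .negSucc (nat_lit 21819875453998),
 .negSucc (nat_lit 24040590567294), .negSucc (nat_lit 50227057723439), .ofNat (nat_lit
 18758571278946), .ofNat (nat_lit 740712944409), .negSucc (nat_lit 47468797682905), .negSucc
 (nat_lit 13635996627860), .negSucc (nat_lit 11204615737403), .ofNat (nat_lit 22880800799088),
 .negSucc (nat_lit 16925504462837), .negSucc (nat_lit 3903864978788), .negSucc (nat_lit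
 13036475361242), .negSucc (nat_lit 13364207393436), .ofNat (nat_lit 13900478356637), .negSucc
 (nat_lit 153896110988), .ofNat (nat_lit 13447243737956), .ofNat (nat_lit 16662878423044), .negSucc
 (nat_lit 16646644968644), .ofNat (nat_lit 44628100139531), .negSucc (nat_lit 589449848451), .ofNat
 (nat_lit 1524684033890), .ofNat (nat_lit 11553598760850), .negSucc (nat_lit 168590752530),
 .negSucc (nat_lit 36714338978646), .ofNat (nat_lit 1320813133129), .ofNat (nat_lit
 26692793054347), .ofNat (nat_lit 59536797581723), .ofNat (nat_lit 3238374677062), .negSucc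
 (nat_lit 1451860780547), .negSucc (nat_lit 1480337515929), .ofNat (nat_lit 12004564099642),
 .negSucc (nat_lit 3948333424097), .negSucc (nat_lit 10187182361403), .ofNat (nat_lit
 2441596880214), .negSucc (nat_lit 1791002336832), .ofNat (nat_lit 1554250814248), .ofNat (nat_lit
 2880071541026), .negSucc (nat_lit 3924128143033), .negSucc (nat_lit 76345017690), .negSucc
 (nat_lit 1929621903511), .ofNat (nat_lit 6204611029515), .ofNat (nat_lit 5382275058054), .negSucc
 (nat_lit 3715951831834), .negSucc (nat_lit 169301618895), .negSucc (nat_lit 1300181468270),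
 .negSucc (nat_lit 5092560641825), .negSucc (nat_lit 4836478261701), .ofNat (nat_lit
 13216841631992), .negSucc (nat_lit 3348646055489), .negSucc (nat_lit 691242925297), .negSucc
 (nat_lit 13842640087188), .negSucc (nat_lit 4489144898312), .ofNat (nat_lit 3704087474234), .ofNat
 (nat_lit 5628338740076), .ofNat (nat_lit 11295234272252)]), ((nat_lit 16, nat_lit 1, false),
 [.negSucc (nat_lit 12440329218773358), .ofNat (nat_lit 280298932424361), .ofNat (nat_lit
 2425559788918315), .ofNat (nat_lit 6792247083220016), .ofNat (nat_lit 109567206527824), .ofNat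
 (nat_lit 6745625217068), .ofNat (nat_lit 1599796035421), .negSucc (nat_lit 643895135130), .ofNat
 (nat_lit 23368423280162), .ofNat (nat_lit 2349310867272), .ofNat (nat_lit 14009752540812), .ofNat
 (nat_lit 2489848853155), .ofNat (nat_lit 6466728122036), .ofNat (nat_lit 4355494186924), .negSucc
 (nat_lit 2456698984180), .negSucc (nat_lit 10643609999165), .negSucc (nat_lit 3694775265023),
 .negSucc (nat_lit 7407215301096), .negSucc (nat_lit 5575688024923), .ofNat (nat_lit
 3085671376301), .negSucc (nat_lit 2627919263265), .ofNat (nat_lit 478227261979), .ofNat (nat_lit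
 10046791448482), .ofNat (nat_lit 803224907763), .negSucc (nat_lit 460118327963), .negSucc (nat_lit
 1185125783836), .ofNat (nat_lit 645399665352), .ofNat (nat_lit 1074481434384), .negSucc (nat_lit
 695432003356), .negSucc (nat_lit 2121635255316), .negSucc (nat_lit 74386530944), .ofNat (nat_lit
 1756992077473), .negSucc (nat_lit 880865007365), .negSucc (nat_lit 172656222710), .ofNat (nat_lit
 2489596268265), .negSucc (nat_lit 1630430143035), .ofNat (nat_lit 2647172077664), .ofNat (nat_lit
 2809990495413), .negSucc (nat_lit 410361005045), .negSucc (nat_lit 1098770848656), .ofNat (nat_lit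
 6297472645204), .ofNat (nat_lit 1120276304688), .ofNat (nat_lit 2360331563431), .ofNat (nat_lit
 12250166773498), .negSucc (nat_lit 1231798075018), .negSucc (nat_lit 1121509699164), .negSucc
 (nat_lit 2421806978693), .negSucc (nat_lit 589086308527), .negSucc (nat_lit 242828426083), .ofNat
 (nat_lit 3234631547495), .ofNat (nat_lit 4974318468642), .negSucc (nat_lit 1556643020423), .ofNat
 (nat_lit 834806098645), .negSucc (nat_lit 997565948050), .negSucc (nat_lit 507222924604), .ofNat
 (nat_lit 782229556087), .negSucc (nat_lit 1449286322971), .negSucc (nat_lit 1892151381446), .ofNat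
 (nat_lit 1612998531192), .negSucc (nat_lit 1974320736209), .ofNat (nat_lit 966704519116), .ofNat
 (nat_lit 2205503798112), .negSucc (nat_lit 926679556432), .ofNat (nat_lit 3668038376049), .negSucc
 (nat_lit 1434156396270), .negSucc (nat_lit 680637675765), .negSucc (nat_lit 1218799229255), .ofNat
 (nat_lit 100397438034), .ofNat (nat_lit 1009434569044), .negSucc (nat_lit 497317361086), .ofNat
 (nat_lit 12939515247830), .negSucc (nat_lit 479171955580), .negSucc (nat_lit 1125447369570),
 .negSucc (nat_lit 553123540827), .ofNat (nat_lit 137006430942), .ofNat (nat_lit 113857433524),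
 .negSucc (nat_lit 267900296584), .ofNat (nat_lit 8141976515548)]), ((nat_lit 16, nat_lit 2,
 false), [.negSucc (nat_lit 17822747735620621), .negSucc (nat_lit 6036650024735756), .negSucc
 (nat_lit 3938997205777703), .negSucc (nat_lit 3013791674331199), .negSucc (nat_lit
 4225714390965667), .ofNat (nat_lit 3100383873968), .negSucc (nat_lit 7790814119666), .ofNat
 (nat_lit 10828871396900), .negSucc (nat_lit 7409322332612), .ofNat (nat_lit 15441951467373),
 .ofNat (nat_lit 6697852097832), .ofNat (nat_lit 8024415645424), .negSucc (nat_lit 9992392876792),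
 .negSucc (nat_lit 16264255202915), .ofNat (nat_lit 2479084485570), .ofNat (nat_lit 8251861260863),
 .negSucc (nat_lit 14616131000995), .ofNat (nat_lit 5427648410279), .negSucc (nat_lit
 3759346058877), .negSucc (nat_lit 1239017136755), .negSucc (nat_lit 7682959452853), .negSucc
 (nat_lit 1069875081802), .negSucc (nat_lit 11164388476515), .ofNat (nat_lit 9041043519048),
 .negSucc (nat_lit 319850472283), .negSucc (nat_lit 8707000652101), .ofNat (nat_lit
 11933956516495), .negSucc (nat_lit 10652111901862), .negSucc (nat_lit 5934153862293), .negSucc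
 (nat_lit 1264164588378), .negSucc (nat_lit 5127973097834), .ofNat (nat_lit 10987284186232), .ofNat
 (nat_lit 697925275986), .ofNat (nat_lit 10685303931625), .negSucc (nat_lit 13627961225519),
 .negSucc (nat_lit 18925351816102), .negSucc (nat_lit 12575634306488), .negSucc (nat_lit
 15746763850149), .negSucc (nat_lit 716308837144), .negSucc (nat_lit 3678416375866), .negSucc
 (nat_lit 15744417890698), .negSucc (nat_lit 4394506315664), .negSucc (nat_lit 9026513216792),
 .negSucc (nat_lit 21351418266318), .negSucc (nat_lit 19662372328009), .ofNat (nat_lit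
 35033175771079), .ofNat (nat_lit 4294032337483), .ofNat (nat_lit 3353930442382), .ofNat (nat_lit
 3683519424647), .negSucc (nat_lit 14055995565319), .negSucc (nat_lit 11563424739586), .ofNat
 (nat_lit 10457322658417), .ofNat (nat_lit 8328689398657), .ofNat (nat_lit 815472542440), .negSucc
 (nat_lit 4618458686093), .negSucc (nat_lit 11464226081247), .ofNat (nat_lit 9741131638382), .ofNat
 (nat_lit 3593391260827), .ofNat (nat_lit 3133433066075), .negSucc (nat_lit 5584107118742), .ofNat
 (nat_lit 957811724345), .negSucc (nat_lit 6050348402618), .ofNat (nat_lit 4936448243231), .ofNat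
 (nat_lit 911235914038), .ofNat (nat_lit 12253185335349), .ofNat (nat_lit 7061937165981), .negSucc
 (nat_lit 3745769255336), .ofNat (nat_lit 2641744614467), .negSucc (nat_lit 6412813595317), .ofNat
 (nat_lit 5120877979150), .negSucc (nat_lit 26888026022732), .ofNat (nat_lit 50940456297007),
 .ofNat (nat_lit 3775091358368), .ofNat (nat_lit 1220736329197), .negSucc (nat_lit 317833389658),
 .negSucc (nat_lit 200223645190), .ofNat (nat_lit 1207121312301), .negSucc (nat_lit
 24328154790100), .ofNat (nat_lit 6252834593164)]), ((nat_lit 16, nat_lit 3, false), [.negSucc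
 (nat_lit 62315922340585178), .negSucc (nat_lit 17921032932536516), .ofNat (nat_lit
 27697435816421178), .ofNat (nat_lit 17321380060736951), .negSucc (nat_lit 10781840504855191),
 .ofNat (nat_lit 8610443144716), .negSucc (nat_lit 12190633738926), .ofNat (nat_lit 8586015514825),
 .ofNat (nat_lit 73548278824769), .ofNat (nat_lit 69281190926066), .ofNat (nat_lit 51502051101341),
 .ofNat (nat_lit 28917871495058), .negSucc (nat_lit 8960231088006), .negSucc (nat_lit
 32801156888112), .negSucc (nat_lit 7000218861304), .negSucc (nat_lit 9589880994450), .negSucc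
 (nat_lit 67667641417651), .negSucc (nat_lit 12926600534127), .negSucc (nat_lit 10212024722257),
 .ofNat (nat_lit 1121440400682), .negSucc (nat_lit 16405777835157), .ofNat (nat_lit 2615074071806),
 .ofNat (nat_lit 35599961335410), .ofNat (nat_lit 13761482789840), .negSucc (nat_lit 617431777612),
 .negSucc (nat_lit 13788608220555), .ofNat (nat_lit 12237826421858), .negSucc (nat_lit
 7127432186710), .negSucc (nat_lit 14325110879851), .negSucc (nat_lit 17747764798835), .negSucc
 (nat_lit 9531972179174), .ofNat (nat_lit 26135345293400), .ofNat (nat_lit 1425412838558), .ofNat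
 (nat_lit 25371338433254), .negSucc (nat_lit 1690454116911), .negSucc (nat_lit 6087074031224),
 .ofNat (nat_lit 537667516955), .negSucc (nat_lit 13003128336589), .negSucc (nat_lit
 2225691421431), .negSucc (nat_lit 15146027011228), .negSucc (nat_lit 4214000595109), .negSucc
 (nat_lit 2163258702031), .ofNat (nat_lit 1585970857429), .ofNat (nat_lit 17925264572519), .negSucc
 (nat_lit 40811577443971), .ofNat (nat_lit 44557442260381), .negSucc (nat_lit 3271340711881),
 .ofNat (nat_lit 7332533151929), .ofNat (nat_lit 10346713691844), .negSucc (nat_lit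
 25140136005306), .ofNat (nat_lit 1574814725482), .ofNat (nat_lit 11732054836193), .ofNat (nat_lit
 9595312857128), .ofNat (nat_lit 6781764839015), .negSucc (nat_lit 11733493773050), .negSucc
 (nat_lit 19256704023797), .ofNat (nat_lit 1068246056844), .negSucc (nat_lit 332168201936), .ofNat
 (nat_lit 467330043052), .negSucc (nat_lit 8005869202002), .ofNat (nat_lit 5887152099488), .negSucc
 (nat_lit 10892106253128), .ofNat (nat_lit 8763608209663), .negSucc (nat_lit 5445272288848), .ofNat
 (nat_lit 7549201748941), .ofNat (nat_lit 13209237703882), .negSucc (nat_lit 9647825075205), .ofNat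
 (nat_lit 7255713425795), .negSucc (nat_lit 16026469555614), .ofNat (nat_lit 4917474354481),
 .negSucc (nat_lit 24934920630299), .ofNat (nat_lit 57231714309003), .ofNat (nat_lit
 30456079225604), .negSucc (nat_lit 5715484657204), .ofNat (nat_lit 4537904175704), .ofNat (nat_lit
 8345425166779), .ofNat (nat_lit 5626928625170), .negSucc (nat_lit 11006104700705), .ofNat (nat_lit
 6468754636884), .ofNat (nat_lit 22412909014972)]), ((nat_lit 16, nat_lit 4, false), [.ofNat
 (nat_lit 39949497150451500), .ofNat (nat_lit 26480530793300254), .negSucc (nat_lit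
 10240044183496571), .negSucc (nat_lit 8359909808950696), .ofNat (nat_lit 6870946931294196),
 .negSucc (nat_lit 2808788232774), .ofNat (nat_lit 12075563597196), .negSucc (nat_lit
 14954899722446), .negSucc (nat_lit 36014726482437), .negSucc (nat_lit 17407303973567), .negSucc
 (nat_lit 43425475154930), .negSucc (nat_lit 13242894614091), .ofNat (nat_lit 20810248738627),
 .ofNat (nat_lit 25965149996923), .ofNat (nat_lit 558696041734), .ofNat (nat_lit 3718121614789),
 .ofNat (nat_lit 30919362945785), .ofNat (nat_lit 12128037612520), .ofNat (nat_lit 7116434011507),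
 .ofNat (nat_lit 6637286927133), .negSucc (nat_lit 10478610199945), .ofNat (nat_lit
 23748082901480), .negSucc (nat_lit 16520168724555), .ofNat (nat_lit 1129811577120), .negSucc
 (nat_lit 19858787241315), .negSucc (nat_lit 8779375607550), .negSucc (nat_lit 578391431838),
 .negSucc (nat_lit 13849472565072), .negSucc (nat_lit 20133366172563), .negSucc (nat_lit
 13585385546374), .negSucc (nat_lit 3705329063245), .negSucc (nat_lit 663370864069), .negSucc
 (nat_lit 182351987835), .negSucc (nat_lit 7927603719053), .ofNat (nat_lit 9226406621031), .ofNat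
 (nat_lit 13291533375765), .negSucc (nat_lit 25834427312949), .ofNat (nat_lit 23840849268305),
 .negSucc (nat_lit 7826291240489), .ofNat (nat_lit 2108285161993), .ofNat (nat_lit 750966412959),
 .ofNat (nat_lit 5282917970341), .ofNat (nat_lit 4573779579278), .negSucc (nat_lit 13293599182131),
 .ofNat (nat_lit 20798291755559), .negSucc (nat_lit 58889177505192), .ofNat (nat_lit
 15099705934585), .negSucc (nat_lit 31542150672563), .ofNat (nat_lit 7152771501699), .ofNat
 (nat_lit 3078279843511), .negSucc (nat_lit 5268549302575), .ofNat (nat_lit 3054701249929),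
 .negSucc (nat_lit 25298850314000), .negSucc (nat_lit 6342228418276), .ofNat (nat_lit
 2706840222436), .negSucc (nat_lit 9550947420875), .negSucc (nat_lit 3403471919603), .ofNat
 (nat_lit 14742917360997), .negSucc (nat_lit 9399511269665), .negSucc (nat_lit 2600189279819),
 .negSucc (nat_lit 6348473100335), .ofNat (nat_lit 10013229714247), .negSucc (nat_lit
 2597353261453), .negSucc (nat_lit 10939601859886), .ofNat (nat_lit 16205033065944), .negSucc
 (nat_lit 3839743687803), .ofNat (nat_lit 14271431834297), .negSucc (nat_lit 5770679783335), .ofNat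
 (nat_lit 4292525973246), .negSucc (nat_lit 18450548718856), .ofNat (nat_lit 693021403974),
 .negSucc (nat_lit 14791494004440), .ofNat (nat_lit 23860653075671), .ofNat (nat_lit
 31364160674116), .ofNat (nat_lit 4722231996327), .ofNat (nat_lit 8606436617575), .ofNat (nat_lit
 3762960193728), .ofNat (nat_lit 15429217555468), .negSucc (nat_lit 5993820064546), .ofNat (nat_lit
 22431173213373), .ofNat (nat_lit 2787184005309)]), ((nat_lit 16, nat_lit 5, false), [.negSucc
 (nat_lit 5387062092410532), .negSucc (nat_lit 21500321061738565), .ofNat (nat_lit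
 36035037483316211), .negSucc (nat_lit 211132666148942), .ofNat (nat_lit 6375826199270010),
 .negSucc (nat_lit 2088394575520), .ofNat (nat_lit 10197732608282), .ofNat (nat_lit
 36611954913341), .ofNat (nat_lit 20588631949734), .ofNat (nat_lit 2281079796561), .negSucc
 (nat_lit 2819028034530), .negSucc (nat_lit 14441880883964), .ofNat (nat_lit 14941652842493),
 .ofNat (nat_lit 17599227804711), .negSucc (nat_lit 13736053210375), .ofNat (nat_lit 781050151060),
 .negSucc (nat_lit 4966620987819), .ofNat (nat_lit 1699290883563), .negSucc (nat_lit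
 5526068599878), .ofNat (nat_lit 14512489031450), .negSucc (nat_lit 19234165493880), .ofNat
 (nat_lit 4840133995247), .ofNat (nat_lit 11202787295647), .negSucc (nat_lit 373199045279), .ofNat
 (nat_lit 1953264891868), .ofNat (nat_lit 4882637192201), .ofNat (nat_lit 1788464371065), .ofNat
 (nat_lit 2132793824418), .negSucc (nat_lit 9730361687935), .negSucc (nat_lit 18991135887227),
 .negSucc (nat_lit 2450630632052), .ofNat (nat_lit 9666256479992), .negSucc (nat_lit
 5259993758212), .ofNat (nat_lit 937832138950), .ofNat (nat_lit 4585701410817), .negSucc (nat_lit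
 2686899799457), .ofNat (nat_lit 164518059088), .ofNat (nat_lit 11253945765913), .ofNat (nat_lit
 1276625276721), .negSucc (nat_lit 24639763903159), .ofNat (nat_lit 9028130082237), .ofNat (nat_lit
 518102645961), .ofNat (nat_lit 832379941533), .negSucc (nat_lit 398919275662), .negSucc (nat_lit
 20846704984599), .ofNat (nat_lit 12001752017851), .negSucc (nat_lit 19994517905019), .ofNat
 (nat_lit 1444955882868), .ofNat (nat_lit 4466746509947), .negSucc (nat_lit 11144810147769), .ofNat
 (nat_lit 2975879356073), .ofNat (nat_lit 4457844079149), .ofNat (nat_lit 961682076777), .ofNat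
 (nat_lit 7146835854222), .negSucc (nat_lit 8881045914063), .negSucc (nat_lit 12347156956252),
 .ofNat (nat_lit 633912440942), .negSucc (nat_lit 2426742640989), .ofNat (nat_lit 51218102732),
 .negSucc (nat_lit 3906582506006), .ofNat (nat_lit 6535133967477), .negSucc (nat_lit
 6354395378387), .ofNat (nat_lit 2736564637873), .negSucc (nat_lit 656398901748), .ofNat (nat_lit
 1392810581387), .ofNat (nat_lit 7926138216926), .negSucc (nat_lit 2366213166134), .ofNat (nat_lit
 7723925796796), .negSucc (nat_lit 15299374611496), .ofNat (nat_lit 1472554491969), .negSucc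
 (nat_lit 3148696034360), .ofNat (nat_lit 22542132143785), .ofNat (nat_lit 26150390311201),
 .negSucc (nat_lit 4833183235734), .ofNat (nat_lit 11704490480328), .ofNat (nat_lit 5127294138107),
 .ofNat (nat_lit 2283080434402), .negSucc (nat_lit 804948253182), .ofNat (nat_lit 1748818507305),
 .ofNat (nat_lit 24619778374671), .ofNat (nat_lit 39337812445), .ofNat (nat_lit 13885153736729)]),
 ((nat_lit 16, nat_lit 6, false), [.ofNat (nat_lit 671555286345032), .ofNat (nat_lit
 31314838823891342), .negSucc (nat_lit 18699859348453027), .negSucc (nat_lit 13864803201806174),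
 .ofNat (nat_lit 3950959061203615), .negSucc (nat_lit 2513866012101), .negSucc (nat_lit
 711744955069), .negSucc (nat_lit 48800491903683), .negSucc (nat_lit 59476764317417), .negSucc
 (nat_lit 22495076012431), .negSucc (nat_lit 52698137272055), .negSucc (nat_lit 7393265028334),
 .ofNat (nat_lit 12662503465748), .ofNat (nat_lit 16263006536463), .negSucc (nat_lit
 13925485187610), .ofNat (nat_lit 5795162214980), .ofNat (nat_lit 25977731073656), .ofNat (nat_lit
 11363802927699), .ofNat (nat_lit 6963769487799), .negSucc (nat_lit 3466339386267), .negSucc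
 (nat_lit 5367436011378), .ofNat (nat_lit 25099558183736), .negSucc (nat_lit 38627518313293),
 .ofNat (nat_lit 5322233090880), .negSucc (nat_lit 23619504885573), .negSucc (nat_lit
 18783853770195), .ofNat (nat_lit 7824659972323), .negSucc (nat_lit 21727446195104), .negSucc
 (nat_lit 12835008868419), .negSucc (nat_lit 21252157949974), .negSucc (nat_lit 6962133286425),
 .negSucc (nat_lit 527317995783), .ofNat (nat_lit 2317001870186), .negSucc (nat_lit 4063285155872),
 .ofNat (nat_lit 12568923449732), .ofNat (nat_lit 16897837464480), .negSucc (nat_lit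
 17065428975154), .ofNat (nat_lit 18808134365590), .negSucc (nat_lit 6552362363220), .ofNat
 (nat_lit 1272926066118), .negSucc (nat_lit 15426328366376), .ofNat (nat_lit 9155159306217), .ofNat
 (nat_lit 2643635160480), .negSucc (nat_lit 15053360372095), .ofNat (nat_lit 9527945390180),
 .negSucc (nat_lit 32092044270619), .ofNat (nat_lit 21566891530176), .negSucc (nat_lit
 52843646615840), .ofNat (nat_lit 12560686519359), .negSucc (nat_lit 809171293122), .negSucc
 (nat_lit 8053887746914), .ofNat (nat_lit 1088314135450), .negSucc (nat_lit 15340427037273),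
 .negSucc (nat_lit 6960260730203), .ofNat (nat_lit 436819278942), .negSucc (nat_lit 4734468352735),
 .negSucc (nat_lit 3010863700827), .ofNat (nat_lit 10081684922791), .negSucc (nat_lit
 968238833630), .negSucc (nat_lit 6645533563386), .negSucc (nat_lit 7486019349909), .ofNat (nat_lit
 9095570136758), .negSucc (nat_lit 48413775950), .negSucc (nat_lit 9321917612574), .ofNat (nat_lit
 11643933915541), .ofNat (nat_lit 4894817215431), .ofNat (nat_lit 9446758392201), .negSucc (nat_lit
 5090178981135), .ofNat (nat_lit 8958178793166), .negSucc (nat_lit 19273182840215), .ofNat (nat_lit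
 7631471456638), .negSucc (nat_lit 10816260741067), .ofNat (nat_lit 23613595705508), .ofNat
 (nat_lit 23940225146624), .ofNat (nat_lit 1057264736018), .ofNat (nat_lit 6446281415838), .negSucc
 (nat_lit 7314858672770), .ofNat (nat_lit 8863163335100), .negSucc (nat_lit 4492352367978), .ofNat
 (nat_lit 18017086113825), .ofNat (nat_lit 2468389846639), .ofNat (nat_lit 9926280529141), .ofNat
 (nat_lit 6687841180749)]), ((nat_lit 16, nat_lit 8, false), [.negSucc (nat_lit 4630637816158151),
 .negSucc (nat_lit 10913644637795606), .ofNat (nat_lit 7816600805223913), .ofNat (nat_lit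
 13975853297283304), .negSucc (nat_lit 6644322111684828), .ofNat (nat_lit 3945471603595), .negSucc
 (nat_lit 7845763414334), .negSucc (nat_lit 8334099019849), .ofNat (nat_lit 44800989746293), .ofNat
 (nat_lit 20819191024672), .ofNat (nat_lit 40934665513552), .ofNat (nat_lit 13632150398936),
 .negSucc (nat_lit 13080034555777), .negSucc (nat_lit 16474286680307), .ofNat (nat_lit
 5047090512121), .ofNat (nat_lit 1541052246666), .negSucc (nat_lit 31553075915363), .negSucc
 (nat_lit 4872409327091), .ofNat (nat_lit 4766874118771), .negSucc (nat_lit 6163112452769),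
 .negSucc (nat_lit 393111865018), .negSucc (nat_lit 6546153549723), .ofNat (nat_lit
 15162010348284), .negSucc (nat_lit 2034225956871), .ofNat (nat_lit 15041954945062), .negSucc
 (nat_lit 1068796260410), .ofNat (nat_lit 4010669688), .ofNat (nat_lit 8058030521968), .ofNat
 (nat_lit 1765099979490), .ofNat (nat_lit 1284189118913), .negSucc (nat_lit 3453257117933), .ofNat
 (nat_lit 5672550328398), .ofNat (nat_lit 492263228248), .ofNat (nat_lit 3417769110579), .ofNat
 (nat_lit 1993027957859), .negSucc (nat_lit 3271343898701), .negSucc (nat_lit 54102063205),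
 .negSucc (nat_lit 1005064259441), .negSucc (nat_lit 4234678170977), .negSucc (nat_lit
 1470558753122), .negSucc (nat_lit 4368658636747), .negSucc (nat_lit 1796248224324), .negSucc
 (nat_lit 579033912682), .ofNat (nat_lit 2458370302620), .negSucc (nat_lit 3891014053239), .ofNat
 (nat_lit 8487507328777), .negSucc (nat_lit 1554226580106), .ofNat (nat_lit 5084190661857),
 .negSucc (nat_lit 13999486370805), .negSucc (nat_lit 2218469855854), .ofNat (nat_lit
 2326092900244), .negSucc (nat_lit 2169491478077), .negSucc (nat_lit 3036187776608), .ofNat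
 (nat_lit 4090319639098), .ofNat (nat_lit 3767122396030), .negSucc (nat_lit 3182713086450), .ofNat
 (nat_lit 1788147482884), .negSucc (nat_lit 1823929291724), .negSucc (nat_lit 2745271085837),
 .ofNat (nat_lit 3815974613363), .ofNat (nat_lit 1142715549215), .negSucc (nat_lit 3042729329375),
 .negSucc (nat_lit 3729894887948), .negSucc (nat_lit 2682610672931), .negSucc (nat_lit
 642462155106), .negSucc (nat_lit 2630858347624), .ofNat (nat_lit 3858102297196), .ofNat (nat_lit
 1212164085717), .negSucc (nat_lit 4179521449337), .ofNat (nat_lit 1453052257957), .ofNat (nat_lit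
 277125104437), .ofNat (nat_lit 1146807440696), .ofNat (nat_lit 1189747983869), .negSucc (nat_lit
 1367552437251), .negSucc (nat_lit 7169784705038), .negSucc (nat_lit 3639686095883), .ofNat
 (nat_lit 2634121170673), .negSucc (nat_lit 558295940101), .ofNat (nat_lit 455877282171), .negSucc
 (nat_lit 6538760093364), .negSucc (nat_lit 380355807198), .negSucc (nat_lit 3934412134530), .ofNat
 (nat_lit 6648692055784), .ofNat (nat_lit 785518941154)])]

/-- the commands -/
noncomputable def C5 : List Cmd := [.m (nat_lit 1) (nat_lit 13595822178870984370701402260784685023128986358642578125000000000000000) B5]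

theorem c_ok5 : okL 7 ES C5 = true := by decide +kernel

end Pool.Agent.H5.HT.D7
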