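import Pool.Agent.H5.HT.D7.D

/-! # Certificate data (7 jets, exponent 129/125) -/

set_option autoImplicit false

namespace Pool.Agent.H5.HT.D7

open Pool.Agent.H58.BJ
open Pool.Agent.H5.HT

/-- small squares -/
noncomputable def C6 : List Cmd := [.m (nat_lit 1) (nat_lit
 281019105243608577542168821135238992593028448855586638155280110536502894023441164185171200000000)
 [((nat_lit 1, nat_lit 1, false), [.ofNat (nat_lit 1)]), ((nat_lit 3, nat_lit 1, false), [.negSucc
 (nat_lit 0)])], .m (nat_lit 1) (nat_lit
 1057120037249910321997943103141960376950032770790144963294477830054670509347897459194400000000000)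
 [((nat_lit 1, nat_lit 1, false), [.ofNat (nat_lit 1)]), ((nat_lit 5, nat_lit 1, false), [.negSucc
 (nat_lit 0)])], .m (nat_lit 1) (nat_lit
 1835390794982169848481093235444647712677997375560501434563353514767800977935651413694000000000000)
 [((nat_lit 1, nat_lit 1, false), [.ofNat (nat_lit 1)]), ((nat_lit 7, nat_lit 1, false), [.negSucc
 (nat_lit 0)])], .m (nat_lit 1) (nat_lit
 419689895366307223617898737526032901830345167300750425574702619467326603780401286917000000000000)
 [((nat_lit 1, nat_lit 1, false), [.ofNat (nat_lit 1)]), ((nat_lit 9, nat_lit 1, false), [.negSucc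
 (nat_lit 0)])], .m (nat_lit 1) (nat_lit
 1509927868256358139915416649008814852543643586985243838836230521904007851003322596750000000000000)
 [((nat_lit 1, nat_lit 1, false), [.ofNat (nat_lit 1)]), ((nat_lit 11, nat_lit 1, false), [.negSucc
 (nat_lit 0)])], .m (nat_lit 1) (nat_lit
 1167838014359918028214263012505747631221872721616514772722455323978411190106680112750000000000000)
 [((nat_lit 1, nat_lit 1, false), [.ofNat (nat_lit 1)]), ((nat_lit 15, nat_lit 1, false), [.negSucc
 (nat_lit 0)])], .m (nat_lit 1) (nat_lit
 366399663879947819703685368234507512001209708019217014587948636819634214765246500000000000000000)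
 [((nat_lit 1, nat_lit 1, false), [.ofNat (nat_lit 1)]), ((nat_lit 13, nat_lit 1, false), [.negSucc
 (nat_lit 0)])], .m (nat_lit 1) (nat_lit
 696269621861104085131313254606957010225374584007182420257871107344284149873147250000000000000000)
 [((nat_lit 1, nat_lit 1, false), [.ofNat (nat_lit 1)]), ((nat_lit 21, nat_lit 1, false), [.negSucc
 (nat_lit 0)])], .m (nat_lit 1) (nat_lit
 451755916467584714061612122024494854102726571378859394422691171560777436367216593750000000000000)
 [((nat_lit 1, nat_lit 1, false), [.ofNat (nat_lit 1)]), ((nat_lit 25, nat_lit 1, false), [.negSucc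
 (nat_lit 0)])], .m (nat_lit 1) (nat_lit
 54874577779276062904586275596279452359979498645453133257713494159100986282767812500000000000000)
 [((nat_lit 1, nat_lit 1, false), [.ofNat (nat_lit 1)]), ((nat_lit 27, nat_lit 1, false), [.negSucc
 (nat_lit 0)])], .m (nat_lit 1) (nat_lit
 121442072841284140822170258341976436530766337239447746838016287821133664476312500000000000000000)
 [((nat_lit 1, nat_lit 1, false), [.ofNat (nat_lit 1)]), ((nat_lit 17, nat_lit 1, false), [.ofNat
 (nat_lit 1)])], .m (nat_lit 1) (nat_lit
 142966455641825918851448464838109712467652072448831303700133037197626125871328125000000000000000)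
 [((nat_lit 1, nat_lit 1, false), [.ofNat (nat_lit 1)]), ((nat_lit 33, nat_lit 1, false), [.negSucc
 (nat_lit 0)])], .m (nat_lit 1) (nat_lit
 228353538969005046200632294105501711636427239444921058690723141375905315773046875000000000000000)
 [((nat_lit 1, nat_lit 1, false), [.ofNat (nat_lit 1)]), ((nat_lit 35, nat_lit 1, false), [.negSucc
 (nat_lit 0)])], .m (nat_lit 1) (nat_lit
 57241565607099474050091213966778333219504968812137781715982128711461004423539062500000000000000)
 [((nat_lit 1, nat_lit 1, false), [.ofNat (nat_lit 1)]), ((nat_lit 45, nat_lit 1, false), [.negSucc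
 (nat_lit 0)])], .m (nat_lit 1) (nat_lit
 3803966622119095246566753303365787277666797103894772331280993406167982913697260579250000000000000)
 [((nat_lit 3, nat_lit 1, false), [.ofNat (nat_lit 1)]), ((nat_lit 5, nat_lit 1, false), [.negSucc
 (nat_lit 0)])], .m (nat_lit 1) (nat_lit
 4404953618752434487479203110380210575334118712454868380368665512966913828386382687500000000000000)
 [((nat_lit 3, nat_lit 1, false), [.ofNat (nat_lit 1)]), ((nat_lit 7, nat_lit 1, false), [.negSucc
 (nat_lit 0)])], .m (nat_lit 1) (nat_lit
 1010144662820934194887068316975878481495248364531141843823638831226717025102509531250000000000000)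
 [((nat_lit 3, nat_lit 1, false), [.ofNat (nat_lit 1)]), ((nat_lit 9, nat_lit 1, false), [.negSucc
 (nat_lit 0)])], .m (nat_lit 1) (nat_lit
 2569174266251281666966562184537947329119748710654745006078473947754162832341843750000000000000000)
 [((nat_lit 3, nat_lit 1, false), [.ofNat (nat_lit 1)]), ((nat_lit 11, nat_lit 1, false), [.negSucc
 (nat_lit 0)])], .m (nat_lit 1) (nat_lit
 2010662758318327415444544546734612401415283299718954745798528152352258822129851562500000000000000)
 [((nat_lit 3, nat_lit 1, false), [.ofNat (nat_lit 1)]), ((nat_lit 15, nat_lit 1, false), [.negSucc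
 (nat_lit 0)])], .m (nat_lit 1) (nat_lit
 438587673255822088568735557729648314020084178417999249174534912439104541565917968750000000000000)
 [((nat_lit 3, nat_lit 1, false), [.ofNat (nat_lit 1)]), ((nat_lit 13, nat_lit 1, false), [.negSucc
 (nat_lit 0)])], .m (nat_lit 1) (nat_lit
 898769913998432284420164567777529223910900332334847792064747741763260475479003906250000000000000)
 [((nat_lit 3, nat_lit 1, false), [.ofNat (nat_lit 1)]), ((nat_lit 21, nat_lit 1, false), [.negSucc
 (nat_lit 0)])], .m (nat_lit 1) (nat_lit
 583668144788891865063094544908492908416528850204693041107979236250367683384765625000000000000000)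
 [((nat_lit 3, nat_lit 1, false), [.ofNat (nat_lit 1)]), ((nat_lit 25, nat_lit 1, false), [.negSucc
 (nat_lit 0)])], .m (nat_lit 1) (nat_lit
 70996856394589719852192103714064649827840797175168590481253148931825656081054687500000000000000)
 [((nat_lit 3, nat_lit 1, false), [.ofNat (nat_lit 1)]), ((nat_lit 27, nat_lit 1, false), [.negSucc
 (nat_lit 0)])], .m (nat_lit 1) (nat_lit
 137345845738746110127838919277487823099549573903466054759368310550142119628906250000000000000000)
 [((nat_lit 3, nat_lit 1, false), [.ofNat (nat_lit 1)]), ((nat_lit 17, nat_lit 1, false), [.ofNat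
 (nat_lit 1)])], .m (nat_lit 1) (nat_lit
 142820527896088274720569433138269348067812894177392921002748069425256277587890625000000000000000)
 [((nat_lit 3, nat_lit 1, false), [.ofNat (nat_lit 1)]), ((nat_lit 33, nat_lit 1, false), [.negSucc
 (nat_lit 0)])], .m (nat_lit 1) (nat_lit
 229190237279910810948238431533062727648116378022745526583031875685514945312500000000000000000000)
 [((nat_lit 3, nat_lit 1, false), [.ofNat (nat_lit 1)]), ((nat_lit 35, nat_lit 1, false), [.negSucc
 (nat_lit 0)])], .m (nat_lit 1) (nat_lit
 57628775153320432117436693756784065619922296302246913754684409920745400512695312500000000000000)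
 [((nat_lit 3, nat_lit 1, false), [.ofNat (nat_lit 1)]), ((nat_lit 45, nat_lit 1, false), [.negSucc
 (nat_lit 0)])], .m (nat_lit 1) (nat_lit
 7128134126677896802059268196083043344520182386547096643051099328346272206270171875000000000000000)
 [((nat_lit 5, nat_lit 1, false), [.ofNat (nat_lit 1)]), ((nat_lit 7, nat_lit 1, false), [.negSucc
 (nat_lit 0)])], .m (nat_lit 1) (nat_lit
 1636790748203600866509000354981758325687198970823787265937005359151019390562562500000000000000000)
 [((nat_lit 5, nat_lit 1, false), [.ofNat (nat_lit 1)]), ((nat_lit 9, nat_lit 1, false), [.negSucc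
 (nat_lit 0)])], .m (nat_lit 1) (nat_lit
 3616650509372862127626204875531134970254454825992567895427763787262271227874511718750000000000000)
 [((nat_lit 5, nat_lit 1, false), [.ofNat (nat_lit 1)]), ((nat_lit 11, nat_lit 1, false), [.negSucc
 (nat_lit 0)])], .m (nat_lit 1) (nat_lit
 2850218804070368660169018372816315175123925782740270562950106476816699036281250000000000000000000)
 [((nat_lit 5, nat_lit 1, false), [.ofNat (nat_lit 1)]), ((nat_lit 15, nat_lit 1, false), [.negSucc
 (nat_lit 0)])], .m (nat_lit 1) (nat_lit
 524064854213975979342289827176270523866825994829999822978647885559103060668945312500000000000000)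
 [((nat_lit 5, nat_lit 1, false), [.ofNat (nat_lit 1)]), ((nat_lit 13, nat_lit 1, false), [.negSucc
 (nat_lit 0)])], .m (nat_lit 1) (nat_lit
 1131056678871002218418978052927225128592305738229271310877192633774895706909179687500000000000000)
 [((nat_lit 5, nat_lit 1, false), [.ofNat (nat_lit 1)]), ((nat_lit 21, nat_lit 1, false), [.negSucc
 (nat_lit 0)])], .m (nat_lit 1) (nat_lit
 734965676474487466309027433814905186907063514150151837149889816531361752929687500000000000000000)
 [((nat_lit 5, nat_lit 1, false), [.ofNat (nat_lit 1)]), ((nat_lit 25, nat_lit 1, false), [.negSucc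
 (nat_lit 0)])], .m (nat_lit 1) (nat_lit
 89465912688107480043485638655651820171633153085686504059102915799233002441406250000000000000000)
 [((nat_lit 5, nat_lit 1, false), [.ofNat (nat_lit 1)]), ((nat_lit 27, nat_lit 1, false), [.negSucc
 (nat_lit 0)])], .m (nat_lit 1) (nat_lit
 167271141605739212464637603203995967214751556357073345057454303587950424194335937500000000000000)
 [((nat_lit 5, nat_lit 1, false), [.ofNat (nat_lit 1)]), ((nat_lit 17, nat_lit 1, false), [.ofNat
 (nat_lit 1)])], .m (nat_lit 1) (nat_lit
 160991695128084514584141525934813818377648205613536452934305864560831558227539062500000000000000)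
 [((nat_lit 5, nat_lit 1, false), [.ofNat (nat_lit 1)]), ((nat_lit 33, nat_lit 1, false), [.negSucc
 (nat_lit 0)])], .m (nat_lit 1) (nat_lit
 259259480390304298440273287861865106497033039024112716965549867936618041992187500000000000000000)
 [((nat_lit 5, nat_lit 1, false), [.ofNat (nat_lit 1)]), ((nat_lit 35, nat_lit 1, false), [.negSucc
 (nat_lit 0)])], .m (nat_lit 1) (nat_lit
 65310481230233321948037296728898686605796728937731115864209150518968322753906250000000000000000)
 [((nat_lit 5, nat_lit 1, false), [.ofNat (nat_lit 1)]), ((nat_lit 45, nat_lit 1, false), [.negSucc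
 (nat_lit 0)])], .m (nat_lit 1) (nat_lit
 1418733189251195784582119543874920872052904344180506768058703502009289732597167968750000000000000)
 [((nat_lit 7, nat_lit 1, false), [.ofNat (nat_lit 1)]), ((nat_lit 9, nat_lit 1, false), [.negSucc
 (nat_lit 0)])], .m (nat_lit 1) (nat_lit
 2753230000585102126305183423842246326630502245113961297187137331366440797729492187500000000000000)
 [((nat_lit 7, nat_lit 1, false), [.ofNat (nat_lit 1)]), ((nat_lit 11, nat_lit 1, false), [.negSucc
 (nat_lit 0)])], .m (nat_lit 1) (nat_lit
 2191527327305916339439220793943883232141521847476464516212065866100876415893554687500000000000000)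
 [((nat_lit 7, nat_lit 1, false), [.ofNat (nat_lit 1)]), ((nat_lit 15, nat_lit 1, false), [.negSucc
 (nat_lit 0)])], .m (nat_lit 1) (nat_lit
 334117386407450705381319014651301690476180137235276747937969941627099639892578125000000000000000)
 [((nat_lit 7, nat_lit 1, false), [.ofNat (nat_lit 1)]), ((nat_lit 13, nat_lit 1, false), [.negSucc
 (nat_lit 0)])], .m (nat_lit 1) (nat_lit
 779476443460104281977757283195177701695112072624447133625345942846951507568359375000000000000000)
 [((nat_lit 7, nat_lit 1, false), [.ofNat (nat_lit 1)]), ((nat_lit 21, nat_lit 1, false), [.negSucc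
 (nat_lit 0)])], .m (nat_lit 1) (nat_lit
 507157924165019148380286748687167332137517615763152700921533785103817230224609375000000000000000)
 [((nat_lit 7, nat_lit 1, false), [.ofNat (nat_lit 1)]), ((nat_lit 25, nat_lit 1, false), [.negSucc
 (nat_lit 0)])], .m (nat_lit 1) (nat_lit
 61859167641803115674339134731163509165320172909560424478845738883955261230468750000000000000000)
 [((nat_lit 7, nat_lit 1, false), [.ofNat (nat_lit 1)]), ((nat_lit 27, nat_lit 1, false), [.negSucc
 (nat_lit 0)])], .m (nat_lit 1) (nat_lit
 115070481721957407970683056564797564374083652443673268743982882928478240966796875000000000000000)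
 [((nat_lit 7, nat_lit 1, false), [.ofNat (nat_lit 1)]), ((nat_lit 17, nat_lit 1, false), [.ofNat
 (nat_lit 1)])], .m (nat_lit 1) (nat_lit
 99771647119074704341335698525352016436418981141994306528208155556007385253906250000000000000000)
 [((nat_lit 7, nat_lit 1, false), [.ofNat (nat_lit 1)]), ((nat_lit 33, nat_lit 1, false), [.negSucc
 (nat_lit 0)])], .m (nat_lit 1) (nat_lit
 161763189941780994207310371080605979427333458596273726850512673235774993896484375000000000000000)
 [((nat_lit 7, nat_lit 1, false), [.ofNat (nat_lit 1)]), ((nat_lit 35, nat_lit 1, false), [.negSucc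
 (nat_lit 0)])], .m (nat_lit 1) (nat_lit
 40936644282312421092223139467566384849484379243208509500878869941177368164062500000000000000000)
 [((nat_lit 7, nat_lit 1, false), [.ofNat (nat_lit 1)]), ((nat_lit 45, nat_lit 1, false), [.negSucc
 (nat_lit 0)])], .m (nat_lit 1) (nat_lit
 636622954338832063464628211041583822618546078740276314298791165889991545532226562500000000000000)
 [((nat_lit 9, nat_lit 1, false), [.ofNat (nat_lit 1)]), ((nat_lit 11, nat_lit 1, false), [.negSucc
 (nat_lit 0)])], .m (nat_lit 1) (nat_lit
 506368122173159904507680594621049702707505405130850802308926667397188905151367187500000000000000)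
 [((nat_lit 9, nat_lit 1, false), [.ofNat (nat_lit 1)]), ((nat_lit 15, nat_lit 1, false), [.negSucc
 (nat_lit 0)])], .m (nat_lit 1) (nat_lit
 79822896566095834819360448392249029985470291692856299955628245212064605712890625000000000000000)
 [((nat_lit 9, nat_lit 1, false), [.ofNat (nat_lit 1)]), ((nat_lit 13, nat_lit 1, false), [.negSucc
 (nat_lit 0)])], .m (nat_lit 1) (nat_lit
 180857037756433934052998445032434837808019963499491253109790012444771560668945312500000000000000)
 [((nat_lit 9, nat_lit 1, false), [.ofNat (nat_lit 1)]), ((nat_lit 21, nat_lit 1, false), [.negSucc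
 (nat_lit 0)])], .m (nat_lit 1) (nat_lit
 117605175321055509508887685572267108934849605842657473729925524271166198730468750000000000000000)
 [((nat_lit 9, nat_lit 1, false), [.ofNat (nat_lit 1)]), ((nat_lit 25, nat_lit 1, false), [.negSucc
 (nat_lit 0)])], .m (nat_lit 1) (nat_lit
 14343163365314691409303167594901020683718034557242262843210791766490554809570312500000000000000)
 [((nat_lit 9, nat_lit 1, false), [.ofNat (nat_lit 1)]), ((nat_lit 27, nat_lit 1, false), [.negSucc
 (nat_lit 0)])], .m (nat_lit 1) (nat_lit
 25525805168277331507706560660214792980605270442830933283836796481037139892578125000000000000000)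
 [((nat_lit 9, nat_lit 1, false), [.ofNat (nat_lit 1)]), ((nat_lit 17, nat_lit 1, false), [.ofNat
 (nat_lit 1)])], .m (nat_lit 1) (nat_lit
 23366137100874959493275957723506441144562065727343130240466144811962127685546875000000000000000)
 [((nat_lit 9, nat_lit 1, false), [.ofNat (nat_lit 1)]), ((nat_lit 33, nat_lit 1, false), [.negSucc
 (nat_lit 0)])], .m (nat_lit 1) (nat_lit
 37717023613049900655805942864841081450791476402599933988541101874992370605468750000000000000000)
 [((nat_lit 9, nat_lit 1, false), [.ofNat (nat_lit 1)]), ((nat_lit 35, nat_lit 1, false), [.negSucc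
 (nat_lit 0)])], .m (nat_lit 1) (nat_lit
 9532066282431626197699253424727677214035635288563966671290105673683166503906250000000000000000)
 [((nat_lit 9, nat_lit 1, false), [.ofNat (nat_lit 1)]), ((nat_lit 45, nat_lit 1, false), [.negSucc
 (nat_lit 0)])], .m (nat_lit 1) (nat_lit
 877551009221620305959339587530152190927650671432592634210117976323197509765625000000000000000000)
 [((nat_lit 11, nat_lit 1, false), [.ofNat (nat_lit 1)]), ((nat_lit 15, nat_lit 1, false),
 [.negSucc (nat_lit 0)])], .m (nat_lit 1) (nat_lit
 101620618536608019012596075420313191371496535504138193644066895298416137695312500000000000000000)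
 [((nat_lit 11, nat_lit 1, false), [.ofNat (nat_lit 1)]), ((nat_lit 13, nat_lit 1, false),
 [.negSucc (nat_lit 0)])], .m (nat_lit 1) (nat_lit
 279649977106712342619570570891267733637314522066084905198507986027038574218750000000000000000000)
 [((nat_lit 11, nat_lit 1, false), [.ofNat (nat_lit 1)]), ((nat_lit 21, nat_lit 1, false),
 [.negSucc (nat_lit 0)])], .m (nat_lit 1) (nat_lit
 182655122894161015405561510264349176762684555581574740951125597084041595458984375000000000000000)
 [((nat_lit 11, nat_lit 1, false), [.ofNat (nat_lit 1)]), ((nat_lit 25, nat_lit 1, false),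
 [.negSucc (nat_lit 0)])], .m (nat_lit 1) (nat_lit
 22443062046121833603839622301572056086045020852953199058038262122829437255859375000000000000000)
 [((nat_lit 11, nat_lit 1, false), [.ofNat (nat_lit 1)]), ((nat_lit 27, nat_lit 1, false),
 [.negSucc (nat_lit 0)])], .m (nat_lit 1) (nat_lit
 44006937525032382290609237356719240656750849555822154544981465667724609375000000000000000000000)
 [((nat_lit 11, nat_lit 1, false), [.ofNat (nat_lit 1)]), ((nat_lit 17, nat_lit 1, false), [.ofNat
 (nat_lit 1)])], .m (nat_lit 1) (nat_lit
 31721467571960880680117310738257963085430846627784342378362906200885772705078125000000000000000)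
 [((nat_lit 11, nat_lit 1, false), [.ofNat (nat_lit 1)]), ((nat_lit 33, nat_lit 1, false),
 [.negSucc (nat_lit 0)])], .m (nat_lit 1) (nat_lit
 52416292925212852213500178190151975639440081851896964168155774835109710693359375000000000000000)
 [((nat_lit 11, nat_lit 1, false), [.ofNat (nat_lit 1)]), ((nat_lit 35, nat_lit 1, false),
 [.negSucc (nat_lit 0)])], .m (nat_lit 1) (nat_lit
 13475976477838267101617535056627494917351359904334728579213425171613693237304687500000000000000)
 [((nat_lit 11, nat_lit 1, false), [.ofNat (nat_lit 1)]), ((nat_lit 45, nat_lit 1, false),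
 [.negSucc (nat_lit 0)])], .m (nat_lit 1) (nat_lit
 93243551275314968001109523142306529945497998118148051140913177041450500488281250000000000000000)
 [((nat_lit 15, nat_lit 1, false), [.ofNat (nat_lit 1)]), ((nat_lit 13, nat_lit 1, false),
 [.negSucc (nat_lit 0)])], .m (nat_lit 1) (nat_lit
 228798594503884632915134413453341210375832340609436038017519417348815917968750000000000000000000)
 [((nat_lit 15, nat_lit 1, false), [.ofNat (nat_lit 1)]), ((nat_lit 21, nat_lit 1, false),
 [.negSucc (nat_lit 0)])], .m (nat_lit 1) (nat_lit
 148908445039816987369887945906971702807155887581390521780228910217761993408203125000000000000000)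
 [((nat_lit 15, nat_lit 1, false), [.ofNat (nat_lit 1)]), ((nat_lit 25, nat_lit 1, false),
 [.negSucc (nat_lit 0)])], .m (nat_lit 1) (nat_lit
 18183525789108050965810321238536598350353301548381153279188235204723358154296875000000000000000)
 [((nat_lit 15, nat_lit 1, false), [.ofNat (nat_lit 1)]), ((nat_lit 27, nat_lit 1, false),
 [.negSucc (nat_lit 0)])], .m (nat_lit 1) (nat_lit
 32147548327577011920881989199531816029879227067109180080345344711542129516601562500000000000000)
 [((nat_lit 15, nat_lit 1, false), [.ofNat (nat_lit 1)]), ((nat_lit 17, nat_lit 1, false), [.ofNat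
 (nat_lit 1)])], .m (nat_lit 1) (nat_lit
 26954382380811057778559437946942261326959981629312286572113414597034454345703125000000000000000)
 [((nat_lit 15, nat_lit 1, false), [.ofNat (nat_lit 1)]), ((nat_lit 33, nat_lit 1, false),
 [.negSucc (nat_lit 0)])], .m (nat_lit 1) (nat_lit
 43698068975265542786706157713141694316680983303435723622424912245273590087890625000000000000000)
 [((nat_lit 15, nat_lit 1, false), [.ofNat (nat_lit 1)]), ((nat_lit 35, nat_lit 1, false),
 [.negSucc (nat_lit 0)])], .m (nat_lit 1) (nat_lit
 11073413830684585804524333713354198327922545288634496773230691003084182739257812500000000000000)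
 [((nat_lit 15, nat_lit 1, false), [.ofNat (nat_lit 1)]), ((nat_lit 45, nat_lit 1, false),
 [.negSucc (nat_lit 0)])], .m (nat_lit 1) (nat_lit
 23988815093472000656535808373131569272854235090384566208088723201751708984375000000000000000000)
 [((nat_lit 13, nat_lit 1, false), [.ofNat (nat_lit 1)]), ((nat_lit 21, nat_lit 1, false),
 [.negSucc (nat_lit 0)])], .m (nat_lit 1) (nat_lit
 16201628256165608652108126280541032639619485642077417521345078909635543823242187500000000000000)
 [((nat_lit 13, nat_lit 1, false), [.ofNat (nat_lit 1)]), ((nat_lit 25, nat_lit 1, false),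
 [.negSucc (nat_lit 0)])], .m (nat_lit 1) (nat_lit
 2128018068381144546228091484223873936058189142597145504640500835657119750976562500000000000000)
 [((nat_lit 13, nat_lit 1, false), [.ofNat (nat_lit 1)]), ((nat_lit 27, nat_lit 1, false),
 [.negSucc (nat_lit 0)])], .m (nat_lit 1) (nat_lit
 6284301256034342530213838404135606484138353856493321502591070652008056640625000000000000000000)
 [((nat_lit 13, nat_lit 1, false), [.ofNat (nat_lit 1)]), ((nat_lit 17, nat_lit 1, false), [.ofNat
 (nat_lit 1)])], .m (nat_lit 1) (nat_lit
 1754987185307370034500646897315144104000858104268888958912448942661285400390625000000000000000)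
 [((nat_lit 13, nat_lit 1, false), [.ofNat (nat_lit 1)]), ((nat_lit 33, nat_lit 1, false),
 [.negSucc (nat_lit 0)])], .m (nat_lit 1) (nat_lit
 3567266046008428006272868411706874319181181424859210486362759292125701904296875000000000000000)
 [((nat_lit 13, nat_lit 1, false), [.ofNat (nat_lit 1)]), ((nat_lit 35, nat_lit 1, false),
 [.negSucc (nat_lit 0)])], .m (nat_lit 1) (nat_lit
 1077518708808392224508527763826996923818684996802081051135523080825805664062500000000000000000)
 [((nat_lit 13, nat_lit 1, false), [.ofNat (nat_lit 1)]), ((nat_lit 45, nat_lit 1, false),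
 [.negSucc (nat_lit 0)])], .m (nat_lit 1) (nat_lit
 44173430629984062360649362860571002543463406349851389541202714983701705932617187500000000000000)
 [((nat_lit 21, nat_lit 1, false), [.ofNat (nat_lit 1)]), ((nat_lit 25, nat_lit 1, false),
 [.negSucc (nat_lit 0)])], .m (nat_lit 1) (nat_lit
 5404928975293955837197815580689957481144419114095358102958042009830474853515625000000000000000)
 [((nat_lit 21, nat_lit 1, false), [.ofNat (nat_lit 1)]), ((nat_lit 27, nat_lit 1, false),
 [.negSucc (nat_lit 0)])], .m (nat_lit 1) (nat_lit
 9894364965436070212820350879664120898381902523162355324814119935035705566406250000000000000000)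
 [((nat_lit 21, nat_lit 1, false), [.ofNat (nat_lit 1)]), ((nat_lit 17, nat_lit 1, false), [.ofNat
 (nat_lit 1)])], .m (nat_lit 1) (nat_lit
 7295969683086866389714005389571400537256275596717805698905260264873504638671875000000000000000)
 [((nat_lit 21, nat_lit 1, false), [.ofNat (nat_lit 1)]), ((nat_lit 33, nat_lit 1, false),
 [.negSucc (nat_lit 0)])], .m (nat_lit 1) (nat_lit
 11917617056381082359104603964554297294232424530689957404479894459247589111328125000000000000000)
 [((nat_lit 21, nat_lit 1, false), [.ofNat (nat_lit 1)]), ((nat_lit 35, nat_lit 1, false),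
 [.negSucc (nat_lit 0)])], .m (nat_lit 1) (nat_lit
 3033617444147843176173724980081110385817187535446234293122114539146423339843750000000000000000)
 [((nat_lit 21, nat_lit 1, false), [.ofNat (nat_lit 1)]), ((nat_lit 45, nat_lit 1, false),
 [.negSucc (nat_lit 0)])], .m (nat_lit 1) (nat_lit
 3520443911050832957967740947957142033473617982571026419183042135953903198242187500000000000000)
 [((nat_lit 25, nat_lit 1, false), [.ofNat (nat_lit 1)]), ((nat_lit 27, nat_lit 1, false),
 [.negSucc (nat_lit 0)])], .m (nat_lit 1) (nat_lit
 6265900560525401287775182156117770184094327439381834971992370545864105224609375000000000000000)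
 [((nat_lit 25, nat_lit 1, false), [.ofNat (nat_lit 1)]), ((nat_lit 17, nat_lit 1, false), [.ofNat
 (nat_lit 1)])], .m (nat_lit 1) (nat_lit
 4773165292648314256136456730446999535579360947077183488069308817386627197265625000000000000000)
 [((nat_lit 25, nat_lit 1, false), [.ofNat (nat_lit 1)]), ((nat_lit 33, nat_lit 1, false),
 [.negSucc (nat_lit 0)])], .m (nat_lit 1) (nat_lit
 7779456982954638059318017193891784299935969946504940600363881707191467285156250000000000000000)
 [((nat_lit 25, nat_lit 1, false), [.ofNat (nat_lit 1)]), ((nat_lit 35, nat_lit 1, false),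
 [.negSucc (nat_lit 0)])], .m (nat_lit 1) (nat_lit
 1978235711608388612446336467264391432469823523900737949084322154521942138671875000000000000000)
 [((nat_lit 25, nat_lit 1, false), [.ofNat (nat_lit 1)]), ((nat_lit 45, nat_lit 1, false),
 [.negSucc (nat_lit 0)])], .m (nat_lit 1) (nat_lit
 716731093010862386566528256522884532283942144108978391882760345935821533203125000000000000000)
 [((nat_lit 27, nat_lit 1, false), [.ofNat (nat_lit 1)]), ((nat_lit 17, nat_lit 1, false), [.ofNat
 (nat_lit 1)])], .m (nat_lit 1) (nat_lit
 587162232013324051064740055513023886294965619193088022897441327571868896484375000000000000000)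
 [((nat_lit 27, nat_lit 1, false), [.ofNat (nat_lit 1)]), ((nat_lit 33, nat_lit 1, false),
 [.negSucc (nat_lit 0)])], .m (nat_lit 1) (nat_lit
 953950840553920689172395870524106481431080885568805027336786031723022460937500000000000000000)
 [((nat_lit 27, nat_lit 1, false), [.ofNat (nat_lit 1)]), ((nat_lit 35, nat_lit 1, false),
 [.negSucc (nat_lit 0)])], .m (nat_lit 1) (nat_lit
 242890958532507375614921013286044095071678423508877934225856125354766845703125000000000000000)
 [((nat_lit 27, nat_lit 1, false), [.ofNat (nat_lit 1)]), ((nat_lit 45, nat_lit 1, false),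
 [.negSucc (nat_lit 0)])], .m (nat_lit 1) (nat_lit
 1219467618065890720353666495319452610108849457006851718696773052215576171875000000000000000000)
 [((nat_lit 17, nat_lit 1, false), [.ofNat (nat_lit 1)]), ((nat_lit 33, nat_lit 1, false), [.ofNat
 (nat_lit 1)])], .m (nat_lit 1) (nat_lit
 1794462136793129878911097368941922191226411151932766202422700822353363037109375000000000000000)
 [((nat_lit 17, nat_lit 1, false), [.ofNat (nat_lit 1)]), ((nat_lit 35, nat_lit 1, false), [.ofNat
 (nat_lit 1)])], .m (nat_lit 1) (nat_lit
 404566769907140980621580969969476144873887692197512335363119840621948242187500000000000000000)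
 [((nat_lit 17, nat_lit 1, false), [.ofNat (nat_lit 1)]), ((nat_lit 45, nat_lit 1, false), [.ofNat
 (nat_lit 1)])], .m (nat_lit 1) (nat_lit
 1181428759715152319447715467503948284620327450698465012256436049938201904296875000000000000000)
 [((nat_lit 33, nat_lit 1, false), [.ofNat (nat_lit 1)]), ((nat_lit 35, nat_lit 1, false),
 [.negSucc (nat_lit 0)])], .m (nat_lit 1) (nat_lit
 304334523021417950436067812206543871979820435647204203294649720191955566406250000000000000000)
 [((nat_lit 33, nat_lit 1, false), [.ofNat (nat_lit 1)]), ((nat_lit 45, nat_lit 1, false),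
 [.negSucc (nat_lit 0)])], .m (nat_lit 1) (nat_lit
 496957946584779603713495727954861864624054334517824379532255232334136962890625000000000000000)
 [((nat_lit 35, nat_lit 1, false), [.ofNat (nat_lit 1)]), ((nat_lit 45, nat_lit 1, false),
 [.negSucc (nat_lit 0)])], .m (nat_lit 1) (nat_lit
 885279907217803866441384827287591689548107936791911662205470672827288980144559345914548828800000000)
 [((nat_lit 3, nat_lit 1, false), [.ofNat (nat_lit 1)])], .m (nat_lit 1) (nat_lit
 873183705814855624633936629810899213237515142428458354840731087762521993620729190180305600000000000)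
 [((nat_lit 5, nat_lit 1, false), [.ofNat (nat_lit 1)])], .m (nat_lit 1) (nat_lit
 875599269047149939135861534324221052184089272871319486896028126987109750873817461992556000000000000)
 [((nat_lit 7, nat_lit 1, false), [.ofNat (nat_lit 1)])], .m (nat_lit 1) (nat_lit
 897153341209760139639472800110163777456394224439810147832145765258603534565940757150583000000000000)
 [((nat_lit 9, nat_lit 1, false), [.ofNat (nat_lit 1)])], .m (nat_lit 1) (nat_lit
 889825572015730723523910611629283100003665193453467769952181745841898429013951220372000000000000000)
 [((nat_lit 11, nat_lit 1, false), [.ofNat (nat_lit 1)])], .m (nat_lit 1) (nat_lit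
 892684525160787224134805635330900197033420112927319898482080969301277721819402140199750000000000000)
 [((nat_lit 15, nat_lit 1, false), [.ofNat (nat_lit 1)])], .m (nat_lit 1) (nat_lit
 901605216193762245668743946617211879997725989065649376285329962025425944529435437093750000000000000)
 [((nat_lit 13, nat_lit 1, false), [.ofNat (nat_lit 1)])], .m (nat_lit 1) (nat_lit
 899229014422945820898945172166337877252300018956758549401357974773356054723891012906250000000000000)
 [((nat_lit 21, nat_lit 1, false), [.ofNat (nat_lit 1)])], .m (nat_lit 1) (nat_lit
 900757183512090764063833818368396012006456748127864240622607241701733258141966767781250000000000000)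
 [((nat_lit 25, nat_lit 1, false), [.ofNat (nat_lit 1)])], .m (nat_lit 1) (nat_lit
 903251221674343715143972293801820023118766960930077542817732161432800420845307075937500000000000000)
 [((nat_lit 27, nat_lit 1, false), [.ofNat (nat_lit 1)])], .m (nat_lit 1) (nat_lit
 902927355286673742328949185648471981632649702021015885907042361321318092746168218750000000000000000)
 [((nat_lit 17, nat_lit 1, false), [.ofNat (nat_lit 1)])], .m (nat_lit 1) (nat_lit
 902950954437323401923079694172346680847589427318332379335013889732195779751692148437500000000000000)
 [((nat_lit 33, nat_lit 1, false), [.ofNat (nat_lit 1)])], .m (nat_lit 1) (nat_lit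
 902555340656241305040293578053626563658311540122743796940206997756439923275291406250000000000000000)
 [((nat_lit 35, nat_lit 1, false), [.ofNat (nat_lit 1)])], .m (nat_lit 1) (nat_lit
 903334509169598873351923531575228405520131255427224203088342673565183915909516890625000000000000000)
 [((nat_lit 45, nat_lit 1, false), [.ofNat (nat_lit 1)])]]

theorem c_ok6 : okL 7 ES C6 = true := by decide +kernel

end Pool.Agent.H5.HT.D7
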