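import Pool.Agent.H5.HT.D7.D

/-! # Certificate data (7 jets, exponent 129/125) -/

set_option autoImplicit false

namespace Pool.Agent.H5.HT.D7

open Pool.Agent.H58.BJ
open Pool.Agent.H5.HT

/-- the multiplier of weight 0 -/
noncomputable def H0 : HD where
  m := nat_lit 0
  J := nat_lit 7
  W := nat_lit 56017922180294485963906974306619742213866390877950860769332591205652575939893722534179687500000000
  A := nat_lit 47707693535946956597848478328532166911643506307564040303948677048087120056152343750000000000000000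
  Y := [(.ofNat (nat_lit 1000), [])]
  YP := [(nat_lit 1, .ofNat (nat_lit 1000))]
  P := [[[(.ofNat (nat_lit 1000), [])], [(.negSucc (nat_lit 999), [nat_lit 0])], [(.negSucc (nat_lit
 999), [nat_lit 1]), (.ofNat (nat_lit 1000), [nat_lit 0, nat_lit 0])], [(.negSucc (nat_lit 1999),
 [nat_lit 2]), (.ofNat (nat_lit 3000), [nat_lit 0, nat_lit 1]), (.negSucc (nat_lit 999), [nat_lit
 0, nat_lit 0, nat_lit 0])], [(.negSucc (nat_lit 5999), [nat_lit 3]), (.ofNat (nat_lit 3000),
 [nat_lit 1, nat_lit 1]), (.ofNat (nat_lit 8000), [nat_lit 0, nat_lit 2]), (.negSucc (nat_lit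
 5999), [nat_lit 0, nat_lit 0, nat_lit 1]), (.ofNat (nat_lit 1000), [nat_lit 0, nat_lit 0, nat_lit
 0, nat_lit 0])], [(.negSucc (nat_lit 23999), [nat_lit 4]), (.ofNat (nat_lit 30000), [nat_lit 0,
 nat_lit 3]), (.ofNat (nat_lit 20000), [nat_lit 1, nat_lit 2]), (.negSucc (nat_lit 14999), [nat_lit
 0, nat_lit 1, nat_lit 1]), (.negSucc (nat_lit 19999), [nat_lit 0, nat_lit 0, nat_lit 2]), (.ofNat
 (nat_lit 10000), [nat_lit 0, nat_lit 0, nat_lit 0, nat_lit 1]), (.negSucc (nat_lit 999), [nat_lit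
 0, nat_lit 0, nat_lit 0, nat_lit 0, nat_lit 0])], [(.negSucc (nat_lit 119999), [nat_lit 5]),
 (.ofNat (nat_lit 90000), [nat_lit 1, nat_lit 3]), (.ofNat (nat_lit 144000), [nat_lit 0, nat_lit
 4]), (.ofNat (nat_lit 40000), [nat_lit 2, nat_lit 2]), (.negSucc (nat_lit 14999), [nat_lit 1,
 nat_lit 1, nat_lit 1]), (.negSucc (nat_lit 89999), [nat_lit 0, nat_lit 0, nat_lit 3]), (.negSucc
 (nat_lit 119999), [nat_lit 0, nat_lit 1, nat_lit 2]), (.ofNat (nat_lit 45000), [nat_lit 0, nat_lit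
 0, nat_lit 1, nat_lit 1]), (.ofNat (nat_lit 40000), [nat_lit 0, nat_lit 0, nat_lit 0, nat_lit 2]),
 (.negSucc (nat_lit 14999), [nat_lit 0, nat_lit 0, nat_lit 0, nat_lit 0, nat_lit 1]), (.ofNat
 (nat_lit 1000), [nat_lit 0, nat_lit 0, nat_lit 0, nat_lit 0, nat_lit 0, nat_lit 0])], [(.negSucc
 (nat_lit 719999), [nat_lit 6]), (.ofNat (nat_lit 840000), [nat_lit 0, nat_lit 5]), (.ofNat
 (nat_lit 504000), [nat_lit 1, nat_lit 4]), (.ofNat (nat_lit 420000), [nat_lit 2, nat_lit 3]),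
 (.negSucc (nat_lit 629999), [nat_lit 0, nat_lit 1, nat_lit 3]), (.negSucc (nat_lit 503999),
 [nat_lit 0, nat_lit 0, nat_lit 4]), (.negSucc (nat_lit 209999), [nat_lit 1, nat_lit 1, nat_lit
 2]), (.negSucc (nat_lit 279999), [nat_lit 0, nat_lit 2, nat_lit 2]), (.ofNat (nat_lit 105000),
 [nat_lit 0, nat_lit 1, nat_lit 1, nat_lit 1]), (.ofNat (nat_lit 210000), [nat_lit 0, nat_lit 0,
 nat_lit 0, nat_lit 3]), (.ofNat (nat_lit 420000), [nat_lit 0, nat_lit 0, nat_lit 1, nat_lit 2]),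
 (.negSucc (nat_lit 104999), [nat_lit 0, nat_lit 0, nat_lit 0, nat_lit 1, nat_lit 1]), (.negSucc
 (nat_lit 69999), [nat_lit 0, nat_lit 0, nat_lit 0, nat_lit 0, nat_lit 2]), (.ofNat (nat_lit
 21000), [nat_lit 0, nat_lit 0, nat_lit 0, nat_lit 0, nat_lit 0, nat_lit 1]), (.negSucc (nat_lit
 999), [nat_lit 0, nat_lit 0, nat_lit 0, nat_lit 0, nat_lit 0, nat_lit 0, nat_lit 0])]], [[(.ofNat
 (nat_lit 63000), [nat_lit 0])], [(.ofNat (nat_lit 63000), [nat_lit 1]), (.negSucc (nat_lit 62999),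
 [nat_lit 0, nat_lit 0])], [(.ofNat (nat_lit 126000), [nat_lit 2]), (.negSucc (nat_lit 188999),
 [nat_lit 0, nat_lit 1]), (.ofNat (nat_lit 63000), [nat_lit 0, nat_lit 0, nat_lit 0])], [(.ofNat
 (nat_lit 378000), [nat_lit 3]), (.negSucc (nat_lit 188999), [nat_lit 1, nat_lit 1]), (.negSucc
 (nat_lit 503999), [nat_lit 0, nat_lit 2]), (.ofNat (nat_lit 378000), [nat_lit 0, nat_lit 0,
 nat_lit 1]), (.negSucc (nat_lit 62999), [nat_lit 0, nat_lit 0, nat_lit 0, nat_lit 0])], [(.ofNat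
 (nat_lit 1512000), [nat_lit 4]), (.negSucc (nat_lit 1889999), [nat_lit 0, nat_lit 3]), (.negSucc
 (nat_lit 1259999), [nat_lit 1, nat_lit 2]), (.ofNat (nat_lit 945000), [nat_lit 0, nat_lit 1,
 nat_lit 1]), (.ofNat (nat_lit 1260000), [nat_lit 0, nat_lit 0, nat_lit 2]), (.negSucc (nat_lit
 629999), [nat_lit 0, nat_lit 0, nat_lit 0, nat_lit 1]), (.ofNat (nat_lit 63000), [nat_lit 0,
 nat_lit 0, nat_lit 0, nat_lit 0, nat_lit 0])], [(.ofNat (nat_lit 7560000), [nat_lit 5]), (.negSucc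
 (nat_lit 5669999), [nat_lit 1, nat_lit 3]), (.negSucc (nat_lit 9071999), [nat_lit 0, nat_lit 4]),
 (.negSucc (nat_lit 2519999), [nat_lit 2, nat_lit 2]), (.ofNat (nat_lit 945000), [nat_lit 1,
 nat_lit 1, nat_lit 1]), (.ofNat (nat_lit 5670000), [nat_lit 0, nat_lit 0, nat_lit 3]), (.ofNat
 (nat_lit 7560000), [nat_lit 0, nat_lit 1, nat_lit 2]), (.negSucc (nat_lit 2834999), [nat_lit 0,
 nat_lit 0, nat_lit 1, nat_lit 1]), (.negSucc (nat_lit 2519999), [nat_lit 0, nat_lit 0, nat_lit 0,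
 nat_lit 2]), (.ofNat (nat_lit 945000), [nat_lit 0, nat_lit 0, nat_lit 0, nat_lit 0, nat_lit 1]),
 (.negSucc (nat_lit 62999), [nat_lit 0, nat_lit 0, nat_lit 0, nat_lit 0, nat_lit 0, nat_lit 0])],
 [(.ofNat (nat_lit 45360000), [nat_lit 6]), (.negSucc (nat_lit 52919999), [nat_lit 0, nat_lit 5]),
 (.negSucc (nat_lit 31751999), [nat_lit 1, nat_lit 4]), (.negSucc (nat_lit 26459999), [nat_lit 2,
 nat_lit 3]), (.ofNat (nat_lit 39690000), [nat_lit 0, nat_lit 1, nat_lit 3]), (.ofNat (nat_lit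
 31752000), [nat_lit 0, nat_lit 0, nat_lit 4]), (.ofNat (nat_lit 13230000), [nat_lit 1, nat_lit 1,
 nat_lit 2]), (.ofNat (nat_lit 17640000), [nat_lit 0, nat_lit 2, nat_lit 2]), (.negSucc (nat_lit
 6614999), [nat_lit 0, nat_lit 1, nat_lit 1, nat_lit 1]), (.negSucc (nat_lit 13229999), [nat_lit 0,
 nat_lit 0, nat_lit 0, nat_lit 3]), (.negSucc (nat_lit 26459999), [nat_lit 0, nat_lit 0, nat_lit 1,
 nat_lit 2]), (.ofNat (nat_lit 6615000), [nat_lit 0, nat_lit 0, nat_lit 0, nat_lit 1, nat_lit 1]),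
 (.ofNat (nat_lit 4410000), [nat_lit 0, nat_lit 0, nat_lit 0, nat_lit 0, nat_lit 2]), (.negSucc
 (nat_lit 1322999), [nat_lit 0, nat_lit 0, nat_lit 0, nat_lit 0, nat_lit 0, nat_lit 1]), (.ofNat
 (nat_lit 63000), [nat_lit 0, nat_lit 0, nat_lit 0, nat_lit 0, nat_lit 0, nat_lit 0, nat_lit 0])]],
 [[(.ofNat (nat_lit 191500), [nat_lit 1]), (.ofNat (nat_lit 140125), [nat_lit 0, nat_lit 0])],
 [(.ofNat (nat_lit 383000), [nat_lit 2]), (.ofNat (nat_lit 88750), [nat_lit 0, nat_lit 1]),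
 (.negSucc (nat_lit 140124), [nat_lit 0, nat_lit 0, nat_lit 0])], [(.ofNat (nat_lit 1149000),
 [nat_lit 3]), (.ofNat (nat_lit 88750), [nat_lit 1, nat_lit 1]), (.negSucc (nat_lit 205499),
 [nat_lit 0, nat_lit 2]), (.negSucc (nat_lit 509124), [nat_lit 0, nat_lit 0, nat_lit 1]), (.ofNat
 (nat_lit 140125), [nat_lit 0, nat_lit 0, nat_lit 0, nat_lit 0])], [(.ofNat (nat_lit 4596000),
 [nat_lit 4]), (.negSucc (nat_lit 1765499), [nat_lit 0, nat_lit 3]), (.ofNat (nat_lit 149500),
 [nat_lit 1, nat_lit 2]), (.negSucc (nat_lit 1106999), [nat_lit 0, nat_lit 1, nat_lit 1]),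
 (.negSucc (nat_lit 812749), [nat_lit 0, nat_lit 0, nat_lit 2]), (.ofNat (nat_lit 1069625),
 [nat_lit 0, nat_lit 0, nat_lit 0, nat_lit 1]), (.negSucc (nat_lit 140124), [nat_lit 0, nat_lit 0,
 nat_lit 0, nat_lit 0, nat_lit 0])], [(.ofNat (nat_lit 22980000), [nat_lit 5]), (.negSucc (nat_lit
 1316999), [nat_lit 1, nat_lit 3]), (.negSucc (nat_lit 11657999), [nat_lit 0, nat_lit 4]), (.ofNat
 (nat_lit 299000), [nat_lit 2, nat_lit 2]), (.negSucc (nat_lit 1106999), [nat_lit 1, nat_lit 1,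
 nat_lit 1]), (.negSucc (nat_lit 672749), [nat_lit 0, nat_lit 0, nat_lit 3]), (.negSucc (nat_lit
 6202999), [nat_lit 0, nat_lit 1, nat_lit 2]), (.ofNat (nat_lit 4315875), [nat_lit 0, nat_lit 0,
 nat_lit 1, nat_lit 1]), (.ofNat (nat_lit 2952000), [nat_lit 0, nat_lit 0, nat_lit 0, nat_lit 2]),
 (.negSucc (nat_lit 1770249), [nat_lit 0, nat_lit 0, nat_lit 0, nat_lit 0, nat_lit 1]), (.ofNat
 (nat_lit 140125), [nat_lit 0, nat_lit 0, nat_lit 0, nat_lit 0, nat_lit 0, nat_lit 0])], [(.ofNat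
 (nat_lit 137880000), [nat_lit 6]), (.negSucc (nat_lit 81269999), [nat_lit 0, nat_lit 5]),
 (.negSucc (nat_lit 16925999), [nat_lit 1, nat_lit 4]), (.negSucc (nat_lit 839999), [nat_lit 2,
 nat_lit 3]), (.negSucc (nat_lit 18637499), [nat_lit 0, nat_lit 1, nat_lit 3]), (.ofNat (nat_lit
 8967000), [nat_lit 0, nat_lit 0, nat_lit 4]), (.negSucc (nat_lit 12844999), [nat_lit 1, nat_lit 1,
 nat_lit 2]), (.negSucc (nat_lit 12704999), [nat_lit 0, nat_lit 2, nat_lit 2]), (.ofNat (nat_lit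
 9738750), [nat_lit 0, nat_lit 1, nat_lit 1, nat_lit 1]), (.ofNat (nat_lit 9528750), [nat_lit 0,
 nat_lit 0, nat_lit 0, nat_lit 3]), (.ofNat (nat_lit 32322500), [nat_lit 0, nat_lit 0, nat_lit 1,
 nat_lit 2]), (.negSucc (nat_lit 11396874), [nat_lit 0, nat_lit 0, nat_lit 0, nat_lit 1, nat_lit
 1]), (.negSucc (nat_lit 6492499), [nat_lit 0, nat_lit 0, nat_lit 0, nat_lit 0, nat_lit 2]),
 (.ofNat (nat_lit 2611000), [nat_lit 0, nat_lit 0, nat_lit 0, nat_lit 0, nat_lit 0, nat_lit 1]),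
 (.negSucc (nat_lit 140124), [nat_lit 0, nat_lit 0, nat_lit 0, nat_lit 0, nat_lit 0, nat_lit 0,
 nat_lit 0])]], [[(.ofNat (nat_lit 17735391250), [nat_lit 2]), (.ofNat (nat_lit 36106640625),
 [nat_lit 0, nat_lit 1]), (.negSucc (nat_lit 3812944374), [nat_lit 0, nat_lit 0, nat_lit 0])],
 [(.ofNat (nat_lit 53206173750), [nat_lit 3]), (.ofNat (nat_lit 36106640625), [nat_lit 1, nat_lit
 1]), (.ofNat (nat_lit 54477890000), [nat_lit 0, nat_lit 2]), (.negSucc (nat_lit 47545473749),
 [nat_lit 0, nat_lit 0, nat_lit 1]), (.ofNat (nat_lit 3812944375), [nat_lit 0, nat_lit 0, nat_lit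
 0, nat_lit 0])], [(.ofNat (nat_lit 212824695000), [nat_lit 4]), (.ofNat (nat_lit 110227496250),
 [nat_lit 0, nat_lit 3]), (.ofNat (nat_lit 198904452500), [nat_lit 1, nat_lit 2]), (.negSucc
 (nat_lit 131197588124), [nat_lit 0, nat_lit 1, nat_lit 1]), (.negSucc (nat_lit 149568837499),
 [nat_lit 0, nat_lit 0, nat_lit 2]), (.ofNat (nat_lit 62797251250), [nat_lit 0, nat_lit 0, nat_lit
 0, nat_lit 1]), (.negSucc (nat_lit 3812944374), [nat_lit 0, nat_lit 0, nat_lit 0, nat_lit 0,
 nat_lit 0])], [(.ofNat (nat_lit 1064123475000), [nat_lit 5]), (.ofNat (nat_lit 706940853750),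
 [nat_lit 1, nat_lit 3]), (.ofNat (nat_lit 228085290000), [nat_lit 0, nat_lit 4]), (.ofNat (nat_lit
 397808905000), [nat_lit 2, nat_lit 2]), (.negSucc (nat_lit 131197588124), [nat_lit 1, nat_lit 1,
 nat_lit 1]), (.negSucc (nat_lit 558934008749), [nat_lit 0, nat_lit 0, nat_lit 3]), (.negSucc
 (nat_lit 1022832479999), [nat_lit 0, nat_lit 1, nat_lit 2]), (.ofNat (nat_lit 319589341875),
 [nat_lit 0, nat_lit 0, nat_lit 1, nat_lit 1]), (.ofNat (nat_lit 275163340000), [nat_lit 0, nat_lit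
 0, nat_lit 0, nat_lit 2]), (.negSucc (nat_lit 81861973124), [nat_lit 0, nat_lit 0, nat_lit 0,
 nat_lit 0, nat_lit 1]), (.ofNat (nat_lit 3812944375), [nat_lit 0, nat_lit 0, nat_lit 0, nat_lit 0,
 nat_lit 0, nat_lit 0])], [(.ofNat (nat_lit 6384740850000), [nat_lit 6]), (.ofNat (nat_lit
 76302975000), [nat_lit 0, nat_lit 5]), (.ofNat (nat_lit 3055848705000), [nat_lit 1, nat_lit 4]),
 (.ofNat (nat_lit 3800735137500), [nat_lit 2, nat_lit 3]), (.negSucc (nat_lit 4893306311249),
 [nat_lit 0, nat_lit 1, nat_lit 3]), (.negSucc (nat_lit 2463821324999), [nat_lit 0, nat_lit 0,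
 nat_lit 4]), (.negSucc (nat_lit 1810018008749), [nat_lit 1, nat_lit 1, nat_lit 2]), (.negSucc
 (nat_lit 2443473864999), [nat_lit 0, nat_lit 2, nat_lit 2]), (.ofNat (nat_lit 770376271875),
 [nat_lit 0, nat_lit 1, nat_lit 1, nat_lit 1]), (.ofNat (nat_lit 1384424028750), [nat_lit 0,
 nat_lit 0, nat_lit 0, nat_lit 3]), (.ofNat (nat_lit 3126679867500), [nat_lit 0, nat_lit 0, nat_lit
 1, nat_lit 2]), (.negSucc (nat_lit 647037234374), [nat_lit 0, nat_lit 0, nat_lit 0, nat_lit 1,
 nat_lit 1]), (.negSucc (nat_lit 438887286249), [nat_lit 0, nat_lit 0, nat_lit 0, nat_lit 0,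
 nat_lit 2]), (.ofNat (nat_lit 104739639375), [nat_lit 0, nat_lit 0, nat_lit 0, nat_lit 0, nat_lit
 0, nat_lit 1]), (.negSucc (nat_lit 3812944374), [nat_lit 0, nat_lit 0, nat_lit 0, nat_lit 0,
 nat_lit 0, nat_lit 0, nat_lit 0])]], [[(.ofNat (nat_lit 110540482796100), [nat_lit 3]), (.negSucc
 (nat_lit 57977422865949), [nat_lit 1, nat_lit 1]), (.ofNat (nat_lit 433164593227800), [nat_lit 0,
 nat_lit 2]), (.ofNat (nat_lit 165822824820100), [nat_lit 0, nat_lit 0, nat_lit 1]), (.negSucc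
 (nat_lit 75623266616274), [nat_lit 0, nat_lit 0, nat_lit 0, nat_lit 0])], [(.ofNat (nat_lit
 442161931184400), [nat_lit 4]), (.ofNat (nat_lit 1188953296887300), [nat_lit 0, nat_lit 3]),
 (.ofNat (nat_lit 201254901764000), [nat_lit 1, nat_lit 2]), (.ofNat (nat_lit 389623072506150),
 [nat_lit 0, nat_lit 1, nat_lit 1]), (.negSucc (nat_lit 101518943587599), [nat_lit 0, nat_lit 0,
 nat_lit 2]), (.negSucc (nat_lit 468315891285199), [nat_lit 0, nat_lit 0, nat_lit 0, nat_lit 1]),
 (.ofNat (nat_lit 75623266616275), [nat_lit 0, nat_lit 0, nat_lit 0, nat_lit 0, nat_lit 0])],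
 [(.ofNat (nat_lit 2210809655922000), [nat_lit 5]), (.ofNat (nat_lit 1792718002179300), [nat_lit 1,
 nat_lit 3]), (.ofNat (nat_lit 4313651256364800), [nat_lit 0, nat_lit 4]), (.ofNat (nat_lit
 402509803528000), [nat_lit 2, nat_lit 2]), (.ofNat (nat_lit 389623072506150), [nat_lit 1, nat_lit
 1, nat_lit 1]), (.negSucc (nat_lit 1493510127650099), [nat_lit 0, nat_lit 0, nat_lit 3]), (.ofNat
 (nat_lit 1154199501085400), [nat_lit 0, nat_lit 1, nat_lit 2]), (.negSucc (nat_lit
 1794570746361749), [nat_lit 0, nat_lit 0, nat_lit 1, nat_lit 1]), (.negSucc (nat_lit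
 835112838982799), [nat_lit 0, nat_lit 0, nat_lit 0, nat_lit 2]), (.ofNat (nat_lit
 846432224366575), [nat_lit 0, nat_lit 0, nat_lit 0, nat_lit 0, nat_lit 1]), (.negSucc (nat_lit
 75623266616274), [nat_lit 0, nat_lit 0, nat_lit 0, nat_lit 0, nat_lit 0, nat_lit 0])], [(.ofNat
 (nat_lit 13264857935532000), [nat_lit 6]), (.ofNat (nat_lit 19357446625902000), [nat_lit 0,
 nat_lit 5]), (.ofNat (nat_lit 11484523265082000), [nat_lit 1, nat_lit 4]), (.ofNat (nat_lit
 6000494825526600), [nat_lit 2, nat_lit 3]), (.negSucc (nat_lit 1317139754223299), [nat_lit 0,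
 nat_lit 1, nat_lit 3]), (.negSucc (nat_lit 10287691766965199), [nat_lit 0, nat_lit 0, nat_lit 4]),
 (.ofNat (nat_lit 3491937936122300), [nat_lit 1, nat_lit 1, nat_lit 2]), (.ofNat (nat_lit
 1905889198642800), [nat_lit 0, nat_lit 2, nat_lit 2]), (.negSucc (nat_lit 3978764565229649),
 [nat_lit 0, nat_lit 1, nat_lit 1, nat_lit 1]), (.negSucc (nat_lit 1011828389298299), [nat_lit 0,
 nat_lit 0, nat_lit 0, nat_lit 3]), (.negSucc (nat_lit 10837821003480799), [nat_lit 0, nat_lit 0,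
 nat_lit 1, nat_lit 2]), (.ofNat (nat_lit 5180299643828050), [nat_lit 0, nat_lit 0, nat_lit 0,
 nat_lit 1, nat_lit 1]), (.ofNat (nat_lit 2527977287715950), [nat_lit 0, nat_lit 0, nat_lit 0,
 nat_lit 0, nat_lit 2]), (.negSucc (nat_lit 1300171824064224), [nat_lit 0, nat_lit 0, nat_lit 0,
 nat_lit 0, nat_lit 0, nat_lit 1]), (.ofNat (nat_lit 75623266616275), [nat_lit 0, nat_lit 0,
 nat_lit 0, nat_lit 0, nat_lit 0, nat_lit 0, nat_lit 0])]], [[(.ofNat (nat_lit 7561722731062800),
 [nat_lit 4]), (.ofNat (nat_lit 30473604340101600), [nat_lit 0, nat_lit 3]), (.negSucc (nat_lit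
 2385875663226499), [nat_lit 1, nat_lit 2]), (.ofNat (nat_lit 1215874973455050), [nat_lit 0,
 nat_lit 1, nat_lit 1]), (.ofNat (nat_lit 26387510424413050), [nat_lit 0, nat_lit 0, nat_lit 2]),
 (.negSucc (nat_lit 6784137493936524), [nat_lit 0, nat_lit 0, nat_lit 0, nat_lit 1]), (.negSucc
 (nat_lit 1724245921365324), [nat_lit 0, nat_lit 0, nat_lit 0, nat_lit 0, nat_lit 0])], [(.ofNat
 (nat_lit 37808613655314000), [nat_lit 5]), (.ofNat (nat_lit 23315977350422100), [nat_lit 1,
 nat_lit 3]), (.ofNat (nat_lit 114332694629343600), [nat_lit 0, nat_lit 4]), (.negSucc (nat_lit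
 4771751326452999), [nat_lit 2, nat_lit 2]), (.ofNat (nat_lit 1215874973455050), [nat_lit 1,
 nat_lit 1, nat_lit 1]), (.ofNat (nat_lit 48688926933137550), [nat_lit 0, nat_lit 0, nat_lit 3]),
 (.ofNat (nat_lit 60024396405872800), [nat_lit 0, nat_lit 1, nat_lit 2]), (.negSucc (nat_lit
 21568287455264624), [nat_lit 0, nat_lit 0, nat_lit 1, nat_lit 1]), (.negSucc (nat_lit
 39955785412286099), [nat_lit 0, nat_lit 0, nat_lit 0, nat_lit 2]), (.negSucc (nat_lit
 1837092112890099), [nat_lit 0, nat_lit 0, nat_lit 0, nat_lit 0, nat_lit 1]), (.ofNat (nat_lit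
 1724245921365325), [nat_lit 0, nat_lit 0, nat_lit 0, nat_lit 0, nat_lit 0, nat_lit 0])], [(.ofNat
 (nat_lit 226851681931884000), [nat_lit 6]), (.ofNat (nat_lit 533854859491404000), [nat_lit 0,
 nat_lit 5]), (.ofNat (nat_lit 207596604031032000), [nat_lit 1, nat_lit 4]), (.ofNat (nat_lit
 18001446742126200), [nat_lit 2, nat_lit 3]), (.ofNat (nat_lit 254135065733471400), [nat_lit 0,
 nat_lit 1, nat_lit 3]), (.ofNat (nat_lit 80423013103206600), [nat_lit 0, nat_lit 0, nat_lit 4]),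
 (.ofNat (nat_lit 67319646246603100), [nat_lit 1, nat_lit 1, nat_lit 2]), (.ofNat (nat_lit
 124820544138198600), [nat_lit 0, nat_lit 2, nat_lit 2]), (.negSucc (nat_lit 44352449883984299),
 [nat_lit 0, nat_lit 1, nat_lit 1, nat_lit 1]), (.negSucc (nat_lit 168556283169995849), [nat_lit 0,
 nat_lit 0, nat_lit 0, nat_lit 3]), (.negSucc (nat_lit 266164902463789599), [nat_lit 0, nat_lit 0,
 nat_lit 1, nat_lit 2]), (.ofNat (nat_lit 14219919003704225), [nat_lit 0, nat_lit 0, nat_lit 0,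
 nat_lit 1, nat_lit 1]), (.ofNat (nat_lit 36281601186505900), [nat_lit 0, nat_lit 0, nat_lit 0,
 nat_lit 0, nat_lit 2]), (.ofNat (nat_lit 12182567641082050), [nat_lit 0, nat_lit 0, nat_lit 0,
 nat_lit 0, nat_lit 0, nat_lit 1]), (.negSucc (nat_lit 1724245921365324), [nat_lit 0, nat_lit 0,
 nat_lit 0, nat_lit 0, nat_lit 0, nat_lit 0, nat_lit 0])]], [[(.ofNat (nat_lit
 47118093072605046000), [nat_lit 5]), (.negSucc (nat_lit 164393478591729120899), [nat_lit 1,
 nat_lit 3]), (.ofNat (nat_lit 267862489885365944400), [nat_lit 0, nat_lit 4]), (.ofNat (nat_lit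
 115664816800868961000), [nat_lit 2, nat_lit 2]), (.negSucc (nat_lit 18147053985955664449),
 [nat_lit 1, nat_lit 1, nat_lit 1]), (.ofNat (nat_lit 285835392996251603850), [nat_lit 0, nat_lit
 0, nat_lit 3]), (.ofNat (nat_lit 36425323154678896800), [nat_lit 0, nat_lit 1, nat_lit 2]),
 (.ofNat (nat_lit 40592846070778140525), [nat_lit 0, nat_lit 0, nat_lit 1, nat_lit 1]), (.negSucc
 (nat_lit 9159688160247356699), [nat_lit 0, nat_lit 0, nat_lit 0, nat_lit 2]), (.negSucc (nat_lit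
 82370995762188963299), [nat_lit 0, nat_lit 0, nat_lit 0, nat_lit 0, nat_lit 1]), (.ofNat (nat_lit
 9449555638218619075), [nat_lit 0, nat_lit 0, nat_lit 0, nat_lit 0, nat_lit 0, nat_lit 0])],
 [(.ofNat (nat_lit 282708558435630276000), [nat_lit 6]), (.ofNat (nat_lit 1292194356354224676000),
 [nat_lit 0, nat_lit 5]), (.negSucc (nat_lit 389711424481550539199), [nat_lit 1, nat_lit 4]),
 (.ofNat (nat_lit 365201943621755524200), [nat_lit 2, nat_lit 3]), (.ofNat (nat_lit
 845340234048269019000), [nat_lit 0, nat_lit 1, nat_lit 3]), (.ofNat (nat_lit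
 875479082099640471000), [nat_lit 0, nat_lit 0, nat_lit 4]), (.negSucc (nat_lit
 72457000761055089899), [nat_lit 1, nat_lit 1, nat_lit 2]), (.negSucc (nat_lit
 42814170491511167399), [nat_lit 0, nat_lit 2, nat_lit 2]), (.ofNat (nat_lit 99332746127511945500),
 [nat_lit 0, nat_lit 1, nat_lit 1, nat_lit 1]), (.negSucc (nat_lit 313314457476993673949), [nat_lit
 0, nat_lit 0, nat_lit 0, nat_lit 3]), (.ofNat (nat_lit 98466996647691595200), [nat_lit 0, nat_lit
 0, nat_lit 1, nat_lit 2]), (.negSucc (nat_lit 370076829119533993724), [nat_lit 0, nat_lit 0,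
 nat_lit 0, nat_lit 1, nat_lit 1]), (.negSucc (nat_lit 155582303364130569899), [nat_lit 0, nat_lit
 0, nat_lit 0, nat_lit 0, nat_lit 2]), (.ofNat (nat_lit 139068329591500677750), [nat_lit 0, nat_lit
 0, nat_lit 0, nat_lit 0, nat_lit 0, nat_lit 1]), (.negSucc (nat_lit 9449555638218619074), [nat_lit
 0, nat_lit 0, nat_lit 0, nat_lit 0, nat_lit 0, nat_lit 0, nat_lit 0])]], [[(.ofNat (nat_lit
 18150420400254437724000), [nat_lit 6]), (.ofNat (nat_lit 105115011365903720454000), [nat_lit 0,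
 nat_lit 5]), (.negSucc (nat_lit 55248789047479646564399), [nat_lit 1, nat_lit 4]), (.ofNat
 (nat_lit 36502398965778665610600), [nat_lit 2, nat_lit 3]), (.negSucc (nat_lit
 74704915992537509870099), [nat_lit 0, nat_lit 1, nat_lit 3]), (.ofNat (nat_lit
 150746008885691764162800), [nat_lit 0, nat_lit 0, nat_lit 4]), (.negSucc (nat_lit
 17281051235391815935699), [nat_lit 1, nat_lit 1, nat_lit 2]), (.ofNat (nat_lit
 88656662225351261386800), [nat_lit 0, nat_lit 2, nat_lit 2]), (.ofNat (nat_lit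
 5617489494368515258950), [nat_lit 0, nat_lit 1, nat_lit 1, nat_lit 1]), (.ofNat (nat_lit
 39207634039386781905300), [nat_lit 0, nat_lit 0, nat_lit 0, nat_lit 3]), (.ofNat (nat_lit
 20344571688837083760800), [nat_lit 0, nat_lit 0, nat_lit 1, nat_lit 2]), (.negSucc (nat_lit
 12383731190142136046949), [nat_lit 0, nat_lit 0, nat_lit 0, nat_lit 1, nat_lit 1]), (.negSucc
 (nat_lit 41961627956458336012249), [nat_lit 0, nat_lit 0, nat_lit 0, nat_lit 0, nat_lit 2]),
 (.negSucc (nat_lit 3311502415590341861524), [nat_lit 0, nat_lit 0, nat_lit 0, nat_lit 0, nat_lit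
 0, nat_lit 1]), (.ofNat (nat_lit 2482696671980183969375), [nat_lit 0, nat_lit 0, nat_lit 0,
 nat_lit 0, nat_lit 0, nat_lit 0, nat_lit 0])]]]
  d := [nat_lit 1, nat_lit 127, nat_lit 1516, nat_lit 478060128, nat_lit 13393514664192, nat_lit
 3349599484554752, nat_lit 90461692289883930624, nat_lit 130690490548526102347776]
  M := [nat_lit 1, nat_lit 127, nat_lit 48133, nat_lit 11413922689, nat_lit 839414116317127, nat_lit
 198068994300305604047, nat_lit 166720074384229962533743, nat_lit 2035741880579193197132212507]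
  E := [[nat_lit 1], [nat_lit 26250, nat_lit 840], [nat_lit 2067187500, nat_lit 99487500, nat_lit
 22402800], [nat_lit 85103884277343750, nat_lit 4922765859375000, nat_lit 1849491157500000, nat_lit
 14151102000], [nat_lit 914192030332946777343750, nat_lit 58818678747363281250000, nat_lit
 28433614682615625000000, nat_lit 380938821401250000, nat_lit 31203179910000], [nat_lit
 27035731307370804977416992187500, nat_lit 1865127129100074645996093750000, nat_lit
 1052492832942863361328125000000, nat_lit 18809330480213470312500000, nat_lit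
 2774235721823212500000, nat_lit 24729768205871400000], [nat_lit
 2491847060899635925769805908203125000, nat_lit 180604309688789548851013183593750000, nat_lit
 113289223840000780067138671875000000, nat_lit 2430400989661235349609375000000, nat_lit
 488959045971341203125000000, nat_lit 7992738364663279828125000, nat_lit 647439070389827625000],
 [nat_lit 2954793278680469431889355182647705078125000, nat_lit
 222187892105276468458528518676757812500000, nat_lit 150576962527310319113183898925781250000000,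
 nat_lit 3671902556115376101119384765625000000, nat_lit 903110446413679388170166015625000, nat_lit
 20444758675278281193691406250000, nat_lit 3076144883189668503281250000, nat_lit
 4596568384740703126875000]]
  B := [nat_lit
 4697981279438289806054339917002852147218529398163648250491090118885040283203125000000000000000,
 nat_lit
 24932996980830986252259548020314401934689527948768906362846493721008300781250000000000000000,
 nat_lit 398642790950211772283753361067699567857096005842089653015136718750000000000000000, nat_lit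
 1049677230800831158402309603249067766539752483367919921875000000000000000, nat_lit
 39976535027700210234120224109123870730400085449218750000000000000000, nat_lit
 142910379974002365451422587037086486816406250000000000000000, nat_lit
 190136728888710594229400157928466796875000000000000000]
  R := [[(nat_lit 2, .ofNat (nat_lit 126000))], [(nat_lit 3, .ofNat (nat_lit 766000)), (nat_lit 4, .ofNat
 (nat_lit 560500))], [(nat_lit 5, .ofNat (nat_lit 141883130000)), (nat_lit 6, .ofNat (nat_lit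
 288853125000)), (nat_lit 8, .negSucc (nat_lit 30503554999))], [(nat_lit 7, .ofNat (nat_lit
 1768647724737600)), (nat_lit 9, .negSucc (nat_lit 927638765855199)), (nat_lit 10, .ofNat (nat_lit
 6930633491644800)), (nat_lit 12, .ofNat (nat_lit 2653165197121600)), (nat_lit 16, .negSucc
 (nat_lit 1209972265860399))], [(nat_lit 11, .ofNat (nat_lit 241975127394009600)), (nat_lit 14,
 .ofNat (nat_lit 975155338883251200)), (nat_lit 15, .negSucc (nat_lit 76348021223247999)), (nat_lit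
 18, .ofNat (nat_lit 38907999150561600)), (nat_lit 20, .ofNat (nat_lit 844400333581217600)),
 (nat_lit 24, .negSucc (nat_lit 217092399805968799)), (nat_lit 32, .negSucc (nat_lit
 55175869483690399))], [(nat_lit 13, .ofNat (nat_lit 3015557956646722944000)), (nat_lit 21,
 .negSucc (nat_lit 10521182629870663737599)), (nat_lit 22, .ofNat (nat_lit
 17143199352663420441600)), (nat_lit 25, .ofNat (nat_lit 7402548275255613504000)), (nat_lit 27,
 .negSucc (nat_lit 1161411455101162524799)), (nat_lit 28, .ofNat (nat_lit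
 18293465151760102646400)), (nat_lit 30, .ofNat (nat_lit 2331220681899449395200)), (nat_lit 36,
 .ofNat (nat_lit 2597942148529800993600)), (nat_lit 40, .negSucc (nat_lit 586220042255830828799)),
 (nat_lit 48, .negSucc (nat_lit 5271743728780093651199)), (nat_lit 64, .ofNat (nat_lit
 604771560845991620800))], [(nat_lit 17, .ofNat (nat_lit 2323253811232568028672000)), (nat_lit 26,
 .ofNat (nat_lit 13454721454835676218112000)), (nat_lit 33, .negSucc (nat_lit
 7071844998077394760243199)), (nat_lit 35, .ofNat (nat_lit 4672307067619669198156800)), (nat_lit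
 42, .negSucc (nat_lit 9562229247044801263372799)), (nat_lit 44, .ofNat (nat_lit
 19295489137368545812838400)), (nat_lit 45, .negSucc (nat_lit 2211974558130152439769599)), (nat_lit
 50, .ofNat (nat_lit 11348052764844961457510400)), (nat_lit 54, .ofNat (nat_lit
 719038655279169953145600)), (nat_lit 56, .ofNat (nat_lit 5018577157041508083878400)), (nat_lit 60,
 .ofNat (nat_lit 2604105176171146721382400)), (nat_lit 72, .negSucc (nat_lit
 1585117592338193414009599)), (nat_lit 80, .negSucc (nat_lit 5371088378426667009567999)), (nat_lit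
 96, .negSucc (nat_lit 423872309195563758275199)), (nat_lit 128, .ofNat (nat_lit
 317785174013463548080000))]]

theorem h_ok0 : okH 7 129 125 840 1000000000000000000 2000 ES GS H0 = true := by decide +kernel

end Pool.Agent.H5.HT.D7
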