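import Pool.Agent.H5.HT.D7.D

/-! # Certificate data (7 jets, exponent 129/125) -/

set_option autoImplicit false

namespace Pool.Agent.H5.HT.D7

open Pool.Agent.H58.BJ
open Pool.Agent.H5.HT

/-- the multiplier of weight 2 -/
noncomputable def H2 : HD where
  m := nat_lit 2
  J := nat_lit 5
  W := nat_lit 10205747541890057445114180389785613134892112417259988065513314220664385706186294555664062500000000
  A := nat_lit 9755394110560430302498346447796044401329209511298952560300652891397476196289062500000000000000000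
  Y := [(.ofNat (nat_lit 89), [nat_lit 1]), (.ofNat (nat_lit 1000), [nat_lit 0, nat_lit 0])]
  YP := [(nat_lit 3, .ofNat (nat_lit 356)), (nat_lit 4, .ofNat (nat_lit 4000))]
  P := [[[(.ofNat (nat_lit 89), [nat_lit 1]), (.ofNat (nat_lit 1000), [nat_lit 0, nat_lit 0])], [(.ofNat
 (nat_lit 178), [nat_lit 2]), (.ofNat (nat_lit 1911), [nat_lit 0, nat_lit 1]), (.negSucc (nat_lit
 999), [nat_lit 0, nat_lit 0, nat_lit 0])], [(.ofNat (nat_lit 534), [nat_lit 3]), (.ofNat (nat_lit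
 1911), [nat_lit 1, nat_lit 1]), (.ofNat (nat_lit 3644), [nat_lit 0, nat_lit 2]), (.negSucc
 (nat_lit 4910), [nat_lit 0, nat_lit 0, nat_lit 1]), (.ofNat (nat_lit 1000), [nat_lit 0, nat_lit 0,
 nat_lit 0, nat_lit 0])], [(.ofNat (nat_lit 2136), [nat_lit 4]), (.ofNat (nat_lit 10398), [nat_lit
 0, nat_lit 3]), (.ofNat (nat_lit 11288), [nat_lit 1, nat_lit 2]), (.negSucc (nat_lit 11732),
 [nat_lit 0, nat_lit 1, nat_lit 1]), (.negSucc (nat_lit 13465), [nat_lit 0, nat_lit 0, nat_lit 2]),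
 (.ofNat (nat_lit 8911), [nat_lit 0, nat_lit 0, nat_lit 0, nat_lit 1]), (.negSucc (nat_lit 999),
 [nat_lit 0, nat_lit 0, nat_lit 0, nat_lit 0, nat_lit 0])], [(.ofNat (nat_lit 10680), [nat_lit 5]),
 (.ofNat (nat_lit 44262), [nat_lit 1, nat_lit 3]), (.ofNat (nat_lit 39456), [nat_lit 0, nat_lit
 4]), (.ofNat (nat_lit 22576), [nat_lit 2, nat_lit 2]), (.negSucc (nat_lit 11732), [nat_lit 1,
 nat_lit 1, nat_lit 1]), (.negSucc (nat_lit 50795), [nat_lit 0, nat_lit 0, nat_lit 3]), (.negSucc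
 (nat_lit 85151), [nat_lit 0, nat_lit 1, nat_lit 2]), (.ofNat (nat_lit 38466), [nat_lit 0, nat_lit
 0, nat_lit 1, nat_lit 1]), (.ofNat (nat_lit 31288), [nat_lit 0, nat_lit 0, nat_lit 0, nat_lit 2]),
 (.negSucc (nat_lit 13910), [nat_lit 0, nat_lit 0, nat_lit 0, nat_lit 0, nat_lit 1]), (.ofNat
 (nat_lit 1000), [nat_lit 0, nat_lit 0, nat_lit 0, nat_lit 0, nat_lit 0, nat_lit 0])], [(.ofNat
 (nat_lit 64080), [nat_lit 6]), (.ofNat (nat_lit 186600), [nat_lit 0, nat_lit 5]), (.ofNat (nat_lit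
 216504), [nat_lit 1, nat_lit 4]), (.ofNat (nat_lit 223980), [nat_lit 2, nat_lit 3]), (.negSucc
 (nat_lit 401309), [nat_lit 0, nat_lit 1, nat_lit 3]), (.negSucc (nat_lit 242639), [nat_lit 0,
 nat_lit 0, nat_lit 4]), (.negSucc (nat_lit 155549), [nat_lit 1, nat_lit 1, nat_lit 2]), (.negSucc
 (nat_lit 192879), [nat_lit 0, nat_lit 2, nat_lit 2]), (.ofNat (nat_lit 88665), [nat_lit 0, nat_lit
 1, nat_lit 1, nat_lit 1]), (.ofNat (nat_lit 144660), [nat_lit 0, nat_lit 0, nat_lit 0, nat_lit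
 3]), (.ofNat (nat_lit 332880), [nat_lit 0, nat_lit 0, nat_lit 1, nat_lit 2]), (.negSucc (nat_lit
 94109), [nat_lit 0, nat_lit 0, nat_lit 0, nat_lit 1, nat_lit 1]), (.negSucc (nat_lit 59109),
 [nat_lit 0, nat_lit 0, nat_lit 0, nat_lit 0, nat_lit 2]), (.ofNat (nat_lit 19911), [nat_lit 0,
 nat_lit 0, nat_lit 0, nat_lit 0, nat_lit 0, nat_lit 1]), (.negSucc (nat_lit 999), [nat_lit 0,
 nat_lit 0, nat_lit 0, nat_lit 0, nat_lit 0, nat_lit 0, nat_lit 0])]], [[(.negSucc (nat_lit 11124),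
 [nat_lit 2]), (.negSucc (nat_lit 102660), [nat_lit 0, nat_lit 1]), (.ofNat (nat_lit 251000),
 [nat_lit 0, nat_lit 0, nat_lit 0])], [(.negSucc (nat_lit 33374), [nat_lit 3]), (.negSucc (nat_lit
 102660), [nat_lit 1, nat_lit 1]), (.negSucc (nat_lit 194196), [nat_lit 0, nat_lit 2]), (.ofNat
 (nat_lit 855661), [nat_lit 0, nat_lit 0, nat_lit 1]), (.negSucc (nat_lit 250999), [nat_lit 0,
 nat_lit 0, nat_lit 0, nat_lit 0])], [(.negSucc (nat_lit 133499), [nat_lit 4]), (.negSucc (nat_lit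
 549215), [nat_lit 0, nat_lit 3]), (.negSucc (nat_lit 604840), [nat_lit 1, nat_lit 2]), (.ofNat
 (nat_lit 1813983), [nat_lit 0, nat_lit 1, nat_lit 1]), (.ofNat (nat_lit 1905519), [nat_lit 0,
 nat_lit 0, nat_lit 2]), (.negSucc (nat_lit 1859660), [nat_lit 0, nat_lit 0, nat_lit 0, nat_lit
 1]), (.ofNat (nat_lit 251000), [nat_lit 0, nat_lit 0, nat_lit 0, nat_lit 0, nat_lit 0])],
 [(.negSucc (nat_lit 667499), [nat_lit 5]), (.negSucc (nat_lit 2363738), [nat_lit 1, nat_lit 3]),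
 (.negSucc (nat_lit 2063363), [nat_lit 0, nat_lit 4]), (.negSucc (nat_lit 1209681), [nat_lit 2,
 nat_lit 2]), (.ofNat (nat_lit 1813983), [nat_lit 1, nat_lit 1, nat_lit 1]), (.ofNat (nat_lit
 6265773), [nat_lit 0, nat_lit 0, nat_lit 3]), (.ofNat (nat_lit 11671811), [nat_lit 0, nat_lit 1,
 nat_lit 2]), (.negSucc (nat_lit 7392965), [nat_lit 0, nat_lit 0, nat_lit 1, nat_lit 1]), (.negSucc
 (nat_lit 5624840), [nat_lit 0, nat_lit 0, nat_lit 0, nat_lit 2]), (.ofNat (nat_lit 3114661),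
 [nat_lit 0, nat_lit 0, nat_lit 0, nat_lit 0, nat_lit 1]), (.negSucc (nat_lit 250999), [nat_lit 0,
 nat_lit 0, nat_lit 0, nat_lit 0, nat_lit 0, nat_lit 0])], [(.negSucc (nat_lit 4004999), [nat_lit
 6]), (.negSucc (nat_lit 9649319), [nat_lit 0, nat_lit 5]), (.negSucc (nat_lit 11518319), [nat_lit
 1, nat_lit 4]), (.negSucc (nat_lit 11985569), [nat_lit 2, nat_lit 3]), (.ofNat (nat_lit 49910718),
 [nat_lit 0, nat_lit 1, nat_lit 3]), (.ofNat (nat_lit 27126456), [nat_lit 0, nat_lit 0, nat_lit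
 4]), (.ofNat (nat_lit 22555709), [nat_lit 1, nat_lit 1, nat_lit 2]), (.ofNat (nat_lit 24553304),
 [nat_lit 0, nat_lit 2, nat_lit 2]), (.negSucc (nat_lit 16599914), [nat_lit 0, nat_lit 1, nat_lit
 1, nat_lit 1]), (.negSucc (nat_lit 23140295), [nat_lit 0, nat_lit 0, nat_lit 0, nat_lit 3]),
 (.negSucc (nat_lit 58118197), [nat_lit 0, nat_lit 0, nat_lit 1, nat_lit 2]), (.ofNat (nat_lit
 19851610), [nat_lit 0, nat_lit 0, nat_lit 0, nat_lit 1, nat_lit 1]), (.ofNat (nat_lit 11854163),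
 [nat_lit 0, nat_lit 0, nat_lit 0, nat_lit 0, nat_lit 2]), (.negSucc (nat_lit 4620660), [nat_lit 0,
 nat_lit 0, nat_lit 0, nat_lit 0, nat_lit 0, nat_lit 1]), (.ofNat (nat_lit 251000), [nat_lit 0,
 nat_lit 0, nat_lit 0, nat_lit 0, nat_lit 0, nat_lit 0, nat_lit 0])]], [[(.ofNat (nat_lit 8343750),
 [nat_lit 3]), (.ofNat (nat_lit 72443116), [nat_lit 1, nat_lit 1]), (.ofNat (nat_lit 37379750),
 [nat_lit 0, nat_lit 2]), (.ofNat (nat_lit 185218173), [nat_lit 0, nat_lit 0, nat_lit 1]), (.ofNat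
 (nat_lit 51957000), [nat_lit 0, nat_lit 0, nat_lit 0, nat_lit 0])], [(.ofNat (nat_lit 33375000),
 [nat_lit 4]), (.ofNat (nat_lit 103795500), [nat_lit 0, nat_lit 3]), (.ofNat (nat_lit 327152214),
 [nat_lit 1, nat_lit 2]), (.ofNat (nat_lit 297993230), [nat_lit 0, nat_lit 1, nat_lit 1]), (.ofNat
 (nat_lit 333056596), [nat_lit 0, nat_lit 0, nat_lit 2]), (.ofNat (nat_lit 22609827), [nat_lit 0,
 nat_lit 0, nat_lit 0, nat_lit 1]), (.negSucc (nat_lit 51956999), [nat_lit 0, nat_lit 0, nat_lit 0,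
 nat_lit 0, nat_lit 0])], [(.ofNat (nat_lit 166875000), [nat_lit 5]), (.ofNat (nat_lit 1085252142),
 [nat_lit 1, nat_lit 3]), (.ofNat (nat_lit 381807000), [nat_lit 0, nat_lit 4]), (.ofNat (nat_lit
 654304428), [nat_lit 2, nat_lit 2]), (.ofNat (nat_lit 297993230), [nat_lit 1, nat_lit 1, nat_lit
 1]), (.ofNat (nat_lit 895374288), [nat_lit 0, nat_lit 0, nat_lit 3]), (.ofNat (nat_lit
 1530933898), [nat_lit 0, nat_lit 1, nat_lit 2]), (.negSucc (nat_lit 230163748), [nat_lit 0,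
 nat_lit 0, nat_lit 1, nat_lit 1]), (.negSucc (nat_lit 287836941), [nat_lit 0, nat_lit 0, nat_lit
 0, nat_lit 2]), (.negSucc (nat_lit 282394826), [nat_lit 0, nat_lit 0, nat_lit 0, nat_lit 0,
 nat_lit 1]), (.ofNat (nat_lit 51957000), [nat_lit 0, nat_lit 0, nat_lit 0, nat_lit 0, nat_lit 0,
 nat_lit 0])], [(.ofNat (nat_lit 1001250000), [nat_lit 6]), (.ofNat (nat_lit 1742160000), [nat_lit
 0, nat_lit 5]), (.ofNat (nat_lit 4722815568), [nat_lit 1, nat_lit 4]), (.ofNat (nat_lit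
 6096330852), [nat_lit 2, nat_lit 3]), (.ofNat (nat_lit 5298298128), [nat_lit 0, nat_lit 1, nat_lit
 3]), (.ofNat (nat_lit 3199690152), [nat_lit 0, nat_lit 0, nat_lit 4]), (.ofNat (nat_lit
 3318893278), [nat_lit 1, nat_lit 1, nat_lit 2]), (.ofNat (nat_lit 2407563368), [nat_lit 0, nat_lit
 2, nat_lit 2]), (.negSucc (nat_lit 758320727), [nat_lit 0, nat_lit 1, nat_lit 1, nat_lit 1]),
 (.negSucc (nat_lit 1758885113), [nat_lit 0, nat_lit 0, nat_lit 0, nat_lit 3]), (.negSucc (nat_lit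
 3315099719), [nat_lit 0, nat_lit 0, nat_lit 1, nat_lit 2]), (.negSucc (nat_lit 899415558),
 [nat_lit 0, nat_lit 0, nat_lit 0, nat_lit 1, nat_lit 1]), (.negSucc (nat_lit 276952711), [nat_lit
 0, nat_lit 0, nat_lit 0, nat_lit 0, nat_lit 2]), (.ofNat (nat_lit 594136827), [nat_lit 0, nat_lit
 0, nat_lit 0, nat_lit 0, nat_lit 0, nat_lit 1]), (.negSucc (nat_lit 51956999), [nat_lit 0, nat_lit
 0, nat_lit 0, nat_lit 0, nat_lit 0, nat_lit 0, nat_lit 0])]], [[(.negSucc (nat_lit 20859374999),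
 [nat_lit 4]), (.negSucc (nat_lit 38714531249), [nat_lit 0, nat_lit 3]), (.negSucc (nat_lit
 130129935179), [nat_lit 1, nat_lit 2]), (.negSucc (nat_lit 1887057071874), [nat_lit 0, nat_lit 1,
 nat_lit 1]), (.ofNat (nat_lit 2731388575000), [nat_lit 0, nat_lit 0, nat_lit 2]), (.ofNat (nat_lit
 1183080051105), [nat_lit 0, nat_lit 0, nat_lit 0, nat_lit 1]), (.negSucc (nat_lit 345821054999),
 [nat_lit 0, nat_lit 0, nat_lit 0, nat_lit 0, nat_lit 0])], [(.negSucc (nat_lit 104296874999),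
 [nat_lit 5]), (.negSucc (nat_lit 429104336789), [nat_lit 1, nat_lit 3]), (.negSucc (nat_lit
 133998749999), [nat_lit 0, nat_lit 4]), (.negSucc (nat_lit 260259870359), [nat_lit 2, nat_lit 2]),
 (.negSucc (nat_lit 1887057071874), [nat_lit 1, nat_lit 1, nat_lit 1]), (.ofNat (nat_lit
 8232880256250), [nat_lit 0, nat_lit 0, nat_lit 3]), (.negSucc (nat_lit 1955321202319), [nat_lit 0,
 nat_lit 1, nat_lit 2]), (.ofNat (nat_lit 5436297225190), [nat_lit 0, nat_lit 0, nat_lit 1, nat_lit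
 1]), (.negSucc (nat_lit 365228472789), [nat_lit 0, nat_lit 0, nat_lit 0, nat_lit 2]), (.negSucc
 (nat_lit 2912185326104), [nat_lit 0, nat_lit 0, nat_lit 0, nat_lit 0, nat_lit 1]), (.ofNat
 (nat_lit 345821055000), [nat_lit 0, nat_lit 0, nat_lit 0, nat_lit 0, nat_lit 0, nat_lit 0])],
 [(.negSucc (nat_lit 625781249999), [nat_lit 6]), (.negSucc (nat_lit 565696874999), [nat_lit 0,
 nat_lit 5]), (.negSucc (nat_lit 1850416097159), [nat_lit 1, nat_lit 4]), (.negSucc (nat_lit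
 2419767895739), [nat_lit 2, nat_lit 3]), (.ofNat (nat_lit 11028901242330), [nat_lit 0, nat_lit 1,
 nat_lit 3]), (.ofNat (nat_lit 33065519775000), [nat_lit 0, nat_lit 0, nat_lit 4]), (.negSucc
 (nat_lit 13277663633569), [nat_lit 1, nat_lit 1, nat_lit 2]), (.negSucc (nat_lit 3650382534279),
 [nat_lit 0, nat_lit 2, nat_lit 2]), (.ofNat (nat_lit 12759651522255), [nat_lit 0, nat_lit 1,
 nat_lit 1, nat_lit 1]), (.negSucc (nat_lit 9328565674619), [nat_lit 0, nat_lit 0, nat_lit 0,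
 nat_lit 3]), (.ofNat (nat_lit 22604824684710), [nat_lit 0, nat_lit 0, nat_lit 1, nat_lit 2]),
 (.negSucc (nat_lit 17085038529609), [nat_lit 0, nat_lit 0, nat_lit 0, nat_lit 1, nat_lit 1]),
 (.negSucc (nat_lit 5459142179419), [nat_lit 0, nat_lit 0, nat_lit 0, nat_lit 0, nat_lit 2]),
 (.ofNat (nat_lit 4987111656105), [nat_lit 0, nat_lit 0, nat_lit 0, nat_lit 0, nat_lit 0, nat_lit
 1]), (.negSucc (nat_lit 345821054999), [nat_lit 0, nat_lit 0, nat_lit 0, nat_lit 0, nat_lit 0,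
 nat_lit 0, nat_lit 0])]], [[(.ofNat (nat_lit 65185546875000), [nat_lit 5]), (.ofNat (nat_lit
 2234573136522294), [nat_lit 1, nat_lit 3]), (.ofNat (nat_lit 5317968750000), [nat_lit 0, nat_lit
 4]), (.negSucc (nat_lit 1300891477224999), [nat_lit 2, nat_lit 2]), (.ofNat (nat_lit
 3822914072657587), [nat_lit 1, nat_lit 1, nat_lit 1]), (.ofNat (nat_lit 9179777076189750),
 [nat_lit 0, nat_lit 0, nat_lit 3]), (.negSucc (nat_lit 10301078722714287), [nat_lit 0, nat_lit 1,
 nat_lit 2]), (.negSucc (nat_lit 7329369273848245), [nat_lit 0, nat_lit 0, nat_lit 1, nat_lit 1]),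
 (.ofNat (nat_lit 11740541814951750), [nat_lit 0, nat_lit 0, nat_lit 0, nat_lit 2]), (.ofNat
 (nat_lit 1436675122134549), [nat_lit 0, nat_lit 0, nat_lit 0, nat_lit 0, nat_lit 1]), (.negSucc
 (nat_lit 993483725858999), [nat_lit 0, nat_lit 0, nat_lit 0, nat_lit 0, nat_lit 0, nat_lit 0])],
 [(.ofNat (nat_lit 391113281250000), [nat_lit 6]), (.negSucc (nat_lit 38595703124999), [nat_lit 0,
 nat_lit 5]), (.ofNat (nat_lit 8943610514839176), [nat_lit 1, nat_lit 4]), (.negSucc (nat_lit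
 3336202590305411), [nat_lit 2, nat_lit 3]), (.negSucc (nat_lit 14778255152285657), [nat_lit 0,
 nat_lit 1, nat_lit 3]), (.ofNat (nat_lit 36713790336009000), [nat_lit 0, nat_lit 0, nat_lit 4]),
 (.ofNat (nat_lit 12636405713231234), [nat_lit 1, nat_lit 1, nat_lit 2]), (.negSucc (nat_lit
 19301265968203575), [nat_lit 0, nat_lit 2, nat_lit 2]), (.negSucc (nat_lit 18481652620354078),
 [nat_lit 0, nat_lit 1, nat_lit 1, nat_lit 1]), (.ofNat (nat_lit 26041848368665500), [nat_lit 0,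
 nat_lit 0, nat_lit 0, nat_lit 3]), (.ofNat (nat_lit 16205227072176554), [nat_lit 0, nat_lit 0,
 nat_lit 1, nat_lit 2]), (.ofNat (nat_lit 13076069762386442), [nat_lit 0, nat_lit 0, nat_lit 0,
 nat_lit 1, nat_lit 1]), (.negSucc (nat_lit 8867191570682651), [nat_lit 0, nat_lit 0, nat_lit 0,
 nat_lit 0, nat_lit 2]), (.negSucc (nat_lit 7397577477288548), [nat_lit 0, nat_lit 0, nat_lit 0,
 nat_lit 0, nat_lit 0, nat_lit 1]), (.ofNat (nat_lit 993483725859000), [nat_lit 0, nat_lit 0,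
 nat_lit 0, nat_lit 0, nat_lit 0, nat_lit 0, nat_lit 0])]], [[(.negSucc (nat_lit 9777832031249999),
 [nat_lit 6]), (.ofNat (nat_lit 12398437500000000), [nat_lit 0, nat_lit 5]), (.negSucc (nat_lit
 27333175215133775), [nat_lit 1, nat_lit 4]), (.negSucc (nat_lit 52953208925698499), [nat_lit 2,
 nat_lit 3]), (.negSucc (nat_lit 5015427743578775471), [nat_lit 0, nat_lit 1, nat_lit 3]), (.ofNat
 (nat_lit 2616748512957591000), [nat_lit 0, nat_lit 0, nat_lit 4]), (.ofNat (nat_lit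
 321279178881114130), [nat_lit 1, nat_lit 1, nat_lit 2]), (.ofNat (nat_lit 2662170166484447000),
 [nat_lit 0, nat_lit 2, nat_lit 2]), (.ofNat (nat_lit 41996194068364104), [nat_lit 0, nat_lit 1,
 nat_lit 1, nat_lit 1]), (.ofNat (nat_lit 3046652299809308250), [nat_lit 0, nat_lit 0, nat_lit 0,
 nat_lit 3]), (.negSucc (nat_lit 1768139738311883255), [nat_lit 0, nat_lit 0, nat_lit 1, nat_lit
 2]), (.ofNat (nat_lit 383538451901188103), [nat_lit 0, nat_lit 0, nat_lit 0, nat_lit 1, nat_lit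
 1]), (.ofNat (nat_lit 137586566494540000), [nat_lit 0, nat_lit 0, nat_lit 0, nat_lit 0, nat_lit
 2]), (.negSucc (nat_lit 368499262285041650), [nat_lit 0, nat_lit 0, nat_lit 0, nat_lit 0, nat_lit
 0, nat_lit 1]), (.ofNat (nat_lit 8380487209341000), [nat_lit 0, nat_lit 0, nat_lit 0, nat_lit 0,
 nat_lit 0, nat_lit 0, nat_lit 0])]]]
  d := [nat_lit 1, nat_lit 754, nat_lit 2353376, nat_lit 22742865024, nat_lit 268463665029120, nat_lit
 150983584750141440]
  M := [nat_lit 1, nat_lit 377, nat_lit 27725711, nat_lit 6542186493271, nat_lit 121148209482392378,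
 nat_lit 9615351664303259453293]
  E := [[nat_lit 1], [nat_lit 26250, nat_lit 420], [nat_lit 172954687500, nat_lit 4845487500, nat_lit
 8312850], [nat_lit 3556697299804687500, nat_lit 132917778984375000, nat_lit 410602834687500,
 nat_lit 170496553500], [nat_lit 5359748299310302734375000, nat_lit 240444976336523437500000,
 nat_lit 1013162494591406250000, nat_lit 771470264501015625, nat_lit 224671833374625], [nat_lit
 32057292490801453399658203125000, nat_lit 1634712696122667297363281250000, nat_lit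
 8420928872132007476806640625, nat_lit 8880104913322002978515625, nat_lit 4803624217445341640625,
 nat_lit 26633722487394920625]]
  B := [nat_lit
 20142527949620883926179481143124931615154816855063464083708822727203369140625000000000000000,
 nat_lit 1016257849231627443949987723531383070642738449951544404029846191406250000000000000000,
 nat_lit 11244187381855332385685053989409801045653618872165679931640625000000000000000, nat_lit
 111130526260418936656219302211820110678672790527343750000000000000000, nat_lit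
 574171888071560968061982598938047885894775390625000000000000000]
  R := [[(nat_lit 5, .negSucc (nat_lit 88999)), (nat_lit 6, .negSucc (nat_lit 821287)), (nat_lit 8,
 .ofNat (nat_lit 2008000))], [(nat_lit 7, .ofNat (nat_lit 133500000)), (nat_lit 9, .ofNat (nat_lit
 1159089856)), (nat_lit 10, .ofNat (nat_lit 598076000)), (nat_lit 12, .ofNat (nat_lit 2963490768)),
 (nat_lit 16, .ofNat (nat_lit 831312000))], [(nat_lit 11, .negSucc (nat_lit 667499999999)),
 (nat_lit 14, .negSucc (nat_lit 1238864999999)), (nat_lit 15, .negSucc (nat_lit 4164157925759)),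
 (nat_lit 18, .negSucc (nat_lit 60385826299999)), (nat_lit 20, .ofNat (nat_lit 87404434400000)),
 (nat_lit 24, .ofNat (nat_lit 37858561635360)), (nat_lit 32, .negSucc (nat_lit 11066273759999))],
 [(nat_lit 13, .ofNat (nat_lit 4171875000000000)), (nat_lit 21, .ofNat (nat_lit
 143012680737426816)), (nat_lit 22, .ofNat (nat_lit 340350000000000)), (nat_lit 25, .negSucc
 (nat_lit 83257054542399999)), (nat_lit 27, .ofNat (nat_lit 244666500650085568)), (nat_lit 28,
 .ofNat (nat_lit 587505732876144000)), (nat_lit 30, .negSucc (nat_lit 659269038253714431)),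
 (nat_lit 36, .negSucc (nat_lit 469079633526287743)), (nat_lit 40, .ofNat (nat_lit
 751394676156912000)), (nat_lit 48, .ofNat (nat_lit 91947207816611136)), (nat_lit 64, .negSucc
 (nat_lit 63582958454975999))], [(nat_lit 17, .negSucc (nat_lit 1251562499999999999)), (nat_lit 26,
 .ofNat (nat_lit 1587000000000000000)), (nat_lit 33, .negSucc (nat_lit 3498646427537123327)),
 (nat_lit 35, .negSucc (nat_lit 6778010742489407999)), (nat_lit 42, .negSucc (nat_lit
 641974751178083260415)), (nat_lit 44, .ofNat (nat_lit 334943809658571648000)), (nat_lit 45, .ofNat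
 (nat_lit 41123734896782608640)), (nat_lit 50, .ofNat (nat_lit 340757781310009216000)), (nat_lit
 54, .ofNat (nat_lit 5375512840750605312)), (nat_lit 56, .ofNat (nat_lit 389971494375591456000)),
 (nat_lit 60, .negSucc (nat_lit 226321886503921056767)), (nat_lit 72, .ofNat (nat_lit
 49092921843352077184)), (nat_lit 80, .ofNat (nat_lit 17611080511301120000)), (nat_lit 96, .negSucc
 (nat_lit 47167905572485331327)), (nat_lit 128, .ofNat (nat_lit 1072702362795648000))]]

theorem h_ok2 : okH 7 129 125 840 1000000000000000000 2000 ES GS H2 = true := by decide +kernel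

end Pool.Agent.H5.HT.D7
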