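import Pool.Agent.H5.HT.D7.D

/-! # Certificate data (7 jets, exponent 129/125) -/

set_option autoImplicit false

namespace Pool.Agent.H5.HT.D7

open Pool.Agent.H58.BJ
open Pool.Agent.H5.HT

/-- the multiplier of weight 4 -/
noncomputable def H4 : HD where
  m := nat_lit 4
  J := nat_lit 3
  W := nat_lit 1135845780490801512599567922459357283179930941020613888800163417006698320619761943817138671875000
  A := nat_lit 1106455981778481928496840427939466710344299329948226281045758813619613647460937500000000000000000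
  Y := [(.ofNat (nat_lit 8), [nat_lit 3]), (.ofNat (nat_lit 7), [nat_lit 1, nat_lit 1]), (.ofNat (nat_lit
 91), [nat_lit 0, nat_lit 2]), (.ofNat (nat_lit 398), [nat_lit 0, nat_lit 0, nat_lit 1]), (.ofNat
 (nat_lit 1000), [nat_lit 0, nat_lit 0, nat_lit 0, nat_lit 0])]
  YP := [(nat_lit 7, .ofNat (nat_lit 128)), (nat_lit 9, .ofNat (nat_lit 112)), (nat_lit 10, .ofNat
 (nat_lit 1456)), (nat_lit 12, .ofNat (nat_lit 6368)), (nat_lit 16, .ofNat (nat_lit 16000))]
  P := [[[(.ofNat (nat_lit 8), [nat_lit 3]), (.ofNat (nat_lit 7), [nat_lit 1, nat_lit 1]), (.ofNat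
 (nat_lit 91), [nat_lit 0, nat_lit 2]), (.ofNat (nat_lit 398), [nat_lit 0, nat_lit 0, nat_lit 1]),
 (.ofNat (nat_lit 1000), [nat_lit 0, nat_lit 0, nat_lit 0, nat_lit 0])], [(.ofNat (nat_lit 32),
 [nat_lit 4]), (.ofNat (nat_lit 265), [nat_lit 0, nat_lit 3]), (.ofNat (nat_lit 119), [nat_lit 1,
 nat_lit 2]), (.ofNat (nat_lit 789), [nat_lit 0, nat_lit 1, nat_lit 1]), (.ofNat (nat_lit 705),
 [nat_lit 0, nat_lit 0, nat_lit 2]), (.ofNat (nat_lit 3602), [nat_lit 0, nat_lit 0, nat_lit 0,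
 nat_lit 1]), (.negSucc (nat_lit 999), [nat_lit 0, nat_lit 0, nat_lit 0, nat_lit 0, nat_lit 0])],
 [(.ofNat (nat_lit 160), [nat_lit 5]), (.ofNat (nat_lit 622), [nat_lit 1, nat_lit 3]), (.ofNat
 (nat_lit 1028), [nat_lit 0, nat_lit 4]), (.ofNat (nat_lit 238), [nat_lit 2, nat_lit 2]), (.ofNat
 (nat_lit 789), [nat_lit 1, nat_lit 1, nat_lit 1]), (.ofNat (nat_lit 1850), [nat_lit 0, nat_lit 0,
 nat_lit 3]), (.ofNat (nat_lit 4447), [nat_lit 0, nat_lit 1, nat_lit 2]), (.ofNat (nat_lit 10017),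
 [nat_lit 0, nat_lit 0, nat_lit 1, nat_lit 1]), (.ofNat (nat_lit 6499), [nat_lit 0, nat_lit 0,
 nat_lit 0, nat_lit 2]), (.negSucc (nat_lit 8601), [nat_lit 0, nat_lit 0, nat_lit 0, nat_lit 0,
 nat_lit 1]), (.ofNat (nat_lit 1000), [nat_lit 0, nat_lit 0, nat_lit 0, nat_lit 0, nat_lit 0,
 nat_lit 0])], [(.ofNat (nat_lit 960), [nat_lit 6]), (.ofNat (nat_lit 4980), [nat_lit 0, nat_lit
 5]), (.ofNat (nat_lit 3516), [nat_lit 1, nat_lit 4]), (.ofNat (nat_lit 2672), [nat_lit 2, nat_lit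
 3]), (.ofNat (nat_lit 16419), [nat_lit 0, nat_lit 1, nat_lit 3]), (.ofNat (nat_lit 6372), [nat_lit
 0, nat_lit 0, nat_lit 4]), (.ofNat (nat_lit 9181), [nat_lit 1, nat_lit 1, nat_lit 2]), (.ofNat
 (nat_lit 8656), [nat_lit 0, nat_lit 2, nat_lit 2]), (.ofNat (nat_lit 19245), [nat_lit 0, nat_lit
 1, nat_lit 1, nat_lit 1]), (.ofNat (nat_lit 17647), [nat_lit 0, nat_lit 0, nat_lit 0, nat_lit 3]),
 (.ofNat (nat_lit 55118), [nat_lit 0, nat_lit 0, nat_lit 1, nat_lit 2]), (.negSucc (nat_lit 44424),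
 [nat_lit 0, nat_lit 0, nat_lit 0, nat_lit 1, nat_lit 1]), (.negSucc (nat_lit 23702), [nat_lit 0,
 nat_lit 0, nat_lit 0, nat_lit 0, nat_lit 2]), (.ofNat (nat_lit 14602), [nat_lit 0, nat_lit 0,
 nat_lit 0, nat_lit 0, nat_lit 0, nat_lit 1]), (.negSucc (nat_lit 999), [nat_lit 0, nat_lit 0,
 nat_lit 0, nat_lit 0, nat_lit 0, nat_lit 0, nat_lit 0])]], [[(.negSucc (nat_lit 3999), [nat_lit
 4]), (.negSucc (nat_lit 28108), [nat_lit 0, nat_lit 3]), (.negSucc (nat_lit 14874), [nat_lit 1,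
 nat_lit 2]), (.negSucc (nat_lit 94235), [nat_lit 0, nat_lit 1, nat_lit 1]), (.negSucc (nat_lit
 31067), [nat_lit 0, nat_lit 0, nat_lit 2]), (.negSucc (nat_lit 200703), [nat_lit 0, nat_lit 0,
 nat_lit 0, nat_lit 1]), (.ofNat (nat_lit 752000), [nat_lit 0, nat_lit 0, nat_lit 0, nat_lit 0,
 nat_lit 0])], [(.negSucc (nat_lit 19999), [nat_lit 5]), (.negSucc (nat_lit 72733), [nat_lit 1,
 nat_lit 3]), (.negSucc (nat_lit 108435), [nat_lit 0, nat_lit 4]), (.negSucc (nat_lit 29749),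
 [nat_lit 2, nat_lit 2]), (.negSucc (nat_lit 94235), [nat_lit 1, nat_lit 1, nat_lit 1]), (.negSucc
 (nat_lit 65094), [nat_lit 0, nat_lit 0, nat_lit 3]), (.negSucc (nat_lit 424204), [nat_lit 0,
 nat_lit 1, nat_lit 2]), (.negSucc (nat_lit 507875), [nat_lit 0, nat_lit 0, nat_lit 1, nat_lit 1]),
 (.negSucc (nat_lit 370339), [nat_lit 0, nat_lit 0, nat_lit 0, nat_lit 2]), (.ofNat (nat_lit
 3960704), [nat_lit 0, nat_lit 0, nat_lit 0, nat_lit 0, nat_lit 1]), (.negSucc (nat_lit 751999),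
 [nat_lit 0, nat_lit 0, nat_lit 0, nat_lit 0, nat_lit 0, nat_lit 0])], [(.negSucc (nat_lit 119999),
 [nat_lit 6]), (.negSucc (nat_lit 522179), [nat_lit 0, nat_lit 5]), (.negSucc (nat_lit 399371),
 [nat_lit 1, nat_lit 4]), (.negSucc (nat_lit 323967), [nat_lit 2, nat_lit 3]), (.negSucc (nat_lit
 1330070), [nat_lit 0, nat_lit 1, nat_lit 3]), (.negSucc (nat_lit 151943), [nat_lit 0, nat_lit 0,
 nat_lit 4]), (.negSucc (nat_lit 989620), [nat_lit 1, nat_lit 1, nat_lit 2]), (.negSucc (nat_lit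
 818659), [nat_lit 0, nat_lit 2, nat_lit 2]), (.negSucc (nat_lit 921515), [nat_lit 0, nat_lit 1,
 nat_lit 1, nat_lit 1]), (.negSucc (nat_lit 1045924), [nat_lit 0, nat_lit 0, nat_lit 0, nat_lit
 3]), (.negSucc (nat_lit 2718318), [nat_lit 0, nat_lit 0, nat_lit 1, nat_lit 2]), (.ofNat (nat_lit
 16350692), [nat_lit 0, nat_lit 0, nat_lit 0, nat_lit 1, nat_lit 1]), (.ofNat (nat_lit 8291748),
 [nat_lit 0, nat_lit 0, nat_lit 0, nat_lit 0, nat_lit 2]), (.negSucc (nat_lit 8472703), [nat_lit 0,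
 nat_lit 0, nat_lit 0, nat_lit 0, nat_lit 0, nat_lit 1]), (.ofNat (nat_lit 752000), [nat_lit 0,
 nat_lit 0, nat_lit 0, nat_lit 0, nat_lit 0, nat_lit 0, nat_lit 0])]], [[(.ofNat (nat_lit 7500000),
 [nat_lit 5]), (.ofNat (nat_lit 58203506), [nat_lit 1, nat_lit 3]), (.ofNat (nat_lit 31639500),
 [nat_lit 0, nat_lit 4]), (.ofNat (nat_lit 11156250), [nat_lit 2, nat_lit 2]), (.ofNat (nat_lit
 62400724), [nat_lit 1, nat_lit 1, nat_lit 1]), (.negSucc (nat_lit 54467406), [nat_lit 0, nat_lit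
 0, nat_lit 3]), (.ofNat (nat_lit 477327787), [nat_lit 0, nat_lit 1, nat_lit 2]), (.ofNat (nat_lit
 1503006708), [nat_lit 0, nat_lit 0, nat_lit 1, nat_lit 1]), (.negSucc (nat_lit 107116363),
 [nat_lit 0, nat_lit 0, nat_lit 0, nat_lit 2]), (.ofNat (nat_lit 1158639408), [nat_lit 0, nat_lit
 0, nat_lit 0, nat_lit 0, nat_lit 1]), (.ofNat (nat_lit 45496000), [nat_lit 0, nat_lit 0, nat_lit
 0, nat_lit 0, nat_lit 0, nat_lit 0])], [(.ofNat (nat_lit 45000000), [nat_lit 6]), (.ofNat (nat_lit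
 150697500), [nat_lit 0, nat_lit 5]), (.ofNat (nat_lit 264453524), [nat_lit 1, nat_lit 4]), (.ofNat
 (nat_lit 183344512), [nat_lit 2, nat_lit 3]), (.ofNat (nat_lit 1264845041), [nat_lit 0, nat_lit 1,
 nat_lit 3]), (.negSucc (nat_lit 249509127), [nat_lit 0, nat_lit 0, nat_lit 4]), (.ofNat (nat_lit
 851732131), [nat_lit 1, nat_lit 1, nat_lit 2]), (.ofNat (nat_lit 943499324), [nat_lit 0, nat_lit
 2, nat_lit 2]), (.ofNat (nat_lit 2943612692), [nat_lit 0, nat_lit 1, nat_lit 1, nat_lit 1]),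
 (.negSucc (nat_lit 266881684), [nat_lit 0, nat_lit 0, nat_lit 0, nat_lit 3]), (.ofNat (nat_lit
 5213349953), [nat_lit 0, nat_lit 0, nat_lit 1, nat_lit 2]), (.ofNat (nat_lit 3131550924), [nat_lit
 0, nat_lit 0, nat_lit 0, nat_lit 1, nat_lit 1]), (.ofNat (nat_lit 2424395180), [nat_lit 0, nat_lit
 0, nat_lit 0, nat_lit 0, nat_lit 2]), (.negSucc (nat_lit 885663407), [nat_lit 0, nat_lit 0,
 nat_lit 0, nat_lit 0, nat_lit 0, nat_lit 1]), (.negSucc (nat_lit 45495999), [nat_lit 0, nat_lit 0,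
 nat_lit 0, nat_lit 0, nat_lit 0, nat_lit 0, nat_lit 0])]], [[(.negSucc (nat_lit 9374999999),
 [nat_lit 6]), (.negSucc (nat_lit 20432812499), [nat_lit 0, nat_lit 5]), (.negSucc (nat_lit
 121056577499), [nat_lit 1, nat_lit 4]), (.ofNat (nat_lit 42321345040), [nat_lit 2, nat_lit 3]),
 (.negSucc (nat_lit 762744556874), [nat_lit 0, nat_lit 1, nat_lit 3]), (.ofNat (nat_lit
 131208517500), [nat_lit 0, nat_lit 0, nat_lit 4]), (.negSucc (nat_lit 352287374964), [nat_lit 1,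
 nat_lit 1, nat_lit 2]), (.ofNat (nat_lit 735637956080), [nat_lit 0, nat_lit 2, nat_lit 2]),
 (.negSucc (nat_lit 2181724573124), [nat_lit 0, nat_lit 1, nat_lit 1, nat_lit 1]), (.ofNat (nat_lit
 248012277185), [nat_lit 0, nat_lit 0, nat_lit 0, nat_lit 3]), (.ofNat (nat_lit 1853836224490),
 [nat_lit 0, nat_lit 0, nat_lit 1, nat_lit 2]), (.negSucc (nat_lit 6961663061134), [nat_lit 0,
 nat_lit 0, nat_lit 0, nat_lit 1, nat_lit 1]), (.ofNat (nat_lit 10117224636495), [nat_lit 0,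
 nat_lit 0, nat_lit 0, nat_lit 0, nat_lit 2]), (.ofNat (nat_lit 2839529355110), [nat_lit 0, nat_lit
 0, nat_lit 0, nat_lit 0, nat_lit 0, nat_lit 1]), (.negSucc (nat_lit 1092076054999), [nat_lit 0,
 nat_lit 0, nat_lit 0, nat_lit 0, nat_lit 0, nat_lit 0, nat_lit 0])]]]
  d := [nat_lit 1, nat_lit 2508, nat_lit 16592128, nat_lit 68757249024]
  M := [nat_lit 1, nat_lit 209, nat_lit 7740524, nat_lit 614353779094]
  E := [[nat_lit 1], [nat_lit 8750, nat_lit 70], [nat_lit 18506250000, nat_lit 271490625, nat_lit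
 329175], [nat_lit 85452901611328125, nat_lit 1736125986328125, nat_lit 3909981796875, nat_lit
 5295877125]]
  B := [nat_lit
 193921503331057356266593115643647989342490095515182356812059879302978515625000000000000000,
 nat_lit 1906729168960871142653634083153928534483793741002678871154785156250000000000000000,
 nat_lit 97234140213686721009224234488795341613143682479858398437500000000000000000]
  R := [[(nat_lit 11, .negSucc (nat_lit 127999)), (nat_lit 14, .negSucc (nat_lit 899487)), (nat_lit 15,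
 .negSucc (nat_lit 475999)), (nat_lit 18, .negSucc (nat_lit 3015551)), (nat_lit 20, .negSucc
 (nat_lit 994175)), (nat_lit 24, .negSucc (nat_lit 6422527)), (nat_lit 32, .ofNat (nat_lit
 24064000))], [(nat_lit 13, .ofNat (nat_lit 480000000)), (nat_lit 21, .ofNat (nat_lit 3725024384)),
 (nat_lit 22, .ofNat (nat_lit 2024928000)), (nat_lit 25, .ofNat (nat_lit 714000000)), (nat_lit 27,
 .ofNat (nat_lit 3993646336)), (nat_lit 28, .negSucc (nat_lit 3485914047)), (nat_lit 30, .ofNat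
 (nat_lit 30548978368)), (nat_lit 36, .ofNat (nat_lit 96192429312)), (nat_lit 40, .negSucc (nat_lit
 6855447295)), (nat_lit 48, .ofNat (nat_lit 74152922112)), (nat_lit 64, .ofNat (nat_lit
 2911744000))], [(nat_lit 17, .negSucc (nat_lit 1199999999999)), (nat_lit 26, .negSucc (nat_lit
 2615399999999)), (nat_lit 33, .negSucc (nat_lit 15495241919999)), (nat_lit 35, .ofNat (nat_lit
 5417132165120)), (nat_lit 42, .negSucc (nat_lit 97631303279999)), (nat_lit 44, .ofNat (nat_lit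
 16794690240000)), (nat_lit 45, .negSucc (nat_lit 45092783995519)), (nat_lit 50, .ofNat (nat_lit
 94161658378240)), (nat_lit 54, .negSucc (nat_lit 279260745359999)), (nat_lit 56, .ofNat (nat_lit
 31745571479680)), (nat_lit 60, .ofNat (nat_lit 237291036734720)), (nat_lit 72, .negSucc (nat_lit
 891092871825279)), (nat_lit 80, .ofNat (nat_lit 1295004753471360)), (nat_lit 96, .ofNat (nat_lit
 363459757454080)), (nat_lit 128, .negSucc (nat_lit 139785735039999))]]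

theorem h_ok4 : okH 7 129 125 840 1000000000000000000 2000 ES GS H4 = true := by decide +kernel

end Pool.Agent.H5.HT.D7
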