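import Pool.Agent.H5.HT.D7.D

/-! # Certificate data (7 jets, exponent 129/125) -/

set_option autoImplicit false

namespace Pool.Agent.H5.HT.D7

open Pool.Agent.H58.BJ
open Pool.Agent.H5.HT

/-- the multiplier of weight 6 -/
noncomputable def H6 : HD where
  m := nat_lit 6
  J := nat_lit 1
  W := nat_lit 297938841190814737005826889704775105064374839655339729526486285902265080949291586875915527343
  A := nat_lit 292486264008279747115322853265299478784718309875481738733090460300445556640625000000000000000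
  Y := [(.ofNat (nat_lit 23), [nat_lit 5]), (.negSucc (nat_lit 334), [nat_lit 1, nat_lit 3]), (.ofNat
 (nat_lit 24), [nat_lit 0, nat_lit 4]), (.ofNat (nat_lit 252), [nat_lit 2, nat_lit 2]), (.ofNat
 (nat_lit 49), [nat_lit 1, nat_lit 1, nat_lit 1]), (.negSucc (nat_lit 36), [nat_lit 0, nat_lit 0,
 nat_lit 3]), (.negSucc (nat_lit 116), [nat_lit 0, nat_lit 1, nat_lit 2]), (.ofNat (nat_lit 671),
 [nat_lit 0, nat_lit 0, nat_lit 1, nat_lit 1]), (.negSucc (nat_lit 872), [nat_lit 0, nat_lit 0,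
 nat_lit 0, nat_lit 2]), (.ofNat (nat_lit 749), [nat_lit 0, nat_lit 0, nat_lit 0, nat_lit 0,
 nat_lit 1]), (.ofNat (nat_lit 1000), [nat_lit 0, nat_lit 0, nat_lit 0, nat_lit 0, nat_lit 0,
 nat_lit 0])]
  YP := [(nat_lit 13, .ofNat (nat_lit 1472)), (nat_lit 21, .negSucc (nat_lit 21439)), (nat_lit 22, .ofNat
 (nat_lit 1536)), (nat_lit 25, .ofNat (nat_lit 16128)), (nat_lit 27, .ofNat (nat_lit 3136)),
 (nat_lit 28, .negSucc (nat_lit 2367)), (nat_lit 30, .negSucc (nat_lit 7487)), (nat_lit 36, .ofNat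
 (nat_lit 42944)), (nat_lit 40, .negSucc (nat_lit 55871)), (nat_lit 48, .ofNat (nat_lit 47936)),
 (nat_lit 64, .ofNat (nat_lit 64000))]
  P := [[[(.ofNat (nat_lit 23), [nat_lit 5]), (.negSucc (nat_lit 334), [nat_lit 1, nat_lit 3]), (.ofNat
 (nat_lit 24), [nat_lit 0, nat_lit 4]), (.ofNat (nat_lit 252), [nat_lit 2, nat_lit 2]), (.ofNat
 (nat_lit 49), [nat_lit 1, nat_lit 1, nat_lit 1]), (.negSucc (nat_lit 36), [nat_lit 0, nat_lit 0,
 nat_lit 3]), (.negSucc (nat_lit 116), [nat_lit 0, nat_lit 1, nat_lit 2]), (.ofNat (nat_lit 671),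
 [nat_lit 0, nat_lit 0, nat_lit 1, nat_lit 1]), (.negSucc (nat_lit 872), [nat_lit 0, nat_lit 0,
 nat_lit 0, nat_lit 2]), (.ofNat (nat_lit 749), [nat_lit 0, nat_lit 0, nat_lit 0, nat_lit 0,
 nat_lit 1]), (.ofNat (nat_lit 1000), [nat_lit 0, nat_lit 0, nat_lit 0, nat_lit 0, nat_lit 0,
 nat_lit 0])], [(.ofNat (nat_lit 138), [nat_lit 6]), (.ofNat (nat_lit 97), [nat_lit 0, nat_lit 5]),
 (.negSucc (nat_lit 1315), [nat_lit 1, nat_lit 4]), (.ofNat (nat_lit 842), [nat_lit 2, nat_lit 3]),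
 (.negSucc (nat_lit 89), [nat_lit 0, nat_lit 1, nat_lit 3]), (.negSucc (nat_lit 171), [nat_lit 0,
 nat_lit 0, nat_lit 4]), (.ofNat (nat_lit 177), [nat_lit 1, nat_lit 1, nat_lit 2]), (.negSucc
 (nat_lit 485), [nat_lit 0, nat_lit 2, nat_lit 2]), (.ofNat (nat_lit 1293), [nat_lit 0, nat_lit 1,
 nat_lit 1, nat_lit 1]), (.negSucc (nat_lit 2581), [nat_lit 0, nat_lit 0, nat_lit 0, nat_lit 3]),
 (.ofNat (nat_lit 182), [nat_lit 0, nat_lit 0, nat_lit 1, nat_lit 2]), (.ofNat (nat_lit 2325),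
 [nat_lit 0, nat_lit 0, nat_lit 0, nat_lit 1, nat_lit 1]), (.ofNat (nat_lit 2371), [nat_lit 0,
 nat_lit 0, nat_lit 0, nat_lit 0, nat_lit 2]), (.ofNat (nat_lit 5251), [nat_lit 0, nat_lit 0,
 nat_lit 0, nat_lit 0, nat_lit 0, nat_lit 1]), (.negSucc (nat_lit 999), [nat_lit 0, nat_lit 0,
 nat_lit 0, nat_lit 0, nat_lit 0, nat_lit 0, nat_lit 0])]], [[(.negSucc (nat_lit 17249), [nat_lit
 6]), (.ofNat (nat_lit 8046), [nat_lit 0, nat_lit 5]), (.ofNat (nat_lit 164500), [nat_lit 1,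
 nat_lit 4]), (.negSucc (nat_lit 105249), [nat_lit 2, nat_lit 3]), (.negSucc (nat_lit 282544),
 [nat_lit 0, nat_lit 1, nat_lit 3]), (.ofNat (nat_lit 42548), [nat_lit 0, nat_lit 0, nat_lit 4]),
 (.negSucc (nat_lit 22124), [nat_lit 1, nat_lit 1, nat_lit 2]), (.ofNat (nat_lit 281754), [nat_lit
 0, nat_lit 2, nat_lit 2]), (.negSucc (nat_lit 118651), [nat_lit 0, nat_lit 1, nat_lit 1, nat_lit
 1]), (.ofNat (nat_lit 290301), [nat_lit 0, nat_lit 0, nat_lit 0, nat_lit 3]), (.negSucc (nat_lit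
 125358), [nat_lit 0, nat_lit 0, nat_lit 1, nat_lit 2]), (.ofNat (nat_lit 297842), [nat_lit 0,
 nat_lit 0, nat_lit 0, nat_lit 1, nat_lit 1]), (.negSucc (nat_lit 1061995), [nat_lit 0, nat_lit 0,
 nat_lit 0, nat_lit 0, nat_lit 2]), (.ofNat (nat_lit 498), [nat_lit 0, nat_lit 0, nat_lit 0,
 nat_lit 0, nat_lit 0, nat_lit 1]), (.ofNat (nat_lit 1002000), [nat_lit 0, nat_lit 0, nat_lit 0,
 nat_lit 0, nat_lit 0, nat_lit 0, nat_lit 0])]]]
  d := [nat_lit 1, nat_lit 3508]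
  M := [nat_lit 1, nat_lit 877]
  E := [[nat_lit 1], [nat_lit 26250, nat_lit 210]]
  B := [nat_lit 25493840866865602829407643957680497397801339864998772740364074707031250000000000000000]
  R := [[(nat_lit 17, .negSucc (nat_lit 2207999)), (nat_lit 26, .ofNat (nat_lit 1029888)), (nat_lit 33,
 .ofNat (nat_lit 21056000)), (nat_lit 35, .negSucc (nat_lit 13471999)), (nat_lit 42, .negSucc
 (nat_lit 36165759)), (nat_lit 44, .ofNat (nat_lit 5446144)), (nat_lit 45, .negSucc (nat_lit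
 2831999)), (nat_lit 50, .ofNat (nat_lit 36064512)), (nat_lit 54, .negSucc (nat_lit 15187455)),
 (nat_lit 56, .ofNat (nat_lit 37158528)), (nat_lit 60, .negSucc (nat_lit 16045951)), (nat_lit 72,
 .ofNat (nat_lit 38123776)), (nat_lit 80, .negSucc (nat_lit 135935487)), (nat_lit 96, .ofNat
 (nat_lit 63744)), (nat_lit 128, .ofNat (nat_lit 128256000))]]

theorem h_ok6 : okH 7 129 125 840 1000000000000000000 2000 ES GS H6 = true := by decide +kernel

end Pool.Agent.H5.HT.D7
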