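import Pool.Agent.H5.HT.D7.G1
import Pool.Agent.H5.HT.D7.G2
import Pool.Agent.H5.HT.D7.G3
import Pool.Agent.H5.HT.D7.G4
import Pool.Agent.H5.HT.D7.G5
import Pool.Agent.H5.HT.D7.G6
import Pool.Agent.H5.HT.D7.H0
import Pool.Agent.H5.HT.D7.H2
import Pool.Agent.H5.HT.D7.H4
import Pool.Agent.H5.HT.D7.H6

/-! # Certificate data (7 jets, exponent 129/125) -/

set_option autoImplicit false

namespace Pool.Agent.H5.HT.D7

open Pool.Agent.H58.BJ
open Pool.Agent.H5.HT

/-- all commands -/
noncomputable def CC : List Cmd := (((((C1 ++ C2) ++ C3) ++ C4) ++ C5) ++ C6)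

theorem cc_ok : okL 7 ES CC = true := (okL_append (okL_append (okL_append (okL_append (okL_append c_ok1 c_ok2) c_ok3) c_ok4) c_ok5) c_ok6)

/-- all multipliers -/
noncomputable def HH : List HD := [H0, H2, H4, H6]

/-- no area inequalities -/
noncomputable def noAs (l : List Cmd) : Bool :=
  List.rec (motive := fun _ => Bool) true (fun c _ ih => Bool.and (noA c) ih) l

theorem noAs_mem {l : List Cmd} (h : noAs l = true) : ∀ c ∈ l, noA c = true := by
  induction l with
  | nil => intro c hc; simp at hc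
  | cons a l ih =>
    have h' : (noA a && noAs l) = true := h
    rw [Bool.and_eq_true] at h'
    intro c hc
    rcases List.mem_cons.1 hc with rfl | hc
    · exact h'.1
    · exact ih h'.2 c hc

theorem noa_ok : noAs CC = true := by decide +kernel

theorem fin_ok : Bool.and (good (hAll HH (run ((129 : ℕ) : ℤ) ((125 : ℕ) : ℤ) XT [] CC U0)) 16)
    (zerT (hAll HH (run ((129 : ℕ) : ℤ) ((125 : ℕ) : ℤ) XT [] CC U0))) = true := by decide +kernel

theorem hh_ok : okHs 7 129 125 840 1000000000000000000 2000 ES GS HH := by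
  intro h hh
  simp only [HH, List.mem_cons, List.not_mem_nil, or_false] at hh
  rcases hh with rfl | rfl | rfl | rfl
  · exact h_ok0
  · exact h_ok2
  · exact h_ok4
  · exact h_ok6

/-- **The certificate.** -/
theorem cert : ∃ (μ : Mu) (κ : ℝ), 0 < κ ∧ ∀ c r η : ℕ → ℂ, c 0 = 1 → Slack c → RelR c r →
    RelY 1 r η → (G (((129 : ℕ) : ℝ) / ((125 : ℕ) : ℝ)) μ η).re ≤ -κ :=
  cert_h (N := 7) (by norm_num) (by norm_num) (by norm_num) (by norm_num) (by norm_num)
    (by norm_num) es_ok g_ok hh_ok tab_ok cc_ok (noAs_mem noa_ok) fin_ok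

end Pool.Agent.H5.HT.D7
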